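import Pool.Agent.Work.MP_3e1eec_co.TriB

/-! The six base graphs, checked from explicit lists of paths. -/

open SimpleGraph

namespace PS

/-- Graph given by neighbour lists. -/
def Con2_gr (n : ℕ) (N : List (List ℕ)) : SimpleGraph (Fin n) where
  Adj u v := v.val ∈ N.getD u.val [] ∧ u.val ∈ N.getD v.val [] ∧ u.val ≠ v.val
  symm := ⟨fun _ _ h => ⟨h.2.1, h.1, h.2.2.symm⟩⟩
  loopless := ⟨fun _ h => h.2.2 rfl⟩

instance (n : ℕ) (N : List (List ℕ)) : DecidableRel (Con2_gr n N).Adj := fun u v =>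
  inferInstanceAs (Decidable (v.val ∈ N.getD u.val [] ∧ u.val ∈ N.getD v.val [] ∧ u.val ≠ v.val))

instance Con2_decP {n : ℕ} (G : SimpleGraph (Fin n)) [DecidableRel G.Adj] (l : List (Fin n)) :
    Decidable (P G l) := inferInstanceAs (Decidable (l.Nodup ∧ l.IsChain G.Adj))

instance Con2_decL {n : ℕ} (G : SimpleGraph (Fin n)) [DecidableRel G.Adj] (v : Fin n) :
    Decidable (Leaf G v) := inferInstanceAs (Decidable (∃ p, G.Adj v p ∧ ∀ u, G.Adj v u → u = p))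

/-- All paths with `j + 1` vertices. -/
def Con2_ext {n : ℕ} (G : SimpleGraph (Fin n)) [DecidableRel G.Adj] : ℕ → List (Fin n × List (Fin n))
  | 0 => (List.finRange n).map fun v => (v, [])
  | j + 1 => (Con2_ext G j).flatMap fun q =>
      ((List.finRange n).filter fun v => G.Adj v q.1 ∧ v ∉ q.2).map fun v => (v, q.1 :: q.2)

theorem Con2_mem {n : ℕ} (G : SimpleGraph (Fin n)) [DecidableRel G.Adj] (x : Fin n)
    (A : List (Fin n)) (h : P G (x :: A)) : (x, A) ∈ Con2_ext G A.length := by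
  induction A generalizing x with
  | nil => exact List.mem_map.2 ⟨x, List.mem_finRange x, rfl⟩
  | cons y l ih =>
    refine List.mem_flatMap.2 ⟨(y, l), ih y h.tail, List.mem_map.2 ⟨x, ?_, rfl⟩⟩
    refine List.mem_filter.2 ⟨List.mem_finRange x, decide_eq_true ⟨h.adj, fun hx => ?_⟩⟩
    exact h.notMem (List.mem_cons_of_mem _ hx)

theorem Con2_pf {n j : ℕ} (G : SimpleGraph (Fin n)) [DecidableRel G.Adj]
    (h : Con2_ext G j = []) : PF (j + 1) G := by
  intro l hl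
  by_contra hc
  have h1 : P G (l.take (j + 1)) := hl.pre (List.take_prefix _ _)
  have h2 : (l.take (j + 1)).length = j + 1 := by rw [List.length_take]; omega
  generalize l.take (j + 1) = m at h1 h2
  cases m with
  | nil => simp at h2
  | cons x A =>
    have := Con2_mem G x A h1
    rw [show A.length = j by simpa using h2, h] at this
    cases this

theorem Con2_con {n : ℕ} (G : SimpleGraph (Fin (n + 1)))
    (h : ∀ v : Fin (n + 1), v.val ≠ 0 → ∃ u : Fin (n + 1), u.val < v.val ∧ G.Adj v u) (u v : Fin (n + 1)) :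
    G.Reachable u v := by
  have key : ∀ m, ∀ v : Fin (n + 1), v.val = m → G.Reachable v 0 := by
    intro m
    induction m using Nat.strong_induction_on with
    | _ m ih =>
      intro v hv
      by_cases h0 : v.val = 0
      · rw [show v = 0 from Fin.ext h0]
      · obtain ⟨u, hu, ha⟩ := h v h0
        exact ha.reachable.trans (ih _ (hv ▸ hu) u rfl)
  exact (key _ u rfl).trans (key _ v rfl).symm

theorem Con2_edges {n : ℕ} (G : SimpleGraph (Fin n)) [DecidableRel G.Adj] :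
    2 * G.edgeSet.ncard = ∑ v, (Finset.univ.filter (G.Adj v)).card := by
  rw [Set.ncard_eq_toFinset_card', ← SimpleGraph.edgeFinset, ← sum_degrees_eq_twice_card_edges]
  refine Finset.sum_congr rfl fun v _ => ?_
  rw [← card_neighborFinset_eq_degree, neighborFinset_eq_filter]

theorem Con2_good {n j e l : ℕ} (N : List (List ℕ)) (L : List (List (Fin (n + 1))))
    (C : List (List (List (Fin (n + 1)) × List (Fin (n + 1)))))
    (h1 : Con2_ext (Con2_gr (n + 1) N) j = [])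
    (h2 : ∀ v : Fin (n + 1), v.val ≠ 0 → ∃ u : Fin (n + 1), u.val < v.val ∧ (Con2_gr (n + 1) N).Adj v u)
    (h3 : ∀ v, Leaf (Con2_gr (n + 1) N) v → P (Con2_gr (n + 1) N) (v :: L.getD v.val []) ∧
      (L.getD v.val []).length + 2 = j + 1 ∧ Leaf (Con2_gr (n + 1) N) ((L.getD v.val []).getLastD v))
    (h4 : ∀ x y : Fin (n + 1), x.val < y.val → ¬ (Con2_gr (n + 1) N).Adj x y →
      ∀ q ∈ [(C.getD x.val []).getD y.val ([], [])],
      P (Con2_gr (n + 1) N) (x :: q.1) ∧ P (Con2_gr (n + 1) N) (y :: q.2) ∧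
        (∀ v ∈ x :: q.1, v ∉ y :: q.2) ∧ j + 1 ≤ q.1.length + q.2.length + 2 ∧
        Leaf (Con2_gr (n + 1) N) (q.1.getLastD x) ∧ Leaf (Con2_gr (n + 1) N) (q.2.getLastD y))
    (h5 : ∑ v, (Finset.univ.filter ((Con2_gr (n + 1) N).Adj v)).card = 2 * e)
    (h6 : (Finset.univ.filter (Leaf (Con2_gr (n + 1) N))).card = l) : Good (j + 1) (n + 1) e l := by
  refine ⟨Fin (n + 1), inferInstance, Con2_gr (n + 1) N,
    ⟨Con2_pf _ h1, Con2_con _ h2, fun v hv => ⟨_, h3 v hv⟩, fun x y hne hn => ?_⟩, by simp, ?_, ?_⟩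
  · rcases lt_or_gt_of_ne (fun h => hne (Fin.ext h)) with h | h
    · obtain ⟨a1, a2, a3, a4⟩ := h4 x y h hn _ List.mem_cons_self
      exact ⟨_, _, a1, a2, fun v hv => a3 v hv, a4⟩
    · obtain ⟨a1, a2, a3, a4, a5, a6⟩ := h4 y x h (fun h => hn h.symm) _ List.mem_cons_self
      exact ⟨_, _, a2, a1, fun v hv hv' => a3 v hv' hv, by omega, a6, a5⟩
  · have := Con2_edges (Con2_gr (n + 1) N)
    omega
  · rw [← h6, ← Set.ncard_coe_finset]
    congr 1
    ext v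
    simp

/-- No path from `x` with `j` more vertices outside the bit set `m`. -/
private def Con2_ok (N : List (List ℕ)) : ℕ → ℕ → ℕ → Bool
  | 0, _, _ => false
  | j + 1, x, m => (N.getD x []).all fun v => m.testBit v || Con2_ok N j v (m ||| 2 ^ v)

private theorem Con2_ok_false {n : ℕ} (N : List (List ℕ)) (A : List (Fin n)) :
    ∀ (x : Fin n) (m : ℕ), P (Con2_gr n N) (x :: A) → (∀ v ∈ A, m.testBit v.val = false) →
      Con2_ok N A.length x.val m = false := by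
  induction A with
  | nil => exact fun _ _ _ _ => rfl
  | cons y l ih =>
    intro x m h hm
    have h1 := ih y (m ||| 2 ^ y.val) h.tail fun v hv => by
      have h2 : y.val ≠ v.val := fun e => h.tail.notMem (Fin.ext e ▸ hv)
      rw [Nat.testBit_or, hm v (List.mem_cons_of_mem _ hv), Nat.testBit_two_pow_of_ne h2]
      rfl
    rw [List.length_cons, Con2_ok, List.all_eq_false]
    exact ⟨y.val, h.adj.1, by rw [hm y List.mem_cons_self, h1]; simp⟩

private theorem Con2_path {n : ℕ} (G : SimpleGraph (Fin n)) [DecidableRel G.Adj] (j : ℕ) :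
    ∀ q ∈ Con2_ext G j, P G (q.1 :: q.2) ∧ q.2.length = j := by
  induction j with
  | zero =>
    intro q hq
    obtain ⟨v, -, rfl⟩ := List.mem_map.1 hq
    exact ⟨⟨List.nodup_singleton v, List.isChain_singleton v⟩, rfl⟩
  | succ j ih =>
    intro q hq
    obtain ⟨r, hr, hq⟩ := List.mem_flatMap.1 hq
    obtain ⟨v, hv, rfl⟩ := List.mem_map.1 hq
    obtain ⟨h1, h2⟩ := of_decide_eq_true (List.mem_filter.1 hv).2
    obtain ⟨⟨h3, h4⟩, h5⟩ := ih r hr
    refine ⟨⟨List.nodup_cons.2 ⟨fun h => ?_, h3⟩, List.isChain_cons_cons.2 ⟨h1, h4⟩⟩,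
      congrArg (· + 1) h5⟩
    exact (List.mem_cons.1 h).elim h1.ne h2

private theorem Con2_nil {n j : ℕ} {N : List (List ℕ)}
    (h : ((List.range n).all fun x => Con2_ok N j x (2 ^ x)) = true) :
    Con2_ext (Con2_gr n N) j = [] := by
  refine List.eq_nil_iff_forall_not_mem.2 fun q hq => ?_
  obtain ⟨h1, h2⟩ := Con2_path _ j q hq
  have h3 := Con2_ok_false N q.2 q.1 (2 ^ q.1.val) h1 fun v hv =>
    Nat.testBit_two_pow_of_ne fun e => h1.notMem (Fin.ext e ▸ hv)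
  have h4 := List.all_eq_true.1 h q.1.val (List.mem_range.2 q.1.isLt)
  rw [h2, h4] at h3
  cases h3

theorem good4 : Good 4 4 3 3 :=
  Con2_good (n := 3)
    [[1, 2, 3], [0], [0], [0]]
    [[], [0, 2], [0, 1], [0, 1]]
    [[([], []), ([], []), ([], []), ([], [])],
     [([], []), ([], []), ([], [0, 3]), ([], [0, 2])],
     [([], []), ([], []), ([], []), ([], [0, 1])],
     [([], []), ([], []), ([], []), ([], [])]]
    (Con2_nil (by decide +kernel)) (by decide +kernel) (by decide +kernel) (by decide +kernel)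
    (by decide +kernel) (by decide +kernel)

theorem good5 : Good 5 6 5 4 :=
  Con2_good (n := 5)
    [[1, 2, 3], [0], [0], [4, 5, 0], [3], [3]]
    [[], [0, 3, 4], [0, 3, 4], [], [3, 0, 1], [3, 0, 1]]
    [[([], []), ([], []), ([], []), ([], []), ([1], [3, 5]), ([1], [3, 4])],
     [([], []), ([], []), ([], [0, 3, 4]), ([0, 2], [4]), ([], [3, 0, 2]), ([], [3, 0, 2])],
     [([], []), ([], []), ([], []), ([0, 1], [4]), ([], [3, 0, 1]), ([], [3, 0, 1])],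
     [([], []), ([], []), ([], []), ([], []), ([], []), ([], [])],
     [([], []), ([], []), ([], []), ([], []), ([], []), ([], [3, 0, 1])],
     [([], []), ([], []), ([], []), ([], []), ([], []), ([], [])]]
    (Con2_nil (by decide +kernel)) (by decide +kernel) (by decide +kernel) (by decide +kernel)
    (by decide +kernel) (by decide +kernel)

theorem good6 : Good 6 6 6 3 :=
  Con2_good (n := 5)
    [[1, 2, 3], [0, 2, 4], [0, 1, 5], [0], [1], [2]]
    [[], [], [], [0, 1, 2, 5], [1, 0, 2, 5], [2, 0, 1, 4]]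
    [[([], []), ([], []), ([], []), ([], []), ([3], [1, 2, 5]), ([3], [2, 1, 4])],
     [([], []), ([], []), ([], []), ([4], [0, 2, 5]), ([], []), ([4], [2, 0, 3])],
     [([], []), ([], []), ([], []), ([5], [0, 1, 4]), ([5], [1, 0, 3]), ([], [])],
     [([], []), ([], []), ([], []), ([], []), ([], [1, 0, 2, 5]), ([], [2, 0, 1, 4])],
     [([], []), ([], []), ([], []), ([], []), ([], []), ([], [2, 1, 0, 3])],
     [([], []), ([], []), ([], []), ([], []), ([], []), ([], [])]]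
    (Con2_nil (by decide +kernel)) (by decide +kernel) (by decide +kernel) (by decide +kernel)
    (by decide +kernel) (by decide +kernel)

theorem good7 : Good 7 11 11 6 :=
  Con2_good (n := 10)
    [[1, 2, 3], [0, 2, 4], [0, 1, 5, 8], [0], [1], [6, 7, 2], [5], [5], [9, 10, 2], [8], [8]]
    [[], [], [], [0, 1, 2, 5, 6], [1, 0, 2, 5, 6], [], [5, 2, 0, 1, 4], [5, 2, 0, 1, 4], [], [8, 2, 0, 1, 4], [8, 2, 0, 1, 4]]
    [[([], []), ([], []), ([], []), ([], []), ([3], [1, 2, 5, 6]), ([1, 2, 8, 9], [6]),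
      ([1, 2, 8, 9], [5, 7]), ([1, 2, 8, 9], [5, 6]), ([1, 2, 5, 6], [9]),
      ([1, 2, 5, 6], [8, 10]), ([1, 2, 5, 6], [8, 9])],
     [([], []), ([], []), ([], []), ([4], [0, 2, 5, 6]), ([], []), ([0, 2, 8, 9], [6]),
      ([0, 2, 8, 9], [5, 7]), ([0, 2, 8, 9], [5, 6]), ([0, 2, 5, 6], [9]),
      ([0, 2, 5, 6], [8, 10]), ([0, 2, 5, 6], [8, 9])],
     [([], []), ([], []), ([], []), ([5, 6], [0, 1, 4]), ([5, 6], [1, 0, 3]), ([], []),
      ([0, 1, 4], [5, 7]), ([0, 1, 4], [5, 6]), ([], []), ([0, 1, 4], [8, 10]),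
      ([0, 1, 4], [8, 9])],
     [([], []), ([], []), ([], []), ([], []), ([], [1, 0, 2, 5, 6]), ([0, 1, 2, 8, 9], [6]),
      ([], [5, 2, 0, 1, 4]), ([], [5, 2, 0, 1, 4]), ([0, 1, 2, 5, 6], [9]),
      ([], [8, 2, 0, 1, 4]), ([], [8, 2, 0, 1, 4])],
     [([], []), ([], []), ([], []), ([], []), ([], []), ([1, 0, 2, 8, 9], [6]),
      ([], [5, 2, 1, 0, 3]), ([], [5, 2, 1, 0, 3]), ([1, 0, 2, 5, 6], [9]),
      ([], [8, 2, 1, 0, 3]), ([], [8, 2, 1, 0, 3])],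
     [([], []), ([], []), ([], []), ([], []), ([], []), ([], []), ([], []), ([], []),
      ([6], [2, 0, 1, 4]), ([6], [8, 2, 0, 1, 4]), ([6], [8, 2, 0, 1, 4])],
     [([], []), ([], []), ([], []), ([], []), ([], []), ([], []), ([], []),
      ([], [5, 2, 0, 1, 4]), ([5, 7], [2, 0, 1, 4]), ([], [8, 2, 0, 1, 4]), ([], [8, 2, 0, 1, 4])],
     [([], []), ([], []), ([], []), ([], []), ([], []), ([], []), ([], []), ([], []),
      ([5, 6], [2, 0, 1, 4]), ([], [8, 2, 0, 1, 4]), ([], [8, 2, 0, 1, 4])],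
     [([], []), ([], []), ([], []), ([], []), ([], []), ([], []), ([], []), ([], []), ([], []),
      ([], []), ([], [])],
     [([], []), ([], []), ([], []), ([], []), ([], []), ([], []), ([], []), ([], []), ([], []),
      ([], []), ([], [8, 2, 0, 1, 4])],
     [([], []), ([], []), ([], []), ([], []), ([], []), ([], []), ([], []), ([], []), ([], []),
      ([], []), ([], [])]]
    (Con2_nil (by decide +kernel)) (by decide +kernel) (by decide +kernel) (by decide +kernel)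
    (by decide +kernel) (by decide +kernel)

theorem good9 : Good 9 13 14 6 :=
  Con2_good (n := 12)
    [[1, 2, 3, 4], [0, 2, 5], [0, 1, 6], [0, 4, 7], [0, 3, 10], [1], [2], [8, 9, 3], [7], [7], [11, 12, 4], [10], [10]]
    [[], [], [], [], [], [1, 2, 0, 3, 4, 10, 11], [2, 1, 0, 3, 4, 10, 11], [], [7, 3, 4, 0, 1, 2, 6], [7, 3, 4, 0, 1, 2, 6], [], [10, 4, 3, 0, 1, 2, 6], [10, 4, 3, 0, 1, 2, 6]]
    [[([], []), ([], []), ([], []), ([], []), ([], []), ([3, 4, 10, 11], [1, 2, 6]),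
      ([3, 4, 10, 11], [2, 1, 5]), ([1, 2, 6], [3, 4, 10, 11]), ([1, 2, 6], [7, 3, 4, 10, 11]),
      ([1, 2, 6], [7, 3, 4, 10, 11]), ([1, 2, 6], [4, 3, 7, 8]), ([1, 2, 6], [10, 4, 3, 7, 8]),
      ([1, 2, 6], [10, 4, 3, 7, 8])],
     [([], []), ([], []), ([], []), ([2, 0, 4, 10, 11], [7, 8]), ([2, 0, 3, 7, 8], [10, 11]),
      ([], []), ([5], [2, 0, 3, 4, 10, 11]), ([0, 2, 6], [3, 4, 10, 11]),
      ([0, 2, 6], [7, 3, 4, 10, 11]), ([0, 2, 6], [7, 3, 4, 10, 11]), ([0, 2, 6], [4, 3, 7, 8]),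
      ([0, 2, 6], [10, 4, 3, 7, 8]), ([0, 2, 6], [10, 4, 3, 7, 8])],
     [([], []), ([], []), ([], []), ([1, 0, 4, 10, 11], [7, 8]), ([1, 0, 3, 7, 8], [10, 11]),
      ([6], [1, 0, 3, 4, 10, 11]), ([], []), ([0, 1, 5], [3, 4, 10, 11]),
      ([0, 1, 5], [7, 3, 4, 10, 11]), ([0, 1, 5], [7, 3, 4, 10, 11]), ([0, 1, 5], [4, 3, 7, 8]),
      ([0, 1, 5], [10, 4, 3, 7, 8]), ([0, 1, 5], [10, 4, 3, 7, 8])],
     [([], []), ([], []), ([], []), ([], []), ([], []), ([0, 4, 10, 11], [1, 2, 6]),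
      ([0, 4, 10, 11], [2, 1, 5]), ([], []), ([4, 0, 1, 2, 6], [7, 9]),
      ([4, 0, 1, 2, 6], [7, 8]), ([7, 8], [4, 0, 1, 2, 6]), ([4, 0, 1, 2, 6], [10, 12]),
      ([4, 0, 1, 2, 6], [10, 11])],
     [([], []), ([], []), ([], []), ([], []), ([], []), ([0, 3, 7, 8], [1, 2, 6]),
      ([0, 3, 7, 8], [2, 1, 5]), ([10, 11], [3, 0, 1, 2, 6]), ([3, 0, 1, 2, 6], [7, 9]),
      ([3, 0, 1, 2, 6], [7, 8]), ([], []), ([3, 0, 1, 2, 6], [10, 12]),
      ([3, 0, 1, 2, 6], [10, 11])],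
     [([], []), ([], []), ([], []), ([], []), ([], []), ([], []), ([], [2, 1, 0, 3, 4, 10, 11]),
      ([1, 0, 2, 6], [3, 4, 10, 11]), ([], [7, 3, 4, 0, 1, 2, 6]), ([], [7, 3, 4, 0, 1, 2, 6]),
      ([1, 0, 2, 6], [4, 3, 7, 8]), ([], [10, 4, 3, 0, 1, 2, 6]), ([], [10, 4, 3, 0, 1, 2, 6])],
     [([], []), ([], []), ([], []), ([], []), ([], []), ([], []), ([], []),
      ([2, 0, 1, 5], [3, 4, 10, 11]), ([], [7, 3, 4, 0, 2, 1, 5]), ([], [7, 3, 4, 0, 2, 1, 5]),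
      ([2, 0, 1, 5], [4, 3, 7, 8]), ([], [10, 4, 3, 0, 2, 1, 5]), ([], [10, 4, 3, 0, 2, 1, 5])],
     [([], []), ([], []), ([], []), ([], []), ([], []), ([], []), ([], []), ([], []), ([], []),
      ([], []), ([8], [4, 3, 0, 1, 2, 6]), ([8], [10, 4, 0, 1, 2, 6]), ([8], [10, 4, 0, 1, 2, 6])],
     [([], []), ([], []), ([], []), ([], []), ([], []), ([], []), ([], []), ([], []), ([], []),
      ([], [7, 3, 4, 0, 1, 2, 6]), ([7, 9], [4, 0, 1, 2, 6]), ([], [10, 4, 3, 0, 1, 2, 6]),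
      ([], [10, 4, 3, 0, 1, 2, 6])],
     [([], []), ([], []), ([], []), ([], []), ([], []), ([], []), ([], []), ([], []), ([], []),
      ([], []), ([7, 8], [4, 0, 1, 2, 6]), ([], [10, 4, 3, 0, 1, 2, 6]),
      ([], [10, 4, 3, 0, 1, 2, 6])],
     [([], []), ([], []), ([], []), ([], []), ([], []), ([], []), ([], []), ([], []), ([], []),
      ([], []), ([], []), ([], []), ([], [])],
     [([], []), ([], []), ([], []), ([], []), ([], []), ([], []), ([], []), ([], []), ([], []),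
      ([], []), ([], []), ([], []), ([], [10, 4, 3, 0, 1, 2, 6])],
     [([], []), ([], []), ([], []), ([], []), ([], []), ([], []), ([], []), ([], []), ([], []),
      ([], []), ([], []), ([], []), ([], [])]]
    (Con2_nil (by decide +kernel)) (by decide +kernel) (by decide +kernel) (by decide +kernel)
    (by decide +kernel) (by decide +kernel)

theorem good10 : Good 10 21 22 10 :=
  Con2_good (n := 20)
    [[1, 2, 3, 4], [0, 2, 5], [0, 1, 6], [0, 4, 7], [0, 3, 14], [1], [2], [8, 11, 3], [9, 10, 7], [8], [8], [12, 13, 7], [11], [11], [15, 18, 4], [16, 17, 14], [15], [15], [19, 20, 14], [18], [18]]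
    [[], [], [], [], [], [1, 2, 0, 3, 4, 14, 15, 16], [2, 1, 0, 3, 4, 14, 15, 16], [], [], [8, 7, 3, 0, 4, 14, 15, 16], [8, 7, 3, 0, 4, 14, 15, 16], [], [11, 7, 3, 0, 4, 14, 15, 16], [11, 7, 3, 0, 4, 14, 15, 16], [], [], [15, 14, 4, 0, 3, 7, 8, 9], [15, 14, 4, 0, 3, 7, 8, 9], [], [18, 14, 4, 0, 3, 7, 8, 9], [18, 14, 4, 0, 3, 7, 8, 9]]
    [[([], []), ([], []), ([], []), ([], []), ([], []), ([3, 4, 14, 15, 16], [1, 2, 6]),
      ([3, 4, 14, 15, 16], [2, 1, 5]), ([1, 2, 6], [3, 4, 14, 15, 16]),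
      ([1, 2, 6], [7, 3, 4, 14, 15, 16]), ([1, 2, 6], [8, 7, 3, 4, 14, 15, 16]),
      ([1, 2, 6], [8, 7, 3, 4, 14, 15, 16]), ([1, 2, 6], [7, 3, 4, 14, 15, 16]),
      ([1, 2, 6], [11, 7, 3, 4, 14, 15, 16]), ([1, 2, 6], [11, 7, 3, 4, 14, 15, 16]),
      ([1, 2, 6], [4, 3, 7, 8, 9]), ([1, 2, 6], [14, 4, 3, 7, 8, 9]),
      ([1, 2, 6], [15, 14, 4, 3, 7, 8, 9]), ([1, 2, 6], [15, 14, 4, 3, 7, 8, 9]),
      ([1, 2, 6], [14, 4, 3, 7, 8, 9]), ([1, 2, 6], [18, 14, 4, 3, 7, 8, 9]),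
      ([1, 2, 6], [18, 14, 4, 3, 7, 8, 9])],
     [([], []), ([], []), ([], []), ([0, 4, 14, 15, 16], [7, 8, 9]),
      ([0, 3, 7, 8, 9], [14, 15, 16]), ([], []), ([5], [2, 0, 3, 4, 14, 15, 16]),
      ([0, 2, 6], [3, 4, 14, 15, 16]), ([0, 2, 6], [7, 3, 4, 14, 15, 16]),
      ([0, 2, 6], [8, 7, 3, 4, 14, 15, 16]), ([0, 2, 6], [8, 7, 3, 4, 14, 15, 16]),
      ([0, 2, 6], [7, 3, 4, 14, 15, 16]), ([0, 2, 6], [11, 7, 3, 4, 14, 15, 16]),
      ([0, 2, 6], [11, 7, 3, 4, 14, 15, 16]), ([0, 2, 6], [4, 3, 7, 8, 9]),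
      ([0, 2, 6], [14, 4, 3, 7, 8, 9]), ([0, 2, 6], [15, 14, 4, 3, 7, 8, 9]),
      ([0, 2, 6], [15, 14, 4, 3, 7, 8, 9]), ([0, 2, 6], [14, 4, 3, 7, 8, 9]),
      ([0, 2, 6], [18, 14, 4, 3, 7, 8, 9]), ([0, 2, 6], [18, 14, 4, 3, 7, 8, 9])],
     [([], []), ([], []), ([], []), ([0, 4, 14, 15, 16], [7, 8, 9]),
      ([0, 3, 7, 8, 9], [14, 15, 16]), ([6], [1, 0, 3, 4, 14, 15, 16]), ([], []),
      ([0, 1, 5], [3, 4, 14, 15, 16]), ([0, 1, 5], [7, 3, 4, 14, 15, 16]),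
      ([0, 1, 5], [8, 7, 3, 4, 14, 15, 16]), ([0, 1, 5], [8, 7, 3, 4, 14, 15, 16]),
      ([0, 1, 5], [7, 3, 4, 14, 15, 16]), ([0, 1, 5], [11, 7, 3, 4, 14, 15, 16]),
      ([0, 1, 5], [11, 7, 3, 4, 14, 15, 16]), ([0, 1, 5], [4, 3, 7, 8, 9]),
      ([0, 1, 5], [14, 4, 3, 7, 8, 9]), ([0, 1, 5], [15, 14, 4, 3, 7, 8, 9]),
      ([0, 1, 5], [15, 14, 4, 3, 7, 8, 9]), ([0, 1, 5], [14, 4, 3, 7, 8, 9]),
      ([0, 1, 5], [18, 14, 4, 3, 7, 8, 9]), ([0, 1, 5], [18, 14, 4, 3, 7, 8, 9])],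
     [([], []), ([], []), ([], []), ([], []), ([], []), ([0, 4, 14, 15, 16], [1, 2, 6]),
      ([0, 4, 14, 15, 16], [2, 1, 5]), ([], []), ([0, 4, 14, 15, 16], [7, 11, 12]),
      ([0, 1, 2, 6], [8, 7, 11, 12]), ([0, 1, 2, 6], [8, 7, 11, 12]),
      ([0, 4, 14, 15, 16], [7, 8, 9]), ([0, 1, 2, 6], [11, 7, 8, 9]),
      ([0, 1, 2, 6], [11, 7, 8, 9]), ([7, 8, 9], [4, 0, 1, 2, 6]),
      ([4, 0, 1, 2, 6], [14, 18, 19]), ([0, 1, 2, 6], [15, 14, 18, 19]),
      ([0, 1, 2, 6], [15, 14, 18, 19]), ([4, 0, 1, 2, 6], [14, 15, 16]),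
      ([0, 1, 2, 6], [18, 14, 15, 16]), ([0, 1, 2, 6], [18, 14, 15, 16])],
     [([], []), ([], []), ([], []), ([], []), ([], []), ([0, 3, 7, 8, 9], [1, 2, 6]),
      ([0, 3, 7, 8, 9], [2, 1, 5]), ([14, 15, 16], [3, 0, 1, 2, 6]),
      ([3, 0, 1, 2, 6], [7, 11, 12]), ([0, 1, 2, 6], [8, 7, 11, 12]),
      ([0, 1, 2, 6], [8, 7, 11, 12]), ([3, 0, 1, 2, 6], [7, 8, 9]),
      ([0, 1, 2, 6], [11, 7, 8, 9]), ([0, 1, 2, 6], [11, 7, 8, 9]), ([], []),
      ([0, 3, 7, 8, 9], [14, 18, 19]), ([0, 1, 2, 6], [15, 14, 18, 19]),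
      ([0, 1, 2, 6], [15, 14, 18, 19]), ([0, 3, 7, 8, 9], [14, 15, 16]),
      ([0, 1, 2, 6], [18, 14, 15, 16]), ([0, 1, 2, 6], [18, 14, 15, 16])],
     [([], []), ([], []), ([], []), ([], []), ([], []), ([], []),
      ([], [2, 1, 0, 3, 4, 14, 15, 16]), ([1, 0, 2, 6], [3, 4, 14, 15, 16]),
      ([1, 0, 2, 6], [7, 3, 4, 14, 15, 16]), ([], [8, 7, 3, 0, 4, 14, 15, 16]),
      ([], [8, 7, 3, 0, 4, 14, 15, 16]), ([1, 0, 2, 6], [7, 3, 4, 14, 15, 16]),
      ([], [11, 7, 3, 0, 4, 14, 15, 16]), ([], [11, 7, 3, 0, 4, 14, 15, 16]),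
      ([1, 0, 2, 6], [4, 3, 7, 8, 9]), ([1, 0, 2, 6], [14, 4, 3, 7, 8, 9]),
      ([], [15, 14, 4, 0, 3, 7, 8, 9]), ([], [15, 14, 4, 0, 3, 7, 8, 9]),
      ([1, 0, 2, 6], [14, 4, 3, 7, 8, 9]), ([], [18, 14, 4, 0, 3, 7, 8, 9]),
      ([], [18, 14, 4, 0, 3, 7, 8, 9])],
     [([], []), ([], []), ([], []), ([], []), ([], []), ([], []), ([], []),
      ([2, 0, 1, 5], [3, 4, 14, 15, 16]), ([2, 0, 1, 5], [7, 3, 4, 14, 15, 16]),
      ([], [8, 7, 3, 0, 4, 14, 15, 16]), ([], [8, 7, 3, 0, 4, 14, 15, 16]),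
      ([2, 0, 1, 5], [7, 3, 4, 14, 15, 16]), ([], [11, 7, 3, 0, 4, 14, 15, 16]),
      ([], [11, 7, 3, 0, 4, 14, 15, 16]), ([2, 0, 1, 5], [4, 3, 7, 8, 9]),
      ([2, 0, 1, 5], [14, 4, 3, 7, 8, 9]), ([], [15, 14, 4, 0, 3, 7, 8, 9]),
      ([], [15, 14, 4, 0, 3, 7, 8, 9]), ([2, 0, 1, 5], [14, 4, 3, 7, 8, 9]),
      ([], [18, 14, 4, 0, 3, 7, 8, 9]), ([], [18, 14, 4, 0, 3, 7, 8, 9])],
     [([], []), ([], []), ([], []), ([], []), ([], []), ([], []), ([], []), ([], []), ([], []),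
      ([3, 0, 4, 14, 15, 16], [8, 10]), ([3, 0, 4, 14, 15, 16], [8, 9]), ([], []),
      ([3, 0, 4, 14, 15, 16], [11, 13]), ([3, 0, 4, 14, 15, 16], [11, 12]),
      ([8, 9], [4, 3, 0, 1, 2, 6]), ([8, 9], [14, 4, 0, 1, 2, 6]),
      ([8, 9], [15, 14, 4, 0, 1, 2, 6]), ([8, 9], [15, 14, 4, 0, 1, 2, 6]),
      ([8, 9], [14, 4, 0, 1, 2, 6]), ([8, 9], [18, 14, 4, 0, 1, 2, 6]),
      ([8, 9], [18, 14, 4, 0, 1, 2, 6])],
     [([], []), ([], []), ([], []), ([], []), ([], []), ([], []), ([], []), ([], []), ([], []),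
      ([], []), ([], []), ([9], [7, 3, 0, 4, 14, 15, 16]), ([9], [11, 7, 3, 0, 1, 2, 6]),
      ([9], [11, 7, 3, 0, 1, 2, 6]), ([7, 11, 12], [4, 0, 1, 2, 6]),
      ([9], [14, 4, 0, 3, 7, 11, 12]), ([9], [15, 14, 4, 0, 1, 2, 6]),
      ([9], [15, 14, 4, 0, 1, 2, 6]), ([9], [14, 4, 0, 3, 7, 11, 12]),
      ([9], [18, 14, 4, 0, 1, 2, 6]), ([9], [18, 14, 4, 0, 1, 2, 6])],
     [([], []), ([], []), ([], []), ([], []), ([], []), ([], []), ([], []), ([], []), ([], []),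
      ([], []), ([], [8, 7, 3, 0, 4, 14, 15, 16]), ([8, 10], [7, 3, 0, 1, 2, 6]),
      ([], [11, 7, 3, 0, 4, 14, 15, 16]), ([], [11, 7, 3, 0, 4, 14, 15, 16]),
      ([8, 10], [4, 0, 3, 7, 11, 12]), ([8, 10], [14, 4, 0, 1, 2, 6]),
      ([], [15, 14, 4, 0, 3, 7, 8, 10]), ([], [15, 14, 4, 0, 3, 7, 8, 10]),
      ([8, 10], [14, 4, 0, 1, 2, 6]), ([], [18, 14, 4, 0, 3, 7, 8, 10]),
      ([], [18, 14, 4, 0, 3, 7, 8, 10])],
     [([], []), ([], []), ([], []), ([], []), ([], []), ([], []), ([], []), ([], []), ([], []),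
      ([], []), ([], []), ([8, 9], [7, 3, 0, 1, 2, 6]), ([], [11, 7, 3, 0, 4, 14, 15, 16]),
      ([], [11, 7, 3, 0, 4, 14, 15, 16]), ([8, 9], [4, 0, 3, 7, 11, 12]),
      ([8, 9], [14, 4, 0, 1, 2, 6]), ([], [15, 14, 4, 0, 3, 7, 8, 9]),
      ([], [15, 14, 4, 0, 3, 7, 8, 9]), ([8, 9], [14, 4, 0, 1, 2, 6]),
      ([], [18, 14, 4, 0, 3, 7, 8, 9]), ([], [18, 14, 4, 0, 3, 7, 8, 9])],
     [([], []), ([], []), ([], []), ([], []), ([], []), ([], []), ([], []), ([], []), ([], []),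
      ([], []), ([], []), ([], []), ([], []), ([], []), ([7, 8, 9], [4, 0, 1, 2, 6]),
      ([12], [14, 4, 0, 3, 7, 8, 9]), ([12], [15, 14, 4, 0, 1, 2, 6]),
      ([12], [15, 14, 4, 0, 1, 2, 6]), ([12], [14, 4, 0, 3, 7, 8, 9]),
      ([12], [18, 14, 4, 0, 1, 2, 6]), ([12], [18, 14, 4, 0, 1, 2, 6])],
     [([], []), ([], []), ([], []), ([], []), ([], []), ([], []), ([], []), ([], []), ([], []),
      ([], []), ([], []), ([], []), ([], []), ([], [11, 7, 3, 0, 4, 14, 15, 16]),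
      ([11, 13], [4, 0, 3, 7, 8, 9]), ([11, 13], [14, 4, 0, 1, 2, 6]),
      ([], [15, 14, 4, 0, 3, 7, 8, 9]), ([], [15, 14, 4, 0, 3, 7, 8, 9]),
      ([11, 13], [14, 4, 0, 1, 2, 6]), ([], [18, 14, 4, 0, 3, 7, 8, 9]),
      ([], [18, 14, 4, 0, 3, 7, 8, 9])],
     [([], []), ([], []), ([], []), ([], []), ([], []), ([], []), ([], []), ([], []), ([], []),
      ([], []), ([], []), ([], []), ([], []), ([], []), ([11, 12], [4, 0, 3, 7, 8, 9]),
      ([11, 12], [14, 4, 0, 1, 2, 6]), ([], [15, 14, 4, 0, 3, 7, 8, 9]),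
      ([], [15, 14, 4, 0, 3, 7, 8, 9]), ([11, 12], [14, 4, 0, 1, 2, 6]),
      ([], [18, 14, 4, 0, 3, 7, 8, 9]), ([], [18, 14, 4, 0, 3, 7, 8, 9])],
     [([], []), ([], []), ([], []), ([], []), ([], []), ([], []), ([], []), ([], []), ([], []),
      ([], []), ([], []), ([], []), ([], []), ([], []), ([], []), ([], []),
      ([4, 0, 3, 7, 8, 9], [15, 17]), ([4, 0, 3, 7, 8, 9], [15, 16]), ([], []),
      ([4, 0, 3, 7, 8, 9], [18, 20]), ([4, 0, 3, 7, 8, 9], [18, 19])],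
     [([], []), ([], []), ([], []), ([], []), ([], []), ([], []), ([], []), ([], []), ([], []),
      ([], []), ([], []), ([], []), ([], []), ([], []), ([], []), ([], []), ([], []), ([], []),
      ([16], [14, 4, 0, 3, 7, 8, 9]), ([16], [18, 14, 4, 0, 1, 2, 6]),
      ([16], [18, 14, 4, 0, 1, 2, 6])],
     [([], []), ([], []), ([], []), ([], []), ([], []), ([], []), ([], []), ([], []), ([], []),
      ([], []), ([], []), ([], []), ([], []), ([], []), ([], []), ([], []), ([], []),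
      ([], [15, 14, 4, 0, 3, 7, 8, 9]), ([15, 17], [14, 4, 0, 1, 2, 6]),
      ([], [18, 14, 4, 0, 3, 7, 8, 9]), ([], [18, 14, 4, 0, 3, 7, 8, 9])],
     [([], []), ([], []), ([], []), ([], []), ([], []), ([], []), ([], []), ([], []), ([], []),
      ([], []), ([], []), ([], []), ([], []), ([], []), ([], []), ([], []), ([], []), ([], []),
      ([15, 16], [14, 4, 0, 1, 2, 6]), ([], [18, 14, 4, 0, 3, 7, 8, 9]),
      ([], [18, 14, 4, 0, 3, 7, 8, 9])],
     [([], []), ([], []), ([], []), ([], []), ([], []), ([], []), ([], []), ([], []), ([], []),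
      ([], []), ([], []), ([], []), ([], []), ([], []), ([], []), ([], []), ([], []), ([], []),
      ([], []), ([], []), ([], [])],
     [([], []), ([], []), ([], []), ([], []), ([], []), ([], []), ([], []), ([], []), ([], []),
      ([], []), ([], []), ([], []), ([], []), ([], []), ([], []), ([], []), ([], []), ([], []),
      ([], []), ([], []), ([], [18, 14, 4, 0, 3, 7, 8, 9])],
     [([], []), ([], []), ([], []), ([], []), ([], []), ([], []), ([], []), ([], []), ([], []),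
      ([], []), ([], []), ([], []), ([], []), ([], []), ([], []), ([], []), ([], []), ([], []),
      ([], []), ([], []), ([], [])]]
    (Con2_nil (by decide +kernel)) (by decide +kernel) (by decide +kernel) (by decide +kernel)
    (by decide +kernel) (by decide +kernel)

end PS
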