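import Pool.Agent.Work.MP_3e1eec_co.TriB
import Pool.Agent.Work.MP_3e1eec_co.Con2

-- merged part: Pool.Agent.Work.MP_3e1eec_co.Con3
section
-- merged part: Pool.Agent.Work.MP_3e1eec_co.Th2
section
/-! No theta subgraph.
Plan.  `Th.dia` (write `g = gK G K`): `u`, `u'` are not adjacent (`Th.nb`).  `W2` for `u`, `u'` and `W1` give `k ≤ g p + g q + 2` (the only long option is the pair of paths `[u, p]`, `[u', q]` or the mirror one), hence `g u < g p`, `g u < g q`, the same for `u'`, and `g p + g q + 2 = k`.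
`Th.dia1`: let `p :: t :: A` be a longest path for `g p` (`g p ≥ 2`); `K' = insert t K` is ear free (`Th.ef'`), `gK G K' t + 1 ≤ g p`, `gK G K' v ≤ g v`; `W2` for `t`, `q` in `K'` and a case check of the paths on five vertices give `g q < g p`.  Use it twice (`Th.swap`).
`Th.false`: call a path triangular if it has length one and `p` is adjacent to `q`.  If all non empty paths are triangular, one path is empty (`Th.nbp`) and `Th.dia` applies.  Otherwise take `z` with least `g` on the non triangular paths, by `Th.p1`, `Th.p2` on `Z`; `TL`, `TT.lt`: the avoided neighbour is `p` or `q`; by `Th.swap` it is `p`; `Th.key`. -/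

open SimpleGraph

namespace PS
variable {V : Type} {G : SimpleGraph V} [Finite V] {K : Set V} {p q : V} {X Y Z : List V} {k : ℕ}

omit [Finite V] in
theorem Th2_len {l m : List V} (hn : l.Nodup) (hs : ∀ v ∈ l, v ∈ m) : l.length ≤ m.length :=
  (List.subperm_of_subset hn hs).length_le

omit [Finite V] in
theorem Th2_one {x u u' : V} {C : List V} (hn : ¬ G.Adj u u') (hP : P G (x :: C))
    (hC : ∀ v ∈ C, v = u ∨ v = u') : C = [] ∨ C = [u] ∨ C = [u'] := by
  rcases C with _ | ⟨c, _ | ⟨d, C⟩⟩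
  · exact Or.inl rfl
  · rcases hC c (by simp) with rfl | rfl
    · exact Or.inr (Or.inl rfl)
    · exact Or.inr (Or.inr rfl)
  · have ha := hP.tail.adj
    rcases hC c (by simp) with rfl | rfl <;> rcases hC d (by simp) with rfl | rfl
    · exact absurd rfl ha.ne
    · exact absurd ha hn
    · exact absurd ha.symm hn
    · exact absurd rfl ha.ne

omit [Finite V] in
theorem Th2_P3 {a b c : V} (h1 : G.Adj a b) (h2 : G.Adj b c) (h3 : a ≠ c) :
    P G (a :: ([b] ++ [c])) := by
  simp only [List.cons_append, List.nil_append, P_cons_cons, List.mem_cons, List.not_mem_nil,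
    or_false, not_or]
  exact ⟨h1, ⟨h1.ne, h3⟩, h2, h2.ne, P.single c⟩

omit [Finite V] in
theorem Th2_P4 {a b c d : V} (h1 : G.Adj a b) (h2 : G.Adj b c) (h3 : G.Adj c d) (h4 : a ≠ c)
    (h5 : a ≠ d) (h6 : b ≠ d) : P G (a :: ([b, c] ++ [d])) := by
  simp only [List.cons_append, List.nil_append, P_cons_cons, List.mem_cons, List.not_mem_nil,
    or_false, not_or]
  exact ⟨h1, ⟨h1.ne, h4, h5⟩, h2, ⟨h2.ne, h6⟩, h3, h3.ne, P.single d⟩

theorem Th.dia1 {u u' : V} (h : Th G K p q [] [u] [u']) (hF : Few G 2) (hD : D2 k G) :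
    gK G K q < gK G K p := by
  have hE := h.ef hF
  have hm : ∀ v, v ∈ K ↔ v = p ∨ v = q ∨ v = u ∨ v = u' := by
    intro v
    rw [h.mem]
    simp
  have kp : p ∈ K := (hm _).2 (by simp)
  have kq : q ∈ K := (hm _).2 (by simp)
  have ku : u ∈ K := (hm _).2 (by simp)
  have ku' : u' ∈ K := (hm _).2 (by simp)
  have apq : G.Adj p q := h.px.adj
  have apu : G.Adj p u := h.py.adj
  have auq : G.Adj u q := h.py.tail.adj
  have apu' : G.Adj p u' := h.pz.adj
  have auq' : G.Adj u' q := h.pz.tail.adj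
  have nuu : u ≠ u' := fun e => h.yz (List.mem_singleton_self u) (by simp [e])
  have hn : ¬ G.Adj u u' := fun ha => by
    rcases h.nb hF (A := []) (B := []) (x := p) (z := u') (y := q) rfl u ku ha.symm with e | e
    · exact apu.ne' e
    · exact auq.ne e
  have all : ∀ l : List V, (∀ v ∈ l, v = p ∨ v = q ∨ v = u ∨ v = u') → ∀ v ∈ l, v ∈ K :=
    fun l hl v hv => (hm v).2 (hl v hv)
  have w1 := W1 hE hD.1 (Th2_P3 apu.symm apu' nuu) (all _ (by simp))
  have w2 := W1 hE hD.1 (Th2_P4 apu auq auq'.symm apq.ne apu'.ne nuu) (all _ (by simp))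
  have w3 := W1 hE hD.1 (Th2_P4 auq.symm apu.symm apu' apq.ne' auq'.ne' nuu) (all _ (by simp))
  have w4 := W1 hE hD.1 (Th2_P4 apu' auq' auq.symm apq.ne apu.ne nuu.symm) (all _ (by simp))
  have w5 := W1 hE hD.1 (Th2_P4 auq'.symm apu'.symm apu apq.ne' auq.ne' nuu.symm)
    (all _ (by simp))
  have w6 := W1 hE hD.1 (Th2_P3 apu auq apq.ne) (all _ (by simp))
  simp only [List.length_cons, List.length_nil] at w1 w2 w3 w4 w5 w6
  have key : k ≤ gK G K p + gK G K q + 2 := by
    obtain ⟨A, B, hA, hB, hd, kA, kB, hk⟩ := W2 hE ku ku' (hD.2 p u u' apu apu' nuu hn)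
    have mA : ∀ v ∈ A, v = p ∨ v = q := by
      intro v hv
      rcases (hm v).1 (kA v hv) with e | e | e | e
      · exact Or.inl e
      · exact Or.inr e
      · exact absurd (e ▸ hv) hA.notMem
      · exact (hd (List.mem_cons_of_mem _ hv) (e ▸ List.mem_cons_self)).elim
    have mB : ∀ v ∈ B, v = p ∨ v = q := by
      intro v hv
      rcases (hm v).1 (kB v hv) with e | e | e | e
      · exact Or.inl e
      · exact Or.inr e
      · exact (hd (e ▸ List.mem_cons_self) (List.mem_cons_of_mem _ hv)).elim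
      · exact absurd (e ▸ hv) hB.notMem
    have hdd : A.Disjoint B := fun v h1 h2 =>
      hd (List.mem_cons_of_mem _ h1) (List.mem_cons_of_mem _ h2)
    have hl : (A ++ B).length ≤ [p, q].length := by
      refine Th2_len (List.Nodup.append hA.tail.1 hB.tail.1 hdd) fun v hv => ?_
      rcases List.mem_append.1 hv with hv | hv
      · simpa using mA v hv
      · simpa using mB v hv
    simp only [List.length_append, List.length_cons, List.length_nil] at hl
    rcases A with _ | ⟨a, A⟩ <;> rcases B with _ | ⟨b, B⟩ <;>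
      simp only [List.getLastD_cons, List.getLastD_nil, List.length_cons, List.length_nil] at hk hl
    · omega
    · rcases mB _ (List.getLastD_mem_cons (l := B) (a := b)) with e | e <;> rw [e] at hk <;> omega
    · rcases mA _ (List.getLastD_mem_cons (l := A) (a := a)) with e | e <;> rw [e] at hk <;> omega
    · have e1 := List.getLastD_mem_cons (l := A) (a := a)
      have e2 := List.getLastD_mem_cons (l := B) (a := b)
      have hne : A.getLastD a ≠ B.getLastD b := fun e => hdd e1 (e ▸ e2)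
      rcases mA _ e1 with e | e <;> rcases mB _ e2 with e' | e'
      · exact absurd (e.trans e'.symm) hne
      · rw [e, e'] at hk; omega
      · rw [e, e'] at hk; omega
      · exact absurd (e.trans e'.symm) hne
  have g1 := gK_pos G K u
  obtain ⟨A₀, hA₀, hS, hl₀⟩ := lp_ex G (S := K \ {p}) (x := p) (by simp)
  have hg : lp G (K \ {p}) p = gK G K p := rfl
  rcases A₀ with _ | ⟨t, A₀⟩
  · simp only [List.length_nil] at hl₀
    omega
  have apt : G.Adj p t := hA₀.adj
  have ht : t ∉ K := fun hk => hS t (by simp) ⟨hk, apt.ne'⟩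
  obtain ⟨hE', ho⟩ := h.ef' hF ht apt
  have gt : gK G (insert t K) t + 1 ≤ gK G K p := by
    obtain ⟨C, hC, hS', hl⟩ := lp_ex G (S := insert t K \ {t}) (x := t) (by simp)
    have hp : p ∉ t :: C := fun hp => hS' p hp ⟨Or.inr kp, apt.ne⟩
    have := lp_ge (S := K \ {p}) (hC.cons apt hp) (by
      rintro v hv ⟨hv1, hv2⟩
      rcases List.mem_cons.1 hv with e | hv
      · exact hv2 e
      · exact hS' v hv ⟨Or.inr hv1, fun e => ht (by rw [← Set.mem_singleton_iff.1 e]; exact hv1)⟩)
    have e : lp G (insert t K \ {t}) t = gK G (insert t K) t := rfl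
    simp only [List.length_cons] at this
    omega
  have an : ∀ v, gK G (insert t K) v ≤ gK G K v := gK_anti (Set.subset_insert t K)
  have ap := an p
  have aq := an q
  have au := an u
  have au' := an u'
  have ntq : t ≠ q := fun e => ht (e ▸ kq)
  obtain ⟨A, B, hA, hB, hd, kA, kB, hk⟩ := W2 hE' (Set.mem_insert t K) (Or.inr kq)
    (hD.2 p t q apt apq ntq fun ha => apq.ne' (ho q kq ha))
  have mA : ∀ v ∈ A, v = p ∨ v = u ∨ v = u' := by
    intro v hv
    rcases kA v hv with e | hv'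
    · exact absurd (e ▸ hv) hA.notMem
    rcases (hm v).1 hv' with e | e | e
    · exact Or.inl e
    · exact (hd (List.mem_cons_of_mem _ hv) (e ▸ List.mem_cons_self)).elim
    · exact Or.inr e
  have mB : ∀ v ∈ B, v = p ∨ v = u ∨ v = u' := by
    intro v hv
    rcases kB v hv with e | hv'
    · exact (hd (e ▸ List.mem_cons_self) (List.mem_cons_of_mem _ hv)).elim
    rcases (hm v).1 hv' with e | e | e
    · exact Or.inl e
    · exact absurd (e ▸ hv) hB.notMem
    · exact Or.inr e
  rcases A with _ | ⟨a, A⟩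
  · have hl : B.length ≤ [p, u, u'].length := Th2_len hB.tail.1 fun v hv => by simpa using mB v hv
    rcases B with _ | ⟨b, B⟩
    · simp only [List.getLastD_nil, List.length_nil] at hk
      omega
    simp only [List.getLastD_cons, List.getLastD_nil, List.length_cons, List.length_nil] at hk hl
    rcases mB _ (List.getLastD_mem_cons (l := B) (a := b)) with e | e | e
    · have : B.length ≤ 1 := by
        rcases B with _ | ⟨c, _ | ⟨d, _ | ⟨f, B⟩⟩⟩
        · simp
        · simp
        · simp only [List.getLastD_cons, List.getLastD_nil] at e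
          subst e
          have h1 := hB.tail.notMem
          have h2 := hB.tail.tail.notMem
          have h3 : P G (q :: [b, c]) := P.left (B := [d]) hB
          have := Th2_one hn h3 (by
            intro v hv
            rcases mB v (by simp only [List.mem_cons] at hv ⊢; (clear * - hv; tauto)) with e | e
            · exfalso
              subst e
              simp only [List.mem_cons, List.not_mem_nil, or_false, not_or] at hv h1 h2
              rcases hv with e | e
              · exact h1.2 e.symm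
              · exact h2 e.symm
            · exact e)
          simp at this
        · simp only [List.length_cons] at hl
          omega
      rw [e] at hk
      omega
    · rw [e] at hk; omega
    · rw [e] at hk; omega
  · have ea : a = p := by
      rcases kA a List.mem_cons_self with e | hv
      · exact absurd e hA.adj.ne'
      · exact ho a hv hA.adj
    subst ea
    have cA := Th2_one hn hA.tail fun v hv =>
      (mA v (List.mem_cons_of_mem _ hv)).resolve_left fun e => hA.tail.notMem (e ▸ hv)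
    have cB := Th2_one hn hB fun v hv => (mB v hv).resolve_left fun e =>
      hd (a := v) (by simp [e]) (List.mem_cons_of_mem _ hv)
    rcases cA with rfl | rfl | rfl <;> rcases cB with rfl | rfl | rfl <;>
      simp only [List.getLastD_cons, List.getLastD_nil, List.length_cons, List.length_nil] at hk <;>
      omega

theorem Th.dia {u u' : V} (h : Th G K p q [] [u] [u']) (hF : Few G 2) (hD : D2 k G) : False := by
  have h1 := h.dia1 hF hD
  have h2 := Th.dia1 (u := u) (u' := u') h.swap hF hD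
  omega

theorem Th2_main {z : V} (h : Th G K p q X Y Z) (hF : Few G 2) (hD : D2 k G) (hz : z ∈ Z)
    (hZ : ¬ (Z.length = 1 ∧ G.Adj p q)) (mZ : ∀ u ∈ Z, gK G K z ≤ gK G K u)
    (mX : ¬ (X.length = 1 ∧ G.Adj p q) → ∀ u ∈ X, gK G K z ≤ gK G K u)
    (mY : ¬ (Y.length = 1 ∧ G.Adj p q) → ∀ u ∈ Y, gK G K z ≤ gK G K u) : False := by
  obtain ⟨Z₁, Z₂, rfl⟩ := List.append_of_mem hz
  obtain ⟨A, x, hA⟩ : ∃ A x, p :: Z₁ = A ++ [x] :=
    ⟨_, _, (List.dropLast_append_getLast (List.cons_ne_nil p Z₁)).symm⟩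
  obtain ⟨y, B, hB⟩ : ∃ y B, Z₂ ++ [q] = y :: B := by cases Z₂ <;> simp
  have e : p :: ((Z₁ ++ z :: Z₂) ++ [q]) = A ++ x :: z :: y :: B := by
    calc _ = (p :: Z₁) ++ z :: (Z₂ ++ [q]) := by simp
      _ = _ := by rw [hA, hB]; simp
  have hP : P G (A ++ x :: z :: y :: B) := e ▸ h.pz
  have hK : ∀ v ∈ A ++ x :: z :: y :: B, v ∈ K := by
    rw [← e]
    intro v hv
    rw [h.mem]
    simp only [List.mem_cons, List.mem_append, List.not_mem_nil, or_false] at hv ⊢
    (clear * - hZ hv mX mY; grind)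
  have kx := hK x (by simp)
  have kz := hK z (by simp)
  have ky := hK y (by simp)
  have axz : G.Adj x z := hP.mid
  have azy : G.Adj z y := hP.right.tail.adj
  have nx := hP.right.notMem
  have nxy : x ≠ y := fun e => nx (by simp [e])
  have hn : ¬ G.Adj x y := by
    intro ha
    rcases B with _ | ⟨y', B⟩
    · rcases List.eq_nil_or_concat' A with rfl | ⟨A', x', rfl⟩
      · have e1 : p = x ∧ Z₁ = [] := by simpa using hA
        have e2 : Z₂ = [] ∧ q = y := by
          rcases Z₂ with _ | ⟨c, Z₂⟩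
          · simpa using hB
          · simp at hB
        obtain ⟨rfl, rfl⟩ := e1
        obtain ⟨rfl, rfl⟩ := e2
        exact hZ ⟨rfl, ha⟩
      · rcases h.nb hF (A := A') (x := x') (z := x) (y := z) (B := [y]) (by rw [e]; simp) y ky ha
          with e' | e'
        · exact hP.disj (a := y) (by simp [e']) (by simp)
        · exact azy.ne' e'
    · rcases h.nb hF (A := A ++ [x]) (x := z) (z := y) (y := y') (B := B) (by rw [e]; simp) x kx
        ha.symm with e' | e'
      · exact axz.ne e'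
      · exact nx (by simp [e'])
  have hE := h.ef hF
  rcases TL hE hD kz kx ky axz.symm azy nxy hn (h.nb hF e) with hT | hT
  · have hlt := hT.lt hE hD.1 kz kx ky axz.symm nxy
    have hx : x ∈ p :: Z₁ := by rw [hA]; simp
    rcases List.mem_cons.1 hx with rfl | hx
    swap
    · have := mZ x (by simp [hx])
      omega
    have e1 : Z₁ = [] := by
      rcases A with _ | ⟨a, A⟩
      · simpa using hA
      · have : Z₁ = A ++ [x] := (List.cons.inj hA).2
        exact absurd (by simp [this]) h.pz.notMem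
    subst e1
    refine Th.key (Z' := Z₂) h hF hD.1 ?_ ?_ hT (fun u hu => mZ u (by simp [hu])) mX mY
    · cases Z₂ with
      | nil => exact (List.cons.inj hB).1.symm
      | cons c Z₂ => exact (List.cons.inj hB).1.symm
    · rintro ⟨rfl, ha⟩
      exact hZ ⟨rfl, ha⟩
  · have hlt := hT.lt hE hD.1 kz ky kx azy nxy.symm
    have hy : y ∈ Z₂ ++ [q] := by rw [hB]; simp
    rcases List.mem_append.1 hy with hy | hy
    · have := mZ y (by simp [hy])
      omega
    have e0 : y = q := List.mem_singleton.1 hy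
    subst e0
    have e1 : Z₂ = [] := by
      rcases Z₂ with _ | ⟨c, Z₂⟩
      · rfl
      · have e2 : c = y := (List.cons.inj hB).1
        exact (h.pz.tail.disj (a := y) (by simp [e2]) (by simp)).elim
    subst e1
    have hs := h.swap
    have e3 : (Z₁ ++ [z]).reverse = z :: Z₁.reverse := by simp
    rw [e3] at hs
    refine Th.key hs hF hD.1 ?_ ?_ hT (fun u hu => mZ u (by simp [List.mem_reverse.1 hu]))
      (fun hc u hu => mX (fun hc' => hc ⟨by simpa using hc'.1, hc'.2.symm⟩) u
        (List.mem_reverse.1 hu))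
      (fun hc u hu => mY (fun hc' => hc ⟨by simpa using hc'.1, hc'.2.symm⟩) u
        (List.mem_reverse.1 hu))
    · have e4 : Z₁.reverse ++ [p] = x :: A.reverse := by simpa using congrArg List.reverse hA
      generalize Z₁.reverse = W at e4
      cases W with
      | nil => exact (List.cons.inj e4).1.symm
      | cons c W => exact (List.cons.inj e4).1.symm
    · rintro ⟨e5, ha⟩
      have e6 : Z₁ = [] := by simpa using e5
      subst e6
      exact hZ ⟨rfl, ha.symm⟩

theorem Th2_tri (h : Th G K p q [] Y Z) (hF : Few G 2) (hD : D2 k G)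
    (tY : Y ≠ [] → Y.length = 1) (tZ : Z ≠ [] → Z.length = 1) : False := by
  obtain ⟨u, rfl⟩ := List.length_eq_one_iff.1 (tY (h.ne.1.resolve_left fun h => h rfl))
  obtain ⟨u', rfl⟩ := List.length_eq_one_iff.1 (tZ (h.ne.2.1.resolve_left fun h => h rfl))
  exact h.dia hF hD

omit [Finite V] in
theorem Th2_head (h : P G (p :: (X ++ [q]))) (e : q = X.headD q) : X = [] := by
  rcases X with _ | ⟨c, X⟩
  · rfl
  · exact (h.tail.disj (a := q) (by rw [show q = c from e]; simp) (by simp)).elim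

theorem Th.false (h : Th G K p q X Y Z) (hF : Few G 2) (hD : D2 k G) : False := by
  by_cases hS : ∃ z, (z ∈ X ∧ ¬ (X.length = 1 ∧ G.Adj p q)) ∨
      (z ∈ Y ∧ ¬ (Y.length = 1 ∧ G.Adj p q)) ∨ (z ∈ Z ∧ ¬ (Z.length = 1 ∧ G.Adj p q))
  · obtain ⟨z, hz, hmin⟩ := (measure (gK G K)).wf.has_min
      {z | (z ∈ X ∧ ¬ (X.length = 1 ∧ G.Adj p q)) ∨
        (z ∈ Y ∧ ¬ (Y.length = 1 ∧ G.Adj p q)) ∨ (z ∈ Z ∧ ¬ (Z.length = 1 ∧ G.Adj p q))} hS
    have mX : ¬ (X.length = 1 ∧ G.Adj p q) → ∀ u ∈ X, gK G K z ≤ gK G K u :=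
      fun hc u hu => not_lt.1 (hmin u (Or.inl ⟨hu, hc⟩))
    have mY : ¬ (Y.length = 1 ∧ G.Adj p q) → ∀ u ∈ Y, gK G K z ≤ gK G K u :=
      fun hc u hu => not_lt.1 (hmin u (Or.inr (Or.inl ⟨hu, hc⟩)))
    have mZ : ¬ (Z.length = 1 ∧ G.Adj p q) → ∀ u ∈ Z, gK G K z ≤ gK G K u :=
      fun hc u hu => not_lt.1 (hmin u (Or.inr (Or.inr ⟨hu, hc⟩)))
    rcases hz with hz | hz | hz
    · exact Th2_main h.p1.p2 hF hD hz.1 hz.2 (mX hz.2) mY mZ
    · exact Th2_main h.p2 hF hD hz.1 hz.2 (mY hz.2) mX mZ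
    · exact Th2_main h hF hD hz.1 hz.2 (mZ hz.2) mX mY
  · have tX : X ≠ [] → X.length = 1 ∧ G.Adj p q := fun hne => by
      obtain ⟨z, hz⟩ := List.exists_mem_of_ne_nil _ hne
      by_contra hc
      exact hS ⟨z, Or.inl ⟨hz, hc⟩⟩
    have tY : Y ≠ [] → Y.length = 1 ∧ G.Adj p q := fun hne => by
      obtain ⟨z, hz⟩ := List.exists_mem_of_ne_nil _ hne
      by_contra hc
      exact hS ⟨z, Or.inr (Or.inl ⟨hz, hc⟩)⟩
    have tZ : Z ≠ [] → Z.length = 1 ∧ G.Adj p q := fun hne => by
      obtain ⟨z, hz⟩ := List.exists_mem_of_ne_nil _ hne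
      by_contra hc
      exact hS ⟨z, Or.inr (Or.inr ⟨hz, hc⟩)⟩
    have ha : G.Adj p q := h.ne.1.elim (fun hne => (tX hne).2) fun hne => (tY hne).2
    rcases h.nbp hF q ((h.mem q).2 (by simp)) ha with e | e | e
    · obtain rfl := Th2_head h.px e
      exact Th2_tri h hF hD (fun hne => (tY hne).1) fun hne => (tZ hne).1
    · obtain rfl := Th2_head h.py e
      exact Th2_tri h.p1 hF hD (fun hne => (tX hne).1) fun hne => (tZ hne).1
    · obtain rfl := Th2_head h.pz e
      exact Th2_tri h.p2.p1 hF hD (fun hne => (tX hne).1) fun hne => (tY hne).1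

end PS
end

-- merged part: Pool.Agent.Work.MP_3e1eec_co.Rule
section
/-! The local rule is saturation at distance two.
Plan.  `half_of_cr`: `w` is on one of the two paths (else `A.reverse ++ x :: w :: y :: B` is too long); say `A = A₁ ++ w :: A₂`.  By `Cac`, `A₁` has at most one vertex, a common neighbour of `w` and `x`.  `A₂ ≠ []` and its head `z` is not adjacent to `x`, otherwise a rearranged path has `k` vertices or a four cycle appears.
`Climb.cr`: the paths are `x :: C ++ w :: z :: Z` and `y :: Y` with `Z`, `Y` from `lp_ex`; `z :: Z` and `y :: Y` are disjoint by `Cac.disj` or, if `z` is adjacent to `y`, by `Cac.disjF` and `Cac.common`; the climb lies in `Rg G {w} p`, which misses `Rg G {w} z` and `Rg G {w} y` (`Cac.sepR`). -/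

open SimpleGraph

namespace PS
variable {V : Type} {G : SimpleGraph V} [Finite V] {k : ℕ}

omit [Finite V] in
/-- Paths from two vertices of a triangle which avoid the other vertices of the triangle. -/
theorem Rule_tri (hC : Cac G) {x y z : V} (h : Tr G x y z) {A B : List V} (hA : P G (x :: A))
    (hB : P G (z :: B)) (yA : y ∉ A) (zA : z ∉ A) (xB : x ∉ B) : (x :: A).Disjoint (z :: B) := by
  refine hC.disjF h.2.1 hA hB zA xB fun c A' B' e1 e2 => yA ?_
  subst e1 e2
  rw [hC.common h.2.1 h.1 h.2.2.symm hA.adj hB.adj]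
  exact List.mem_cons_self

theorem Rule_half (hC : Cac G) (hk : PF k G) {w x y : V} (hx : G.Adj w x) (hy : G.Adj w y)
    {A B : List V} (hA : P G (x :: A)) (hB : P G (y :: B)) (hd : (x :: A).Disjoint (y :: B))
    (hl : k ≤ A.length + B.length + 2) (hw : w ∈ A) : Half k G w x y := by
  obtain ⟨A₁, A₂, rfl⟩ := List.append_of_mem hw
  have h1 : P G (x :: (A₁ ++ [w])) := hA.pre ⟨A₂, by simp⟩
  have h2 : A₁.length ≤ (G.commonNeighbors w x).ncard := by
    have := hC _ _ _ h1 hx.symm
    match A₁, h1, this with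
    | [], _, _ => exact Nat.zero_le _
    | [c], h1, _ => exact (Set.ncard_pos (Set.toFinite _)).2 ⟨c, h1.tail.adj.symm, h1.adj⟩
    | _ :: _ :: _, _, h => simp at h
  cases A₂ with
  | nil =>
    have := hk _ (P.append (A := x :: A₁) h1 hB hy hd)
    simp only [List.length_append, List.length_cons, List.length_nil] at this hl
    omega
  | cons z Z =>
    have h3 : P G (w :: z :: Z) := hA.tail.right
    have hm : ∀ v ∈ w :: z :: Z, v ∉ y :: B := fun v hv =>
      hd (List.mem_cons_of_mem _ (List.mem_append_right _ hv))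
    have hz : z ∈ w :: z :: Z := by simp
    refine ⟨z, h3.adj, fun e => hA.notMem (List.mem_append_right _ (e ▸ hz)),
      fun e => hm z hz (e ▸ List.mem_cons_self), fun hxz => ?_, ?_⟩
    · have h4 : P G (x :: ((A₁ ++ [w]) ++ [z])) := hA.pre ⟨Z, by simp⟩
      have h5 := hC _ _ _ h4 hxz
      obtain rfl : A₁ = [] := by simpa using h5
      have h6 : P G (x :: w :: y :: B) :=
        P.append (A := [x]) h1 hB hy fun v hv => hd (by
          simp only [List.mem_append, List.mem_cons, List.not_mem_nil, or_false, false_or] at hv ⊢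
          (clear * - hv; tauto))
      have := hk.join h3.tail h6 hxz.symm fun v hv hv' => by
        rcases List.mem_cons.1 hv' with rfl | hv'
        · exact hA.notMem (List.mem_cons_of_mem _ hv)
        rcases List.mem_cons.1 hv' with rfl | hv'
        · exact h3.notMem hv
        · exact hm v (List.mem_cons_of_mem _ hv) hv'
      simp only [List.nil_append, List.length_cons] at this hl
      omega
    · have a1 := lp_ge (S := {w, y}) h3.tail (by
        rintro v hv (rfl | rfl)
        · exact h3.notMem hv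
        · exact hm _ (List.mem_cons_of_mem _ hv) List.mem_cons_self)
      have a2 := lp_ge (S := {w, z}) hB (by
        rintro v hv (rfl | rfl)
        · exact hm _ List.mem_cons_self hv
        · exact hm _ hz hv)
      simp only [List.length_append, List.length_cons] at hl
      omega

theorem half_of_cr (hC : Cac G) (hk : PF k G) {w x y : V} (hx : G.Adj w x) (hy : G.Adj w y)
    (hne : x ≠ y) (hn : ¬ G.Adj x y) (h : Cr k G x y) : Half k G w x y ∨ Half k G w y x := by
  obtain ⟨A, B, hA, hB, hd, hl⟩ := h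
  by_cases wA : w ∈ A
  · exact Or.inl (Rule_half hC hk hx hy hA hB hd hl wA)
  by_cases wB : w ∈ B
  · exact Or.inr (Rule_half hC hk hy hx hB hA hd.symm (by omega) wB)
  have := hk.join hA (hB.cons hy fun q => (List.mem_cons.1 q).elim hy.ne wB) hx.symm
    fun v hv hv' => by
      rcases List.mem_cons.1 hv' with rfl | hv'
      · exact (List.mem_cons.1 hv).elim hx.ne wA
      · exact hd hv hv'
  simp only [List.length_cons] at this
  omega

theorem D2.rule (hC : Cac G) (hD : D2 k G) : Rule k G := by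
  exact fun w x y hx hy hne hn => half_of_cr hC hD.1 hx hy hne hn (hD.2 w x y hx hy hne hn)

theorem climb_self (hC : Cac G) {w p : V} (h : G.Adj w p) : Climb G w p p := by
  rcases (G.commonNeighbors w p).eq_empty_or_nonempty with e | ⟨c, h1, h2⟩
  · refine ⟨[], (P.single w).cons h.symm (by simpa using h.ne'), fun v hv => ?_, by simp [e]⟩
    rw [List.mem_singleton.1 hv]
    exact Rg_self _ _
  · have h1' : G.Adj w c := h1
    have h2' : G.Adj p c := h2
    refine ⟨[c], ((P.single w).cons h1'.symm (by simpa using h1'.ne')).cons h2'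
      (by simpa using ⟨h2'.ne, h.ne'⟩), fun v hv => ?_, hC.ncard_le h⟩
    rcases List.mem_cons.1 hv with rfl | hv
    · exact Rg_self _ _
    · rw [List.mem_singleton.1 hv]
      exact Rg_adj h.ne' (Rg_self _ _) h2' h1'.ne'

theorem Climb.cr (hC : Cac G) {w p y x : V} (hp : G.Adj w p) (hy : G.Adj w y) (hne : p ≠ y)
    (hn : ¬ G.Adj p y) (h : Half k G w p y) (hc : Climb G w p x) : Cr k G x y := by
  obtain ⟨z, hz, zp, zy, pz, hl⟩ := h
  obtain ⟨C, c1, c2, c3⟩ := hc
  obtain ⟨Z, z1, z2, z3⟩ := lp_ex G (S := {w, y}) (x := z) fun q => q.elim hz.ne' zy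
  obtain ⟨Y, y1, y2, y3⟩ := lp_ex G (S := {w, z}) (x := y) fun q => q.elim hy.ne' zy.symm
  have wZ : w ∉ z :: Z := fun q => z2 w q (Or.inl rfl)
  have wY : w ∉ y :: Y := fun q => y2 w q (Or.inl rfl)
  have key : ∀ {u : V} {U : List V}, G.Adj w u → p ≠ u → ¬ G.Adj p u → P G (u :: U) → w ∉ u :: U →
      ((x :: C) ++ [w]).Disjoint (u :: U) := fun hu pu npu hU wU v hv hv' => by
    rcases List.mem_append.1 hv with hv | hv
    · exact Set.disjoint_left.1 (hC.sepR hp hu pu npu) (c2 v hv)
        (hU.mem_Rg (fun r hr (e : r = w) => wU (e ▸ hr)) v hv')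
    · exact wU (List.mem_singleton.1 hv ▸ hv')
  have d : (z :: Z).Disjoint (y :: Y) := by
    by_cases a : G.Adj z y
    · exact Rule_tri hC ⟨hz.symm, a, hy⟩ z1 y1 (fun q => wZ (List.mem_cons_of_mem _ q))
        (fun q => z2 y (List.mem_cons_of_mem _ q) (Or.inr rfl))
        fun q => y2 z (List.mem_cons_of_mem _ q) (Or.inr rfl)
    · exact hC.disj hz hy zy a z1 y1 wZ wY
  refine ⟨C ++ w :: z :: Z, Y, P.append (A := x :: C) c1 z1 hz (key hz zp.symm pz z1 wZ), y1,
    fun v hv => ?_, ?_⟩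
  · have : v ∈ (x :: C) ++ [w] ∨ v ∈ z :: Z := by
      simp only [List.mem_append, List.mem_cons, List.not_mem_nil, or_false] at hv ⊢
      (clear * - hv; tauto)
    exact this.elim (fun q => key hy hne hn y1 wY q) fun q => d q
  · simp only [List.length_append, List.length_cons]
    omega

theorem d2_of_rule (hC : Cac G) (hk : PF k G) (h : Rule k G) : D2 k G := by
  refine ⟨hk, fun w x y hx hy hne hn => (h w x y hx hy hne hn).elim (fun q => ?_) fun q => ?_⟩
  · exact (climb_self hC hx).cr hC hx hy hne hn q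
  · exact ((climb_self hC hy).cr hC hy hx hne.symm (fun a => hn a.symm) q).symm

/-- Two branches at `w`. -/
theorem lp_two (hC : Cac G) (hk : PF k G) {w x y : V} (hx : G.Adj w x) (hy : G.Adj w y)
    (hne : x ≠ y) (hn : ¬ G.Adj x y) : lp G {w} x + lp G {w} y + 1 < k := by
  obtain ⟨A, a1, a2, a3⟩ := lp_ex G (S := {w}) (x := x) hx.ne'
  obtain ⟨B, b1, b2, b3⟩ := lp_ex G (S := {w}) (x := y) hy.ne'
  have wA : w ∉ x :: A := fun q => a2 w q rfl
  have wB : w ∉ y :: B := fun q => b2 w q rfl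
  have := hk.join a1 (b1.cons hy wB) hx.symm fun v hv hv' => by
    rcases List.mem_cons.1 hv' with rfl | hv'
    · exact wA hv
    · exact hC.disj hx hy hne hn a1 b1 wA wB hv hv'
  simp only [List.length_cons] at this
  omega

/-- The two sides of an edge which is in no triangle. -/
theorem lp_bridge (hC : Cac G) (hk : PF k G) {w x : V} (hx : G.Adj w x)
    (hn : ∀ s, G.Adj w s → ¬ G.Adj x s) : lp G {w} x + lp G {x} w < k := by
  obtain ⟨A, a1, a2, a3⟩ := lp_ex G (S := {w}) (x := x) hx.ne'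
  obtain ⟨B, b1, b2, b3⟩ := lp_ex G (S := {x}) (x := w) hx.ne
  have := hk.join b1 a1 hx (hC.disjF hx b1 a1 (fun q => b2 x (List.mem_cons_of_mem _ q) rfl)
    (fun q => a2 w (List.mem_cons_of_mem _ q) rfl) fun c A' B' e1 e2 => by
      subst e1 e2
      exact hn c b1.adj a1.adj)
  omega

/-- Going down one step. -/
theorem lp_child (hC : Cac G) {w x t : V} (hx : G.Adj w x) (ht : G.Adj x t) (hne : t ≠ w)
    (hn : ¬ G.Adj w t) : lp G {x} t + 1 ≤ lp G {w} x ∧ Rg G {x} t ⊆ Rg G {w} x \ {x} := by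
  have hs : ∀ v ∈ Rg G {x} t, v ∉ ({w} : Set V) := fun v hv e =>
    hC.sep ht hx.symm hne (fun a => hn a.symm) (Set.mem_singleton_iff.1 e ▸ hv)
  have tx : t ∉ ({x} : Set V) := ht.ne'
  constructor
  · obtain ⟨T, t1, t2, t3⟩ := lp_ex G tx
    have := lp_ge (S := {w}) (t1.cons ht fun q => t2 x q rfl) fun v hv => by
      rcases List.mem_cons.1 hv with rfl | hv
      · exact hx.ne'
      · exact hs v (t1.mem_Rg t2 v hv)
    simp only [List.length_cons] at this
    omega
  · exact fun v hv => ⟨Rg_trans (Rg_adj hx.ne' (Rg_self _ _) ht hne) (Rg_avoid tx hs hv),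
      Rg_notMem tx hv⟩

/-- The own parts of two vertices of a triangle. -/
theorem lp_tri (hC : Cac G) (hk : PF k G) {x y z : V} (h : Tr G x y z) :
    lp G {y, z} x + lp G {x, y} z + 1 < k ∧ Disjoint (Rg G {y, z} x) (Rg G {x, y} z) := by
  have hx : x ∉ ({y, z} : Set V) := fun q => q.elim h.1.ne h.2.1.ne
  have hz : z ∉ ({x, y} : Set V) := fun q => q.elim h.2.1.ne' h.2.2.ne'
  have key : ∀ {A B : List V}, P G (x :: A) → (∀ v ∈ x :: A, v ∉ ({y, z} : Set V)) → P G (z :: B) →
      (∀ v ∈ z :: B, v ∉ ({x, y} : Set V)) → (x :: A).Disjoint (z :: B) := fun a1 a2 b1 b2 =>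
    Rule_tri hC h a1 b1 (fun q => a2 y (List.mem_cons_of_mem _ q) (Or.inl rfl))
      (fun q => a2 z (List.mem_cons_of_mem _ q) (Or.inr rfl))
      fun q => b2 x (List.mem_cons_of_mem _ q) (Or.inl rfl)
  constructor
  · obtain ⟨A, a1, a2, a3⟩ := lp_ex G hx
    obtain ⟨B, b1, b2, b3⟩ := lp_ex G hz
    have := hk.join a1 (b1.cons h.2.2 fun q => b2 y q (Or.inr rfl)) h.1 fun v hv hv' => by
      rcases List.mem_cons.1 hv' with rfl | hv'
      · exact a2 _ hv (Or.inl rfl)
      · exact key a1 a2 b1 b2 hv hv'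
    simp only [List.length_cons] at this
    omega
  · refine Set.disjoint_left.2 fun v h1 h2 => ?_
    obtain ⟨A, a1, a2⟩ := Rg_path hx h1 fun e => Rg_notMem hz h2 (Or.inl e.symm)
    obtain ⟨B, b1, b2⟩ := Rg_path hz h2 fun e => Rg_notMem hx h1 (Or.inr e.symm)
    exact key a1 a2 b1 b2 (a := v) (by simp) (by simp)

end PS
end

-- merged part: Pool.Agent.Work.MP_3e1eec_co.Ctr
section
/-! Long paths and central vertices.
Plan.  `half_path`: from `Half k G w x y` the path `Z.reverse ++ z :: w :: y :: Y` has at least `k - 1 - ncard` vertices.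
`long`: take a longest path `Q`, it has `k - 1` or `k - 2 ≥ 7` vertices; suppose `k - 2`.  The neighbours of the first vertex `q₁` lie on `Q`, hence are among `q₂`, `q₃` (`Cac`).  If `q₁` is not adjacent to `q₃` use the rule at `q₂` for `q₁`, `q₃` (in the second case `lp {..} q₁ = 1` and the path `Z.reverse ++ z :: q₂ :: x' :: [q₃]` is long).  So both ends lie in triangles; by `T2` the vertex `q₄` is in no triangle, and the rule at `q₄` gives a path with `k - 1` vertices.
`center`: `w = q₄` if `q₃`, `q₅` are not adjacent, else `w = q₅` (`Cac.common`); a longest path from `w` misses one of the two sides (`Cac.sepR`), and both sides have at least three vertices.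
`half_long`: a path from `v` to the first vertex on `Q`, continued along the longer side.
`small`: without `Trip` reachable vertices are equal or adjacent. -/

open SimpleGraph

namespace PS
variable {V : Type} {G : SimpleGraph V} [Finite V] {k : ℕ}

omit [Finite V] in
theorem Ctr_first {p : V → Prop} {l : List V} (h : ∃ t ∈ l, p t) :
    ∃ L t R, l = L ++ t :: R ∧ p t ∧ ∀ s ∈ L, ¬ p s := by
  induction l with
  | nil => obtain ⟨t, ht, -⟩ := h; cases ht
  | cons a l ih =>
    by_cases ha : p a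
    · exact ⟨[], a, l, rfl, ha, fun s hs => by cases hs⟩
    · obtain ⟨t, ht, hp⟩ := h
      rcases List.mem_cons.1 ht with rfl | ht
      · exact absurd hp ha
      · obtain ⟨L, t', R, e, h1, h2⟩ := ih ⟨t, ht, hp⟩
        refine ⟨a :: L, t', R, by rw [e]; rfl, h1, fun s hs => ?_⟩
        rcases List.mem_cons.1 hs with rfl | hs
        · exact ha
        · exact h2 s hs

theorem Ctr_lp {v t : V} {A L R B : List V} (e : v :: A = L ++ t :: R) (h : P G (L ++ t :: B)) :
    L.length + 1 + B.length ≤ lp G ∅ v := by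
  cases L with
  | nil =>
    obtain ⟨rfl, -⟩ := List.cons.inj e
    have := lp_ge (S := ∅) (x := v) (A := B) h (fun _ _ hs => hs)
    simp only [List.length_nil]
    omega
  | cons a L =>
    obtain ⟨rfl, -⟩ := List.cons.inj e
    have := lp_ge (S := ∅) (x := v) (A := L ++ t :: B) h (fun _ _ hs => hs)
    simp only [List.length_append, List.length_cons] at this ⊢
    omega

theorem Ctr_half (hC : Cac G) {w x y : V} (hy : G.Adj w y) (h : Half k G w x y) :
    ∃ L, P G L ∧ k ≤ L.length + 1 + (G.commonNeighbors w x).ncard := by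
  obtain ⟨z, hz, -, hzy, -, hk⟩ := h
  have hz' : z ∉ ({w, y} : Set V) := by
    rintro (h | h)
    · exact hz.ne' h
    · exact hzy h
  have hy' : y ∉ ({w, z} : Set V) := by
    rintro (h | h)
    · exact hy.ne' h
    · exact hzy (Eq.symm h)
  obtain ⟨Z, hZ, hZ', eZ⟩ := lp_ex G hz'
  obtain ⟨Y, hY, hY', eY⟩ := lp_ex G hy'
  have hwZ : w ∉ z :: Z := fun hm => hZ' w hm (Or.inl rfl)
  have hwY : w ∉ y :: Y := fun hm => hY' w hm (Or.inl rfl)
  have hd : (z :: Z).Disjoint (y :: Y) := by
    by_cases ha : G.Adj z y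
    · refine hC.disjF ha hZ hY (fun hm => hZ' y (List.mem_cons_of_mem _ hm) (Or.inr rfl))
        (fun hm => hY' z (List.mem_cons_of_mem _ hm) (Or.inr rfl)) ?_
      rintro s A' B' rfl rfl
      have e := hC.common ha hZ.adj hY.adj hz.symm hy.symm
      exact hwZ (by rw [← e]; simp)
    · exact hC.disj hz hy hzy ha hZ hY hwZ hwY
  have hP : P G (Z.reverse ++ z :: w :: y :: Y) := by
    refine hZ.join (hY.cons hy hwY) hz.symm fun v h1 h2 => ?_
    rcases List.mem_cons.1 h2 with rfl | h2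
    · exact hwZ h1
    · exact hd h1 h2
  refine ⟨_, hP, ?_⟩
  simp only [List.length_append, List.length_reverse, List.length_cons]
  omega

omit [Finite V] in
theorem Ctr_nt {w x : V} (h : NT G w) (hx : G.Adj w x) : (G.commonNeighbors w x).ncard = 0 := by
  have : G.commonNeighbors w x = ∅ := by
    ext s
    simp only [Set.mem_empty_iff_false, iff_false]
    exact fun hs => h x s hx hs.1 hs.2
  rw [this, Set.ncard_empty]

theorem Ctr_end (hC : Cac G) (hD : D2 k G) (hmax : ∀ L, P G L → L.length + 2 ≤ k) {a b c : V}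
    {R : List V} (hQ : P G (a :: b :: c :: R)) (hl : R.length + 5 = k) : G.Adj a c := by
  by_contra hn
  have hab := hQ.adj
  have hbc := hQ.tail.adj
  have hac : a ≠ c := fun e => hQ.notMem (by rw [e]; simp)
  have hleaf : ∀ s, G.Adj a s → s = b := by
    intro s hs
    by_cases hm : s ∈ a :: b :: c :: R
    · simp only [List.mem_cons] at hm
      rcases hm with rfl | rfl | rfl | hm
      · exact absurd rfl hs.ne
      · rfl
      · exact absurd hs hn
      · obtain ⟨R1, R2, rfl⟩ := List.append_of_mem hm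
        have h1 : P G (a :: ((b :: c :: R1) ++ [s])) :=
          hQ.pre ⟨R2, by simp⟩
        have := hC _ _ _ h1 hs
        simp at this
    · have := hmax _ (hQ.cons hs.symm hm)
      simp only [List.length_cons] at this
      omega
  rcases D2.rule hC hD b a c hab.symm hbc hac hn with h | h
  · obtain ⟨L, hL, hk⟩ := Ctr_half hC hbc h
    have e : G.commonNeighbors b a = ∅ := by
      ext s
      simp only [Set.mem_empty_iff_false, iff_false]
      exact fun hs => (G.ne_of_adj hs.1) (hleaf s hs.2).symm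
    rw [e, Set.ncard_empty] at hk
    have := hmax L hL
    omega
  · rcases Set.eq_empty_or_nonempty (G.commonNeighbors b c) with e | ⟨x, hx⟩
    · obtain ⟨L, hL, hk⟩ := Ctr_half hC hab.symm h
      rw [e, Set.ncard_empty] at hk
      have := hmax L hL
      omega
    obtain ⟨z, hz, hzc, hza, hcz, hk⟩ := h
    have h1 := hC.ncard_le hbc
    have hz' : z ∉ ({b, a} : Set V) := by
      rintro (h | h)
      · exact hz.ne' h
      · exact hza h
    have ha' : a ∉ ({b, z} : Set V) := by
      rintro (h | h)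
      · exact hab.ne h
      · exact hza (Eq.symm h)
    obtain ⟨Z, hZ, hZ', eZ⟩ := lp_ex G hz'
    obtain ⟨A, hA, hA', eA⟩ := lp_ex G ha'
    have hA0 : A = [] := by
      cases A with
      | nil => rfl
      | cons s A => exact absurd (Or.inl (hleaf s hA.adj)) (hA' s (by simp))
    subst hA0
    have hbx : G.Adj b x := hx.1
    have hcx : G.Adj c x := hx.2
    have hbZ : b ∉ z :: Z := fun hm => hZ' b hm (Or.inl rfl)
    have hcxP : P G [c, x] := (P.single x).cons hcx (by simpa using hcx.ne)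
    have hd := hC.disj hz hbc hzc (fun h => hcz h.symm) hZ hcxP hbZ
      (by simpa using ⟨hbc.ne, hbx.ne⟩)
    have hxc : P G [x, c] := (P.single c).cons hcx.symm (by simpa using hcx.ne')
    have hP : P G (Z.reverse ++ z :: b :: [x, c]) := by
      refine hZ.join (hxc.cons hbx (by simpa using ⟨hbx.ne, hbc.ne⟩)) hz.symm ?_
      intro v h5 h2
      simp only [List.mem_cons, List.not_mem_nil, or_false] at h2
      rcases h2 with e | e | e
      · exact hbZ (e ▸ h5)
      · exact hd h5 (by simp [e])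
      · exact hd h5 (by simp [e])
    have := hmax _ hP
    simp only [List.length_append, List.length_reverse, List.length_cons, List.length_nil]
      at this eA
    omega

theorem long (hC : Cac G) (hD : D2 k G) (h2 : T2 G) (hk : 9 ≤ k) (ht : Trip G) :
    ∃ Q, P G Q ∧ Q.length + 1 = k := by
  by_contra hno
  have hmax : ∀ L, P G L → L.length + 2 ≤ k := fun L hL => by
    have h1 := hD.1 L hL
    have h3 : L.length + 1 ≠ k := fun e => hno ⟨L, hL, e⟩
    omega
  obtain ⟨w, x, y, hx, hy, hne, hn⟩ := ht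
  have hQ : ∃ Q, P G Q ∧ Q.length + 2 = k := by
    rcases D2.rule hC hD w x y hx hy hne hn with h | h
    · obtain ⟨L, hL, h1⟩ := Ctr_half hC hy h
      have h3 := hC.ncard_le hx
      have := hmax L hL
      exact ⟨L, hL, by omega⟩
    · obtain ⟨L, hL, h1⟩ := Ctr_half hC hx h
      have h3 := hC.ncard_le hy
      have := hmax L hL
      exact ⟨L, hL, by omega⟩
  obtain ⟨Q', hQ', hl'⟩ := hQ
  rcases Q' with _ | ⟨r1, _ | ⟨r2, _ | ⟨r3, R⟩⟩⟩ <;>
    simp only [List.length_cons, List.length_nil] at hl' <;> try omega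
  have hr := Ctr_end hC hD hmax hQ' (by omega)
  have hQ := hQ'.reverse
  have hRl : R.reverse.length = R.length := List.length_reverse
  simp only [List.reverse_cons, List.append_assoc, List.cons_append, List.nil_append] at hQ
  generalize R.reverse = M at hQ hRl
  rcases M with _ | ⟨q1, _ | ⟨q2, _ | ⟨q3, _ | ⟨q4, M⟩⟩⟩⟩ <;>
    simp only [List.length_cons, List.length_nil] at hRl <;> try omega
  simp only [List.cons_append] at hQ
  have hq := Ctr_end hC hD hmax hQ
    (by simp only [List.length_append, List.length_cons, List.length_nil]; omega)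
  have hnd := hQ.1
  have hnt : NT G q4 := by
    by_contra hnt
    have hr1 : ¬ NT G r1 := fun h => h r2 r3 hQ'.adj hr hQ'.tail.adj
    have := h2 q1 q2 q3 q4 r1 ⟨hQ.adj, hq, hQ.tail.adj⟩ hnt hr1 ?_ ?_
    · rcases this with e | e
      · exact hQ.tail.tail.tail.notMem (by rw [e]; simp)
      · have h4 : P G (q4 :: ((M ++ [r3, r2]) ++ [r1])) := by
          have := hQ.tail.tail.tail
          simpa using this
        have := hC _ _ _ h4 e
        simp at this
    · rintro (e | e | e)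
      · exact hQ.notMem (by rw [← e]; simp)
      · exact hQ.tail.notMem (by rw [← e]; simp)
      · exact hQ.tail.tail.notMem (by rw [← e]; simp)
    · rintro (e | e | e)
      · exact hQ.notMem (by rw [← e]; simp)
      · exact hQ.tail.notMem (by rw [← e]; simp)
      · exact hQ.tail.tail.notMem (by rw [← e]; simp)
  obtain ⟨q5, T, e⟩ : ∃ q5 T, M ++ [r3, r2, r1] = q5 :: T := by
    cases M with
    | nil => exact ⟨_, _, rfl⟩
    | cons m M => exact ⟨_, _, rfl⟩
  rw [e] at hQ
  have h3 := hQ.tail.tail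
  have h43 := h3.adj.symm
  have h45 := h3.tail.adj
  have h35 : q3 ≠ q5 := fun e => h3.notMem (by rw [e]; simp)
  rcases D2.rule hC hD q4 q3 q5 h43 h45 h35 (hnt _ _ h43 h45) with h | h
  · obtain ⟨L, hL, h1⟩ := Ctr_half hC h45 h
    rw [Ctr_nt hnt h43] at h1
    have := hmax L hL
    omega
  · obtain ⟨L, hL, h1⟩ := Ctr_half hC h43 h
    rw [Ctr_nt hnt h45] at h1
    have := hmax L hL
    omega

theorem Ctr_mid (hC : Cac G) (hP : PF k G) {L R : List V} {x w y : V}
    (hQ : P G (L ++ x :: w :: y :: R)) (hn : ¬ G.Adj x y) (hL : 2 ≤ L.length)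
    (hR : 2 ≤ R.length) : lp G ∅ w + 4 ≤ k := by
  obtain ⟨A, hA, -, eA⟩ := lp_ex G (S := ∅) (x := w) (fun h => h)
  have h1 : P G (w :: y :: R) := hQ.right.tail
  have h2 : P G (w :: x :: L.reverse) := by
    have : P G (L ++ [x, w]) := hQ.pre ⟨y :: R, by simp⟩
    simpa using this.reverse
  have hxy : x ≠ y := fun e => hQ.right.notMem (by rw [e]; simp)
  have hs : ∀ {B : List V} {t : V}, P G (t :: B) → ∀ v ∈ B, v ∉ ({t} : Set V) :=
    fun h v hv e => h.notMem (by rw [← Set.mem_singleton_iff.1 e]; exact hv)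
  by_cases hd : A.Disjoint (y :: R)
  · have := hP.join0 hA h1 hd
    simp only [List.length_cons] at this
    omega
  · have hd' : A.Disjoint (x :: L.reverse) := by
      intro s h3 h4
      refine hd fun t h5 h6 => ?_
      refine hC.sep h2.adj h1.adj hxy hn ?_
      exact Rg_trans (Rg_trans (h2.tail.mem_Rg (hs h2) s h4) (hA.tail.mem_Rg' (hs hA) h3 h5))
        (Rg_symm (h1.tail.mem_Rg (hs h1) t h6))
    have := hP.join0 hA h2 hd'
    simp only [List.length_cons, List.length_reverse] at this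
    omega

theorem center (hC : Cac G) (hP : PF k G) (hk : 9 ≤ k) {Q : List V} (hQ : P G Q)
    (hl : Q.length + 1 = k) : ∃ w ∈ Q, lp G ∅ w + 4 ≤ k := by
  rcases Q with _ | ⟨q1, _ | ⟨q2, _ | ⟨q3, _ | ⟨q4, _ | ⟨q5, _ | ⟨q6, R⟩⟩⟩⟩⟩⟩ <;>
    simp only [List.length_cons, List.length_nil] at hl <;> try omega
  by_cases h : G.Adj q3 q5
  · refine ⟨q5, by simp, Ctr_mid hC hP (L := [q1, q2, q3]) (R := R) hQ (fun h' => ?_)
      (by simp) (by omega)⟩
    have h3 := hQ.tail.tail
    have e := hC.common h3.tail.adj h3.adj.symm h.symm h' h3.tail.tail.adj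
    exact h3.notMem (by rw [e]; simp)
  · exact ⟨q4, by simp, Ctr_mid hC hP (L := [q1, q2]) (R := q6 :: R) hQ h (by simp)
      (by simp only [List.length_cons]; omega)⟩

theorem half_long {Q : List V} (hQ : P G Q) (hl : Q.length + 1 = k) {u v : V} (hu : u ∈ Q)
    (hr : G.Reachable v u) : k ≤ 2 * lp G ∅ v := by
  obtain ⟨A, hA, hm⟩ : ∃ A, P G (v :: A) ∧ u ∈ v :: A := by
    by_cases e : v = u
    · exact ⟨[], P.single v, by simp [e]⟩
    · obtain ⟨A, hA⟩ := exists_P hr e
      exact ⟨_, hA, by simp⟩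
  obtain ⟨L, t, R, e, ht, hL⟩ := Ctr_first (p := fun s => s ∈ Q) ⟨u, hm, hu⟩
  obtain ⟨Q1, Q2, rfl⟩ := List.append_of_mem ht
  have h0 : P G (L ++ [t]) := by
    rw [e] at hA
    exact hA.pre ⟨R, by simp⟩
  have h1 : P G (L ++ t :: Q2) := h0.glue hQ.right fun s h h' => hL s h (by simp [h'])
  have h2 : P G (L ++ t :: Q1.reverse) := by
    refine h0.glue ?_ fun s h h' => hL s h (by simp [List.mem_reverse.1 h'])
    have : P G (Q1 ++ [t]) := hQ.pre ⟨Q2, by simp⟩
    simpa using this.reverse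
  have h3 := Ctr_lp e h1
  have h4 := Ctr_lp e h2
  simp only [List.length_append, List.length_cons, List.length_reverse] at hl h4
  omega

omit [Finite V] in
theorem Ctr_tr (ht : ¬ Trip G) {w x y : V} (hx : G.Adj w x) (hy : G.Adj w y) (hne : x ≠ y) :
    G.Adj x y := by
  by_contra hn
  exact ht ⟨w, x, y, hx, hy, hne, hn⟩

theorem small3 (hC : Cac G) (ht : ¬ Trip G) (v : V) : lp G ∅ v ≤ 3 ∧ (Cm G v).ncard ≤ 3 := by
  constructor
  · obtain ⟨A, hA, -, eA⟩ := lp_ex G (S := ∅) (x := v) (fun h => h)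
    rcases A with _ | ⟨a, _ | ⟨b, _ | ⟨c, A⟩⟩⟩ <;>
      simp only [List.length_cons, List.length_nil] at eA <;> try omega
    have h1 := Ctr_tr ht hA.adj.symm hA.tail.adj fun e => hA.notMem (by rw [e]; simp)
    have h2 := Ctr_tr ht h1.symm hA.tail.tail.adj fun e => hA.notMem (by rw [e]; simp)
    have h3 : P G (v :: ([a, b] ++ [c])) := hA.pre ⟨A, by simp⟩
    have := hC _ _ _ h3 h2
    simp at this
  · have h1 : ∀ u ∈ Cm G v, u = v ∨ G.Adj v u := by
      intro u hu
      have hu' : G.Reachable v u := hu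
      rw [reachable_iff_reflTransGen] at hu'
      induction hu' with
      | refl => exact Or.inl rfl
      | @tail s t hs hst ih =>
        rcases ih ((reachable_iff_reflTransGen _ _).2 hs) with rfl | h
        · exact Or.inr hst
        · by_cases e : v = t
          · exact Or.inl e.symm
          · exact Or.inr (Ctr_tr ht h.symm hst e)
    obtain ⟨a, b, h2⟩ : ∃ a b, Cm G v ⊆ {v, a, b} := by
      by_cases ha : ∃ a, G.Adj v a
      · obtain ⟨a, ha⟩ := ha
        by_cases hb : ∃ b, G.Adj v b ∧ b ≠ a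
        · obtain ⟨b, hb, hba⟩ := hb
          refine ⟨a, b, fun u hu => ?_⟩
          rcases h1 u hu with e | h
          · exact Or.inl e
          by_cases e : u = a
          · exact Or.inr (Or.inl e)
          · exact Or.inr (Or.inr (hC.common ha h (Ctr_tr ht ha h (Ne.symm e)) hb
              (Ctr_tr ht ha hb hba.symm)))
        · refine ⟨a, a, fun u hu => ?_⟩
          rcases h1 u hu with e | h
          · exact Or.inl e
          · by_contra hn
            exact hb ⟨u, h, fun e => hn (Or.inr (Or.inl e))⟩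
      · refine ⟨v, v, fun u hu => ?_⟩
        rcases h1 u hu with e | h
        · exact Or.inl e
        · exact absurd ⟨u, h⟩ ha
    refine (Set.ncard_le_ncard h2 (Set.toFinite _)).trans ?_
    have h3 := Set.ncard_insert_le v ({a, b} : Set V)
    have h4 := Set.ncard_insert_le a ({b} : Set V)
    rw [Set.ncard_singleton] at h4
    omega

theorem small2 (hn : ∀ t, NT G t) (ht : ¬ Trip G) (v : V) : lp G ∅ v ≤ 2 := by
  obtain ⟨A, hA, -, eA⟩ := lp_ex G (S := ∅) (x := v) (fun h => h)
  rcases A with _ | ⟨a, _ | ⟨b, A⟩⟩ <;>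
    simp only [List.length_cons, List.length_nil] at eA <;> try omega
  exact absurd (Ctr_tr ht hA.adj.symm hA.tail.adj fun e => hA.notMem (by rw [e]; simp))
    (hn a v b hA.adj.symm hA.tail.adj)

/-- Vertices in different components. -/
theorem cr_iff_lp {x y : V} (h : ¬ G.Reachable x y) : Cr k G x y ↔ k ≤ lp G ∅ x + lp G ∅ y := by
  constructor
  · rintro ⟨A, B, hA, hB, -, hk⟩
    have h1 := lp_ge (S := ∅) hA (fun _ _ hs => hs)
    have h2 := lp_ge (S := ∅) hB (fun _ _ hs => hs)
    omega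
  · intro hk
    obtain ⟨A, hA, -, eA⟩ := lp_ex G (S := ∅) (x := x) (fun h => h)
    obtain ⟨B, hB, -, eB⟩ := lp_ex G (S := ∅) (x := y) (fun h => h)
    exact ⟨A, B, hA, hB, fun v h1 h2 => h ((hA.reach v h1).trans (hB.reach v h2).symm), by omega⟩

end PS
end

-- merged part: Pool.Agent.Work.MP_3e1eec_co.Con1
section
/-! Pendant vertices: doubling and twin leaves.
Plan.  `pend G π` adds a pendant vertex `inr w` at `π w`.  A path of `pend G π` has new vertices only at its ends; removing them leaves the image of a path of `G` (`List.map Sum.inl`), or the path is `[inr, inl, inr]` or shorter.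
`Good.dbl`: `W = {v // Leaf G v} × Bool`, `π = fun w => w.1.1`.  The leaves of the new graph are exactly the new vertices.  Non adjacent old pairs: extend both witnesses at their ends.  New `x'` at the leaf `x`, old `y` not adjacent to `x`: use `x' :: x :: A`, extended at the end (by the sibling of `x'` if `A = []`).  `y` the neighbour of `x`: `[x', x, x'']` and the rest of the path of `lf`.  Siblings: `lf`.  New vertices at different leaves: both witnesses with the new start.
`Ok.twin`: `W = Unit`, `π` the neighbour of the leaf `v`; replace the new vertex by `v` or `v` by the new vertex. -/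

open SimpleGraph

namespace PS
variable {V W : Type}

/-- Add pendant vertices. -/
def pend (G : SimpleGraph V) (π : W → V) : SimpleGraph (V ⊕ W) where
  Adj
    | .inl u, .inl v => G.Adj u v
    | .inl u, .inr w => u = π w
    | .inr w, .inl u => u = π w
    | .inr _, .inr _ => False
  symm := ⟨by rintro (u | u) (v | v) h <;> first | exact h.symm | exact h⟩
  loopless := ⟨by rintro (u | u) h <;> first | exact h.ne rfl | exact h⟩

theorem pend_card [Finite V] [Finite W] (G : SimpleGraph V) (π : W → V) :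
    (pend G π).edgeSet.ncard = G.edgeSet.ncard + Nat.card W := by
  have e : (pend G π).edgeSet = Sym2.map Sum.inl '' G.edgeSet ∪
      Set.range fun w => s(Sum.inl (π w), Sum.inr w) := by
    ext z
    induction z using Sym2.ind with
    | _ a b =>
      constructor
      · intro h
        rcases a with a | a <;> rcases b with b | b
        · exact Or.inl ⟨s(a, b), h, rfl⟩
        · exact Or.inr ⟨b, by rw [show a = π b from h]⟩
        · exact Or.inr ⟨a, by rw [show b = π a from h]; exact Sym2.eq_swap⟩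
        · exact h.elim
      · rintro (⟨z, h, e⟩ | ⟨w, e⟩) <;> rw [← e]
        · induction z using Sym2.ind with
          | _ u v => exact h
        · exact (rfl : π w = π w)
  rw [e, Set.ncard_union_eq, Set.ncard_image_of_injective _ (Sym2.map.injective Sum.inl_injective),
    Set.ncard_range_of_injective fun w w' h => by simpa using (by simpa using h : _ ∧ w = w').2]
  refine Set.disjoint_left.2 ?_
  rintro _ ⟨z, -, rfl⟩ ⟨w, e⟩
  induction z using Sym2.ind with
  | _ u v => simp at e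

variable {G : SimpleGraph V} {π : W → V}

theorem Con1_map (π : W → V) {l : List V} (h : P G l) : P (pend G π) (l.map Sum.inl) :=
  ⟨h.1.map Sum.inl_injective, (List.isChain_map _).2 h.2⟩

theorem Con1_unmap {H : SimpleGraph W} (σ : W → V) {l : List W} (h : P H l)
    (h1 : ∀ a ∈ l, ∀ b ∈ l, H.Adj a b → G.Adj (σ a) (σ b))
    (h2 : ∀ a ∈ l, ∀ b ∈ l, σ a = σ b → a = b) : P G (l.map σ) :=
  ⟨h.1.map_on h2, (List.isChain_map _).2 (h.2.imp_of_mem_imp fun a b ha hb => h1 a ha b hb)⟩

theorem Con1_last (x : V) (A : List V) : ∃ N, x :: A = N ++ [A.getLastD x] := by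
  induction A generalizing x with
  | nil => exact ⟨[], rfl⟩
  | cons y l ih =>
    obtain ⟨N, e⟩ := ih y
    exact ⟨x :: N, by rw [List.getLastD_cons, List.cons_append, ← e]⟩

theorem Con1_int {a b v : V} {M : List V} (h : P G (a :: (M ++ [b]))) (hv : v ∈ M) :
    ¬ Leaf G v := by
  rintro ⟨p, -, hp⟩
  obtain ⟨M₁, M₂, rfl⟩ := List.append_of_mem hv
  obtain ⟨N, e⟩ := Con1_last a M₁
  obtain ⟨t, N', e'⟩ := List.exists_cons_of_ne_nil (l := M₂ ++ [b]) (by simp)
  have e2 : a :: (M₁ ++ v :: M₂ ++ [b]) = N ++ M₁.getLastD a :: v :: t :: N' := by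
    rw [List.append_assoc, List.cons_append, e', ← List.cons_append, e]
    simp
  rw [e2] at h
  have k := h.right
  exact k.notMem (by rw [hp _ k.adj.symm, ← hp _ k.tail.adj]; simp)

theorem Con1_ends {l : List V} (h : 2 ≤ l.length) : ∃ a M b, l = a :: (M ++ [b]) := by
  rcases l with _ | ⟨a, t⟩
  · simp at h
  rcases List.eq_nil_or_concat t with rfl | ⟨M, b, rfl⟩
  · simp at h
  · exact ⟨a, M, b, by simp⟩

theorem Con1_leaf (w : W) : Leaf (pend G π) (Sum.inr w) :=
  ⟨Sum.inl (π w), rfl, by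
    rintro (u | u) h
    exacts [congrArg Sum.inl h, h.elim]⟩

theorem Con1_end {x : V} {A : List V} (h : P G (x :: A)) {w : W} (hw : π w = A.getLastD x) :
    P (pend G π) (Sum.inl x :: (A.map Sum.inl ++ [Sum.inr w])) := by
  obtain ⟨N, e⟩ := Con1_last x A
  have k := Con1_map π h
  rw [e, List.map_append] at k
  have := P.append k (P.single (Sum.inr w)) hw.symm (by simp [List.Disjoint])
  have e' : Sum.inl x :: (A.map Sum.inl ++ [Sum.inr w]) =
      (x :: A).map (Sum.inl : V → V ⊕ W) ++ [Sum.inr w] := rfl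
  rw [e', e]
  simpa using this

theorem Con1_pf {k : ℕ} (h : PF k G) (π : W → V) : PF (k + 2) (pend G π) := fun l hl => by
  by_cases c : 2 ≤ l.length
  swap
  · omega
  obtain ⟨a, M, b, rfl⟩ := Con1_ends c
  have o : ∀ v ∈ M, ∃ u, v = Sum.inl u := by
    rintro (u | w) hv
    exacts [⟨u, rfl⟩, absurd (Con1_leaf w) (Con1_int hl hv)]
  have := h _ (Con1_unmap (G := G) (Sum.elim id π) hl.tail.left (fun a ha b hb e => by
    obtain ⟨u, rfl⟩ := o a ha
    obtain ⟨v, rfl⟩ := o b hb
    exact e) fun a ha b hb e => by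
      obtain ⟨u, rfl⟩ := o a ha
      obtain ⟨v, rfl⟩ := o b hb
      exact congrArg Sum.inl e)
  simp only [List.length_map, List.length_cons, List.length_append, List.length_nil] at this ⊢
  omega

theorem Con1_con (h : ∀ u v, G.Reachable u v) (π : W → V) (u v : V ⊕ W) :
    (pend G π).Reachable u v := by
  have k : ∀ z : V ⊕ W, (pend G π).Reachable z (Sum.inl (Sum.elim id π z)) := by
    rintro (z | z)
    · rfl
    · exact Adj.reachable (rfl : π z = π z)
  exact (k u).trans (((h _ _).map (⟨Sum.inl, fun e => e⟩ : G →g pend G π)).trans (k v).symm)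

/-- Two pendant vertices at every leaf. -/
def Con1_d (G : SimpleGraph V) : SimpleGraph (V ⊕ {v // Leaf G v} × Bool) := pend G fun w => w.1.1

/-- The projection. -/
def Con1_r (G : SimpleGraph V) : V ⊕ {v // Leaf G v} × Bool → V := Sum.elim id fun w => w.1.1

theorem Con1_old (v : V) : ¬ Leaf (Con1_d G) (Sum.inl v) := by
  rintro ⟨p, hp, h⟩
  have n : ¬ Leaf G v := fun c => by
    have := (h (Sum.inr (⟨v, c⟩, true)) rfl).trans (h (Sum.inr (⟨v, c⟩, false)) rfl).symm
    simp at this
  rcases p with p | ⟨⟨p, c⟩, b⟩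
  · exact n ⟨p, hp, fun u hu => Sum.inl_injective (h (Sum.inl u) hu)⟩
  · exact n ((show v = p from hp) ▸ c)

theorem Con1_w0 {x : V} {A : List V} (h : P G (x :: A)) (hl : Leaf G (A.getLastD x)) :
    ∃ A', P (Con1_d G) (Sum.inl x :: A') ∧ A'.length = A.length + 1 ∧
      Leaf (Con1_d G) (A'.getLastD (Sum.inl x)) ∧ ∀ v ∈ Sum.inl x :: A', Con1_r G v ∈ x :: A := by
  refine ⟨_, Con1_end h (w := (⟨_, hl⟩, true)) rfl, by simp, ?_, ?_⟩
  · rw [List.getLastD_concat]
    exact Con1_leaf _
  · intro v hv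
    simp only [List.mem_cons, List.mem_append, List.mem_map, List.not_mem_nil, or_false] at hv
    rcases hv with rfl | ⟨u, hu, rfl⟩ | rfl
    exacts [List.mem_cons_self, List.mem_cons_of_mem _ hu, List.getLastD_mem_cons]

theorem Con1_w1 {w : {v // Leaf G v} × Bool} {A : List V} (h : P G (w.1.1 :: A))
    (hl : Leaf G (A.getLastD w.1.1)) :
    ∃ A', P (Con1_d G) (Sum.inr w :: A') ∧ A'.length = A.length + 2 ∧
      Leaf (Con1_d G) (A'.getLastD (Sum.inr w)) ∧
      (∀ v ∈ Sum.inr w :: A', Con1_r G v ∈ w.1.1 :: A) ∧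
      ∀ w', Sum.inr w' ∈ A' → w'.1.1 = A.getLastD w.1.1 := by
  refine ⟨_, (Con1_end h (w := (⟨_, hl⟩, !w.2)) rfl).cons rfl ?_, by simp, ?_, ?_, ?_⟩
  · simp [Prod.ext_iff]
  · rw [List.getLastD_cons, List.getLastD_concat]
    exact Con1_leaf _
  · intro v hv
    simp only [List.mem_cons, List.mem_append, List.mem_map, List.not_mem_nil, or_false] at hv
    rcases hv with rfl | rfl | ⟨u, hu, rfl⟩ | rfl
    exacts [List.mem_cons_self, List.mem_cons_self, List.mem_cons_of_mem _ hu,
      List.getLastD_mem_cons]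
  · intro w' hw
    simp only [List.mem_cons, List.mem_append, List.mem_map, List.not_mem_nil, or_false] at hw
    rcases hw with hw | ⟨u, -, hw⟩ | hw
    · cases hw
    · cases hw
    · cases hw
      rfl

theorem Con1_w {z : V ⊕ {v // Leaf G v} × Bool} {A : List V} (h : P G (Con1_r G z :: A))
    (hl : Leaf G (A.getLastD (Con1_r G z))) :
    ∃ A', P (Con1_d G) (z :: A') ∧ A.length + 1 ≤ A'.length ∧
      Leaf (Con1_d G) (A'.getLastD z) ∧ ∀ v ∈ z :: A', Con1_r G v ∈ Con1_r G z :: A := by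
  rcases z with x | w
  · obtain ⟨A', h1, h2, h3, h4⟩ := Con1_w0 h hl
    exact ⟨A', h1, h2.ge, h3, h4⟩
  · obtain ⟨A', h1, h2, h3, h4, -⟩ := Con1_w1 h hl
    exact ⟨A', h1, by omega, h3, h4⟩

theorem Con1_lf {k : ℕ} (hk : 4 ≤ k) (h : Gd k G) {x y : V} (hx : Leaf G x) (ha : G.Adj x y) :
    ∃ B, P G (x :: y :: B) ∧ B.length + 3 = k ∧ Leaf G (B.getLastD y) ∧ ¬ Leaf G y := by
  obtain ⟨A, h1, h2, h3⟩ := h.lf x hx
  obtain ⟨a, M, b, rfl⟩ := Con1_ends (l := A) (by omega)
  obtain ⟨p, -, hp⟩ := hx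
  obtain rfl : a = y := (hp _ h1.adj).trans (hp _ ha).symm
  exact ⟨_, h1, by simpa using h2, by rwa [List.getLastD_cons] at h3,
    Con1_int (M := a :: M) h1 List.mem_cons_self⟩

theorem Con1_nb {k : ℕ} (hk : 4 ≤ k) (h : Gd k G) (w : {v // Leaf G v} × Bool) {y : V}
    (ha : G.Adj w.1.1 y) : ∃ A B, P (Con1_d G) (Sum.inr w :: A) ∧ P (Con1_d G) (Sum.inl y :: B) ∧
      (Sum.inr w :: A).Disjoint (Sum.inl y :: B) ∧ k + 2 ≤ A.length + B.length + 2 ∧
      Leaf (Con1_d G) (A.getLastD (Sum.inr w)) ∧ Leaf (Con1_d G) (B.getLastD (Sum.inl y)) := by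
  obtain ⟨B, h1, h2, h3, -⟩ := Con1_lf hk h w.1.2 ha
  obtain ⟨A', a1, a2, a3, a4, -⟩ := Con1_w1 (w := w) (P.single _) w.1.2
  obtain ⟨B', b1, b2, b3, b4⟩ := Con1_w0 h1.tail h3
  exact ⟨A', B', a1, b1, fun v hv hv' => h1.notMem (List.mem_singleton.1 (a4 v hv) ▸ b4 v hv'),
    by simp only [List.length_nil] at a2; omega, a3, b3⟩

theorem Con1_gd {k : ℕ} (hk : 4 ≤ k) (h : Gd k G) : Gd (k + 2) (Con1_d G) := by
  refine ⟨Con1_pf h.pf _, Con1_con h.con _, ?_, fun z z' hne hn => ?_⟩
  · rintro (v | w) hv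
    · exact absurd hv (Con1_old v)
    · obtain ⟨A, h1, h2, h3⟩ := h.lf _ w.1.2
      obtain ⟨A', a1, a2, a3, -⟩ := Con1_w1 h1 h3
      exact ⟨A', a1, by omega, a3⟩
  by_cases e : Con1_r G z = Con1_r G z'
  · rcases z with x | w <;> rcases z' with y | w'
    · exact absurd (congrArg Sum.inl e) hne
    · exact absurd e hn
    · exact absurd e.symm hn
    · obtain ⟨A, h1, h2, h3⟩ := h.lf _ w.1.2
      obtain ⟨A', a1, a2, a3, -, a5⟩ := Con1_w1 h1 h3
      refine ⟨A', [], a1, P.single _, fun v hv hv' => ?_, by simp; omega, a3, Con1_leaf _⟩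
      obtain rfl := List.mem_singleton.1 hv'
      rcases List.mem_cons.1 hv with c | c
      · exact hne c.symm
      · obtain ⟨a, t, rfl⟩ := List.exists_cons_of_length_pos (l := A) (by omega)
        refine h1.notMem ?_
        rw [show w.1.1 = t.getLastD a from
          e.trans ((a5 _ c).trans List.getLastD_cons)]
        exact List.getLastD_mem_cons
  by_cases a : G.Adj (Con1_r G z) (Con1_r G z')
  · rcases z with x | w <;> rcases z' with y | w'
    · exact absurd a hn
    · obtain ⟨A, B, a1, a2, a3, a4, a5, a6⟩ := Con1_nb hk h w' a.symm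
      exact ⟨B, A, a2, a1, a3.symm, by omega, a6, a5⟩
    · exact Con1_nb hk h w a
    · obtain ⟨-, -, -, -, c⟩ := Con1_lf hk h w.1.2 a
      exact absurd w'.1.2 c
  obtain ⟨A, B, h1, h2, h3, h4, h5, h6⟩ := h.cr _ _ e a
  obtain ⟨A', a1, a2, a3, a4⟩ := Con1_w h1 h5
  obtain ⟨B', b1, b2, b3, b4⟩ := Con1_w h2 h6
  exact ⟨A', B', a1, b1, fun v hv hv' => h3 (a4 v hv) (b4 v hv'), by omega, a3, b3⟩

theorem Good.dbl {k n e l : ℕ} (hk : 4 ≤ k) (h : Good k n e l) :
    Good (k + 2) (n + 2 * l) (e + 2 * l) (2 * l) := by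
  obtain ⟨U, _, H, h1, rfl, rfl, rfl⟩ := h
  have c : Nat.card ({v // Leaf H v} × Bool) = 2 * {v | Leaf H v}.ncard := by
    rw [Nat.card_prod, mul_comm]
    exact congrArg₂ _ (by simp) rfl
  refine ⟨_, inferInstance, Con1_d H, Con1_gd hk h1, by rw [Nat.card_sum, c],
    by rw [Con1_d, pend_card, c], ?_⟩
  rw [← c, ← Set.ncard_range_of_injective (Sum.inr_injective (α := U))]
  refine congrArg _ (Set.ext ?_)
  rintro (v | w)
  · exact iff_of_false (Con1_old v) (by simp)
  · exact iff_of_true (Con1_leaf w) ⟨w, rfl⟩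

theorem Con1_two {l : List V} (h : P G l) {u u' p : V} (hne : u ≠ u') (hu : u ∈ l) (hu' : u' ∈ l)
    (a : G.Adj u p) (a' : G.Adj u' p) (b : ∀ t, G.Adj u t → t = p) (b' : ∀ t, G.Adj u' t → t = p) :
    l.length < 4 := by
  by_contra c
  obtain ⟨x, M, y, rfl⟩ := Con1_ends (l := l) (by omega)
  obtain ⟨s, N, t, rfl⟩ := Con1_ends (l := M) (by simp at c; omega)
  have k : ∀ v ∈ x :: (s :: (N ++ [t]) ++ [y]), Leaf G v → v = x ∨ v = y := fun v hv lv => by
    rcases List.mem_cons.1 hv with e | e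
    · exact Or.inl e
    rcases List.mem_append.1 e with e | e
    exacts [absurd lv (Con1_int h e), Or.inr (List.mem_singleton.1 e)]
  have a1 : G.Adj x s := h.adj
  have a2 : G.Adj t y := P.mid (A := x :: s :: N) (B := []) (by simpa using h)
  have n : s ≠ t := fun e => h.tail.notMem (by simp [e])
  rcases k u hu ⟨p, a, b⟩ with rfl | rfl <;> rcases k u' hu' ⟨p, a', b'⟩ with rfl | rfl
  · exact hne rfl
  · exact n ((b _ a1).trans (b' _ a2.symm).symm)
  · exact n ((b' _ a1).trans (b _ a2.symm).symm)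
  · exact hne rfl

theorem Con1_cr {k : ℕ} (h : SatL k G) {v p : V} (hp : ∀ u, G.Adj v u → u = p) {A : List V}
    (h1 : P G (v :: A)) (h2 : A.length + 2 = k) {y : V} (hy : y ≠ p) :
    Cr k (pend G fun _ : Unit => p) (Sum.inr ()) (Sum.inl y) := by
  by_cases e : v = y
  · subst e
    exact ⟨[], A.map Sum.inl, P.single _, Con1_map _ h1, by simp, by simp; omega⟩
  obtain ⟨C, B, c1, c2, c3, c4⟩ := h.2 v y e fun a => hy (hp y a)
  refine ⟨C.map Sum.inl, B.map Sum.inl, ?_, Con1_map _ c2, fun z hz hz' => ?_, by simpa using c4⟩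
  · rcases C with _ | ⟨t, C⟩
    · exact P.single _
    · exact P.cons (Con1_map _ c1.tail) (hp t c1.adj) (by simp)
  · obtain ⟨u, hu, rfl⟩ := List.mem_map.1 (show z ∈ (y :: B).map Sum.inl from hz')
    exact c3 (List.mem_cons_of_mem _ (by simpa using hz)) hu

theorem Ok.twin {k n e : ℕ} (hk : 4 ≤ k) (h : Ok k n e) : Ok k (n + 1) (e + 1) := by
  obtain ⟨U, _, H, h1, rfl, rfl, v, A, ⟨p, hv, hp⟩, h2, h3⟩ := h
  have lv : ∀ t, (pend H fun _ : Unit => p).Adj (Sum.inl v) t → t = Sum.inl p := by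
    rintro (t | t) a
    exacts [congrArg Sum.inl (hp t a), absurd a hv.ne]
  refine ⟨_, inferInstance, pend H fun _ : Unit => p, ⟨fun l hl => ?_, ?_⟩, by simp,
    by simp [pend_card], Sum.inl v, A.map Sum.inl, ⟨Sum.inl p, hv, lv⟩, Con1_map _ h2,
    by simpa using h3⟩
  · by_cases c : Sum.inl v ∈ l ∧ Sum.inr () ∈ l
    · refine (Con1_two hl Sum.inl_ne_inr c.1 c.2 (p := Sum.inl p) hv rfl lv ?_).trans_le hk
      rintro (t | t) a
      exacts [congrArg Sum.inl a, a.elim]
    · have := h1.1 _ (Con1_unmap (G := H) (Sum.elim id fun _ => v) hl (by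
        rintro (a | a) - (b | b) - e
        exacts [e, (show a = p from e) ▸ hv.symm, (show b = p from e) ▸ hv, e.elim]) (by
        rintro (a | a) ha (b | b) hb e
        exacts [congrArg Sum.inl e, absurd ⟨(show a = v from e) ▸ ha, hb⟩ c,
          absurd ⟨(show v = b from e) ▸ hb, ha⟩ c, rfl]))
      simpa using this
  · rintro (x | x) (y | y) hne hn
    · obtain ⟨C, B, c1, c2, c3, c4⟩ := h1.2 x y (fun e => hne (congrArg _ e)) hn
      exact ⟨C.map Sum.inl, B.map Sum.inl, Con1_map _ c1, Con1_map _ c2,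
        List.disjoint_map Sum.inl_injective c3, by simpa using c4⟩
    · exact (Con1_cr h1 hp h2 h3 hn).symm
    · exact Con1_cr h1 hp h2 h3 hn
    · exact absurd rfl hne

end PS
end

-- merged part: Pool.Agent.Work.MP_3e1eec_co.Br
section
/-! From the statement to lists.
Plan.  `cont_iff`: a copy of `pathGraph k` gives `List.ofFn`, use `List.isChain_iff_getElem`, `pathGraph_adj`; conversely `l.take k`, `Walk.ofSupport`, `IsPath.isContained_pathGraph` (or build the copy from `getElem`).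
`sat_iff`: a path of `G ⊔ edge x y` which is not a path of `G` contains `x`, `y` consecutively, exactly once: split it there.
`cac_iff`: `Walk.isCycle_iff_isPath_tail_and_le_length`, `Walk.cons_isCycle_iff`, `Walk.ofSupport`. -/

open SimpleGraph

namespace PS
variable {V : Type} {G : SimpleGraph V} {k : ℕ}

theorem cont_iff : pathGraph k ⊑ G ↔ ∃ l, P G l ∧ k ≤ l.length := by
  constructor
  · rintro ⟨f⟩
    refine ⟨List.ofFn f, ⟨List.nodup_ofFn.2 f.injective, List.isChain_ofFn.2 fun i hi => ?_⟩, by simp⟩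
    exact f.toHom.map_rel (pathGraph_adj.2 (Or.inl rfl))
  · rintro ⟨l, ⟨h1, h2⟩, hk⟩
    rw [List.isChain_iff_getElem] at h2
    refine ⟨⟨⟨fun i => l[i.1]'(i.2.trans_le hk), fun {i j} hij => ?_⟩, fun i j hij => ?_⟩⟩
    · rcases pathGraph_adj.1 hij with e | e
      · have := h2 i.1 (by have := j.2; omega)
        simpa only [e] using this
      · have := h2 j.1 (by have := i.2; omega)
        simpa only [e] using this.symm
    · exact Fin.ext (h1.getElem_inj_iff.1 hij)

theorem Br_pf : (pathGraph k).Free G ↔ PF k G := by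
  rw [Free, cont_iff]
  exact ⟨fun h l hl => lt_of_not_ge fun hk => h ⟨l, hl, hk⟩,
    fun h ⟨l, hl, hk⟩ => absurd (h l hl) (not_lt.2 hk)⟩

theorem Br_miss {x y : V} {l : List V} (h : P (G ⊔ edge x y) l) (hm : x ∉ l ∨ y ∉ l) : P G l := by
  refine ⟨h.1, h.2.imp_of_mem_imp fun a b ha hb hab => ?_⟩
  rcases hab with hab | hab
  · exact hab
  · rcases ((edge_adj _ _ _ _).1 hab).1 with ⟨rfl, rfl⟩ | ⟨rfl, rfl⟩
    · exact (hm.elim (fun h => h ha) fun h => h hb).elim
    · exact (hm.elim (fun h => h hb) fun h => h ha).elim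

theorem Br_split {R : V → V → Prop} {l : List V} (h : ¬ l.IsChain R) :
    ∃ A u v B, l = A ++ u :: v :: B ∧ ¬ R u v := by
  induction l with
  | nil => exact absurd List.IsChain.nil h
  | cons a l ih =>
    cases l with
    | nil => exact absurd (List.isChain_singleton a) h
    | cons b l =>
      by_cases hab : R a b
      · obtain ⟨A, u, v, B, e, hn⟩ := ih fun h' => h (List.isChain_cons_cons.2 ⟨hab, h'⟩)
        exact ⟨a :: A, u, v, B, by rw [e]; rfl, hn⟩
      · exact ⟨[], a, b, l, rfl, hab⟩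

theorem Br_cr {x y : V} {A B : List V} (h : P (G ⊔ edge x y) (A ++ x :: y :: B))
    (hk : k ≤ (A ++ x :: y :: B).length) : Cr k G x y := by
  have e : A ++ x :: y :: B = (A ++ [x]) ++ y :: B := by simp
  have h' := e ▸ h
  have hd := h'.disj
  have h1 : P G (A ++ [x]) := Br_miss h'.left (Or.inr fun hy => hd hy List.mem_cons_self)
  have h2 : P G (y :: B) := Br_miss h'.right (Or.inl fun hx => hd (by simp) hx)
  refine ⟨A.reverse, B, by simpa using h1.reverse, h2, fun v hv => hd ?_, ?_⟩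
  · simp only [List.mem_append, List.mem_reverse, List.mem_cons] at hv ⊢
    tauto
  · simp only [List.length_append, List.length_reverse, List.length_cons] at hk ⊢
    omega

theorem sat_iff : Sat k G ↔ SatL k G := by
  rw [Sat, SatL, Br_pf]
  refine and_congr_right fun hp => forall_congr' fun x => forall_congr' fun y =>
    imp_congr_right fun hne => imp_congr_right fun _ => ?_
  rw [cont_iff]
  constructor
  · rintro ⟨l, hl, hk⟩
    obtain ⟨A, u, v, B, rfl, hn⟩ := Br_split (R := G.Adj) (l := l) fun h =>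
      absurd (hp l ⟨hl.1, h⟩) (not_lt.2 hk)
    rcases hl.mid with hab | hab
    · exact absurd hab hn
    · rcases ((edge_adj _ _ _ _).1 hab).1 with ⟨rfl, rfl⟩ | ⟨rfl, rfl⟩
      · exact Br_cr hl hk
      · rw [edge_comm] at hl
        exact (Br_cr hl hk).symm
  · rintro ⟨A, B, h1, h2, hd, hk⟩
    refine ⟨_, (h1.mono le_sup_left).join (h2.mono le_sup_left)
      (Or.inr ((edge_adj _ _ _ _).2 ⟨Or.inl ⟨rfl, rfl⟩, hne⟩)) hd, ?_⟩
    simp only [List.length_append, List.length_reverse, List.length_cons]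
    omega

theorem Br_walk {x y : V} {A : List V} (h : (x :: (A ++ [y])).IsChain G.Adj) :
    ∃ q : G.Walk x y, q.support = x :: (A ++ [y]) := by
  induction A generalizing x with
  | nil => exact ⟨Walk.cons (List.isChain_cons_cons.1 h).1 Walk.nil, rfl⟩
  | cons a A ih =>
    obtain ⟨q, hq⟩ := ih (List.isChain_cons_cons.1 h).2
    exact ⟨Walk.cons (List.isChain_cons_cons.1 h).1 q, by rw [Walk.support_cons, hq]; rfl⟩

theorem cac_iff : (∀ v (p : G.Walk v v), p.IsCycle → p.length = 3) ↔ Cac G := by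
  constructor
  · intro h x y A hP ha
    by_contra hA
    obtain ⟨q, hq⟩ := Br_walk hP.2
    have hl : q.length = A.length + 1 := by
      have := q.length_support
      rw [hq] at this
      simp only [List.length_append, List.length_cons, List.length_nil] at this
      omega
    have := h y (Walk.cons ha.symm q) (Walk.isCycle_iff_isPath_tail_and_le_length.2
      ⟨by simpa [Walk.isPath_def, hq] using hP.1, by rw [Walk.length_cons]; omega⟩)
    rw [Walk.length_cons] at this
    omega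
  · intro h v p hp
    have h3 := hp.three_le_length
    cases p with
    | nil => simp at h3
    | cons ha q =>
      have hq := ((Walk.cons_isCycle_iff q ha).1 hp).1
      cases q with
      | nil => simp at h3
      | cons hb r =>
        have e : r.support.dropLast ++ [v] = r.support := by
          conv_rhs => rw [← List.dropLast_append_getLast r.support_ne_nil, r.getLast_support]
        have h1 := h _ v r.support.dropLast
          (by rw [e]; exact ⟨hq.support_nodup, (Walk.cons hb r).isChain_adj_support⟩) ha.symm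
        simp only [List.length_dropLast, Walk.length_support, Walk.length_cons] at h1 h3 ⊢
        omega

theorem pf_iff [Finite V] (hk : 0 < k) : (∀ v, lp G ∅ v < k) ↔ PF k G := by
  refine ⟨fun h l hl => ?_, fun h v => h.lp_lt _ v⟩
  cases l with
  | nil => exact hk
  | cons x A => exact (lp_ge hl fun _ _ hv => hv).trans_lt (h x)

theorem Br_map {W : Type} {H : SimpleGraph W} (f : G ≃g H) {l : List V} (h : P G l) :
    P H (l.map f) :=
  ⟨h.1.map f.injective, (List.isChain_map f).2 (h.2.imp fun _ _ hab => f.map_rel_iff.2 hab)⟩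

theorem Br_sat {W : Type} {H : SimpleGraph W} (f : G ≃g H) (h : SatL k G) : SatL k H := by
  refine ⟨fun l hl => by simpa using h.1 _ (Br_map f.symm hl), fun x y hne hn => ?_⟩
  obtain ⟨x, rfl⟩ := f.surjective x
  obtain ⟨y, rfl⟩ := f.surjective y
  obtain ⟨A, B, h1, h2, hd, hk⟩ := h.2 x y (fun e => hne (congrArg f e))
    fun a => hn (f.map_rel_iff.2 a)
  exact ⟨A.map f, B.map f, Br_map f h1, Br_map f h2, List.disjoint_map f.injective hd,
    by simpa using hk⟩

/-- Transport along a bijection. -/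
theorem Ok.transport [Finite V] {e : ℕ} (h : Ok k (Nat.card V) e) :
    ∃ H : SimpleGraph V, SatL k H ∧ H.edgeSet.ncard = e := by
  obtain ⟨W, hW, H, h1, h2, h3, -⟩ := h
  obtain ⟨f⟩ := Finite.card_eq.1 h2.symm
  refine ⟨H.comap f, Br_sat (Iso.comap f H).symm h1, ?_⟩
  rw [← h3]
  exact Set.ncard_congr' (Iso.comap f H).mapEdgeSet

end PS
end

-- merged part: Pool.Agent.Work.MP_3e1eec_co.Con3
section
/-! Saturated graphs with the target number of edges.
Plan.  `Good.copies`: vertex set `Fin q × W`, edges inside the copies; a path stays in one copy; different copies by `half_long` (every vertex starts a path with at least `k / 2` vertices).  Count edges by degree sums or by a bijection of edge sets.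
`good_a`, `good_b`, `good_c`: induction in steps of two from the bases with the number of leaves `l`: for `a`: `2 l = n + 2`; for `b`: `2 l = n` or `n + 1`; for `c`: `2 l = n - 1`.
`exists_sat`: `Ok.twin` repeated, three ranges of `n`. -/

open SimpleGraph

namespace PS

/-- Disjoint copies of a graph. -/
def Con3_cp (q : ℕ) {W : Type} (H : SimpleGraph W) : SimpleGraph (Fin q × W) where
  Adj x y := x.1 = y.1 ∧ H.Adj x.2 y.2
  symm := ⟨fun _ _ h => ⟨h.1.symm, h.2.symm⟩⟩
  loopless := ⟨fun _ h => h.2.ne rfl⟩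

theorem Con3_fst {q : ℕ} {W : Type} {H : SimpleGraph W} {x : Fin q × W} {A : List (Fin q × W)}
    (h : P (Con3_cp q H) (x :: A)) : ∀ v ∈ x :: A, v.1 = x.1 := by
  induction A generalizing x with
  | nil => intro v hv; rw [List.mem_singleton.1 hv]
  | cons y l ih =>
    intro v hv
    rcases List.mem_cons.1 hv with rfl | hv
    · rfl
    · exact (ih h.tail v hv).trans h.adj.1.symm

theorem Con3_map {q : ℕ} {W : Type} {H : SimpleGraph W} (i : Fin q) {l : List W} (h : P H l) :
    P (Con3_cp q H) (l.map (Prod.mk i)) :=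
  Con1_unmap (Prod.mk i) h (fun _ _ _ _ hab => ⟨rfl, hab⟩) fun _ _ _ _ e => (Prod.mk.inj e).2

theorem Con3_pf {q k : ℕ} {W : Type} {H : SimpleGraph W} (h : PF k H) : PF k (Con3_cp q H) := by
  intro l hl
  cases l with
  | nil => exact h [] P.nil
  | cons x A =>
    have h1 : P H ((x :: A).map Prod.snd) :=
      Con1_unmap Prod.snd hl (fun _ _ _ _ hab => hab.2) fun a ha b hb e =>
        Prod.ext ((Con3_fst hl a ha).trans (Con3_fst hl b hb).symm) e
    have := h _ h1
    rwa [List.length_map] at this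

theorem Con3_edges {q : ℕ} {W : Type} (H : SimpleGraph W) :
    (Con3_cp q H).edgeSet.ncard = q * H.edgeSet.ncard := by
  have e : (Con3_cp q H).edgeSet =
      (fun z : Fin q × Sym2 W => Sym2.map (Prod.mk z.1) z.2) '' (Set.univ ×ˢ H.edgeSet) := by
    ext z
    induction z using Sym2.ind with
    | _ x y =>
      constructor
      · intro h
        obtain ⟨i, u⟩ := x
        obtain ⟨j, v⟩ := y
        have h' : (Con3_cp q H).Adj (i, u) (j, v) := h
        obtain rfl : i = j := h'.1
        exact ⟨(i, s(u, v)), ⟨trivial, h'.2⟩, rfl⟩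
      · rintro ⟨⟨i, w⟩, ⟨-, hw⟩, h⟩
        induction w using Sym2.ind with
        | _ u v =>
          rw [← h]
          exact (⟨rfl, hw⟩ : (Con3_cp q H).Adj (i, u) (i, v))
  have inj : Function.Injective (fun z : Fin q × Sym2 W => Sym2.map (Prod.mk z.1) z.2) := by
    rintro ⟨i, w⟩ ⟨j, w'⟩ h
    induction w using Sym2.ind with
    | _ u v =>
      induction w' using Sym2.ind with
      | _ u' v' =>
        simp only [Sym2.map_mk, Sym2.eq_iff, Prod.mk.injEq] at h ⊢
        tauto
  rw [e, Set.ncard_image_of_injective _ inj, Set.ncard_prod, Set.ncard_univ, Nat.card_fin]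

theorem Good.copies {k n e l q : ℕ} (h : Good k n e l) (hl : 0 < l) (hq : 0 < q) :
    Ok k (q * n) (q * e) := by
  obtain ⟨W, hW, H, h1, rfl, rfl, rfl⟩ := h
  obtain ⟨v₀, hv₀⟩ := Set.nonempty_of_ncard_ne_zero hl.ne'
  obtain ⟨A₀, a1, a2, -⟩ := h1.lf v₀ hv₀
  have hh : ∀ u, k ≤ 2 * lp H ∅ u := fun u =>
    half_long a1 (by simpa using a2) List.mem_cons_self (h1.con u v₀)
  refine ⟨Fin q × W, inferInstance, Con3_cp q H, ⟨Con3_pf h1.pf, ?_⟩, ?_, Con3_edges H,
    (⟨0, hq⟩, v₀), A₀.map (Prod.mk ⟨0, hq⟩), ?_, Con3_map _ a1, by simpa using a2⟩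
  · rintro ⟨i, u⟩ ⟨j, v⟩ hne hn
    by_cases hij : i = j
    · subst hij
      obtain ⟨A, B, b1, b2, b3, b4, -⟩ := h1.cr u v (fun e => hne (by rw [e])) fun a => hn ⟨rfl, a⟩
      refine ⟨A.map (Prod.mk i), B.map (Prod.mk i), Con3_map i b1, Con3_map i b2, ?_, by
        simpa using b4⟩
      intro z hz hz'
      rw [← List.map_cons] at hz hz'
      obtain ⟨s, hs, rfl⟩ := List.mem_map.1 hz
      obtain ⟨t, ht, e⟩ := List.mem_map.1 hz'
      obtain rfl : t = s := (Prod.mk.inj e).2
      exact b3 hs ht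
    · obtain ⟨A, b1, -, b2⟩ := lp_ex H (S := ∅) (x := u) (fun h => h)
      obtain ⟨B, c1, -, c2⟩ := lp_ex H (S := ∅) (x := v) (fun h => h)
      refine ⟨A.map (Prod.mk i), B.map (Prod.mk j), Con3_map i b1, Con3_map j c1, ?_, ?_⟩
      · intro z hz hz'
        rw [← List.map_cons] at hz hz'
        obtain ⟨s, -, rfl⟩ := List.mem_map.1 hz
        obtain ⟨t, -, e⟩ := List.mem_map.1 hz'
        exact hij (Prod.mk.inj e).1.symm
      · have := hh u
        have := hh v
        simp only [List.length_map]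
        omega
  · rw [Nat.card_prod, Nat.card_fin]
  · obtain ⟨p, hp, hp'⟩ := hv₀
    refine ⟨(⟨0, hq⟩, p), ⟨rfl, hp⟩, ?_⟩
    rintro ⟨j, u⟩ hu
    exact Prod.ext hu.1.symm (hp' u hu.2)

theorem Con3_ind {k n e l : ℕ} (hk : 4 ≤ k) (h : Good k n e l) (j : ℕ) :
    Good (k + 2 * j) (n + 2 * l * (2 ^ j - 1)) (e + 2 * l * (2 ^ j - 1)) (l * 2 ^ j) := by
  induction j with
  | zero => simpa using h
  | succ j ih =>
    have h2 := Good.dbl (by omega) ih
    obtain ⟨t, ht⟩ : ∃ t, 2 ^ j = t + 1 := ⟨2 ^ j - 1, by have := Nat.one_le_two_pow (n := j); omega⟩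
    have e1 : 2 ^ (j + 1) - 1 = 2 * t + 1 := by rw [pow_succ, ht]; omega
    have e2 : k + 2 * (j + 1) = k + 2 * j + 2 := by ring
    have e3 : ∀ m, m + 2 * l * (2 * t + 1) = m + 2 * l * (t + 1 - 1) + 2 * (l * (t + 1)) := by
      intro m; rw [Nat.add_sub_cancel]; ring
    have e4 : l * 2 ^ (j + 1) = 2 * (l * (t + 1)) := by rw [pow_succ, ht]; ring
    rw [e1, e2, e3, e3, e4]
    rwa [ht] at h2

theorem Con3_use {k n e l k' n' e' : ℕ} (hk : 4 ≤ k) (h : Good k n e l) (hl : 0 < l) (j : ℕ)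
    (h1 : k' = k + 2 * j) (h2 : n' = n + 2 * l * (2 ^ j - 1))
    (h3 : e' = e + 2 * l * (2 ^ j - 1)) : ∃ l, 0 < l ∧ Good k' n' e' l := by
  subst h1 h2 h3
  exact ⟨_, by positivity, Con3_ind hk h j⟩

theorem Con3_a0 (j : ℕ) : a (4 + 2 * j) = 6 * 2 ^ j - 2 := by
  have h1 : (4 + 2 * j) % 2 = 0 := by omega
  have h2 : (4 + 2 * j) / 2 - 1 = j + 1 := by omega
  rw [a, if_pos h1, h2, pow_succ]; omega

theorem Con3_a1 (j : ℕ) : a (5 + 2 * j) = 8 * 2 ^ j - 2 := by
  have h1 : ¬ (5 + 2 * j) % 2 = 0 := by omega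
  have h2 : (5 + 2 * j) / 2 - 1 = j + 1 := by omega
  rw [a, if_neg h1, h2, pow_succ]; omega

theorem Con3_b0 (j : ℕ) : b (6 + 2 * j) = 6 * 2 ^ j := by
  have h1 : (6 + 2 * j) % 2 = 0 := by omega
  have h2 : (6 + 2 * j) / 2 - 2 = j + 1 := by omega
  rw [b, if_pos h1, h2, pow_succ]; omega

theorem Con3_b1 (j : ℕ) : b (7 + 2 * j) = 12 * 2 ^ j - 1 := by
  have h1 : ¬ (7 + 2 * j) % 2 = 0 := by omega
  have h2 : (7 + 2 * j) / 2 - 1 = j + 1 + 1 := by omega
  rw [b, if_neg h1, h2, pow_succ, pow_succ]; omega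

theorem Con3_c1 (j : ℕ) : c (9 + 2 * j) = 12 * 2 ^ j + 1 := by
  have h1 : ¬ (9 + 2 * j) % 2 = 0 := by omega
  have h2 : (9 + 2 * j) / 2 - 2 = j + 1 + 1 := by omega
  rw [c, if_neg h1, h2, pow_succ, pow_succ]; omega

theorem Con3_c0 (j : ℕ) : c (10 + 2 * j) = 20 * 2 ^ j + 1 := by
  have h1 : (10 + 2 * j) % 2 = 0 := by omega
  have h2 : (10 + 2 * j) / 2 - 3 = j + 1 + 1 := by omega
  rw [c, if_pos h1, h2, pow_succ, pow_succ]; omega

theorem Con3_par (m : ℕ) {k : ℕ} (hk : m ≤ k) : (∃ j, k = m + 2 * j) ∨ ∃ j, k = m + 1 + 2 * j := by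
  rcases Nat.even_or_odd' (k - m) with ⟨j, h | h⟩
  · exact Or.inl ⟨j, by omega⟩
  · exact Or.inr ⟨j, by omega⟩

theorem good_a {k : ℕ} (hk : 4 ≤ k) : ∃ l, 0 < l ∧ Good k (a k) (a k - 1) l := by
  rcases Con3_par 4 hk with ⟨j, rfl⟩ | ⟨j, rfl⟩
  · have := Nat.one_le_two_pow (n := j)
    exact Con3_use le_rfl good4 (by norm_num) j rfl (by rw [Con3_a0]; omega)
      (by rw [Con3_a0]; (clear * - this; omega))
  · have := Nat.one_le_two_pow (n := j)
    exact Con3_use (by norm_num) good5 (by norm_num) j rfl (by rw [Con3_a1]; omega)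
      (by rw [Con3_a1]; omega)

theorem good_b {k : ℕ} (hk : 6 ≤ k) : ∃ l, 0 < l ∧ Good k (b k) (b k) l := by
  rcases Con3_par 6 hk with ⟨j, rfl⟩ | ⟨j, rfl⟩
  · have := Nat.one_le_two_pow (n := j)
    exact Con3_use (by norm_num) good6 (by norm_num) j rfl (by rw [Con3_b0]; omega)
      (by rw [Con3_b0]; omega)
  · have := Nat.one_le_two_pow (n := j)
    exact Con3_use (by norm_num) good7 (by norm_num) j rfl (by rw [Con3_b1]; omega)
      (by rw [Con3_b1]; omega)

theorem good_c {k : ℕ} (hk : 9 ≤ k) : ∃ l, 0 < l ∧ Good k (c k) (c k + 1) l := by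
  rcases Con3_par 9 hk with ⟨j, rfl⟩ | ⟨j, rfl⟩
  · have := Nat.one_le_two_pow (n := j)
    exact Con3_use (by norm_num) good9 (by norm_num) j rfl (by rw [Con3_c1]; omega)
      (by rw [Con3_c1]; omega)
  · have := Nat.one_le_two_pow (n := j)
    exact Con3_use (by norm_num) good10 (by norm_num) j rfl (by rw [Con3_c0]; omega)
      (by rw [Con3_c0]; omega)

theorem b_le_a {k : ℕ} (hk : 9 ≤ k) : 4 ≤ c k ∧ b k ≤ a k ∧ 0 < a k := by
  rcases Con3_par 9 hk with ⟨j, rfl⟩ | ⟨j, rfl⟩
  · have := Nat.one_le_two_pow (n := j)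
    have h1 := Con3_c1 j
    have h2 := Con3_b1 (j + 1)
    have h3 := Con3_a1 (j + 1 + 1)
    rw [show 7 + 2 * (j + 1) = 9 + 2 * j by ring, pow_succ] at h2
    rw [show 5 + 2 * (j + 1 + 1) = 9 + 2 * j by ring, pow_succ, pow_succ] at h3
    omega
  · have := Nat.one_le_two_pow (n := j)
    have h1 := Con3_c0 j
    have h2 := Con3_b0 (j + 1 + 1)
    have h3 := Con3_a0 (j + 1 + 1 + 1)
    rw [show 6 + 2 * (j + 1 + 1) = 10 + 2 * j by ring, pow_succ, pow_succ] at h2
    rw [show 4 + 2 * (j + 1 + 1 + 1) = 10 + 2 * j by ring, pow_succ, pow_succ, pow_succ] at h3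
    rw [show 9 + 1 + 2 * j = 10 + 2 * j by ring]
    omega

theorem Con3_twins {k n e : ℕ} (hk : 4 ≤ k) (h : Ok k n e) (t : ℕ) : Ok k (n + t) (e + t) := by
  induction t with
  | zero => exact h
  | succ t ih => exact ih.twin hk

theorem Con3_ok {k n e n' e' : ℕ} (hk : 4 ≤ k) (h : Ok k n e) (h1 : n ≤ n')
    (h2 : e' + n = e + n') : Ok k n' e' := by
  have := Con3_twins hk h (n' - n)
  rwa [show n + (n' - n) = n' by omega, show e + (n' - n) = e' by omega] at this

theorem exists_sat {V : Type} [Finite V] {k : ℕ} (hk : 9 ≤ k) (hn : c k ≤ Nat.card V) :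
    ∃ H : SimpleGraph V, SatL k H ∧ H.edgeSet.ncard = s (Nat.card V) k := by
  refine Ok.transport ?_
  generalize Nat.card V = n at hn ⊢
  obtain ⟨-, hba, ha⟩ := b_le_a hk
  by_cases h1 : n < b k
  · obtain ⟨l, hl, h⟩ := good_c hk
    rw [s, if_pos h1]
    exact Con3_ok (by omega) (h.copies hl Nat.one_pos) (by omega) (by omega)
  rw [s, if_neg h1]
  by_cases h2 : n < a k
  · obtain ⟨l, hl, h⟩ := good_b (k := k) (by omega)
    rw [Nat.div_eq_of_lt h2]
    exact Con3_ok (by omega) (h.copies hl Nat.one_pos) (by omega) (by omega)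
  · obtain ⟨l, hl, h⟩ := good_a (k := k) (by omega)
    have hq : 0 < n / a k := Nat.div_pos (by omega) ha
    have h3 : n / a k * a k ≤ n := Nat.div_mul_le_self n (a k)
    have h4 : n / a k * (a k - 1) + n / a k = n / a k * a k := by
      rw [← Nat.mul_succ]; congr 1; omega
    have h5 : n / a k ≤ n := Nat.div_le_self n (a k)
    exact Con3_ok (by omega) (h.copies hl hq) h3 (by omega)

end PS
end
end

-- merged part: Pool.Agent.Work.MP_3e1eec_co.Cnt
section
-- merged part: Pool.Agent.Work.MP_3e1eec_co.Cyc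
section
/-! With excess at most two every cycle is a triangle.
Plan.  Let `C = x :: (A ++ [y])` be a cycle with at least four vertices, `K` its vertex set.
`cyc_theta`: if `p ≠ q` are on `C` and `p :: (U ++ [q])` is a path with `U` outside `K`, which is not an edge of the cycle, then the two arcs and `U` form a `Th` (split `C = l₁ ++ p :: l₂ ++ q :: l₃` up to symmetry; the arcs are `l₂` and `(l₃ ++ l₁).reverse`).
So there is no ear and no chord.  Each `z ∈ K` has two neighbours on the cycle (rotate the cycle so that `z` is in the middle), no other neighbour in `K`, and they are not adjacent.  Take `z` with least `gK G K`; `TL` and `TT.lt` give a contradiction. -/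

open SimpleGraph

namespace PS
variable {V : Type} {G : SimpleGraph V} [Finite V] {k : ℕ}

/-- The list is a path whose two ends are adjacent. -/
def Cyc_C (G : SimpleGraph V) (l : List V) : Prop :=
  P G l ∧ ∃ x A y, l = x :: (A ++ [y]) ∧ G.Adj x y

omit [Finite V] in
theorem Cyc_one {x : V} {l : List V} (h : Cyc_C G (x :: l)) : Cyc_C G (l ++ [x]) := by
  obtain ⟨hP, x', A, y, e, ha⟩ := h
  obtain ⟨rfl, rfl⟩ := List.cons_eq_cons.1 e
  refine ⟨?_, ?_⟩
  · simpa using hP.tail.append (P.single x) ha.symm fun v hv hv' =>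
      hP.notMem (List.mem_singleton.1 hv' ▸ hv)
  · cases A with
    | nil => exact ⟨y, [], x, rfl, ha.symm⟩
    | cons a A => exact ⟨a, A ++ [y], x, rfl, hP.adj.symm⟩

omit [Finite V] in
theorem Cyc_rot {A B : List V} (h : Cyc_C G (A ++ B)) : Cyc_C G (B ++ A) := by
  induction A generalizing B with
  | nil => simpa using h
  | cons x A ih =>
    have := Cyc_one h
    rw [List.append_eq, List.append_assoc] at this
    simpa using ih this

omit [Finite V] in
theorem Cyc_first {C : List V} {p : V} (h : Cyc_C G C) (hp : p ∈ C) :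
    ∃ l, Cyc_C G (p :: l) ∧ (p :: l).Perm C := by
  obtain ⟨s, t, rfl⟩ := List.append_of_mem hp
  exact ⟨t ++ s, Cyc_rot h, List.perm_append_comm (l₁ := p :: t)⟩

theorem Cyc_th (hD : D2 k G) (hF : Few G 2) {p q : V} {X Y U : List V}
    (h : Cyc_C G (p :: (X ++ q :: Y))) (hU : P G (p :: (U ++ [q])))
    (ho : ∀ v ∈ U, v ∉ p :: (X ++ q :: Y))
    (hne : (X ≠ [] ∨ Y ≠ []) ∧ (X ≠ [] ∨ U ≠ []) ∧ (Y ≠ [] ∨ U ≠ [])) : False := by
  refine Th.false (K := {v | v = p ∨ v = q ∨ v ∈ X ∨ v ∈ Y.reverse ∨ v ∈ U}) (p := p) (q := q)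
    (X := X) (Y := Y.reverse) (Z := U) ⟨?_, ?_, hU, fun v h1 h2 => ?_, fun v h1 h2 => ?_,
      fun v h1 h2 => ?_, by simpa using hne, fun _ => Iff.rfl⟩ hF hD
  · exact P.left (A := p :: (X ++ [q])) (B := Y) (by simpa using h.1)
  · simpa using (P.left (A := q :: (Y ++ [p])) (B := X)
      (by simpa using (Cyc_rot (A := p :: X) h).1)).reverse
  · exact h.1.tail.disj h1 (List.mem_cons_of_mem _ (List.mem_reverse.1 h2))
  · exact ho v h2 (by simp [h1])
  · exact ho v h2 (by simp [List.mem_reverse.1 h1])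

theorem cac_of_few (hD : D2 k G) (hF : Few G 2) : Cac G := by
  intro x y A hP ha
  by_contra hA
  have hC : Cyc_C G (x :: (A ++ [y])) := ⟨hP, x, A, y, rfl, ha⟩
  have h4 : 4 ≤ (x :: (A ++ [y])).length := by simp; omega
  generalize x :: (A ++ [y]) = C at hC h4
  have hE : EF G {v | v ∈ C} := by
    intro p hp q hq L hL ho hU
    obtain ⟨l, h1, h2⟩ := Cyc_first hC hp
    have hq' : q ∈ l :=
      (List.mem_cons.1 (h2.mem_iff.2 hq)).resolve_left fun e => hU.notMem (by simp [e])
    obtain ⟨X, Y, rfl⟩ := List.append_of_mem hq'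
    refine Cyc_th hD hF h1 hU (fun v hv hv' => ho v hv (h2.mem_iff.1 hv'))
      ⟨?_, Or.inr hL, Or.inr hL⟩
    by_contra c
    obtain ⟨rfl, rfl⟩ : X = [] ∧ Y = [] := by simpa using c
    have := h2.length_eq
    simp at this
    omega
  have hc : ∀ {p q : V} {X Y : List V}, Cyc_C G (p :: (X ++ q :: Y)) → X ≠ [] → Y ≠ [] →
      ¬ G.Adj p q := fun h hX hY a => Cyc_th hD hF (U := []) h
    ((P.single _).cons a (by simpa using a.ne)) (by simp) ⟨Or.inl hX, Or.inl hX, Or.inl hY⟩
  obtain ⟨z, hz, hm⟩ := Set.exists_min_image {v | v ∈ C} (gK G {v | v ∈ C}) (Set.toFinite _)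
    ⟨_, List.getElem_mem (show 0 < C.length by omega)⟩
  obtain ⟨l, h1, h2⟩ := Cyc_first hC hz
  obtain ⟨z', B, b, e, hb⟩ := h1.2
  obtain ⟨rfl, rfl⟩ := List.cons_eq_cons.1 e
  have hl := h2.length_eq
  obtain ⟨a, M, rfl⟩ := List.exists_cons_of_ne_nil (l := B) (by rintro rfl; simp at hl; omega)
  have hM : M ≠ [] := by rintro rfl; simp at hl; omega
  have ma : a ∈ C := h2.mem_iff.1 (by simp)
  have mb : b ∈ C := h2.mem_iff.1 (by simp)
  have ne : a ≠ b := fun e => h1.1.tail.notMem (by simp [e])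
  have hn : ¬ G.Adj a b := hc (X := M) (Y := [z]) (by simpa using Cyc_one h1) hM (by simp)
  have ho : ∀ u ∈ {v | v ∈ C}, G.Adj z u → u = a ∨ u = b := by
    intro u hu au
    have := h2.mem_iff.2 hu
    simp only [List.cons_append, List.mem_cons, List.mem_append, List.not_mem_nil, or_false] at this
    rcases this with e | e | e | e
    · exact absurd e au.ne'
    · exact Or.inl e
    · obtain ⟨s, t, rfl⟩ := List.append_of_mem e
      exact absurd au (hc (X := a :: s) (Y := t ++ [b]) (by simpa using h1) (by simp) (by simp))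
    · exact Or.inr e
  rcases TL hE hD hz ma mb h1.1.adj hb ne hn ho with h | h
  · exact absurd (h.lt hE hD.1 hz ma mb h1.1.adj ne) (not_lt.2 (hm a ma))
  · exact absurd (h.lt hE hD.1 hz mb ma hb ne.symm) (not_lt.2 (hm b mb))

end PS
end

-- merged part: Pool.Agent.Work.MP_3e1eec_co.Sz1
section
/-! Size of a branch without triangles and of a tree component.
Plan.  `two_tight`: let `t` be the second vertex of a longest path from `x` avoiding `w`; `lp_child` gives `lp {x} t + 1 = lp {w} x`.  Apply `D2.rule` at `x` to `w`, `t`; the common neighbour sets are empty; with `lp_anti` and `lp_two` the vertex `z` of the rule is a second child.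
`br0`: induction on `lp G {w} x` (generalise `w`, `x`); the regions of the two children are disjoint (`Cac.sepR`) and lie in the region of `x` minus `x` (`lp_child`); the condition for a child holds since `lp {c₁} x ≥ lp {x} c₂ + 1`.
`sizeT`: write `Q = A ++ w :: x :: B` at the middle.  For `k = 2 j + 1` both sides of the middle edge have `lp = j` (`lp_bridge`), regions disjoint.  For `k = 2 j + 2` take the middle vertex `w` with neighbours `x`, `y`: `two_tight` for the edge `x w` gives two children of `w` other than `x` with `lp = j`; three disjoint regions and `w`. -/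

open SimpleGraph

namespace PS
variable {V : Type} {G : SimpleGraph V} [Finite V] {k : ℕ}

omit [Finite V] in
theorem Sz1_cn {x w : V} (hn : NT G x) (hx : G.Adj x w) : (G.commonNeighbors x w).ncard = 0 := by
  have : G.commonNeighbors x w = ∅ :=
    Set.eq_empty_of_forall_notMem fun s hs => hn w s hx hs.1 hs.2
  rw [this, Set.ncard_empty]

omit [Finite V] in
theorem Sz1_bridge (hC : Cac G) {w x : V} (hx : G.Adj w x) (hn : NT G w) :
    Disjoint (Rg G {w} x) (Rg G {x} w) := by
  have h1 : x ∉ ({w} : Set V) := hx.ne'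
  have h2 : w ∉ ({x} : Set V) := hx.ne
  refine Set.disjoint_left.2 fun v a b => ?_
  obtain ⟨A, a1, a2⟩ := Rg_path h1 a fun e => Rg_notMem h2 b e.symm
  obtain ⟨B, b1, b2⟩ := Rg_path h2 b fun e => Rg_notMem h1 a e.symm
  refine hC.disjF hx b1 a1 (fun q => b2 x (List.mem_cons_of_mem _ q) rfl)
    (fun q => a2 w (List.mem_cons_of_mem _ q) rfl) (fun z A' B' e1 e2 => ?_) (a := v)
    (by simp) (by simp)
  rw [e1] at b1
  rw [e2] at a1
  exact hn x z hx b1.adj a1.adj

theorem Sz1_two {A B R : Set V} {x : V} (hd : Disjoint A B) (hA : A ⊆ R \ {x}) (hB : B ⊆ R \ {x})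
    (hx : x ∈ R) : A.ncard + B.ncard + 1 ≤ R.ncard := by
  rw [← Set.ncard_union_eq hd, ← Set.ncard_sdiff_singleton_add_one hx]
  exact Nat.succ_le_succ (Set.ncard_le_ncard (Set.union_subset hA hB))

theorem two_tight (hC : Cac G) (hD : D2 k G) {w x : V} (hx : G.Adj w x) (hn : NT G x)
    (h2 : 2 ≤ lp G {w} x) (ht : lp G {w} x ≤ lp G {x} w + 1) :
    ∃ c₁ c₂, c₁ ≠ c₂ ∧ G.Adj x c₁ ∧ G.Adj x c₂ ∧ c₁ ≠ w ∧ c₂ ≠ w ∧
      lp G {x} c₁ + 1 = lp G {w} x ∧ lp G {x} c₂ + 1 = lp G {w} x := by
  have la : ∀ u z y : V, lp G {u, z} y ≤ lp G {u} y := fun u z y =>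
    lp_anti G (Set.singleton_subset_iff.2 (Set.mem_insert _ _)) y
  obtain ⟨A, a1, a2, a3⟩ := lp_ex G (S := {w}) (x := x) hx.ne'
  cases A with
  | nil => simp only [List.length_nil] at a3; omega
  | cons t A =>
    have xt : G.Adj x t := a1.adj
    have tw : t ≠ w := a2 t (by simp)
    have wt : ¬ G.Adj w t := hn w t hx.symm xt
    have l1 := (lp_child hC hx xt tw wt).1
    have l2 := lp_ge (S := {x}) a1.tail fun v hv (e : v = x) => a1.notMem (e ▸ hv)
    have l3 := lp_two hC hD.1 hx.symm xt tw.symm wt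
    simp only [List.length_cons] at a3
    rcases hD.rule hC x w t hx.symm xt tw.symm wt with ⟨z, z1, z2, z3, -, z5⟩ | ⟨z, z1, z2, z3, -, z5⟩
    · have l4 := (lp_child hC hx z1 z2 (hn w z hx.symm z1)).1
      have l5 := la x t z
      have l6 := la x z t
      rw [Sz1_cn hn hx.symm] at z5
      exact ⟨t, z, z3.symm, xt, z1, tw, z2, by omega, by omega⟩
    · have l4 := (lp_child hC hx z1 z3 (hn w z hx.symm z1)).1
      have l5 := la x w z
      have l6 := la x z w
      rw [Sz1_cn hn xt] at z5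
      exact ⟨t, z, z2.symm, xt, z1, tw, z3, by omega, by omega⟩

theorem br0 (hC : Cac G) (hD : D2 k G) {w x : V} (hx : G.Adj w x)
    (hn : ∀ t ∈ Rg G {w} x, NT G t) (ht : lp G {w} x ≤ lp G {x} w + 1) :
    2 ^ lp G {w} x ≤ (Rg G {w} x).ncard + 1 := by
  generalize e : lp G {w} x = n
  induction n generalizing w x with
  | zero => simp
  | succ n ih =>
    have hp : 0 < (Rg G {w} x).ncard := (Set.ncard_pos (Set.toFinite _)).2 ⟨x, Rg_self _ _⟩
    rcases Nat.eq_zero_or_pos n with rfl | h0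
    · simp only [zero_add, pow_one]
      omega
    have nx := hn x (Rg_self _ _)
    obtain ⟨c, d, cd, xc, xd, cw, dw, l1, l2⟩ := two_tight hC hD hx nx (by omega) ht
    have s1 := (lp_child hC hx xc cw (nx w c hx.symm xc)).2
    have s2 := (lp_child hC hx xd dw (nx w d hx.symm xd)).2
    have u1 := (lp_child hC xc.symm xd cd.symm (nx c d xc xd)).1
    have u2 := (lp_child hC xd.symm xc cd (nx d c xd xc)).1
    have i1 := ih xc (fun t q => hn t (s1 q).1) (by omega) (by omega)
    have i2 := ih xd (fun t q => hn t (s2 q).1) (by omega) (by omega)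
    have := Sz1_two (hC.sepR xc xd cd (nx c d xc xd)) s1 s2 (Rg_self _ _)
    rw [pow_succ]
    omega

theorem sizeT (hC : Cac G) (hD : D2 k G) (hk : 9 ≤ k) (hn : ∀ t, NT G t) {Q : List V} {v : V}
    (hQ : P G Q) (hl : Q.length + 1 = k) (hv : v ∈ Q) : a k ≤ (Cm G v).ncard := by
  obtain ⟨j, hj⟩ : ∃ j, k = 2 * j + 3 ∨ k = 2 * j + 4 := ⟨(k - 3) / 2, by omega⟩
  obtain ⟨A, x, w, B, rfl, hA⟩ : ∃ A x w B, Q = A ++ x :: w :: B ∧ A.length = j := by
    have h1 : (Q.drop j).length = k - 1 - j := by rw [List.length_drop]; omega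
    match e : Q.drop j, h1 with
    | [], h => simp only [List.length_nil] at h; omega
    | [_], h => simp only [List.length_singleton] at h; omega
    | x :: w :: B, _ =>
      exact ⟨Q.take j, x, w, B, by rw [← e, List.take_append_drop], by
        rw [List.length_take]; omega⟩
  simp only [List.length_append, List.length_cons] at hl
  have xw : G.Adj x w := hQ.mid
  have p1 : P G (x :: w :: B) := hQ.right
  have p2 : P G (x :: A.reverse) := by
    simpa using (hQ.pre (l' := A ++ [x]) ⟨w :: B, by simp⟩).reverse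
  have l1 := lp_ge (S := {x}) p1.tail fun u hu (e : u = x) => p1.notMem (e ▸ hu)
  have l2 := lp_ge (S := {w}) p2 fun u hu (e : u = w) => by
    subst e
    rcases List.mem_cons.1 hu with q | q
    · exact xw.ne' q
    · exact hQ.disj (List.mem_reverse.1 q) (by simp)
  have l3 := lp_bridge hC hD.1 xw fun s a b => hn x w s xw a b
  rw [List.length_reverse] at l2
  have rw' : G.Reachable v w := hQ.reach' hv (by simp)
  have sub : ∀ (S : Set V) y, G.Adj w y → Rg G S y ⊆ Cm G v := fun S y hy u hu =>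
    (rw'.trans hy.reachable).trans (Rg_sub_Cm S y hu)
  have b1 := br0 hC hD xw.symm (fun t _ => hn t) (by omega)
  rcases hj with rfl | rfl
  · have b2 := br0 hC hD xw (fun t _ => hn t) (by omega)
    have e1 : lp G {w} x = j + 1 := by omega
    have e2 : lp G {x} w = j + 1 := by omega
    have c : (Rg G {w} x).ncard + (Rg G {x} w).ncard ≤ (Cm G v).ncard := by
      rw [← Set.ncard_union_eq (Sz1_bridge hC xw.symm (hn w))]
      exact Set.ncard_le_ncard (Set.union_subset (sub _ x xw.symm)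
        fun u hu => rw'.trans (Rg_sub_Cm _ w hu))
    have e : (2 * j + 3) / 2 - 1 = j := by omega
    rw [a, if_neg (by omega), e]
    rw [e1, pow_succ] at b1
    rw [e2, pow_succ] at b2
    omega
  · have e1 : lp G {w} x = j + 1 := by omega
    obtain ⟨c, d, cd, wc, wd, cx, dx, m1, m2⟩ := two_tight hC hD xw (hn w) (by omega) (by omega)
    have u1 := (lp_child hC wc.symm wd cd.symm (hn w c d wc wd)).1
    have u2 := (lp_child hC wd.symm wc cd (hn w d c wd wc)).1
    have b2 := br0 hC hD wc (fun t _ => hn t) (by omega)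
    have b3 := br0 hC hD wd (fun t _ => hn t) (by omega)
    have e2 : lp G {w} c = j + 1 := by omega
    have e3 : lp G {w} d = j + 1 := by omega
    have s : ∀ y, G.Adj w y → Rg G {w} y ⊆ Cm G v \ {w} := fun y hy u hu =>
      ⟨sub _ y hy hu, Rg_notMem (S := {w}) hy.ne' hu⟩
    have k1 := Sz1_two (Set.disjoint_union_left.2
      ⟨hC.sepR wc xw.symm cx (hn w c x wc xw.symm), hC.sepR wd xw.symm dx (hn w d x wd xw.symm)⟩)
      (Set.union_subset (s c wc) (s d wd)) (s x xw.symm) rw'
    rw [Set.ncard_union_eq (hC.sepR wc wd cd (hn w c d wc wd))] at k1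
    have e : (2 * j + 4) / 2 - 1 = j + 1 := by (clear * - e1 hA hk hl l1 l3 m1 m2; lia)
    rw [a, if_pos (by (clear * - e e1 hA hl l1 l3 m1 m2; lia)), e]
    rw [e1] at b1
    rw [e2] at b2
    rw [e3] at b3
    omega

end PS
end

-- merged part: Pool.Agent.Work.MP_3e1eec_co.Sz2
section
/-! Size of a branch with at most one triangle.
Plan.  With `T1`, all vertices off the triangle satisfy `NT`.  For a vertex `x` of the triangle `x y z` the own weight is `lp G {y, z} x`; a longest such path `x :: e :: _` has `lp {x} e + 1 = lp {y, z} x` and `e` is adjacent to neither `y` nor `z`.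
`own`: the region of `e` has no triangle, `br0`.
`bal`: if `lp {w, x} y ≥ 2` apply `D2.rule` at `y` to the child `e` and to `w`, use `lp_tri`, `lp_anti`, and `lp {y} w ≤ max (lp {x, y} w) (lp {w, y} x + 1)`.
`brT`: by symmetry let `y` have the larger weight; `bal` gives equal weights; `own` twice, `lp_tri` for disjointness.
`br1`: if `NT G x` use `two_tight`; one of the two regions has no vertex of the triangle; `br0`.  If `x, c, c'` is the triangle apply `D2.rule` at `x` to `w` and `c`: there is a neighbour `z` of `x` off the triangle with `lp {x} z + 2 ≥ lp {w} x`; if some such neighbour has `lp {x} z + 1 = lp {w} x` use `br0`; otherwise the longest path enters the triangle and `brT`, `br0` add up. -/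

open SimpleGraph

namespace PS
variable {V : Type} {G : SimpleGraph V} [Finite V] {k : ℕ}

omit [Finite V] in
theorem Sz2_s12 {x y z : V} (h : Tr G x y z) : Tr G y x z := ⟨h.1.symm, h.2.2, h.2.1⟩

omit [Finite V] in
theorem Sz2_s23 {x y z : V} (h : Tr G x y z) : Tr G x z y := ⟨h.2.1, h.1, h.2.2.symm⟩

omit [Finite V] in
theorem Sz2_nadj (hC : Cac G) {x y z e : V} (h : Tr G x y z) (he : G.Adj x e) (hz : e ≠ z) :
    ¬ G.Adj e y := fun a => hz (hC.common h.1 he a.symm h.2.1 h.2.2)

omit [Finite V] in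
theorem Sz2_one {x : V} {l : List V} (h : x ∉ l) : ∀ v ∈ l, v ∉ ({x} : Set V) :=
  fun _ hv e => h (Set.mem_singleton_iff.1 e ▸ hv)

/-- A neighbour of a vertex of the triangle which is off the triangle. -/
theorem Sz2_off (hC : Cac G) {x y z e : V} (h : Tr G x y z) (he : G.Adj x e) (hy : e ≠ y)
    (hz : e ≠ z) : lp G {x} e + 1 ≤ lp G {y, z} x ∧ Rg G {x} e ⊆ Rg G {y, z} x \ {x} ∧
      ∀ v ∈ Rg G {x} e, v ≠ x ∧ v ≠ y ∧ v ≠ z := by
  have hx : e ∉ ({x} : Set V) := he.ne'
  have a : ∀ v ∈ Rg G {x} e, v ≠ x ∧ v ≠ y ∧ v ≠ z := fun v hv => ⟨Rg_notMem (S := {x}) hx hv,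
    fun q => hC.sep he h.1 hy (Sz2_nadj hC h he hz) (q ▸ hv),
    fun q => hC.sep he h.2.1 hz (Sz2_nadj hC (Sz2_s23 h) he hy) (q ▸ hv)⟩
  have b : ∀ v ∈ Rg G {x} e, v ∉ ({y, z} : Set V) := fun v hv q =>
    q.elim (a v hv).2.1 (a v hv).2.2
  have c : x ∉ ({y, z} : Set V) := fun q => q.elim h.1.ne h.2.1.ne
  refine ⟨?_, fun v hv => ⟨Rg_trans (Rg_adj c (Rg_self _ _) he (b e (Rg_self _ _)))
    (Rg_avoid hx b hv), (a v hv).1⟩, a⟩
  obtain ⟨A, h1, h2, h3⟩ := lp_ex G hx
  rw [← h3]
  refine lp_ge (h1.cons he fun q => h2 x q rfl) fun v hv => ?_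
  rcases List.mem_cons.1 hv with rfl | hv
  · exact c
  · exact b v (h1.mem_Rg h2 v hv)

theorem Sz2_nt (hC : Cac G) (h1 : T1 G) {x y z e : V} (h : Tr G x y z) (he : G.Adj x e)
    (hy : e ≠ y) (hz : e ≠ z) : ∀ t ∈ Rg G {x} e, NT G t := fun t ht => by
  have a := (Sz2_off hC h he hy hz).2.2 t ht
  by_contra q
  exact (h1 x y z t h q).elim a.1 fun r => r.elim a.2.1 a.2.2

/-- The second vertex of a longest path. -/
theorem Sz2_snd {S : Set V} {x : V} (h2 : 2 ≤ lp G S x) :
    ∃ e, G.Adj x e ∧ e ∉ S ∧ lp G S x ≤ lp G {x} e + 1 := by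
  have hx : x ∉ S := fun q => by
    rw [lp_zero G q] at h2
    omega
  obtain ⟨A, a, b, c⟩ := lp_ex G hx
  cases A with
  | nil =>
    rw [List.length_nil] at c
    omega
  | cons e A =>
    have := lp_ge a.tail (Sz2_one a.notMem)
    rw [List.length_cons] at c
    exact ⟨e, a.adj, b e (by simp), by omega⟩

/-- The path that goes round the triangle. -/
theorem Sz2_thru (hC : Cac G) {x y z e : V} (h : Tr G x y z) (he : G.Adj x e) (hy : e ≠ y)
    (hz : e ≠ z) : lp G {x, y} z + 2 ≤ lp G {e} x := by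
  obtain ⟨A, a, b, c⟩ := lp_ex G (S := {x, y}) (x := z) fun q => q.elim h.2.1.ne' h.2.2.ne'
  have hx : x ∉ z :: A := fun q => b x q (Or.inl rfl)
  have p : P G (x :: y :: z :: A) := (a.cons h.2.2 fun q => b y q (Or.inr rfl)).cons h.1
    fun q => (List.mem_cons.1 q).elim h.1.ne hx
  have := lp_ge (S := {e}) p (Sz2_one fun q => by
    rcases List.mem_cons.1 q with q | q
    · exact he.ne' q
    rcases List.mem_cons.1 q with q | q
    · exact hy q
    · exact ((Sz2_off hC h he hy hz).2.2 z (Rg_symm (a.mem_Rg (Sz2_one hx) e q))).2.2 rfl)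
  simp only [List.length_cons] at this
  omega

theorem Sz2_max (hC : Cac G) {w x y : V} (h : Tr G w x y) :
    lp G {y} w ≤ max (lp G {x, y} w) (lp G {w, y} x + 1) := by
  obtain ⟨A, a, b, c⟩ := lp_ex G (S := {y}) (x := w) h.2.1.ne
  rw [← c]
  by_cases hx : x ∈ A
  · cases A with
    | nil => cases hx
    | cons t A =>
      have e : t = x := by
        by_contra e
        exact ((Sz2_off hC h a.adj e (b t (by simp))).2.2 x
          (a.tail.mem_Rg (Sz2_one a.notMem) x hx)).2.1 rfl
      subst e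
      have := lp_ge (S := {w, y}) a.tail fun v hv q => q.elim (fun r => a.notMem (r ▸ hv))
        (b v (List.mem_cons_of_mem _ hv))
      rw [List.length_cons]
      omega
  · refine le_max_of_le_left (lp_ge a fun v hv q => q.elim (fun r => ?_) (b v hv))
    subst r
    exact (List.mem_cons.1 hv).elim h.1.ne' hx

theorem Sz2_card {R R' : Set V} {x : V} (hx : x ∈ R) (h : R' ⊆ R \ {x}) :
    R'.ncard + 1 ≤ R.ncard := by
  have a := Set.ncard_le_ncard h (Set.toFinite _)
  have b := Set.ncard_sdiff_singleton_add_one hx (Set.toFinite _)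
  omega

theorem Sz2_pos (S : Set V) (x : V) : 1 ≤ (Rg G S x).ncard :=
  (Set.ncard_pos (Set.toFinite _)).2 ⟨x, Rg_self _ _⟩

omit [Finite V] in
theorem Sz2_cn {w x : V} (hn : ∀ s, G.Adj w s → ¬ G.Adj x s) :
    (G.commonNeighbors w x).ncard = 0 := by
  rw [show G.commonNeighbors w x = ∅ from Set.eq_empty_of_forall_notMem fun s hs => hn s hs.1 hs.2]
  exact Set.ncard_empty V

theorem Sz2_l1 (a b v : V) : lp G {a, b} v ≤ lp G {a} v :=
  lp_anti G (Set.singleton_subset_iff.2 (Or.inl rfl)) v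

theorem own (hC : Cac G) (hD : D2 k G) (h1 : T1 G) {x y z : V} (h : Tr G x y z)
    (ht : lp G {y, z} x ≤ lp G {x, y} z + 3) : 2 ^ (lp G {y, z} x - 1) ≤ (Rg G {y, z} x).ncard := by
  by_cases h2 : 2 ≤ lp G {y, z} x
  · obtain ⟨e, he, hS, hl⟩ := Sz2_snd h2
    have hy : e ≠ y := fun q => hS (Or.inl q)
    have hz : e ≠ z := fun q => hS (Or.inr q)
    obtain ⟨a, b, -⟩ := Sz2_off hC h he hy hz
    have c := Sz2_thru hC h he hy hz
    have d := br0 hC hD he (Sz2_nt hC h1 h he hy hz) (by omega)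
    rw [show lp G {y, z} x - 1 = lp G {x} e by omega]
    exact d.trans (Sz2_card (Rg_self _ _) b)
  · rw [show lp G {y, z} x - 1 = 0 by omega]
    exact Sz2_pos _ _

theorem bal (hC : Cac G) (hD : D2 k G) (h1 : T1 G) {w x y : V} (h : Tr G w x y)
    (ht : lp G {w, x} y ≤ lp G {x, y} w) : lp G {w, x} y ≤ lp G {w, y} x := by
  by_cases h2 : 2 ≤ lp G {w, x} y
  swap
  · have := lp_pos G (S := {w, y}) (x := x) fun q => q.elim h.1.ne' h.2.2.ne
    omega
  obtain ⟨e, he, hS, hl⟩ := Sz2_snd h2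
  have hw : e ≠ w := fun q => hS (Or.inl q)
  have hx : e ≠ x := fun q => hS (Or.inr q)
  have t : Tr G y w x := Sz2_s12 (Sz2_s23 h)
  have a := (lp_tri hC hD.1 (Sz2_s23 t)).1
  rw [Set.pair_comm x w, Set.pair_comm y x] at a
  have nt : NT G e := Sz2_nt hC h1 t he hw hx e (Rg_self _ _)
  rcases hD.rule hC y e w he t.1 hw (Sz2_nadj hC t he hx) with
    ⟨z, z1, -, z3, -, z5⟩ | ⟨z, z1, z2, -, z4, z5⟩
  · rw [Sz2_cn fun s p q => nt y s he.symm q p] at z5
    by_cases q : z = x
    · subst q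
      rw [Set.pair_comm y w, Set.pair_comm y z] at z5
      omega
    · have b := (Sz2_off hC t z1 z3 q).1
      have c := Sz2_l1 (G := G) y w z
      have d := Sz2_l1 (G := G) y z w
      have m := Sz2_max hC h
      omega
  · have q : z ≠ x := fun q => z4 (q ▸ h.1)
    have b := (Sz2_off hC t z1 z2 q).1
    have b' := (Sz2_off hC t he hw hx).1
    have c := Sz2_l1 (G := G) y e z
    have d := Sz2_l1 (G := G) y z e
    have m := hC.ncard_le t.1
    omega

theorem brT (hC : Cac G) (hD : D2 k G) (h1 : T1 G) {w x y : V} (h : Tr G w x y)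
    (hx : lp G {w, y} x ≤ lp G {x, y} w) (hy : lp G {w, x} y ≤ lp G {x, y} w) :
    2 ^ max (lp G {w, y} x) (lp G {w, x} y) ≤ (Rg G {w} x).ncard := by
  have a := bal hC hD h1 h hy
  have b := bal hC hD h1 (Sz2_s23 h) (by rw [Set.pair_comm y x]; exact hx)
  have c := own hC hD h1 (Sz2_s12 h) (by rw [Set.pair_comm x w]; omega)
  have d := own hC hD h1 (Sz2_s12 (Sz2_s23 h)) (by rw [Set.pair_comm y w]; omega)
  have e := (lp_tri hC hD.1 (Sz2_s12 h)).2
  rw [Set.pair_comm x w] at e
  have p := lp_pos G (S := {w, y}) (x := x) fun q => q.elim h.1.ne' h.2.2.ne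
  have s : ∀ v : V, ({w} : Set V) ⊆ {w, v} := fun v => Set.singleton_subset_iff.2 (Or.inl rfl)
  have u : Rg G {w, y} x ∪ Rg G {w, x} y ⊆ Rg G {w} x :=
    Set.union_subset (Rg_anti (s y) x) fun v hv => Rg_trans
      (Rg_adj (S := {w}) h.1.ne' (Rg_self _ _) h.2.2 h.2.1.ne') (Rg_anti (s x) y hv)
  have f := Set.ncard_le_ncard u (Set.toFinite _)
  rw [Set.ncard_union_eq e (Set.toFinite _) (Set.toFinite _)] at f
  rw [show lp G {w, x} y = lp G {w, y} x by omega] at d ⊢
  rw [max_self, show lp G {w, y} x = lp G {w, y} x - 1 + 1 by omega, pow_succ]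
  omega

/-- A child without triangles in its region, given a second long branch. -/
theorem Sz2_fin (hC : Cac G) (hD : D2 k G) {x c d : V} (hc : G.Adj x c) (hd : G.Adj x d)
    (hne : d ≠ c) (hn : ¬ G.Adj c d) (hnt : ∀ t ∈ Rg G {x} c, NT G t)
    (hl : lp G {x} c ≤ lp G {x} d + 2) : 2 ^ lp G {x} c ≤ (Rg G {x} c).ncard + 1 := by
  have a := (lp_child hC hc.symm hd hne hn).1
  exact br0 hC hD hc hnt (by omega)

theorem Sz2_brN (hC : Cac G) (hD : D2 k G) (h1 : T1 G) {w x : V} (hx : G.Adj w x) (hn : NT G x)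
    (h2 : 2 ≤ lp G {w} x) (ht : lp G {w} x ≤ lp G {x} w + 1) :
    2 ^ (lp G {w} x - 1) ≤ (Rg G {w} x).ncard := by
  obtain ⟨c, d, ne, hc, hd, cw, dw, lc, ld⟩ := two_tight hC hD hx hn h2 ht
  have key : ∀ c d, c ≠ d → G.Adj x c → G.Adj x d → c ≠ w → lp G {x} c + 1 = lp G {w} x →
      lp G {x} d + 1 = lp G {w} x → (∀ t ∈ Rg G {x} c, NT G t) →
      2 ^ (lp G {w} x - 1) ≤ (Rg G {w} x).ncard := fun c d ne hc hd cw lc ld nt => by
    rw [show lp G {w} x - 1 = lp G {x} c by omega]
    exact (Sz2_fin hC hD hc hd ne.symm (hn c d hc hd) nt (by omega)).trans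
      (Sz2_card (Rg_self _ _) (lp_child hC hx hc cw (hn w c hx.symm hc)).2)
  by_cases q : ∀ t ∈ Rg G {x} c, NT G t
  · exact key c d ne hc hd cw lc ld q
  refine key d c ne.symm hd hc dw ld lc fun t ht => ?_
  by_contra r
  simp only [not_forall] at q
  obtain ⟨s, hs, q⟩ := q
  have dj := Set.disjoint_left.1 (hC.sepR hc hd ne (hn c d hc hd))
  have tx : t ∉ ({x} : Set V) := Rg_notMem (S := {x}) hd.ne' ht
  simp only [NT, not_forall, not_not] at q
  obtain ⟨u, v, a, b, e⟩ := q
  rcases h1 s u v t ⟨a, b, e⟩ r with rfl | rfl | rfl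
  · exact dj hs ht
  · exact dj (Rg_adj (S := {x}) hc.ne' hs a tx) ht
  · exact dj (Rg_adj (S := {x}) hc.ne' hs b tx) ht

theorem br1 (hC : Cac G) (hD : D2 k G) (h1 : T1 G) {w x : V} (hx : G.Adj w x)
    (hn : ∀ s, G.Adj w s → ¬ G.Adj x s) (ht : lp G {w} x ≤ lp G {x} w + 1) :
    2 ^ (lp G {w} x - 1) ≤ (Rg G {w} x).ncard := by
  by_cases h2 : 2 ≤ lp G {w} x
  swap
  · rw [show lp G {w} x - 1 = 0 by omega]
    exact Sz2_pos _ _
  by_cases q : NT G x
  · exact Sz2_brN hC hD h1 hx q h2 ht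
  simp only [NT, not_forall, not_not] at q
  obtain ⟨c, d, hc, hd, cd⟩ := q
  have t : Tr G x c d := ⟨hc, hd, cd⟩
  have wc : w ≠ c := fun e => hn d (e ▸ cd) hd
  have wd : w ≠ d := fun e => hn c (e ▸ cd.symm) hc
  have ch : ∀ z, G.Adj x z → z ≠ w →
      lp G {x} z + 1 ≤ lp G {w} x ∧ Rg G {x} z ⊆ Rg G {w} x \ {x} := fun z a b =>
    lp_child hC hx a b fun r => hn z r a
  have br := lp_bridge hC hD.1 hx hn
  have lc := (ch c hc wc.symm).1
  have ld := (ch d hd wd.symm).1
  have mc := Sz2_max hC (Sz2_s23 (Sz2_s12 t))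
  have md := Sz2_max hC (Sz2_s23 (Sz2_s12 (Sz2_s23 t)))
  rw [Set.pair_comm d x, Set.pair_comm c x] at mc md
  have fin : ∀ z, G.Adj x z → z ≠ w → z ≠ c → z ≠ d → 2 ^ lp G {x} z ≤ (Rg G {x} z).ncard + 1 :=
    fun z a b e f => Sz2_fin hC hD a hx.symm b.symm (fun r => hn z r.symm a)
      (Sz2_nt hC h1 t a e f) (by have := (ch z a b).1; omega)
  obtain ⟨z, z1, z2, z3, z4, z5⟩ : ∃ z, G.Adj x z ∧ z ≠ w ∧ z ≠ c ∧ z ≠ d ∧
      lp G {w} x ≤ lp G {x} z + 2 := by
    rcases hD.rule hC x w c hx.symm hc wc fun r => hn c r hc with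
      ⟨z, z1, z2, z3, -, z5⟩ | ⟨z, z1, z2, z3, z4, z5⟩
    · rw [Sz2_cn fun s p r => hn s r p] at z5
      have a := Sz2_l1 (G := G) x c z
      have b := Sz2_l1 (G := G) x z c
      by_cases e : z = d
      · subst e
        exfalso
        obtain ⟨A, a1, a2, a3⟩ := lp_ex G (S := {x, c}) (x := z) fun r => r.elim hd.ne' cd.ne'
        obtain ⟨B, b1, b2, b3⟩ := lp_ex G (S := {x, z}) (x := c) fun r => r.elim hc.ne' cd.ne
        have p := lp_ge (S := {x}) (a1.cons cd fun r => a2 c r (Or.inr rfl)) (Sz2_one fun r =>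
          (List.mem_cons.1 r).elim hc.ne fun r => a2 x r (Or.inl rfl))
        have p' := lp_ge (S := {x}) (b1.cons cd.symm fun r => b2 z r (Or.inr rfl)) (Sz2_one fun r =>
          (List.mem_cons.1 r).elim hd.ne fun r => b2 x r (Or.inl rfl))
        rw [List.length_cons] at p p'
        omega
      · exact ⟨z, z1, z2, z3, e, by omega⟩
    · have a := Sz2_l1 (G := G) x w z
      have b := Sz2_l1 (G := G) x z w
      have m := hC.ncard_le hc
      exact ⟨z, z1, z3, z2, fun e => z4 (e ▸ cd), by omega⟩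
  have one : ∀ z, G.Adj x z → z ≠ w → z ≠ c → z ≠ d → lp G {w} x ≤ lp G {x} z + 1 →
      2 ^ (lp G {w} x - 1) ≤ (Rg G {w} x).ncard := fun z a b e f g => by
    have := (ch z a b).1
    rw [show lp G {w} x - 1 = lp G {x} z by omega]
    exact (fin z a b e f).trans (Sz2_card (Rg_self _ _) (ch z a b).2)
  by_cases g : lp G {w} x ≤ lp G {x} z + 1
  · exact one z z1 z2 z3 z4 g
  obtain ⟨e, e1, e2, e3⟩ := Sz2_snd h2
  by_cases e4 : e ≠ c ∧ e ≠ d
  · exact one e e1 e2 e4.1 e4.2 e3
  have m : lp G {x} z ≤ max (lp G {x, d} c) (lp G {x, c} d) := by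
    rw [not_and_or, not_not, not_not] at e4
    rcases e4 with rfl | rfl <;> omega
  have o := (Sz2_off hC t hx.symm wc wd).1
  have a := Sz2_l1 (G := G) x d c
  have b := Sz2_l1 (G := G) x c d
  have r := (Nat.pow_le_pow_right two_pos m).trans (brT hC hD h1 t (by omega) (by omega))
  have f := fin z z1 z2 z3 z4
  have u := Sz2_card (Rg_self _ _) (Set.union_subset (ch c hc wc.symm).2 (ch z z1 z2).2)
  rw [Set.ncard_union_eq (hC.sepR hc z1 z3.symm fun r => Sz2_nadj hC t z1 z4 r.symm)
    (Set.toFinite _) (Set.toFinite _)] at u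
  rw [show lp G {w} x - 1 = lp G {x} z + 1 by omega, pow_succ]
  omega

end PS
end

-- merged part: Pool.Agent.Work.MP_3e1eec_co.Sz3
section
/-! Size of a component with at most one triangle.
Plan.  A common neighbour of two consecutive vertices of `Q` lies on `Q` (else insert it), and by `Cac` it is the vertex just before or just after.
`k = 2 j + 1`, middle edge `w x`.  If it is in no triangle both sides have `lp = j`; one side has no triangle: `br0` and `br1`.  Otherwise (reverse `Q` if needed) the triangle is `w, x, s` with own weights `j` at `w`, `j - 1` at `s`; the rule at `s` gives weight `j - 1` at `x`; the rule at `w` gives two children of `w` off the triangle with `lp = j - 1`; count `1 + 2 (2 ^ (j - 1) - 1) + 2 * 2 ^ (j - 2)`.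
`k = 2 j + 2`, middle vertex `w` with neighbours `x`, `y`.  If `x`, `y` are not adjacent both branches have `lp = j`; one has no triangle (`br0`), the other has `2 ^ (j - 1)` vertices (`br1`, or `brT` if the edge is in the triangle).  If they are adjacent the own weights of `x`, `y` are `j`, the rule at `x` gives weight `j` at `w`; `own` three times. -/

open SimpleGraph

namespace PS
variable {V : Type} {G : SimpleGraph V} [Finite V] {k : ℕ}

omit [Finite V] in
theorem Sz3_cm {u v : V} (h : G.Reachable u v) : Cm G u = Cm G v :=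
  Set.ext fun _ => ⟨fun e => h.symm.trans e, fun e => h.trans e⟩

omit [Finite V] in
theorem Sz3_rg {w x : V} (h : G.Adj w x) (S : Set V) : Rg G S x ⊆ Cm G w :=
  Sz3_cm h.reachable ▸ Rg_sub_Cm S x

omit [Finite V] in
theorem Sz3_rg' {w x : V} (h : G.Adj w x) : Rg G {w} x ⊆ Cm G w \ {w} :=
  fun _ hv => ⟨Sz3_rg h _ hv, Rg_notMem (S := {w}) h.ne' hv⟩

theorem Sz3_c3 {C X Y Z : Set V} (hX : X ⊆ C) (hY : Y ⊆ C) (hZ : Z ⊆ C) (h1 : Disjoint X Y)
    (h2 : Disjoint X Z) (h3 : Disjoint Y Z) : X.ncard + Y.ncard + Z.ncard ≤ C.ncard := by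
  rw [← Set.ncard_union_eq h1, ← Set.ncard_union_eq (Set.disjoint_union_left.2 ⟨h2, h3⟩)]
  exact Set.ncard_le_ncard (Set.union_subset (Set.union_subset hX hY) hZ)

theorem Sz3_c2 {C X Y : Set V} (hX : X ⊆ C) (hY : Y ⊆ C) (h1 : Disjoint X Y) :
    X.ncard + Y.ncard ≤ C.ncard := by
  rw [← Set.ncard_union_eq h1]
  exact Set.ncard_le_ncard (Set.union_subset hX hY)

theorem Sz3_c1 (G : SimpleGraph V) (w : V) : (Cm G w \ {w}).ncard + 1 = (Cm G w).ncard :=
  Set.ncard_sdiff_singleton_add_one (Reachable.refl w)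

omit [Finite V] in
theorem Sz3_adj (h1 : T1 G) {t t' : V} (ht : ¬ NT G t) (ht' : ¬ NT G t') (hne : t ≠ t') :
    ∃ s, Tr G t t' s := by
  simp only [NT, not_forall, not_not] at ht
  obtain ⟨u, v, a1, a2, a3⟩ := ht
  rcases h1 t u v t' ⟨a1, a2, a3⟩ ht' with e | rfl | rfl
  exacts [absurd e.symm hne, ⟨v, a1, a2, a3⟩, ⟨u, a2, a1, a3.symm⟩]

omit [Finite V] in
/-- A neighbour of `w` off the triangle. -/
theorem Sz3_off (hC : Cac G) (h1 : T1 G) {w x s c : V} (h : Tr G w x s) (hc : G.Adj w c)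
    (cx : c ≠ x) (cs : c ≠ s) : ¬ G.Adj c x ∧ ∀ t ∈ Rg G {w} c, NT G t := by
  have n : NT G c := by_contra fun e => by
    rcases h1 w x s c h e with e | e | e
    exacts [hc.ne' e, cx e, cs e]
  have n1 : ¬ G.Adj c x := fun e => n w x hc.symm e h.1
  refine ⟨n1, fun t ht => by_contra fun e => ?_⟩
  rcases h1 w x s t h e with rfl | rfl | rfl
  · exact Rg_notMem (S := {t}) hc.ne' ht rfl
  · exact hC.sep hc h.1 cx n1 ht
  · exact hC.sep hc h.2.1 cs (fun e => n w t hc.symm e h.2.1) ht

theorem Sz3_max (hC : Cac G) {w y s : V} (h : Tr G w y s) :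
    lp G {w} y ≤ lp G {w, s} y ∨ lp G {w} y ≤ lp G {w, y} s + 1 := by
  obtain ⟨B, h1, h2, h3⟩ := lp_ex G (S := {w}) h.1.ne'
  rw [← h3]
  by_cases hs : s ∈ B
  · obtain ⟨B1, B2, rfl⟩ := List.append_of_mem hs
    have h4 : P G (y :: (B1 ++ [s])) := P.left (B := B2) (by simpa using h1)
    have h5 := hC y s B1 h4 h.2.2
    rcases B1 with _ | ⟨t, _ | ⟨t', B1⟩⟩
    · refine Or.inr (Nat.succ_le_succ (lp_ge h1.tail ?_))
      rintro v hv (e | e)
      · exact h2 v (List.mem_cons_of_mem _ hv) e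
      · exact h1.notMem (e ▸ hv)
    · exact absurd (hC.common h.2.2 h4.adj h4.tail.adj.symm h.1.symm h.2.1.symm)
        (h2 t (by simp))
    · simp at h5
  · refine Or.inl (lp_ge h1 ?_)
    rintro v hv (e | e)
    · exact h2 v hv e
    · exact (List.mem_cons.1 hv).elim (fun e' => h.2.2.ne (e'.symm.trans e)) fun e' => hs (e ▸ e')

omit [Finite V] in
/-- The two sides of an edge which is in no triangle. -/
theorem Sz3_dis (hC : Cac G) {w x : V} (hx : G.Adj w x) (hn : ∀ s, G.Adj w s → ¬ G.Adj x s) :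
    Disjoint (Rg G {w} x) (Rg G {x} w) := by
  refine Set.disjoint_left.2 fun v h1 h2 => ?_
  obtain ⟨B, b1, b2⟩ := Rg_path (S := {w}) hx.ne' h1 fun e =>
    Rg_notMem (S := {x}) hx.ne h2 e.symm
  obtain ⟨A, a1, a2⟩ := Rg_path (S := {x}) hx.ne h2 fun e =>
    Rg_notMem (S := {w}) hx.ne' h1 e.symm
  refine hC.disjF hx a1 b1 (fun e => a2 x (List.mem_cons_of_mem _ e) rfl)
    (fun e => b2 w (List.mem_cons_of_mem _ e) rfl) (fun z A' B' e e' => ?_) (a := v) (by simp)
    (by simp)
  rw [e] at a1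
  rw [e'] at b1
  exact hn z a1.adj b1.adj

theorem Sz3_oddN (hC : Cac G) (hD : D2 k G) (h1 : T1 G) {j : ℕ} (hj : 1 ≤ j) {w x : V}
    (hx : G.Adj w x) (hn : ∀ s, G.Adj w s → ¬ G.Adj x s) (l1 : lp G {w} x = j)
    (l2 : lp G {x} w = j) (hT : ∀ t ∈ Rg G {w} x, NT G t) :
    3 * 2 ^ (j - 1) ≤ (Cm G w).ncard + 1 := by
  have k1 := br0 hC hD hx hT (by omega)
  have k2 := br1 hC hD h1 hx.symm (fun s a b => hn s b a) (by omega)
  have k3 := Sz3_c2 (Sz3_rg hx _) (Rg_sub_Cm _ w) (Sz3_dis hC hx hn)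
  obtain ⟨i, rfl⟩ : ∃ i, j = i + 1 := ⟨j - 1, by omega⟩
  rw [l1, pow_succ] at k1
  rw [l2] at k2
  simp only [Nat.add_sub_cancel] at k2 ⊢
  omega

theorem Sz3_oddT (hC : Cac G) (hD : D2 k G) (h1 : T1 G) {j : ℕ} (hj : 2 ≤ j) (hk : k = 2 * j + 1)
    {w x s : V} (h : Tr G w x s) {A : List V} (hA : P G (w :: A)) (xA : x ∉ A) (sA : s ∉ A)
    (la : A.length + 1 = j) (lx : j ≤ lp G {w} x) : 3 * 2 ^ (j - 1) ≤ (Cm G w).ncard + 1 := by
  have o1 : j ≤ lp G {x, s} w := by
    refine la ▸ lp_ge hA fun v hv => ?_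
    rcases List.mem_cons.1 hv with rfl | hv
    · exact fun e => e.elim h.1.ne h.2.1.ne
    · exact fun e => e.elim (fun e => xA (e ▸ hv)) fun e => sA (e ▸ hv)
  have o2 := (lp_tri hC hD.1 h).1
  have o3 := (lp_tri hC hD.1 (x := w) (y := s) (z := x) ⟨h.2.1, h.1, h.2.2.symm⟩).1
  rw [Set.pair_comm s x] at o3
  have o4 := Sz3_max hC h
  have o5 := bal hC hD h1 h (by omega)
  have o6 := brT hC hD h1 h (by omega) (by omega)
  rw [show max (lp G {w, s} x) (lp G {w, x} s) = j - 1 by omega] at o6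
  have ch : ∀ c, G.Adj w c → c ≠ x → c ≠ s → j - 1 ≤ lp G {w} c → ¬ G.Adj c x ∧ NT G c ∧
      lp G {w} c + lp G {w} x + 1 < k ∧ 2 ^ (j - 1) ≤ (Rg G {w} c).ncard + 1 := by
    intro c hc cx cs l
    obtain ⟨n1, n2⟩ := Sz3_off hC h1 h hc cx cs
    have p1 := lp_two hC hD.1 hc h.1 cx n1
    have p2 := (lp_child hC hc.symm h.1 cx.symm n1).1
    exact ⟨n1, n2 c (Rg_self _ _), p1,
      (Nat.pow_le_pow_right two_pos l).trans (br0 hC hD hc n2 (by omega))⟩
  rcases A with _ | ⟨e, A⟩
  · simp at la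
    omega
  have he := hA.adj
  have ex : e ≠ x := fun c => xA (c ▸ List.mem_cons_self)
  have le : j - 1 ≤ lp G {w} e := by
    have := lp_ge (S := {w}) hA.tail fun v hv c => hA.notMem (c ▸ hv)
    rw [List.length_cons] at la
    omega
  obtain ⟨e1, e2, e3, e4⟩ := ch e he ex (fun c => sA (c ▸ List.mem_cons_self)) le
  obtain ⟨z, z1, z2, z3, z4, z5⟩ : ∃ z, G.Adj w z ∧ z ≠ e ∧ z ≠ x ∧ z ≠ s ∧ j - 1 ≤ lp G {w} z := by
    rcases hD.rule hC w e x he h.1 ex e1 with ⟨z, a1, a2, a3, -, a5⟩ | ⟨z, a1, a2, a3, a4, a5⟩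
    · have c0 : G.commonNeighbors w e = ∅ :=
        Set.eq_empty_of_forall_notMem fun t ht => e2 w t he.symm ht.2 ht.1
      rw [c0, Set.ncard_empty] at a5
      have b1 := lp_anti G (S := {w}) (T := {w, x}) (by simp) z
      have b2 := lp_anti G (S := {w}) (T := {w, z}) (by simp) x
      refine ⟨z, a1, a2, a3, fun c => ?_, by omega⟩
      rw [c] at a5
      omega
    · have c0 := hC.ncard_le h.1
      have b1 := lp_anti G (S := {w}) (T := {w, e}) (by simp) z
      have b2 := lp_anti G (S := {w}) (T := {w, z}) (by simp) e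
      exact ⟨z, a1, a3, a2, fun c => a4 (c ▸ h.2.2), by omega⟩
  obtain ⟨f1, f2, -, f4⟩ := ch z z1 z3 z4 z5
  have k3 := Sz3_c3 (Sz3_rg' he) (Sz3_rg' z1) (Sz3_rg' h.1)
    (hC.sepR he z1 z2.symm fun c => e2 w z he.symm c z1) (hC.sepR he h.1 ex e1)
    (hC.sepR z1 h.1 z3 f1)
  have k4 := Sz3_c1 G w
  omega

theorem Sz3_odd (hC : Cac G) (hD : D2 k G) (h1 : T1 G) {j : ℕ} (hj : 2 ≤ j) (hk : k = 2 * j + 1)
    {w x : V} {A B : List V} (hA : P G (w :: A)) (hB : P G (x :: B)) (hx : G.Adj w x)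
    (hd : (w :: A).Disjoint (x :: B)) (la : A.length + 1 = j) (lb : B.length + 1 = j) :
    3 * 2 ^ (j - 1) ≤ (Cm G w).ncard + 1 := by
  have l1 : j ≤ lp G {w} x := lb ▸ lp_ge hB fun v hv c => hd (c ▸ List.mem_cons_self) hv
  have l2 : j ≤ lp G {x} w := la ▸ lp_ge hA fun v hv c => hd hv (c ▸ List.mem_cons_self)
  have cm := Sz3_cm hx.reachable
  by_cases hn : ∀ s, G.Adj w s → ¬ G.Adj x s
  · have l3 := lp_bridge hC hD.1 hx hn
    by_cases hT : ∀ t ∈ Rg G {w} x, NT G t
    · exact Sz3_oddN hC hD h1 (by omega) hx hn (by omega) (by omega) hT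
    rw [cm]
    refine Sz3_oddN hC hD h1 (by omega) hx.symm (fun s a b => hn s b a) (by omega) (by omega)
      fun t' ht' => by_contra fun n' => hT fun t ht => by_contra fun n => ?_
    have dis := Set.disjoint_left.1 (Sz3_dis hC hx hn)
    obtain ⟨s, a1, a2, a3⟩ := Sz3_adj h1 n n' fun c => dis ht (c ▸ ht')
    obtain rfl : t' = w := by_contra fun c => dis (Rg_adj (S := {w}) hx.ne' ht a1 c) ht'
    obtain rfl : t = x := by_contra fun c => dis ht (Rg_adj (S := {x}) hx.ne ht' a1.symm c)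
    exact hn s a3 a2
  · simp only [not_forall, not_not] at hn
    obtain ⟨s, s1, s2⟩ := hn
    by_cases sA : s ∈ A
    · rw [cm]
      exact Sz3_oddT hC hD h1 hj hk ⟨hx.symm, s2, s1⟩ hB
        (fun c => hd List.mem_cons_self (List.mem_cons_of_mem _ c))
        (fun c => hd (List.mem_cons_of_mem _ sA) (List.mem_cons_of_mem _ c)) lb l2
    · exact Sz3_oddT hC hD h1 hj hk ⟨hx, s1, s2⟩ hA
        (fun c => hd (List.mem_cons_of_mem _ c) List.mem_cons_self) sA la l1

theorem Sz3_evenN (hC : Cac G) (hD : D2 k G) (h1 : T1 G) {j : ℕ} (hj : 1 ≤ j) (hk : k = 2 * j + 2)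
    {w x y : V} (hx : G.Adj w x) (hy : G.Adj w y) (hne : x ≠ y) (hn : ¬ G.Adj x y)
    (l1 : lp G {w} x = j) (l2 : lp G {w} y = j) (hT : ∀ t ∈ Rg G {w} x, NT G t) :
    3 * 2 ^ (j - 1) ≤ (Cm G w).ncard := by
  have c1 := (lp_child hC hx.symm hy hne.symm hn).1
  have c2 := (lp_child hC hy.symm hx hne fun c => hn c.symm).1
  have k1 := br0 hC hD hx hT (by omega)
  have k2 : 2 ^ (j - 1) ≤ (Rg G {w} y).ncard := by
    by_cases hs : ∀ s, G.Adj w s → ¬ G.Adj y s
    · exact l2 ▸ br1 hC hD h1 hy hs (by omega)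
    simp only [not_forall, not_not] at hs
    obtain ⟨s, s1, s2⟩ := hs
    have h : Tr G w y s := ⟨hy, s1, s2⟩
    have o1 : j + 1 ≤ lp G {y, s} w := by
      obtain ⟨A, a1, a2, a3⟩ := lp_ex G (S := {w}) hx.ne'
      refine l1 ▸ a3 ▸ lp_ge (A := x :: A) (a1.cons hx fun c => a2 w c rfl) fun v hv => ?_
      rcases List.mem_cons.1 hv with rfl | hv
      · exact fun e => e.elim hy.ne s1.ne
      · have n := hT v (a1.mem_Rg a2 v hv)
        rintro (rfl | rfl)
        exacts [n w s hy.symm s2 s1, n w y s1.symm s2.symm hy]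
    have o2 := (lp_tri hC hD.1 h).1
    have o3 := (lp_tri hC hD.1 (x := w) (y := s) (z := y) ⟨s1, hy, s2.symm⟩).1
    rw [Set.pair_comm s y] at o3
    have o4 := Sz3_max hC h
    exact (Nat.pow_le_pow_right two_pos (by omega)).trans (brT hC hD h1 h (by omega) (by omega))
  have k3 := Sz3_c2 (Sz3_rg' hx) (Sz3_rg' hy) (hC.sepR hx hy hne hn)
  have k4 := Sz3_c1 G w
  obtain ⟨i, rfl⟩ : ∃ i, j = i + 1 := ⟨j - 1, by omega⟩
  rw [l1, pow_succ] at k1
  simp only [Nat.add_sub_cancel] at k2 ⊢
  omega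

theorem Sz3_evenT (hC : Cac G) (hD : D2 k G) (h1 : T1 G) {j : ℕ} (hk : k = 2 * j + 2)
    {w x y : V} (h : Tr G w x y) (l1 : j ≤ lp G {w, y} x) (l2 : j ≤ lp G {w, x} y) :
    3 * 2 ^ (j - 1) ≤ (Cm G w).ncard := by
  have t1 : Tr G x w y := ⟨h.1.symm, h.2.2, h.2.1⟩
  have t2 : Tr G y w x := ⟨h.2.1.symm, h.2.2.symm, h.1⟩
  have t3 : Tr G w y x := ⟨h.2.1, h.1, h.2.2.symm⟩
  obtain ⟨o1, d1⟩ := lp_tri hC hD.1 t1
  obtain ⟨o2, d2⟩ := lp_tri hC hD.1 h
  obtain ⟨o3, d3⟩ := lp_tri hC hD.1 t3
  have o4 := bal hC hD h1 t1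
  have k1 := own hC hD h1 t1
  have k2 := own hC hD h1 t2
  have k3 := own hC hD h1 h
  rw [Set.pair_comm x w] at o1 d1 o4 k1
  rw [Set.pair_comm y x] at o3 d3
  rw [Set.pair_comm y w] at k2
  have o5 := o4 (by omega)
  have k4 := Sz3_c3 (Rg_sub_Cm _ w) (Sz3_rg h.1 _) (Sz3_rg h.2.1 _) d3 d2 d1
  have e1 : lp G {w, y} x = j := by omega
  have e2 : lp G {w, x} y = j := by omega
  have e3 : lp G {x, y} w = j := by omega
  simp only [e1, e2, e3, Nat.le_add_right, forall_true_left] at k1 k2 k3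
  omega

theorem Sz3_even (hC : Cac G) (hD : D2 k G) (h1 : T1 G) {j : ℕ} (hj : 1 ≤ j) (hk : k = 2 * j + 2)
    {w x y : V} {A B : List V} (hA : P G (w :: x :: A)) (hB : P G (w :: y :: B))
    (hd : (x :: A).Disjoint (y :: B)) (la : A.length + 1 = j) (lb : B.length + 1 = j) :
    3 * 2 ^ (j - 1) ≤ (Cm G w).ncard := by
  have hx := hA.adj
  have hy := hB.adj
  have hne : x ≠ y := fun c => hd List.mem_cons_self (c ▸ List.mem_cons_self)
  have l1 : j ≤ lp G {w, y} x := la ▸ lp_ge hA.tail fun v hv c =>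
    c.elim (fun c => hA.notMem (c ▸ hv)) fun c => hd hv (c ▸ List.mem_cons_self)
  have l2 : j ≤ lp G {w, x} y := lb ▸ lp_ge hB.tail fun v hv c =>
    c.elim (fun c => hB.notMem (c ▸ hv)) fun c => hd (c ▸ List.mem_cons_self) hv
  by_cases hn : G.Adj x y
  · exact Sz3_evenT hC hD h1 hk ⟨hx, hy, hn⟩ l1 l2
  have b1 := lp_anti G (S := {w}) (T := {w, y}) (by simp) x
  have b2 := lp_anti G (S := {w}) (T := {w, x}) (by simp) y
  have l3 := lp_two hC hD.1 hx hy hne hn
  by_cases hT : ∀ t ∈ Rg G {w} x, NT G t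
  · exact Sz3_evenN hC hD h1 hj hk hx hy hne hn (by omega) (by omega) hT
  refine Sz3_evenN hC hD h1 hj hk hy hx hne.symm (fun c => hn c.symm) (by omega) (by omega)
    fun t' ht' => by_contra fun n' => hT fun t ht => by_contra fun n => ?_
  have dis := Set.disjoint_left.1 (hC.sepR hx hy hne hn)
  obtain ⟨s, a1, -⟩ := Sz3_adj h1 n n' fun c => dis ht (c ▸ ht')
  exact dis (Rg_adj (S := {w}) hx.ne' ht a1 (Rg_notMem (S := {w}) hy.ne' ht')) ht'

omit [Finite V] in
theorem Sz3_cut (Q : List V) {i : ℕ} (h : i ≤ Q.length) :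
    ∃ A B : List V, Q = A.reverse ++ B ∧ A.length = i :=
  ⟨(Q.take i).reverse, Q.drop i, by simp, by simp [h]⟩

theorem sizeU_odd (hC : Cac G) (hD : D2 k G) (h1 : T1 G) {j : ℕ} (hj : 4 ≤ j) (hk : k = 2 * j + 1)
    {Q : List V} {v : V} (hQ : P G Q) (hl : Q.length + 1 = k) (hv : v ∈ Q) :
    3 * 2 ^ (j - 1) ≤ (Cm G v).ncard + 1 := by
  obtain ⟨A, B, rfl, la⟩ := Sz3_cut Q (i := j) (by omega)
  rw [List.length_append, List.length_reverse] at hl
  rcases A with _ | ⟨w, A⟩
  · simp at la
    omega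
  rcases B with _ | ⟨x, B⟩
  · rw [List.length_nil] at hl
    omega
  rw [la, List.length_cons] at hl
  rw [Sz3_cm (hQ.reach' hv (show w ∈ _ by simp))]
  refine Sz3_odd hC hD h1 (by omega) hk (by simpa using hQ.left.reverse) hQ.right
    (P.mid (A := A.reverse) (B := B) (by simpa using hQ))
    (fun _ c => hQ.disj (List.mem_reverse.2 c)) la (by omega)

theorem sizeU_even (hC : Cac G) (hD : D2 k G) (h1 : T1 G) {j : ℕ} (hj : 4 ≤ j) (hk : k = 2 * j + 2)
    {Q : List V} {v : V} (hQ : P G Q) (hl : Q.length + 1 = k) (hv : v ∈ Q) :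
    3 * 2 ^ (j - 1) ≤ (Cm G v).ncard := by
  obtain ⟨A, B, rfl, la⟩ := Sz3_cut Q (i := j) (by omega)
  rw [List.length_append, List.length_reverse] at hl
  rcases A with _ | ⟨x, A⟩
  · simp at la
    omega
  rcases B with _ | ⟨w, _ | ⟨y, B⟩⟩
  · rw [List.length_nil] at hl
    omega
  · rw [List.length_singleton] at hl
    omega
  rw [la, List.length_cons, List.length_cons] at hl
  rw [Sz3_cm (hQ.reach' hv (show w ∈ _ by simp))]
  have h2 : P G ((x :: A).reverse ++ [w]) := P.left (B := y :: B) (by simpa using hQ)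
  refine Sz3_even hC hD h1 (by omega) hk (by simpa using h2.reverse) hQ.right
    (fun _ c c' => hQ.disj (List.mem_reverse.2 c) (List.mem_cons_of_mem _ c')) la (by omega)

theorem sizeU (hC : Cac G) (hD : D2 k G) (hk : 9 ≤ k) (h1 : T1 G) {Q : List V} {v : V}
    (hQ : P G Q) (hl : Q.length + 1 = k) (hv : v ∈ Q) : b k ≤ (Cm G v).ncard := by
  unfold b
  split_ifs with h
  · have := sizeU_even hC hD h1 (j := k / 2 - 1) (by omega) (by omega) hQ hl hv
    rwa [show k / 2 - 1 - 1 = k / 2 - 2 by omega] at this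
  · have := sizeU_odd hC hD h1 (j := k / 2) (by omega) (by omega) hQ hl hv
    omega

end PS
end

-- merged part: Pool.Agent.Work.MP_3e1eec_co.Far1
section
/-! Two climbs at the ends of an edge `w u`; `x` climbs to `w` through `p`, `y` climbs to `u` through `r`.
Plan.  Let `z`, `z'` be the vertices of the two rules, `U = lp {w, z} u`, `W = lp {u, z'} w`, `σ t = lp {w, u} t`.
`climb2`: for a neighbour `t` of `w` with `t ≠ p`, `t ≠ u`, not adjacent to `p`, and a neighbour `t'` of `u` with the same properties for `r`, `w`, and `t ≠ t'`, the two climbs continued through `t`, `t'` are disjoint (`Cac.disjE`, `Cac.sepR`; the climb of `x` is in `Rg {u} w`, which misses `Rg {u} r`).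
`z ≠ z'`: if longest paths for `U`, `W` do not have the same second vertex then `U + W < k` (`Cac.disjF`) and `climb2 z z'` is long enough; if both start with `s` then `U, W ≤ σ s + 1`, use `climb2 s z'`.
`z = z' = s`: by `T2` and symmetry no vertex of `Rg {u} r` is in a triangle.  Let `u :: R` be a longest path for `U`.  If `R` does not start with `r` use the climb of `x` continued by `s` and the climb of `y` continued by `R`.  Otherwise `U ≤ lp {u} r + 1`; use the climb of `x` continued by `u`, `s`, and a path from `y` inside `Rg {u} r` given by `up`; its condition holds since `lp {r} u ≥ W + 2` and `σ s + 2 + lp {u} r < k ≤ σ s + 2 + W`.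
`up`: if `y ≠ r`, `two_tight` gives a child of `r` different from the one towards `y`. -/

open SimpleGraph

namespace PS
variable {V : Type} {G : SimpleGraph V} [Finite V] {k : ℕ}

omit [Finite V] in
theorem Far1_av {w : V} {l : List V} (h : w ∉ l) : ∀ v ∈ l, v ∉ ({w} : Set V) :=
  fun _ hv e => h (Set.mem_singleton_iff.1 e ▸ hv)

theorem up (hC : Cac G) (hD : D2 k G) {u r y : V} (h : G.Adj u r) (hn : NT G r)
    (ht : lp G {u} r ≤ lp G {r} u + 1) (hy : y ∈ Rg G {u} r) : lp G {u} r ≤ lp G {u} y := by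
  by_cases e : r = y
  · exact e ▸ le_rfl
  have hr : r ∉ ({u} : Set V) := fun e => h.ne' e
  by_cases h2 : 2 ≤ lp G {u} r
  swap
  · have := lp_pos G (Rg_notMem hr hy)
    omega
  obtain ⟨A, hA, hA'⟩ := Rg_path hr hy e
  obtain ⟨a, A', e'⟩ := List.exists_cons_of_ne_nil (l := A ++ [y]) (by simp)
  have ha : G.Adj r a := by
    rw [e'] at hA
    exact hA.adj
  obtain ⟨c, c1, c2, c3, c4⟩ : ∃ c, a ≠ c ∧ G.Adj r c ∧ c ≠ u ∧ lp G {r} c + 1 = lp G {u} r := by
    obtain ⟨c₁, c₂, n, h1, h2, h3, h4, h5, h6⟩ := two_tight hC hD h hn h2 ht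
    by_cases e : a = c₁
    · exact ⟨c₂, e ▸ n, h2, h4, h6⟩
    · exact ⟨c₁, e, h1, h3, h5⟩
  obtain ⟨B, hB, hB', hl⟩ := lp_ex G (S := {r}) (x := c) c2.ne'
  have hu : ∀ v ∈ c :: B, v ∉ ({u} : Set V) := fun v hv =>
    Rg_notMem hr ((lp_child hC h c2 c3 (hn u c h.symm c2)).2 (hB.mem_Rg hB' v hv)).1
  have hd : (A ++ [y]).Disjoint (c :: B) := by
    rw [e'] at hA ⊢
    exact hC.disj ha c2 c1 (hn a c ha c2) hA.tail hB hA.notMem fun hm => hB' r hm rfl
  have hP := hA.join0 (hB.cons c2 fun hm => hB' r hm rfl) hd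
  rw [List.reverse_append, List.reverse_singleton, List.singleton_append, List.cons_append] at hP
  have := lp_ge (S := {u}) hP fun v hv => by
    simp only [List.mem_cons, List.mem_append, List.mem_reverse] at hv
    rcases hv with e | e | e | e
    · exact hA' v (by simp [e])
    · exact hA' v (by simp [e])
    · exact e ▸ hr
    · exact hu v (List.mem_cons.2 e)
  simp only [List.length_append, List.length_cons] at this
  omega

/-- One end of the edge with its climb. -/
structure Far1_S (G : SimpleGraph V) (p w u x : V) : Prop where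
  hp : G.Adj w p
  hu : G.Adj w u
  ne : p ≠ u
  na : ¬ G.Adj p u
  cl : Climb G w p x

omit [Finite V] in
theorem Far1_br (hC : Cac G) {w p : V} (hp : G.Adj w p) {T : List V} (h : P G (w :: T))
    (hh : ∀ t T', T = t :: T' → t ≠ p ∧ ¬ G.Adj p t) : ∀ v ∈ T, v ∉ Rg G {w} p := by
  intro v hv hv'
  cases T with
  | nil => simp at hv
  | cons t T' =>
    exact Set.disjoint_left.1 (hC.sepR hp h.adj (hh t T' rfl).1.symm (hh t T' rfl).2) hv'
      (h.tail.mem_Rg (Far1_av h.notMem) v hv)

omit [Finite V] in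
theorem Far1_ext {w p x : V} (hx : Climb G w p x) {T : List V} (h : P G (w :: T))
    (hd : ∀ v ∈ T, v ∉ Rg G {w} p) : ∃ A, P G (x :: A) ∧
      (∀ v ∈ x :: A, v ∈ Rg G {w} p ∨ v ∈ w :: T) ∧
      (G.commonNeighbors w p).ncard + T.length + 1 ≤ A.length := by
  obtain ⟨C, h1, h2, h3⟩ := hx
  refine ⟨C ++ w :: T, P.glue (A := x :: C) h1 h fun v hv hv' => hd v hv' (h2 v hv),
    fun v hv => (List.mem_append.1 (show v ∈ (x :: C) ++ w :: T from hv)).imp_left (h2 v), ?_⟩
  simp only [List.length_append, List.length_cons]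
  omega

omit [Finite V] in
theorem Far1_side (hC : Cac G) {p w u x : V} (S : Far1_S G p w u x) :
    Rg G {w} p ⊆ Rg G {u} w := fun _ hv =>
  Rg_trans (Rg_adj (S := {u}) S.hu.ne (Rg_self _ _) S.hp S.ne)
    (Rg_avoid (S := {w}) (T := {u}) S.hp.ne' (fun t ht (e : t = u) => hC.sep S.hp S.hu S.ne S.na
      (e ▸ ht)) hv)

omit [Finite V] in
theorem Far1_comb (hC : Cac G) {p w u r x y : V} (S : Far1_S G p w u x) (S' : Far1_S G r u w y)
    {T T' : List V} (h : P G (w :: T)) (h' : P G (u :: T')) (hu : u ∉ T) (hw : w ∉ T')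
    (hne : ∀ z A B, T = z :: A → T' = z :: B → False)
    (hh : ∀ t A, T = t :: A → t ≠ p ∧ ¬ G.Adj p t) (hh' : ∀ t A, T' = t :: A → t ≠ r ∧ ¬ G.Adj r t)
    (hk : k ≤ (G.commonNeighbors w p).ncard + (G.commonNeighbors u r).ncard + T.length +
      T'.length + 4) : Cr k G x y := by
  obtain ⟨A, a1, a2, a3⟩ := Far1_ext S.cl h (Far1_br hC S.hp h hh)
  obtain ⟨B, b1, b2, b3⟩ := Far1_ext S'.cl h' (Far1_br hC S'.hp h' hh')
  refine ⟨A, B, a1, b1, fun v hv hv' => ?_, by omega⟩
  have d := Set.disjoint_left.1 (hC.sepR S.hp S.hu S.ne S.na)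
  have d' := Set.disjoint_left.1 (hC.sepR S'.hp S'.hu S'.ne S'.na)
  have m := h.mem_Rg (Far1_av (w := u) (by simp [hu, S.hu.ne']))
  have m' := h'.mem_Rg (Far1_av (w := w) (by simp [hw, S.hu.ne]))
  rcases a2 v hv with e | e <;> rcases b2 v hv' with e' | e'
  · exact d' e' (Far1_side hC S e)
  · exact d e (m' v e')
  · exact d' e' (m v e)
  · exact hC.disjF S.hu h h' hu hw hne e e'

theorem Far1_climb2 (hC : Cac G) {p w u r x y : V} (S : Far1_S G p w u x) (S' : Far1_S G r u w y)
    {t t' : V} (h1 : G.Adj w t) (h2 : t ≠ p) (h3 : t ≠ u) (h4 : ¬ G.Adj p t) (h1' : G.Adj u t')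
    (h2' : t' ≠ r) (h3' : t' ≠ w) (h4' : ¬ G.Adj r t') (hne : t ≠ t')
    (hk : k ≤ (G.commonNeighbors w p).ncard + (G.commonNeighbors u r).ncard + lp G {w, u} t +
      lp G {u, w} t' + 4) : Cr k G x y := by
  obtain ⟨A, a1, a2, a3⟩ := lp_ex G (S := {w, u}) (x := t) fun e => e.elim h1.ne' h3
  obtain ⟨B, b1, b2, b3⟩ := lp_ex G (S := {u, w}) (x := t') fun e => e.elim h1'.ne' h3'
  refine Far1_comb hC S S' (a1.cons h1 fun e => a2 w e (Or.inl rfl))
    (b1.cons h1' fun e => b2 u e (Or.inl rfl)) (fun e => a2 u e (Or.inr rfl))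
    (fun e => b2 w e (Or.inr rfl))
    (fun z _ _ e e' => hne ((List.cons.inj e).1.trans (List.cons.inj e').1.symm))
    (fun z _ e => (List.cons.inj e).1 ▸ ⟨h2, h4⟩) (fun z _ e => (List.cons.inj e).1 ▸ ⟨h2', h4'⟩) ?_
  simp only [List.length_cons]
  omega

theorem Far1_ne (hC : Cac G) (hD : D2 k G) {p w u r x y : V} (S : Far1_S G p w u x)
    (S' : Far1_S G r u w y) {z z' : V} (h1 : G.Adj w z) (h2 : z ≠ p) (h3 : z ≠ u)
    (h4 : ¬ G.Adj p z) (h1' : G.Adj u z') (h2' : z' ≠ r) (h3' : z' ≠ w) (h4' : ¬ G.Adj r z')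
    (hne : z ≠ z') (k1 : k ≤ lp G {w, u} z + (2 + (G.commonNeighbors w p).ncard) + lp G {w, z} u)
    (k2 : k ≤ lp G {u, w} z' + (2 + (G.commonNeighbors u r).ncard) + lp G {u, z'} w) :
    Cr k G x y := by
  obtain ⟨A, a1, a2, a3⟩ := lp_ex G (S := {u, z'}) (x := w) fun e => e.elim S.hu.ne h3'.symm
  obtain ⟨B, b1, b2, b3⟩ := lp_ex G (S := {w, z}) (x := u) fun e => e.elim S.hu.ne' h3.symm
  have hu : u ∉ A := fun e => a2 u (List.mem_cons_of_mem _ e) (Or.inl rfl)
  have hw : w ∉ B := fun e => b2 w (List.mem_cons_of_mem _ e) (Or.inl rfl)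
  by_cases H : ∀ s A' B', A = s :: A' → B = s :: B' → False
  · have := hD.1.join a1 b1 S.hu (hC.disjF S.hu a1 b1 hu hw H)
    exact Far1_climb2 hC S S' h1 h2 h3 h4 h1' h2' h3' h4' hne (by omega)
  · push Not at H
    obtain ⟨s, A', B', rfl, rfl, -⟩ := H
    have := lp_ge (S := {w, u}) a1.tail fun v hv e => e.elim (fun e => a1.notMem (e ▸ hv))
      fun e => hu (Set.mem_singleton_iff.1 e ▸ hv)
    refine Far1_climb2 hC S S' a1.adj (fun e => S.na (e ▸ b1.adj.symm)) b1.adj.ne'
      (fun e => S.ne (hC.common a1.adj S.hp e.symm S.hu b1.adj.symm)) h1' h2' h3' h4'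
      (fun e => a2 s (by simp) (Or.inr e)) ?_
    simp only [List.length_cons] at a3
    omega

theorem Far1_eq (hC : Cac G) (hD : D2 k G) {p w u r x y : V} (S : Far1_S G p w u x)
    (S' : Far1_S G r u w y) {s : V} (h1 : G.Adj w s) (h2 : s ≠ p) (h4 : ¬ G.Adj p s)
    (h1' : G.Adj u s) (h2' : s ≠ r) (h4' : ¬ G.Adj r s) (hn : NT G r)
    (k1 : k ≤ lp G {w, u} s + (2 + (G.commonNeighbors w p).ncard) + lp G {w, s} u)
    (k2 : k ≤ lp G {u, w} s + (2 + (G.commonNeighbors u r).ncard) + lp G {u, s} w) :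
    Cr k G x y := by
  obtain ⟨A, a1, a2, a3⟩ := lp_ex G (S := {w, u}) (x := s) fun e => e.elim h1.ne' h1'.ne'
  obtain ⟨B, b1, b2, b3⟩ := lp_ex G (S := {w, s}) (x := u) fun e => e.elim S.hu.ne' h1'.ne
  have aw : w ∉ s :: A := fun e => a2 w e (Or.inl rfl)
  have au : u ∉ s :: A := fun e => a2 u e (Or.inr rfl)
  by_cases H : ∀ B', B ≠ r :: B'
  · refine Far1_comb hC S S' (a1.cons h1 aw) b1 au
      (fun e => b2 w (List.mem_cons_of_mem _ e) (Or.inl rfl))
      (fun z _ _ e e' => b2 z (by simp [e']) (Or.inr (List.cons.inj e).1.symm))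
      (fun z _ e => (List.cons.inj e).1 ▸ ⟨h2, h4⟩) (fun z B' e => ⟨fun e' => H B' (e' ▸ e),
        fun e' => hn u z S'.hp.symm e' (by rw [e] at b1; exact b1.adj)⟩) ?_
    simp only [List.length_cons]
    omega
  push Not at H
  obtain ⟨B', rfl⟩ := H
  have l1 := lp_ge (S := {u}) b1.tail (Far1_av b1.notMem)
  have c0 : (G.commonNeighbors u r).ncard = 0 := by
    rw [Set.ncard_eq_zero, Set.eq_empty_iff_forall_notMem]
    exact fun c hc => hn u c S'.hp.symm hc.2 hc.1
  have l2 := lp_two hC hD.1 h1' S'.hp h2' fun e => h4' e.symm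
  have l3 := lp_anti G (S := {u}) (T := {u, w}) (by simp) s
  have l4 := lp_anti G (S := {u}) (T := {u, s}) (by simp) w
  have l5 := (lp_child hC S'.hp.symm S'.hu S'.ne.symm S'.na).1
  have hr : r ∉ ({u} : Set V) := S'.hp.ne'
  have hy : y ∈ Rg G {u} r := S'.cl.choose_spec.2.1 y List.mem_cons_self
  have l6 := up hC hD S'.hp hn (by omega) hy
  obtain ⟨D, d1, d2, d3⟩ := lp_ex G (Rg_notMem hr hy)
  have hP : P G (w :: u :: s :: A) := (a1.cons h1' au).cons S.hu (by
    rw [List.mem_cons]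
    exact fun e => e.elim S.hu.ne aw)
  obtain ⟨E, e1, e2, e3⟩ := Far1_ext S.cl hP (Far1_br hC S.hp hP fun z _ e =>
    (List.cons.inj e).1 ▸ ⟨S.ne.symm, S.na⟩)
  refine ⟨E, D, e1, d1, fun v hv hv' => ?_, ?_⟩
  · have hv2 := Rg_trans hy (d1.mem_Rg d2 v hv')
    have d' := Set.disjoint_left.1 (hC.sepR S'.hp S'.hu S'.ne S'.na) hv2
    rcases e2 v hv with e | e
    · exact d' (Far1_side hC S e)
    rcases List.mem_cons.1 e with e | e
    · exact d' (e ▸ Rg_self _ _)
    rcases List.mem_cons.1 e with e | e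
    · exact Rg_notMem hr hv2 e
    · exact Set.disjoint_left.1 (hC.sepR S'.hp h1' h2'.symm h4') hv2
        (a1.mem_Rg (Far1_av au) v e)
  · simp only [List.length_cons] at b3 e3
    omega

theorem two_climbs (hC : Cac G) (hD : D2 k G) (h2 : T2 G) {p w u r x y : V} (hp : G.Adj w p)
    (hu : G.Adj w u) (hr : G.Adj u r) (hpu : p ≠ u) (hpu' : ¬ G.Adj p u) (hrw : r ≠ w)
    (hrw' : ¬ G.Adj r w) (h1 : Half k G w p u) (h1' : Half k G u r w) (hx : Climb G w p x)
    (hy : Climb G u r y) : Cr k G x y := by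
  have S : Far1_S G p w u x := ⟨hp, hu, hpu, hpu', hx⟩
  have S' : Far1_S G r u w y := ⟨hr, hu.symm, hrw, hrw', hy⟩
  obtain ⟨z, a1, a2, a3, a4, k1⟩ := h1
  obtain ⟨z', b1, b2, b3, b4, k2⟩ := h1'
  by_cases e : z = z'
  swap
  · exact Far1_ne hC hD S S' a1 a2 a3 a4 b1 b2 b3 b4 e k1 k2
  subst e
  by_cases n1 : NT G r
  · exact Far1_eq hC hD S S' a1 a2 a4 b1 b2 b4 n1 k1 k2
  by_cases n2 : NT G p
  · exact (Far1_eq hC hD S' S b1 b2 b4 a1 a2 a4 n2 k2 k1).symm
  exfalso
  rcases h2 w u z p r ⟨hu, a1, b1⟩ n2 n1 (by simp [hp.ne', hpu, a2.symm])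
    (by simp [hr.ne', hrw, b2.symm]) with e | e
  · exact hpu' (e ▸ hr.symm)
  · exact hC.sep hp hu hpu hpu' (Rg_adj (S := {w}) hp.ne'
      (Rg_adj (S := {w}) hp.ne' (Rg_self _ _) e hrw) hr.symm hu.ne')

end PS
end

-- merged part: Pool.Agent.Work.MP_3e1eec_co.Far2
section
/-! Pairs at distance at least three.
Plan.  Take a shortest path `L` from `x` to `y` (least length among the lists of `exists_P`); no two non consecutive vertices of `L` are adjacent.
`climb_geo`: if `x :: C ++ [w]` is a path without such chords and `p` is the vertex before `w`, then `Climb G w p x` (insert the common neighbour of `w`, `p` if there is one; it is not on the path).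
Induction along `L`: if `L = L₁ ++ p :: w :: u :: L₂` and `Half k G w p u` holds then `Cr k G x y`: for `L₂ = []` by `Climb.cr`; for `L₂ = r :: _` the rule at `u` gives `Half k G u w r` (induction) or `Half k G u r w` (`two_climbs`).  At the start the rule gives this, or `Climb.cr` applies from the other side. -/

open SimpleGraph

namespace PS
variable {V : Type} {G : SimpleGraph V} [Finite V] {k : ℕ}

omit [Finite V] in
theorem Far2_geo {x y : V} (hne : x ≠ y) (hr : G.Reachable x y) :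
    ∃ L, P G L ∧ L.head? = some x ∧ L.getLast? = some y ∧
      ∀ A a b c B, L = A ++ a :: b :: c :: B → ¬ G.Adj a c := by
  classical
  have hex : ∃ n, ∃ L : List V, P G L ∧ L.head? = some x ∧ L.getLast? = some y ∧ L.length = n := by
    obtain ⟨A, hA⟩ := exists_P hr hne
    refine ⟨_, x :: (A ++ [y]), hA, rfl, ?_, rfl⟩
    rw [← List.cons_append, List.getLast?_append]
    rfl
  obtain ⟨L, h1, h2, h3, h4⟩ := Nat.find_spec hex
  refine ⟨L, h1, h2, h3, fun A a b c B e hac => ?_⟩
  subst e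
  have hP : P G (A ++ a :: c :: B) := by
    have e : A ++ a :: b :: c :: B = (A ++ [a]) ++ (b :: c :: B) := by simp
    have h1' := h1
    rw [e] at h1'
    exact P.append h1'.left h1'.right.tail hac fun v hv hv' =>
      h1'.disj hv (List.mem_cons_of_mem _ hv')
  have h5 : (A ++ a :: c :: B).head? = some x := by
    cases A with
    | nil => exact h2
    | cons t A => exact h2
  have h6 : (A ++ a :: c :: B).getLast? = some y := by
    rw [List.getLast?_append] at h3 ⊢
    simpa only [List.getLast?_cons_cons] using h3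
  have := Nat.find_min' hex ⟨A ++ a :: c :: B, hP, h5, h6, rfl⟩
  rw [← h4] at this
  simp only [List.length_append, List.length_cons] at this
  omega

theorem Far2_climb (hC : Cac G) {x p w : V} {D : List V} (h : P G (D ++ [p, w]))
    (hx : (D ++ [p]).head? = some x) : Climb G w p x := by
  have hpw : G.Adj p w := h.mid
  cases D with
  | nil =>
    obtain rfl : p = x := Option.some.inj hx
    exact climb_self hC hpw.symm
  | cons t D =>
    obtain rfl : t = x := Option.some.inj hx
    have e : t :: D ++ [p, w] = (t :: (D ++ [p])) ++ [w] := by simp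
    rw [e] at h
    refine ⟨D ++ [p], h, fun v hv => ?_, ?_⟩
    · refine h.left.mem_Rg' (fun u hu hs => h.disj hu ?_) (by simp) hv
      rw [Set.mem_singleton_iff.1 hs]
      exact List.mem_singleton_self _
    · have := hC.ncard_le hpw.symm
      simp only [List.length_append, List.length_cons]
      omega

theorem Far2_climb' (hC : Cac G) {y r u : V} {B : List V} (h : P G (u :: r :: B))
    (hy : (r :: B).getLast? = some y) : Climb G u r y := by
  refine Far2_climb hC (D := B.reverse) ?_ ?_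
  · simpa using h.reverse
  · rw [← List.reverse_cons, List.head?_reverse]
    exact hy

theorem Far2_ind (hC : Cac G) (hD : D2 k G) (h2 : T2 G) {x y : V} (B : List V) :
    ∀ (D : List V) (p w u : V), P G (D ++ p :: w :: u :: B) → (D ++ [p]).head? = some x →
      (u :: B).getLast? = some y →
      (∀ A a b c B', D ++ p :: w :: u :: B = A ++ a :: b :: c :: B' → ¬ G.Adj a c) →
      Half k G w p u → Cr k G x y := by
  induction B with
  | nil =>
    intro D p w u hP hx hy hch hH
    obtain rfl : u = y := Option.some.inj hy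
    have hR := hP.right
    have hcl : Climb G w p x := by
      refine Far2_climb hC (D := D) ?_ hx
      have e : D ++ [p, w, u] = (D ++ [p, w]) ++ [u] := by simp
      rw [e] at hP
      exact hP.left
    exact Climb.cr hC hR.adj.symm hR.tail.adj (fun e => hR.notMem (by simp [e]))
      (hch D p w u [] rfl) hH hcl
  | cons r B ih =>
    intro D p w u hP hx hy hch hH
    have hR := hP.right
    have e : D ++ p :: w :: u :: r :: B = (D ++ [p]) ++ w :: u :: r :: B := by simp
    have hwr : ¬ G.Adj w r := hch (D ++ [p]) w u r B e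
    have hne : w ≠ r := fun e => hR.tail.notMem (by simp [e])
    rcases D2.rule hC hD u w r hR.tail.adj.symm hR.tail.tail.adj hne hwr with h | h
    · refine ih (D ++ [p]) w u r (e ▸ hP) ?_ ?_ (fun A a b c B' e' => hch A a b c B' (e.trans e')) h
      · cases D with
        | nil => exact hx
        | cons t D => exact hx
      · simpa only [List.getLast?_cons_cons] using hy
    · have hcl : Climb G w p x := by
        refine Far2_climb hC (D := D) ?_ hx
        have e : D ++ p :: w :: u :: r :: B = (D ++ [p, w]) ++ u :: r :: B := by simp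
        rw [e] at hP
        exact hP.left
      have hcl' : Climb G u r y :=
        Far2_climb' hC hR.tail.tail (by simpa only [List.getLast?_cons_cons] using hy)
      exact two_climbs hC hD h2 hR.adj.symm hR.tail.adj hR.tail.tail.adj
        (fun e => hR.notMem (by simp [e])) (hch D p w u _ rfl) hne.symm (fun h => hwr h.symm) hH h
        hcl hcl'

theorem far (hC : Cac G) (hD : D2 k G) (h2 : T2 G) {x y : V} (hne : x ≠ y) (hn : ¬ G.Adj x y)
    (hr : G.Reachable x y) : Cr k G x y := by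
  obtain ⟨L, hP, h3, h4, hch⟩ := Far2_geo hne hr
  match L, hP, h3, h4, hch with
  | [], _, h3, _, _ => cases h3
  | [a], _, h3, h4, _ =>
    exact absurd ((Option.some.inj h3).symm.trans (Option.some.inj h4)) hne
  | [a, b], hP, h3, h4, _ =>
    obtain rfl : a = x := Option.some.inj h3
    obtain rfl : b = y := Option.some.inj h4
    exact absurd hP.adj hn
  | a :: w :: u :: B, hP, h3, h4, hch =>
    obtain rfl : a = x := Option.some.inj h3
    have hy : (u :: B).getLast? = some y := by simpa only [List.getLast?_cons_cons] using h4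
    have hau : a ≠ u := fun e => hP.notMem (by simp [e])
    have hau' : ¬ G.Adj a u := hch [] a w u B rfl
    rcases D2.rule hC hD w a u hP.adj.symm hP.tail.adj hau hau' with h | h
    · exact Far2_ind hC hD h2 B [] a w u hP rfl hy hch h
    · exact (Climb.cr hC hP.tail.adj hP.adj.symm hau.symm (fun h => hau' h.symm) h
        (Far2_climb' hC hP.tail hy)).symm

end PS
end

-- merged part: Pool.Agent.Work.MP_3e1eec_co.Cnt
section
/-! Counting over the components. -/

open SimpleGraph

namespace PS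
variable {V : Type} {G : SimpleGraph V} [Finite V] {k : ℕ}

open Classical in
/-- The component of `v` as a finite set. -/
noncomputable def Sf (G : SimpleGraph V) (v : V) : Finset V := (Set.toFinite (Cm G v)).toFinset

theorem mem_Sf {v u : V} : u ∈ Sf G v ↔ G.Reachable v u := (Set.toFinite (Cm G v)).mem_toFinset

theorem Sf_card (v : V) : (Sf G v).card = (Cm G v).ncard :=
  (Set.ncard_eq_toFinset_card _ (Set.toFinite (Cm G v))).symm

theorem Sf_eq {v u : V} (h : G.Reachable v u) : Sf G v = Sf G u := by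
  ext t
  rw [mem_Sf, mem_Sf]
  exact ⟨fun h' => h.symm.trans h', fun h' => h.trans h'⟩

theorem Sf_ge (v : V) : -2 ≤ ex G (Sf G v) := by
  rw [← ex_single (G := G) v]
  exact ex_le_Cm (fun _ => mem_Sf) (Finset.singleton_nonempty v)
    (Finset.singleton_subset_iff.2 (mem_Sf.2 (Reachable.refl v)))

theorem Cnt_sum (G : SimpleGraph V) : ∃ R : Finset V, (∀ v, ∃ r ∈ R, G.Reachable r v) ∧
    (∀ r ∈ R, ∀ r' ∈ R, G.Reachable r r' → r = r') ∧
    ∑ r ∈ R, ex G (Sf G r) = 2 * (G.edgeSet.ncard : ℤ) - 2 * Nat.card V ∧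
    ∑ r ∈ R, (Sf G r).card = Nat.card V := by
  classical
  have := Fintype.ofFinite V
  let ρ : V → V := fun v => (G.connectedComponentMk v).out
  have hρ : ∀ v, G.Reachable (ρ v) v := fun v =>
    ConnectedComponent.exact (G.connectedComponentMk v).out_eq
  have hfib : ∀ r ∈ Finset.univ.image ρ, Finset.univ.filter (fun v => ρ v = r) = Sf G r := by
    intro r hr
    obtain ⟨u, -, rfl⟩ := Finset.mem_image.1 hr
    ext v
    rw [mem_Sf, Finset.mem_filter]
    refine ⟨fun h => h.2 ▸ hρ v, fun h => ⟨Finset.mem_univ _, ?_⟩⟩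
    exact congrArg Quot.out (ConnectedComponent.sound (h.symm.trans (hρ u)))
  have hsum : ∀ f : V → ℤ, ∑ r ∈ Finset.univ.image ρ, ∑ v ∈ Sf G r, f v = ∑ v, f v := by
    intro f
    rw [← Finset.sum_fiberwise_of_maps_to (s := Finset.univ) (t := Finset.univ.image ρ) (g := ρ)
      (fun v hv => Finset.mem_image_of_mem ρ hv) f]
    exact Finset.sum_congr rfl fun r hr => by rw [hfib r hr]
  refine ⟨Finset.univ.image ρ, fun v => ⟨ρ v, Finset.mem_image_of_mem ρ (Finset.mem_univ v), hρ v⟩,
    fun r hr r' hr' h => ?_, ?_, ?_⟩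
  · have m : r' ∈ Finset.univ.filter (fun v => ρ v = r) := by
      rw [hfib r hr]; exact mem_Sf.2 h
    have m' : r' ∈ Finset.univ.filter (fun v => ρ v = r') := by
      rw [hfib r' hr']; exact mem_Sf.2 (Reachable.refl r')
    exact (Finset.mem_filter.1 m).2.symm.trans (Finset.mem_filter.1 m').2
  · have e : ∀ r, ex G (Sf G r) = ∑ v ∈ Sf G r, ((G.degree v : ℤ) - 2) := by
      intro r
      refine Finset.sum_congr rfl fun v hv => ?_
      have : {u | u ∈ ((Sf G r : Finset V) : Set V) ∧ G.Adj v u} = G.neighborSet v := by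
        ext u
        exact ⟨fun h => h.2, fun h => ⟨mem_Sf.2 ((mem_Sf.1 hv).trans (Adj.reachable h)), h⟩⟩
      rw [dg, this, Set.ncard_eq_toFinset_card', Set.toFinset_card, card_neighborSet_eq_degree]
    simp only [e]
    rw [hsum, Finset.sum_sub_distrib, ← Nat.cast_sum, sum_degrees_eq_twice_card_edges,
      Set.ncard_eq_toFinset_card', Nat.card_eq_fintype_card]
    simp [mul_comm, edgeFinset]
  · have := hsum fun _ => 1
    simp only [Finset.sum_const, nsmul_eq_mul, mul_one, Finset.card_univ] at this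
    rw [Nat.card_eq_fintype_card]
    exact_mod_cast this

theorem Cnt_bound {α : ℕ} (h0 : 0 < α) (ha : ∀ v, ex G (Sf G v) < 0 → α ≤ (Sf G v).card) :
    -2 * ((Nat.card V / α : ℕ) : ℤ) ≤ 2 * (G.edgeSet.ncard : ℤ) - 2 * Nat.card V ∧
    ∀ v, 0 ≤ ex G (Sf G v) → ex G (Sf G v) - 2 * ((Nat.card V / α : ℕ) : ℤ) ≤
      2 * (G.edgeSet.ncard : ℤ) - 2 * Nat.card V := by
  classical
  obtain ⟨R, hR, -, h1, h2⟩ := Cnt_sum G
  set N := R.filter fun r => ex G (Sf G r) < 0 with hN
  have ht : N.card * α ≤ Nat.card V := by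
    rw [← h2]
    calc N.card * α = ∑ _r ∈ N, α := by simp
      _ ≤ ∑ r ∈ N, (Sf G r).card := Finset.sum_le_sum fun r hr => ha r (Finset.mem_filter.1 hr).2
      _ ≤ _ := Finset.sum_le_sum_of_subset (Finset.filter_subset _ _)
  have ht' : (N.card : ℤ) ≤ ((Nat.card V / α : ℕ) : ℤ) := by
    exact_mod_cast (Nat.le_div_iff_mul_le h0).2 ht
  have hneg : -2 * (N.card : ℤ) ≤ ∑ r ∈ N, ex G (Sf G r) := by
    calc -2 * (N.card : ℤ) = ∑ _r ∈ N, (-2 : ℤ) := by simp [mul_comm]
      _ ≤ _ := Finset.sum_le_sum fun r _ => Sf_ge r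
  have hsp := Finset.sum_filter_add_sum_filter_not R (fun r => ex G (Sf G r) < 0)
    fun r => ex G (Sf G r)
  have hnn : ∀ r ∈ R.filter fun r => ¬ ex G (Sf G r) < 0, 0 ≤ ex G (Sf G r) := fun r hr =>
    not_lt.1 (Finset.mem_filter.1 hr).2
  refine ⟨?_, fun v hv => ?_⟩
  · have := Finset.sum_nonneg hnn
    linarith
  · obtain ⟨r, hr, hrv⟩ := hR v
    rw [← Sf_eq hrv] at hv ⊢
    have := Finset.single_le_sum hnn (Finset.mem_filter.2 ⟨hr, not_lt.2 hv⟩)
    linarith

theorem Cnt_two {v v' : V} (hv : ¬ G.Reachable v v')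
    (h : ∀ u, ¬ G.Reachable v u → 0 ≤ ex G (Sf G u)) :
    ex G (Sf G v') - 2 ≤ 2 * (G.edgeSet.ncard : ℤ) - 2 * Nat.card V := by
  classical
  obtain ⟨R, hR, hu, h1, -⟩ := Cnt_sum G
  obtain ⟨r, hr, hrv⟩ := hR v'
  have hsp := Finset.sum_filter_add_sum_filter_not R (fun r => G.Reachable v r)
    fun r => ex G (Sf G r)
  have hb : ex G (Sf G r) ≤ ∑ r ∈ R.filter fun r => ¬ G.Reachable v r, ex G (Sf G r) :=
    Finset.single_le_sum (f := fun r => ex G (Sf G r))
      (fun t ht => h t (Finset.mem_filter.1 ht).2)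
      (Finset.mem_filter.2 ⟨hr, fun h' => hv (h'.trans hrv)⟩)
  have hc : (R.filter fun r => G.Reachable v r).card ≤ 1 := by
    refine Finset.card_le_one.2 fun r1 m1 r2 m2 => ?_
    obtain ⟨a1, a2⟩ := Finset.mem_filter.1 m1
    obtain ⟨a3, a4⟩ := Finset.mem_filter.1 m2
    exact hu r1 a1 r2 a3 (a2.symm.trans a4)
  have ha : -2 ≤ ∑ r ∈ R.filter fun r => G.Reachable v r, ex G (Sf G r) := by
    have : ∑ _r ∈ R.filter fun r => G.Reachable v r, (-2 : ℤ) ≤
        ∑ r ∈ R.filter fun r => G.Reachable v r, ex G (Sf G r) :=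
      Finset.sum_le_sum fun r _ => Sf_ge r
    rw [Finset.sum_const, nsmul_eq_mul] at this
    have hc' : ((R.filter fun r => G.Reachable v r).card : ℤ) ≤ 1 := by exact_mod_cast hc
    linarith
  rw [← Sf_eq hrv]
  linarith

theorem Cnt_cac (hD : D2 k G) {v : V} (h : ex G (Sf G v) ≤ 3) : Cac (res G v) := by
  obtain ⟨m, hm⟩ := ex_even (G := G) (Sf G v)
  exact cac_of_few (hD.res v) ((few_res fun _ => mem_Sf).mono (by omega))

omit [Finite V] in
theorem Cnt_reach {v : V} {Q : List V} (hk : 9 ≤ k) (hQ : P (res G v) Q) (hl : Q.length + 1 = k) :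
    ∀ u ∈ Q, G.Reachable v u := by
  match Q, hQ, hl with
  | x :: y :: A, hQ, _ => exact fun u hu => hQ.adj.2.trans ((hQ.mono (res_le v)).reach u hu)
  | [], _, hl => simp at hl; omega
  | [_], _, hl => simp at hl; omega

theorem Cnt_size (hk : 9 ≤ k) (hD : D2 k G) {v : V} (hC : Cac (res G v)) {Q : List V}
    (hQ : P (res G v) Q) (hl : Q.length + 1 = k) :
    (ex G (Sf G v) < 0 → a k ≤ (Sf G v).card) ∧ (ex G (Sf G v) ≤ 1 → b k ≤ (Sf G v).card) := by
  obtain ⟨u, hu⟩ : ∃ u, u ∈ Q := List.exists_mem_of_length_pos (by omega)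
  have e : (Sf G v).card = (Cm (res G v) u).ncard := by
    rw [Sf_card, Cm_res (Cnt_reach hk hQ hl u hu)]
  have hF := few_res (G := G) (v₀ := v) fun _ => mem_Sf
  rw [e]
  exact ⟨fun h => sizeT hC (hD.res v) hk (nt_of_few hC (hF.mono (by omega))) hQ hl hu,
    fun h => sizeU hC (hD.res v) hk (t1_of_few hC (one_res v) (hF.mono h)) hQ hl hu⟩

theorem Cnt_long (hk : 9 ≤ k) (hD : D2 k G) {v : V} (h : ex G (Sf G v) ≤ 3)
    (ht : Trip (res G v)) : ∃ Q, P (res G v) Q ∧ Q.length + 1 = k :=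
  long (Cnt_cac hD h) (hD.res v)
    (t2_of_few (Cnt_cac hD h) (one_res v) ((few_res fun _ => mem_Sf).mono h)) hk ht

omit [Finite V] in
theorem Cnt_other (hn : 4 ≤ Nat.card V) {v : V} (h : (Cm (res G v) v).ncard ≤ 3) :
    ∃ u, ¬ G.Reachable v u := by
  by_contra hc
  rw [Cm_res (Reachable.refl v)] at h
  have : Cm G v = Set.univ := Set.eq_univ_of_forall fun u => not_not.1 fun hu => hc ⟨u, hu⟩
  rw [this, Set.ncard_univ] at h
  omega

theorem Cnt_s (hk : 9 ≤ k) (n : ℕ) : (n < b k → s n k = n + 1 ∧ n / a k = 0) ∧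
    (¬ n < b k → s n k + n / a k = n) := by
  refine ⟨fun h => ⟨if_pos h, Nat.div_eq_of_lt (h.trans_le (b_le_a hk).2.1)⟩, fun h => ?_⟩
  rw [s, if_neg h]
  exact Nat.sub_add_cancel (Nat.div_le_self _ _)

theorem Cnt_le (hk : 9 ≤ k) (he : G.edgeSet.ncard ≤ s (Nat.card V) k)
    (ha : ∀ v, ex G (Sf G v) < 0 → a k ≤ (Sf G v).card) (v : V) : ex G (Sf G v) ≤ 2 := by
  by_cases h0 : 0 ≤ ex G (Sf G v)
  · have h1 := (Cnt_bound (b_le_a hk).2.2 ha).2 v h0
    obtain ⟨h2, h3⟩ := Cnt_s hk (Nat.card V)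
    by_cases hb : Nat.card V < b k
    · obtain ⟨h4, h5⟩ := h2 hb
      rw [h5] at h1
      omega
    · have := h3 hb
      omega
  · omega

theorem main1 (hk : 9 ≤ k) (hn : 4 ≤ Nat.card V) (hS : SatL k G)
    (he : G.edgeSet.ncard ≤ s (Nat.card V) k) : G.edgeSet.ncard = s (Nat.card V) k ∧ Cac G ∧
      ∀ v, ∃ u, G.Reachable v u ∧ lp G ∅ u = k - 1 := by
  have hD := hS.d2
  have far : ∀ v u, ¬ G.Reachable v u → k ≤ lp G ∅ v + lp G ∅ u := fun v u h =>
    (cr_iff_lp h).1 (hS.2 v u (fun e => h (e ▸ Reachable.refl v)) fun ha => h ha.reachable)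
  have hs : s (Nat.card V) k ≤ Nat.card V + 1 := by
    obtain ⟨h2, h3⟩ := Cnt_s hk (Nat.card V)
    by_cases hb : Nat.card V < b k
    · exact (h2 hb).1.le
    · exact ((Nat.le_add_right _ _).trans (h3 hb).le).trans (Nat.le_succ _)
  have hA : ∀ v, ex G (Sf G v) < 0 → Trip (res G v) := by
    intro v hv
    by_contra ht
    have hC := Cnt_cac hD (v := v) (by omega)
    have h2 : lp G ∅ v ≤ 2 := by
      rw [← lp_res (Reachable.refl v)]
      exact small2 (nt_of_few hC ((few_res fun _ => mem_Sf).mono (by omega))) ht v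
    obtain ⟨v', hv'⟩ := Cnt_other hn (small3 hC ht v).2
    have h5 : ∀ u, ¬ G.Reachable v u → 5 ≤ ex G (Sf G u) := by
      intro u hu
      by_contra hc
      refine no_tri (hD.res u) hk (one_res u) ((few_res fun _ => mem_Sf).mono (by omega))
        (fun t t' ha => ?_) ?_
      · have := far v t fun h => hu (h.trans ha.2.symm)
        rw [lp_res ha.2]
        omega
      · obtain ⟨A, h1, -, h3⟩ := lp_ex G (S := ∅) (x := u) (Set.notMem_empty u)
        have := far v u hu
        cases A with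
        | nil => simp at h3; omega
        | cons t A => exact ⟨u, t, h1.adj, Reachable.refl u⟩
    have := Cnt_two hv' fun u hu => le_trans (by norm_num) (h5 u hu)
    have := h5 v' hv'
    omega
  have hB : ∀ v, ex G (Sf G v) < 0 → a k ≤ (Sf G v).card := fun v hv => by
    obtain ⟨Q, hQ, hl⟩ := Cnt_long hk hD (by omega) (hA v hv)
    exact (Cnt_size hk hD (Cnt_cac hD (by omega)) hQ hl).1 hv
  have h2 := Cnt_le hk he hB
  have h3 : ∀ v, ex G (Sf G v) ≤ 3 := fun v => (h2 v).trans (by norm_num)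
  have hT : ∀ v, Trip (res G v) := by
    intro v
    by_contra ht
    have sm : ∀ u, ¬ Trip (res G u) → lp G ∅ u ≤ 3 := fun u hu => by
      rw [← lp_res (Reachable.refl u)]
      exact (small3 (Cnt_cac hD (h3 u)) hu u).1
    obtain ⟨v', hv'⟩ := Cnt_other hn (small3 (Cnt_cac hD (h3 v)) ht v).2
    have h4 := sm v ht
    by_cases ht' : Trip (res G v')
    · obtain ⟨Q, hQ, hl⟩ := Cnt_long hk hD (h3 v') ht'
      obtain ⟨w, hw, hw'⟩ := center (Cnt_cac hD (h3 v')) (hD.res v').1 hk hQ hl
      have hr := Cnt_reach hk hQ hl w hw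
      rw [lp_res hr] at hw'
      have := far v w fun h => hv' (h.trans hr.symm)
      omega
    · have := sm v' ht'
      have := far v v' hv'
      omega
  refine ⟨le_antisymm he ?_, cac_of_res fun v => Cnt_cac hD (h3 v), fun v => ?_⟩
  · obtain ⟨b1, b2⟩ := Cnt_bound (b_le_a hk).2.2 hB
    obtain ⟨s1, s2⟩ := Cnt_s hk (Nat.card V)
    by_cases hb : Nat.card V < b k
    · obtain ⟨s3, s4⟩ := s1 hb
      obtain ⟨v⟩ : Nonempty V := (Nat.card_pos_iff.1 (by omega)).1
      obtain ⟨Q, hQ, hl⟩ := Cnt_long hk hD (h3 v) (hT v)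
      have hv : 2 ≤ ex G (Sf G v) := by
        by_contra hc
        have h5 := (Cnt_size hk hD (Cnt_cac hD (h3 v)) hQ hl).2 (by omega)
        have h6 : (Sf G v).card ≤ Nat.card V := by
          rw [Sf_card, ← Set.ncard_univ]
          exact Set.ncard_le_ncard (Set.subset_univ _) (Set.toFinite _)
        omega
      have := b2 v (by omega)
      rw [s4] at this
      omega
    · have := s2 hb
      omega
  · obtain ⟨Q, hQ, hl⟩ := Cnt_long hk hD (h3 v) (hT v)
    cases Q with
    | nil => simp at hl; omega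
    | cons u A =>
      refine ⟨u, Cnt_reach hk hQ hl u List.mem_cons_self, ?_⟩
      have h5 := lp_ge (S := ∅) (hQ.mono (res_le v)) fun t _ => Set.notMem_empty t
      have h6 := hS.1.lp_lt ∅ u
      simp only [List.length_cons] at hl
      omega

theorem main2 (hk : 9 ≤ k) (he : G.edgeSet.ncard = s (Nat.card V) k) (hC : Cac G) (hD : D2 k G)
    (hl : ∀ v, ∃ u, G.Reachable v u ∧ lp G ∅ u = k - 1) : SatL k G := by
  have hQ : ∀ v, ∃ u A, G.Reachable v u ∧ P G (u :: A) ∧ (u :: A).length + 1 = k := fun v => by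
    obtain ⟨u, hu, h⟩ := hl v
    obtain ⟨A, h1, -, h3⟩ := lp_ex G (S := ∅) (x := u) (Set.notMem_empty u)
    exact ⟨u, A, hu, h1, by simp only [List.length_cons]; omega⟩
  have hB : ∀ v, ex G (Sf G v) < 0 → a k ≤ (Sf G v).card := fun v hv => by
    obtain ⟨u, A, hu, h1, h2⟩ := hQ v
    exact (Cnt_size hk hD (hC.mono (res_le v)) (h1.res hu) h2).1 hv
  have h2 := Cnt_le hk he.le hB
  refine ⟨hD.1, fun x y hne hn => ?_⟩
  by_cases hr : G.Reachable x y
  · have hC' := hC.mono (res_le x)
    refine (far hC' (hD.res x) (t2_of_few hC' (one_res x) ((few_res fun _ => mem_Sf).mono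
      ((h2 x).trans (by norm_num)))) hne (fun h => hn h.1)
      (reach_res (Reachable.refl x) hr)).mono (res_le x)
  · obtain ⟨u, A, hu, h3, h4⟩ := hQ x
    obtain ⟨u', A', hu', h3', h4'⟩ := hQ y
    have h5 := half_long h3 h4 List.mem_cons_self hu
    have h6 := half_long h3' h4' List.mem_cons_self hu'
    exact (cr_iff_lp hr).2 (by omega)

end PS
end
end
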