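import Mathlib

/-! Path-saturated graphs: the definitions used in the statement. -/

open SimpleGraph

namespace PS
variable {V : Type}

/-- `G` has no copy of the path on `k` vertices, and adding any missing edge creates one. -/
def Sat (k : ℕ) (G : SimpleGraph V) : Prop :=
  (pathGraph k).Free G ∧ ∀ x y, x ≠ y → ¬ G.Adj x y → pathGraph k ⊑ G ⊔ edge x y

/-- Saturated with the least number of edges among saturated graphs on the same vertex set. -/
def MinSat (k : ℕ) (G : SimpleGraph V) : Prop :=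
  Sat k G ∧ ∀ H : SimpleGraph V, Sat k H → G.edgeSet.ncard ≤ H.edgeSet.ncard

/-- Largest number of vertices of a path which starts at `x` and avoids `S`. -/
noncomputable def lp (G : SimpleGraph V) (S : Set V) (x : V) : ℕ :=
  sSup {m | ∃ (y : V) (p : G.Walk x y), p.IsPath ∧ (∀ v ∈ p.support, v ∉ S) ∧ m = p.length + 1}

def a (k : ℕ) : ℕ := if k % 2 = 0 then 3 * 2 ^ (k / 2 - 1) - 2 else 4 * 2 ^ (k / 2 - 1) - 2

def b (k : ℕ) : ℕ := if k % 2 = 0 then 3 * 2 ^ (k / 2 - 2) else 3 * 2 ^ (k / 2 - 1) - 1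

def c (k : ℕ) : ℕ := if k % 2 = 0 then 5 * 2 ^ (k / 2 - 3) + 1 else 3 * 2 ^ (k / 2 - 2) + 1

/-- The branch lengths at `w` are large enough, entering through `x` and leaving through `y`. -/
def Half (k : ℕ) (G : SimpleGraph V) (w x y : V) : Prop :=
  ∃ z, G.Adj w z ∧ z ≠ x ∧ z ≠ y ∧ ¬ G.Adj x z ∧
    k ≤ lp G {w, y} z + (2 + (G.commonNeighbors w x).ncard) + lp G {w, z} y

/-- The local rule. -/
def Rule (k : ℕ) (G : SimpleGraph V) : Prop :=
  ∀ w x y, G.Adj w x → G.Adj w y → x ≠ y → ¬ G.Adj x y → Half k G w x y ∨ Half k G w y x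

end PS
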