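import Pool.Agent.Work.MP_3e1eec_co.Cnt

/-! The characterisation. -/

open SimpleGraph

namespace PS

theorem main {V : Type} [Finite V] {k : ℕ} (hk : 9 ≤ k) (hn : c k ≤ Nat.card V) :
    (∃ H : SimpleGraph V, MinSat k H) ∧ ∀ G : SimpleGraph V, MinSat k G ↔
      (G.edgeSet.ncard = s (Nat.card V) k ∧ (∀ v (p : G.Walk v v), p.IsCycle → p.length = 3) ∧
        (∀ v, lp G ∅ v < k ∧ ∃ u, G.Reachable v u ∧ lp G ∅ u = k - 1) ∧ Rule k G) := by
  have h4 : 4 ≤ Nat.card V := (b_le_a hk).1.trans hn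
  obtain ⟨H, hH, eH⟩ := exists_sat hk hn
  have low : ∀ G : SimpleGraph V, Sat k G → s (Nat.card V) k ≤ G.edgeSet.ncard := fun G hG => by
    by_contra hc
    have := (main1 hk h4 (sat_iff.1 hG) (not_le.1 hc).le).1
    omega
  refine ⟨⟨H, sat_iff.2 hH, fun G hG => eH ▸ low G hG⟩, fun G => ⟨fun h => ?_, fun h => ?_⟩⟩
  · have hS := sat_iff.1 h.1
    obtain ⟨h1, h2, h3⟩ := main1 hk h4 hS (eH ▸ h.2 H (sat_iff.2 hH))
    exact ⟨h1, cac_iff.2 h2, fun v => ⟨hS.1.lp_lt _ _, h3 v⟩, hS.d2.rule h2⟩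
  · obtain ⟨h1, h2, h3, h5⟩ := h
    have hC := cac_iff.1 h2
    have hP : PF k G := (pf_iff (by omega)).1 fun v => (h3 v).1
    exact ⟨sat_iff.2 (main2 hk h1 hC (d2_of_rule hC hP h5) fun v => (h3 v).2),
      fun G' hG' => h1 ▸ low G' hG'⟩

end PS
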