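import Pool.Agent.Work.MP_3e1eec_co.Defs

-- merged part: Pool.Agent.Work.MP_3e1eec_co.B0
section
/-! Working definitions: paths are lists. -/

open SimpleGraph

namespace PS
variable {V : Type}

/-- The list is a path. -/
def P (G : SimpleGraph V) (l : List V) : Prop := l.Nodup ∧ l.IsChain G.Adj

/-- No path with `k` vertices. -/
def PF (k : ℕ) (G : SimpleGraph V) : Prop := ∀ l, P G l → l.length < k

/-- Joining `x` to `y` creates a path with `k` vertices. -/
def Cr (k : ℕ) (G : SimpleGraph V) (x y : V) : Prop :=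
  ∃ A B, P G (x :: A) ∧ P G (y :: B) ∧ (x :: A).Disjoint (y :: B) ∧ k ≤ A.length + B.length + 2

def SatL (k : ℕ) (G : SimpleGraph V) : Prop := PF k G ∧ ∀ x y, x ≠ y → ¬ G.Adj x y → Cr k G x y

/-- Saturation for the pairs at distance two. -/
def D2 (k : ℕ) (G : SimpleGraph V) : Prop :=
  PF k G ∧ ∀ w x y, G.Adj w x → G.Adj w y → x ≠ y → ¬ G.Adj x y → Cr k G x y

/-- Every cycle is a triangle. -/
def Cac (G : SimpleGraph V) : Prop :=
  ∀ x y A, P G (x :: (A ++ [y])) → G.Adj x y → A.length ≤ 1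

/-- Delete the edges at the vertices of `S`. -/
def del (G : SimpleGraph V) (S : Set V) : SimpleGraph V where
  Adj u v := G.Adj u v ∧ u ∉ S ∧ v ∉ S
  symm := ⟨fun _ _ h => ⟨h.1.symm, h.2.2, h.2.1⟩⟩
  loopless := ⟨fun _ h => h.1.ne rfl⟩

/-- The vertices reached from `x` without using `S`. -/
def Rg (G : SimpleGraph V) (S : Set V) (x : V) : Set V := {v | (del G S).Reachable x v}

/-- No triangle contains `t`. -/
def NT (G : SimpleGraph V) (t : V) : Prop := ∀ u v, G.Adj t u → G.Adj t v → ¬ G.Adj u v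

/-- The component of `v₀`. -/
def Cm (G : SimpleGraph V) (v₀ : V) : Set V := {v | G.Reachable v₀ v}

/-- Keep the edges of the component of `v₀`. -/
def res (G : SimpleGraph V) (v₀ : V) : SimpleGraph V where
  Adj u v := G.Adj u v ∧ G.Reachable v₀ u
  symm := ⟨fun _ _ h => ⟨h.1.symm, h.2.trans h.1.reachable⟩⟩
  loopless := ⟨fun _ h => h.1.ne rfl⟩

/-- Number of neighbours of `v` in `K`. -/
noncomputable def dg (G : SimpleGraph V) (K : Set V) (v : V) : ℕ := {u | u ∈ K ∧ G.Adj v u}.ncard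

/-- Twice the number of edges inside `K` minus twice the number of vertices. -/
noncomputable def ex (G : SimpleGraph V) (K : Finset V) : ℤ := ∑ v ∈ K, ((dg G K v : ℤ) - 2)

/-- Every vertex set inside one component has excess at most `j`. -/
def Few (G : SimpleGraph V) (j : ℤ) : Prop :=
  ∀ K : Finset V, K.Nonempty → (∀ u ∈ K, ∀ v ∈ K, G.Reachable u v) → ex G K ≤ j

/-- No path outside `K` joins two vertices of `K`. -/
def EF (G : SimpleGraph V) (K : Set V) : Prop :=
  ∀ x ∈ K, ∀ y ∈ K, ∀ L, L ≠ [] → (∀ v ∈ L, v ∉ K) → ¬ P G (x :: (L ++ [y]))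

/-- Weight of a vertex of `K`: longest path which starts at `x` and leaves `K` at once. -/
noncomputable def gK (G : SimpleGraph V) (K : Set V) (x : V) : ℕ := lp G (K \ {x}) x

/-- A long path in `K` from `z` through `y` which avoids `x`. -/
def TT (k : ℕ) (G : SimpleGraph V) (K : Set V) (z x y : V) : Prop :=
  ∃ B, P G (z :: y :: B) ∧ (∀ v ∈ B, v ∈ K) ∧ x ∉ B ∧
    k ≤ gK G K z + B.length + gK G K (B.getLastD y) + 1

/-- All edges lie in one component. -/
def One (G : SimpleGraph V) : Prop := ∀ u v u' v', G.Adj u v → G.Adj u' v' → G.Reachable u u'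

/-- Triangle. -/
def Tr (G : SimpleGraph V) (x y z : V) : Prop := G.Adj x y ∧ G.Adj x z ∧ G.Adj y z

/-- At most one triangle. -/
def T1 (G : SimpleGraph V) : Prop := ∀ x y z t, Tr G x y z → ¬ NT G t → t = x ∨ t = y ∨ t = z

/-- At most two triangles (weak form). -/
def T2 (G : SimpleGraph V) : Prop := ∀ x y z t t', Tr G x y z → ¬ NT G t → ¬ NT G t' →
  ¬ (t = x ∨ t = y ∨ t = z) → ¬ (t' = x ∨ t' = y ∨ t' = z) → t = t' ∨ G.Adj t t'

/-- There are two vertices at distance two. -/
def Trip (G : SimpleGraph V) : Prop := ∃ w x y, G.Adj w x ∧ G.Adj w y ∧ x ≠ y ∧ ¬ G.Adj x y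

/-- Three internally disjoint paths from `p` to `q` with vertex set `K`. -/
structure Th (G : SimpleGraph V) (K : Set V) (p q : V) (X Y Z : List V) : Prop where
  px : P G (p :: (X ++ [q]))
  py : P G (p :: (Y ++ [q]))
  pz : P G (p :: (Z ++ [q]))
  xy : X.Disjoint Y
  xz : X.Disjoint Z
  yz : Y.Disjoint Z
  ne : (X ≠ [] ∨ Y ≠ []) ∧ (X ≠ [] ∨ Z ≠ []) ∧ (Y ≠ [] ∨ Z ≠ [])
  mem : ∀ v, v ∈ K ↔ v = p ∨ v = q ∨ v ∈ X ∨ v ∈ Y ∨ v ∈ Z

/-- The core of a component with at most three independent cycles in which every vertex starts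
a very long path. -/
structure TK (k : ℕ) (G : SimpleGraph V) (K : Set V) : Prop where
  k9 : 9 ≤ k
  d2 : D2 k G
  ef : EF G K
  ne : K.Nonempty
  g2 : ∀ v ∈ K, gK G K v ≤ 2
  dg2 : ∀ v ∈ K, 2 ≤ dg G K v
  bud : ∀ T : Finset V, (∀ v ∈ T, v ∈ K) → ∑ v ∈ T, dg G K v ≤ 2 * T.card + 4
  lng : ∀ v ∈ K, ∃ A, P G (v :: A) ∧ (∀ u ∈ A, u ∈ K) ∧ k ≤ A.length + gK G K (A.getLastD v) + 2

/-- A path from `x` which climbs to `w` through the block of the edge `w p`. -/
def Climb (G : SimpleGraph V) (w p x : V) : Prop :=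
  ∃ C, P G (x :: (C ++ [w])) ∧ (∀ v ∈ x :: C, v ∈ Rg G {w} p) ∧
    (G.commonNeighbors w p).ncard ≤ C.length

/-- The target number of edges. -/
def s (n k : ℕ) : ℕ := if n < b k then n + 1 else n - n / a k

/-- `v` has exactly one neighbour. -/
def Leaf (G : SimpleGraph V) (v : V) : Prop := ∃ p, G.Adj v p ∧ ∀ u, G.Adj v u → u = p

/-- Saturation with witnesses ending in leaves. -/
structure Gd (k : ℕ) (G : SimpleGraph V) : Prop where
  pf : PF k G
  con : ∀ u v, G.Reachable u v
  lf : ∀ v, Leaf G v → ∃ A, P G (v :: A) ∧ A.length + 2 = k ∧ Leaf G (A.getLastD v)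
  cr : ∀ x y, x ≠ y → ¬ G.Adj x y → ∃ A B, P G (x :: A) ∧ P G (y :: B) ∧
    (x :: A).Disjoint (y :: B) ∧ k ≤ A.length + B.length + 2 ∧ Leaf G (A.getLastD x) ∧
    Leaf G (B.getLastD y)

/-- There is such a graph with `n` vertices, `e` edges and `l` leaves. -/
def Good (k n e l : ℕ) : Prop :=
  ∃ (W : Type) (_ : Finite W) (H : SimpleGraph W), Gd k H ∧ Nat.card W = n ∧
    H.edgeSet.ncard = e ∧ {v | Leaf H v}.ncard = l

/-- A saturated graph with `n` vertices and `e` edges, with a leaf that starts a longest path. -/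
def Ok (k n e : ℕ) : Prop :=
  ∃ (W : Type) (_ : Finite W) (H : SimpleGraph W), SatL k H ∧ Nat.card W = n ∧
    H.edgeSet.ncard = e ∧ ∃ v A, Leaf H v ∧ P H (v :: A) ∧ A.length + 2 = k

end PS
end

-- merged part: Pool.Agent.Work.MP_3e1eec_co.B1
section
/-! Paths, longest paths, regions, separation in a graph all of whose cycles are triangles. -/

open SimpleGraph

namespace PS
variable {V : Type} {G : SimpleGraph V}

theorem P.nil : P G [] := ⟨List.nodup_nil, List.IsChain.nil⟩

theorem P.single (x : V) : P G [x] := ⟨List.nodup_singleton x, List.isChain_singleton x⟩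

theorem P_cons_cons {x y : V} {l : List V} :
    P G (x :: y :: l) ↔ G.Adj x y ∧ x ∉ y :: l ∧ P G (y :: l) := by
  simp only [P, List.isChain_cons_cons]
  rw [List.nodup_cons]
  tauto

theorem P.cons {x y : V} {l : List V} (h : P G (y :: l)) (ha : G.Adj x y) (hx : x ∉ y :: l) :
    P G (x :: y :: l) := P_cons_cons.2 ⟨ha, hx, h⟩

theorem P.adj {x y : V} {l : List V} (h : P G (x :: y :: l)) : G.Adj x y := (P_cons_cons.1 h).1

theorem P.notMem {x : V} {l : List V} (h : P G (x :: l)) : x ∉ l := (List.nodup_cons.1 h.1).1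

theorem P.left {A B : List V} (h : P G (A ++ B)) : P G A :=
  ⟨h.1.of_append_left, h.2.left_of_append⟩

theorem P.right {A B : List V} (h : P G (A ++ B)) : P G B :=
  ⟨h.1.of_append_right, h.2.right_of_append⟩

theorem P.tail {x : V} {l : List V} (h : P G (x :: l)) : P G l := P.right (A := [x]) h

theorem P.disj {A B : List V} (h : P G (A ++ B)) : A.Disjoint B := List.disjoint_of_nodup_append h.1

theorem P.mid {A B : List V} {x y : V} (h : P G (A ++ x :: y :: B)) : G.Adj x y := h.right.adj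

theorem P.reverse {l : List V} (h : P G l) : P G l.reverse :=
  ⟨List.nodup_reverse.2 h.1, List.isChain_reverse.2 (h.2.imp fun _ _ hab => hab.symm)⟩

theorem P.sub {l l' : List V} (h : P G l) (hi : l' <:+: l) : P G l' := by
  obtain ⟨A, B, rfl⟩ := hi
  exact h.left.right

theorem P.pre {l l' : List V} (h : P G l) (hi : l' <+: l) : P G l' := h.sub hi.isInfix

theorem P.mono {H : SimpleGraph V} (hle : G ≤ H) {l : List V} (h : P G l) : P H l :=
  ⟨h.1, h.2.imp fun _ _ hab => hle hab⟩

/-- Concatenate two paths along an edge. -/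
theorem P.append {A B : List V} {x y : V} (h1 : P G (A ++ [x])) (h2 : P G (y :: B))
    (ha : G.Adj x y) (hd : (A ++ [x]).Disjoint (y :: B)) : P G (A ++ x :: y :: B) := by
  refine ⟨?_, List.isChain_append_cons_cons.2 ⟨h1.2, ha, h2.2⟩⟩
  have : A ++ x :: y :: B = (A ++ [x]) ++ (y :: B) := by simp
  rw [this]
  exact List.Nodup.append h1.1 h2.1 hd

/-- Concatenate two paths with a common end. -/
theorem P.glue {A B : List V} {x : V} (h1 : P G (A ++ [x])) (h2 : P G (x :: B))
    (hd : A.Disjoint B) : P G (A ++ x :: B) := by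
  refine ⟨?_, List.isChain_split.2 ⟨h1.2, h2.2⟩⟩
  refine List.Nodup.append h1.left.1 h2.1 fun v hv hv' => ?_
  rcases List.mem_cons.1 hv' with rfl | hv'
  · exact h1.disj hv (List.mem_singleton_self _)
  · exact hd hv hv'

theorem P.rev_cons {A : List V} {x : V} (h : P G (x :: A)) : P G (A.reverse ++ [x]) := by
  simpa using h.reverse

/-- Join two paths at their starting points along an edge. -/
theorem P.join {A B : List V} {x y : V} (h1 : P G (x :: A)) (h2 : P G (y :: B)) (ha : G.Adj x y)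
    (hd : (x :: A).Disjoint (y :: B)) : P G (A.reverse ++ x :: y :: B) := by
  refine h1.rev_cons.append h2 ha fun v hv => hd ?_
  simp only [List.mem_append, List.mem_reverse, List.mem_cons] at hv ⊢
  tauto

/-- Join two paths with the same starting point. -/
theorem P.join0 {A B : List V} {x : V} (h1 : P G (x :: A)) (h2 : P G (x :: B))
    (hd : A.Disjoint B) : P G (A.reverse ++ x :: B) :=
  h1.rev_cons.glue h2 fun _ hv => hd (List.mem_reverse.1 hv)

theorem PF.join {k : ℕ} (hk : PF k G) {A B : List V} {x y : V} (h1 : P G (x :: A))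
    (h2 : P G (y :: B)) (ha : G.Adj x y) (hd : (x :: A).Disjoint (y :: B)) :
    A.length + B.length + 2 < k := by
  have := hk _ (h1.join h2 ha hd)
  simp only [List.length_append, List.length_reverse, List.length_cons] at this
  omega

theorem PF.join0 {k : ℕ} (hk : PF k G) {A B : List V} {x : V} (h1 : P G (x :: A))
    (h2 : P G (x :: B)) (hd : A.Disjoint B) : A.length + B.length + 1 < k := by
  have := hk _ (h1.join0 h2 hd)
  simp only [List.length_append, List.length_reverse, List.length_cons] at this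
  omega

theorem Cr.symm {k : ℕ} {x y : V} (h : Cr k G x y) : Cr k G y x := by
  obtain ⟨A, B, h1, h2, hd, hk⟩ := h
  exact ⟨B, A, h2, h1, hd.symm, by omega⟩

theorem Cr.mono {k : ℕ} {H : SimpleGraph V} (hle : G ≤ H) {x y : V} (h : Cr k G x y) :
    Cr k H x y := by
  obtain ⟨A, B, h1, h2, hd, hk⟩ := h
  exact ⟨A, B, h1.mono hle, h2.mono hle, hd, hk⟩

theorem SatL.d2 {k : ℕ} (h : SatL k G) : D2 k G := ⟨h.1, fun _ x y _ _ hne hn => h.2 x y hne hn⟩

theorem P.reach {x : V} {A : List V} (h : P G (x :: A)) : ∀ v ∈ x :: A, G.Reachable x v := by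
  induction A generalizing x with
  | nil => intro v hv; rw [List.mem_singleton.1 hv]
  | cons y l ih =>
    intro v hv
    rcases List.mem_cons.1 hv with rfl | hv
    · rfl
    · exact h.adj.reachable.trans (ih h.tail v hv)

theorem P.reach' {l : List V} (h : P G l) {u v : V} (hu : u ∈ l) (hv : v ∈ l) :
    G.Reachable u v := by
  cases l with
  | nil => cases hu
  | cons x A => exact (h.reach u hu).symm.trans (h.reach v hv)

theorem exists_P {x y : V} (h : G.Reachable x y) (hne : x ≠ y) : ∃ A, P G (x :: (A ++ [y])) := by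
  classical
  obtain ⟨p⟩ := h
  have hp : P G p.toPath.1.support := ⟨p.toPath.2.support_nodup, Walk.isChain_adj_support _⟩
  generalize p.toPath.1 = q at hp
  cases q with
  | nil => exact absurd rfl hne
  | cons h q =>
    refine ⟨q.support.dropLast, ?_⟩
    have e : q.support.dropLast ++ [y] = q.support := by
      conv_rhs => rw [← List.dropLast_append_getLast q.support_ne_nil, q.getLast_support]
    rw [e]
    exact hp

theorem P.le_card [Finite V] {l : List V} (h : P G l) : l.length ≤ Nat.card V := by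
  have := Fintype.ofFinite V
  rw [Nat.card_eq_fintype_card]
  exact h.1.length_le_card

theorem lp_set (S : Set V) (x : V) :
    {m | ∃ (y : V) (p : G.Walk x y), p.IsPath ∧ (∀ v ∈ p.support, v ∉ S) ∧ m = p.length + 1} =
      {m | ∃ A, P G (x :: A) ∧ (∀ v ∈ x :: A, v ∉ S) ∧ m = A.length + 1} := by
  ext m
  constructor
  · rintro ⟨y, p, hp, hS, rfl⟩
    refine ⟨p.support.tail, ?_, ?_, ?_⟩
    · rw [p.cons_tail_support]; exact ⟨hp.support_nodup, p.isChain_adj_support⟩
    · rw [p.cons_tail_support]; exact hS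
    · simp
  · rintro ⟨A, hP, hS, rfl⟩
    obtain ⟨h1, h2⟩ := hP
    have e := Walk.support_ofSupport (List.cons_ne_nil x A) h2
    have e' := Walk.length_ofSupport (List.cons_ne_nil x A) h2
    refine ⟨_, Walk.ofSupport (x :: A) (List.cons_ne_nil x A) h2, ?_, ?_, ?_⟩
    · exact (Walk.isPath_def _).2 (e.symm ▸ h1)
    · exact fun v hv => hS v (e ▸ hv)
    · exact congrArg (· + 1) e'.symm

theorem lp_bdd [Finite V] (S : Set V) (x : V) :
    BddAbove {m | ∃ A, P G (x :: A) ∧ (∀ v ∈ x :: A, v ∉ S) ∧ m = A.length + 1} :=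
  ⟨Nat.card V, by rintro m ⟨A, hP, -, rfl⟩; exact hP.le_card⟩

theorem lp_ge [Finite V] {S : Set V} {x : V} {A : List V} (h : P G (x :: A))
    (hS : ∀ v ∈ x :: A, v ∉ S) : A.length + 1 ≤ lp G S x := by
  rw [lp, lp_set]
  exact le_csSup (lp_bdd S x) ⟨A, h, hS, rfl⟩

theorem lp_ex [Finite V] (G : SimpleGraph V) {S : Set V} {x : V} (hx : x ∉ S) :
    ∃ A, P G (x :: A) ∧ (∀ v ∈ x :: A, v ∉ S) ∧ A.length + 1 = lp G S x := by
  have hne : {m | ∃ A, P G (x :: A) ∧ (∀ v ∈ x :: A, v ∉ S) ∧ m = A.length + 1}.Nonempty :=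
    ⟨1, [], P.single x, by simpa using hx, rfl⟩
  obtain ⟨A, h1, h2, h3⟩ := Nat.sSup_mem hne (lp_bdd S x)
  exact ⟨A, h1, h2, by rw [lp, lp_set, h3]⟩

theorem lp_pos [Finite V] (G : SimpleGraph V) {S : Set V} {x : V} (hx : x ∉ S) : 1 ≤ lp G S x := by
  obtain ⟨A, -, -, h⟩ := lp_ex G hx
  omega

theorem lp_zero (G : SimpleGraph V) {S : Set V} {x : V} (hx : x ∈ S) : lp G S x = 0 := by
  rw [lp, lp_set]
  have : {m | ∃ A, P G (x :: A) ∧ (∀ v ∈ x :: A, v ∉ S) ∧ m = A.length + 1} = ∅ := by
    ext m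
    simp only [Set.mem_ofPred_eq, Set.mem_empty_iff_false, iff_false]
    rintro ⟨A, -, h, -⟩
    exact h x List.mem_cons_self hx
  rw [this]; simp

theorem lp_anti [Finite V] (G : SimpleGraph V) {S T : Set V} (h : S ⊆ T) (x : V) :
    lp G T x ≤ lp G S x := by
  by_cases hx : x ∈ T
  · rw [lp_zero G hx]; exact Nat.zero_le _
  obtain ⟨A, h1, h2, h3⟩ := lp_ex G hx
  rw [← h3]
  exact lp_ge h1 fun v hv hs => h2 v hv (h hs)

theorem PF.lp_lt [Finite V] {k : ℕ} (hk : PF k G) (S : Set V) (x : V) : lp G S x < k := by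
  by_cases hx : x ∈ S
  · rw [lp_zero G hx]; exact hk [] P.nil
  obtain ⟨A, h1, -, h3⟩ := lp_ex G hx
  rw [← h3]
  exact hk _ h1

theorem del_le (S : Set V) : del G S ≤ G := fun _ _ h => h.1

theorem P.toDel {S : Set V} {l : List V} (h : P G l) (hS : ∀ v ∈ l, v ∉ S) : P (del G S) l :=
  ⟨h.1, h.2.imp_of_mem_imp fun a b ha hb hab => ⟨hab, hS a ha, hS b hb⟩⟩

theorem P.ofDel {S : Set V} {x : V} {A : List V} (h : P (del G S) (x :: A)) (hx : x ∉ S) :
    ∀ v ∈ x :: A, v ∉ S := by
  induction A generalizing x with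
  | nil => intro v hv; rw [List.mem_singleton.1 hv]; exact hx
  | cons y l ih =>
    intro v hv
    rcases List.mem_cons.1 hv with rfl | hv
    · exact hx
    · exact ih h.tail h.adj.2.2 v hv

theorem Rg_self (S : Set V) (x : V) : x ∈ Rg G S x := Reachable.refl x

theorem P.mem_Rg {S : Set V} {x : V} {A : List V} (h : P G (x :: A)) (hS : ∀ v ∈ x :: A, v ∉ S) :
    ∀ v ∈ x :: A, v ∈ Rg G S x := (h.toDel hS).reach

theorem P.mem_Rg' {S : Set V} {l : List V} (h : P G l) (hS : ∀ v ∈ l, v ∉ S) {u v : V}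
    (hu : u ∈ l) (hv : v ∈ l) : v ∈ Rg G S u := (h.toDel hS).reach' hu hv

theorem Rg_path {S : Set V} {x y : V} (hx : x ∉ S) (h : y ∈ Rg G S x) (hne : x ≠ y) :
    ∃ A, P G (x :: (A ++ [y])) ∧ ∀ v ∈ x :: (A ++ [y]), v ∉ S := by
  obtain ⟨A, hA⟩ := exists_P h hne
  exact ⟨A, hA.mono (del_le S), hA.ofDel hx⟩

theorem Rg_notMem {S : Set V} {x y : V} (hx : x ∉ S) (h : y ∈ Rg G S x) : y ∉ S := by
  by_cases hne : x = y
  · exact hne ▸ hx
  obtain ⟨A, -, hA⟩ := Rg_path hx h hne
  exact hA y (by simp)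

theorem Rg_adj {S : Set V} {x u v : V} (hx : x ∉ S) (h : u ∈ Rg G S x) (ha : G.Adj u v)
    (hv : v ∉ S) : v ∈ Rg G S x :=
  Reachable.trans h (Adj.reachable (show (del G S).Adj u v from ⟨ha, Rg_notMem hx h, hv⟩))

theorem Rg_symm {S : Set V} {x y : V} (h : y ∈ Rg G S x) : x ∈ Rg G S y := Reachable.symm h

theorem Rg_trans {S : Set V} {x y z : V} (h : y ∈ Rg G S x) (h' : z ∈ Rg G S y) : z ∈ Rg G S x :=
  Reachable.trans h h'

theorem Rg_anti {S T : Set V} (h : S ⊆ T) (x : V) : Rg G T x ⊆ Rg G S x := fun _ hv =>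
  Reachable.mono (G := del G T) (G' := del G S)
    (fun _ _ hab => ⟨hab.1, fun hs => hab.2.1 (h hs), fun hs => hab.2.2 (h hs)⟩) hv

theorem Rg_sub_Cm (S : Set V) (x : V) : Rg G S x ⊆ Cm G x := fun _ hv => Reachable.mono (del_le S) hv

/-- A region which misses `T` is a region for `S ∪ T`. -/
theorem Rg_avoid {S T : Set V} {x : V} (hx : x ∉ S) (h : ∀ v ∈ Rg G S x, v ∉ T) :
    Rg G S x ⊆ Rg G T x := by
  intro y hy
  by_cases hne : x = y
  · exact hne ▸ Rg_self _ _
  obtain ⟨A, h1, h2⟩ := Rg_path hx hy hne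
  exact h1.mem_Rg (fun v hv => h v (h1.mem_Rg h2 v hv)) y (by simp)

theorem Cac.mono {H : SimpleGraph V} (h : Cac G) (hle : H ≤ G) : Cac H :=
  fun x y A hP ha => h x y A (hP.mono hle) (hle ha)

/-- An edge lies in at most one triangle. -/
theorem Cac.common (h : Cac G) {u w s t : V} (huw : G.Adj u w) (h1 : G.Adj u s) (h2 : G.Adj w s)
    (h3 : G.Adj u t) (h4 : G.Adj w t) : s = t := by
  by_contra hne
  have hP : P G (u :: ([s, w] ++ [t])) := by
    simp only [List.cons_append, List.nil_append, P_cons_cons, List.mem_cons, List.not_mem_nil,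
      or_false, not_or]
    exact ⟨h1, ⟨h1.ne, huw.ne, h3.ne⟩, h2.symm, ⟨h2.ne', hne⟩, h4, h4.ne, P.single t⟩
  have := h _ _ _ hP h3
  simp at this

theorem Cac.ncard_le [Finite V] (h : Cac G) {w x : V} (ha : G.Adj w x) :
    (G.commonNeighbors w x).ncard ≤ 1 :=
  (Set.ncard_le_one (Set.toFinite _)).2 fun _ hs _ ht => h.common ha hs.1 hs.2 ht.1 ht.2

/-- Non adjacent neighbours of `w` are separated by `w`. -/
theorem Cac.sep (h : Cac G) {w x y : V} (hx : G.Adj w x) (hy : G.Adj w y) (hne : x ≠ y)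
    (hn : ¬ G.Adj x y) : y ∉ Rg G {w} x := by
  intro hr
  obtain ⟨A, h1, h2⟩ := Rg_path (S := {w}) (fun h => hx.ne' h) hr hne
  have hP : P G (w :: ((x :: A) ++ [y])) := h1.cons hx fun hw => h2 w hw rfl
  have := h _ _ _ hP hy
  cases A with
  | nil => exact hn h1.adj
  | cons t A => simp at this

theorem Cac.sepR (h : Cac G) {w x y : V} (hx : G.Adj w x) (hy : G.Adj w y) (hne : x ≠ y)
    (hn : ¬ G.Adj x y) : Disjoint (Rg G {w} x) (Rg G {w} y) :=
  Set.disjoint_left.2 fun _ h1 h2 => h.sep hx hy hne hn (Rg_trans h1 (Rg_symm h2))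

theorem Cac.disj (h : Cac G) {w x y : V} (hx : G.Adj w x) (hy : G.Adj w y) (hne : x ≠ y)
    (hn : ¬ G.Adj x y) {A B : List V} (hA : P G (x :: A)) (hB : P G (y :: B)) (hwA : w ∉ x :: A)
    (hwB : w ∉ y :: B) : (x :: A).Disjoint (y :: B) := fun v h1 h2 =>
  Set.disjoint_left.1 (h.sepR hx hy hne hn)
    (hA.mem_Rg (fun _ hv hs => hwA (by rw [← Set.mem_singleton_iff.1 hs]; exact hv)) v h1)
    (hB.mem_Rg (fun _ hv hs => hwB (by rw [← Set.mem_singleton_iff.1 hs]; exact hv)) v h2)

/-- Different neighbours of the two ends of an edge are separated by the edge. -/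
theorem Cac.sepE (h : Cac G) {w u z t : V} (ha : G.Adj w u) (hz : G.Adj w z) (ht : G.Adj u t)
    (hzu : z ≠ u) (hne : z ≠ t) : t ∉ Rg G {w, u} z := by
  intro hr
  have hzS : z ∉ ({w, u} : Set V) := by
    rintro (h | h)
    · exact hz.ne' h
    · exact hzu h
  obtain ⟨A, h1, h2⟩ := Rg_path hzS hr hne
  have hu : u ∉ z :: (A ++ [t]) := fun hm => h2 u hm (Or.inr rfl)
  have hw : w ∉ z :: (A ++ [t]) := fun hm => h2 w hm (Or.inl rfl)
  have h3 : P G ((z :: A) ++ t :: u :: []) :=
    P.append (A := z :: A) h1 (P.single u) ht.symm fun v hv hv' =>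
      hu (by rw [← List.mem_singleton.1 hv']; exact hv)
  have h4 : P G (w :: ((z :: (A ++ [t])) ++ [u])) := by
    have e : (z :: (A ++ [t])) ++ [u] = z :: (A ++ t :: u :: []) := by simp
    rw [e]
    refine P.cons h3 hz fun hm => ?_
    simp only [List.mem_cons, List.mem_append, List.not_mem_nil, or_false] at hm hw
    rcases hm with hm | hm | hm | hm
    · exact hw (Or.inl hm)
    · exact hw (Or.inr (Or.inl hm))
    · exact hw (Or.inr (Or.inr hm))
    · exact ha.ne hm
  have := h _ _ _ h4 ha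
  simp at this

theorem Cac.disjE (h : Cac G) {w u z t : V} (ha : G.Adj w u) (hz : G.Adj w z) (ht : G.Adj u t)
    (hne : z ≠ t) {A B : List V} (hA : P G (z :: A)) (hB : P G (t :: B))
    (hA' : ∀ v ∈ z :: A, v ∉ ({w, u} : Set V)) (hB' : ∀ v ∈ t :: B, v ∉ ({w, u} : Set V)) :
    (z :: A).Disjoint (t :: B) := fun v h1 h2 =>
  h.sepE ha hz ht (fun e => hA' z List.mem_cons_self (Or.inr e)) hne
    (Rg_trans (hA.mem_Rg hA' v h1) (Rg_symm (hB.mem_Rg hB' v h2)))

/-- Paths from the two ends of an edge are disjoint unless they have the same second vertex. -/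
theorem Cac.disjF (h : Cac G) {w u : V} (ha : G.Adj w u) {A B : List V} (hA : P G (w :: A))
    (hB : P G (u :: B)) (hu : u ∉ A) (hw : w ∉ B)
    (hne : ∀ z A' B', A = z :: A' → B = z :: B' → False) : (w :: A).Disjoint (u :: B) := by
  intro v h1 h2
  rcases List.mem_cons.1 h1 with rfl | h1
  · rcases List.mem_cons.1 h2 with h2 | h2
    · exact ha.ne h2
    · exact hw h2
  rcases List.mem_cons.1 h2 with rfl | h2
  · exact hu h1
  cases A with
  | nil => cases h1
  | cons z A' =>
    cases B with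
    | nil => cases h2
    | cons t B' =>
      refine h.disjE ha hA.adj hB.adj (fun e => hne z A' B' rfl (by rw [e])) hA.tail hB.tail
        ?_ ?_ h1 h2
      · rintro r hr (rfl | rfl)
        · exact hA.notMem hr
        · exact hu hr
      · rintro r hr (rfl | rfl)
        · exact hw hr
        · exact hB.notMem hr

end PS
end

-- merged part: Pool.Agent.Work.MP_3e1eec_co.B2
section
/-! Excess of a vertex set, restriction to a component.
Plan.  `ex_insert`: for `u ∈ K`, `dg (insert v K) u = dg K u + (1 if Adj u v)`, and `dg (insert v K) v = dg K v`; the number of `u ∈ K` adjacent to `v` is `dg K v`.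
`ex_even`: induction on `K` with `ex_insert`.  `ex_le_Cm`: induction on `S.card - K.card`; if `K ≠ S` some vertex of `S \ K` has a neighbour in `K` (take a path from a vertex of `K` to a vertex of `S \ K`, `exists_P`, or `Walk.exists_boundary_dart`).
`ex_ear`: add the vertices of `L` one at a time (induction on `L` from the left, generalising `x` and `K`); each has a neighbour in the current set, the last one has two.
`few_res`: a set in one component of `res G v₀` is a single vertex or lies in `S`, where `dg (res G v₀) = dg G`. -/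

open SimpleGraph

namespace PS
variable {V : Type} {G : SimpleGraph V}

theorem dg_mono [Finite V] {K K' : Set V} (h : K ⊆ K') (v : V) : dg G K v ≤ dg G K' v := by
  exact Set.ncard_le_ncard (fun u hu => ⟨h hu.1, hu.2⟩) (Set.toFinite _)

theorem le_dg [Finite V] {K : Set V} {v : V} (T : Finset V) (h : ∀ u ∈ T, u ∈ K ∧ G.Adj v u) :
    T.card ≤ dg G K v := by
  rw [← Set.ncard_coe_finset]
  exact Set.ncard_le_ncard (fun u hu => h u hu) (Set.toFinite _)

theorem two_le_dg [Finite V] {K : Set V} {v x y : V} (hx : x ∈ K) (hy : y ∈ K) (h1 : G.Adj v x)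
    (h2 : G.Adj v y) (hne : x ≠ y) : 2 ≤ dg G K v := by
  classical
  rw [← Finset.card_pair hne]
  refine le_dg _ fun u hu => ?_
  simp only [Finset.mem_insert, Finset.mem_singleton] at hu
  rcases hu with rfl | rfl
  exacts [⟨hx, h1⟩, ⟨hy, h2⟩]

theorem three_le_dg [Finite V] {K : Set V} {v x y z : V} (hx : x ∈ K) (hy : y ∈ K) (hz : z ∈ K)
    (h1 : G.Adj v x) (h2 : G.Adj v y) (h3 : G.Adj v z) (hxy : x ≠ y) (hxz : x ≠ z) (hyz : y ≠ z) :
    3 ≤ dg G K v := by
  classical
  rw [← Finset.card_eq_three.2 ⟨x, y, z, hxy, hxz, hyz, rfl⟩]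
  refine le_dg _ fun u hu => ?_
  simp only [Finset.mem_insert, Finset.mem_singleton] at hu
  rcases hu with rfl | rfl | rfl
  exacts [⟨hx, h1⟩, ⟨hy, h2⟩, ⟨hz, h3⟩]

theorem four_le_dg [Finite V] {K : Set V} {v x y z t : V} (hx : x ∈ K) (hy : y ∈ K) (hz : z ∈ K)
    (ht : t ∈ K) (h1 : G.Adj v x) (h2 : G.Adj v y) (h3 : G.Adj v z) (h4 : G.Adj v t)
    (hxy : x ≠ y) (hxz : x ≠ z) (hyz : y ≠ z) (hxt : x ≠ t) (hyt : y ≠ t) (hzt : z ≠ t) :
    4 ≤ dg G K v := by
  classical
  rw [← Finset.card_eq_four.2 ⟨x, y, z, t, hxy, hxz, hxt, hyz, hyt, hzt, rfl⟩]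
  refine le_dg _ fun u hu => ?_
  simp only [Finset.mem_insert, Finset.mem_singleton] at hu
  rcases hu with rfl | rfl | rfl | rfl
  exacts [⟨hx, h1⟩, ⟨hy, h2⟩, ⟨hz, h3⟩, ⟨ht, h4⟩]

/-- A vertex with exactly two neighbours in `K`. -/
theorem dg_two [Finite V] {K : Set V} {v : V} (h : dg G K v = 2) : ∃ x y, x ∈ K ∧ y ∈ K ∧ x ≠ y ∧
    G.Adj v x ∧ G.Adj v y ∧ ∀ u ∈ K, G.Adj v u → u = x ∨ u = y := by
  obtain ⟨x, y, hne, e⟩ := Set.ncard_eq_two.1 h
  have hx : x ∈ {u | u ∈ K ∧ G.Adj v u} := e ▸ Or.inl rfl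
  have hy : y ∈ {u | u ∈ K ∧ G.Adj v u} := e ▸ Or.inr rfl
  exact ⟨x, y, hx.1, hy.1, hne, hx.2, hy.2, fun u hu ha => e.subset ⟨hu, ha⟩⟩

open Classical in
theorem B2_card (K : Finset V) (v : V) : (dg G K v : ℤ) = ∑ u ∈ K, if G.Adj v u then 1 else 0 := by
  rw [Finset.sum_boole, dg, ← Set.ncard_coe_finset]
  exact congrArg _ (congrArg _ (Set.ext fun u => by simp))

theorem ex_insert [Finite V] [DecidableEq V] {K : Finset V} {v : V} (hv : v ∉ K) :
    ex G (insert v K) = ex G K + 2 * (dg G K v : ℤ) - 2 := by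
  classical
  simp only [ex, B2_card, Finset.sum_insert hv, G.irrefl, if_false, Finset.sum_sub_distrib,
    Finset.sum_add_distrib, G.adj_comm v]
  ring

theorem ex_single (v : V) : ex G {v} = -2 := by
  rw [ex, Finset.sum_singleton, B2_card]
  simp

theorem ex_even [Finite V] (K : Finset V) : Even (ex G K) := by
  classical
  induction K using Finset.induction_on with
  | empty => simp [ex]
  | insert v K hv ih =>
    rw [ex_insert hv]
    exact (ih.add (even_two_mul _)).sub even_two

theorem B2_step [Finite V] [DecidableEq V] {K : Finset V} {v x : V} (hv : v ∉ K) (hx : x ∈ K)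
    (ha : G.Adj v x) : ex G K ≤ ex G (insert v K) := by
  have := le_dg (G := G) (K := K) (v := v) {x} fun u hu => Finset.mem_singleton.1 hu ▸ ⟨hx, ha⟩
  rw [Finset.card_singleton] at this
  rw [ex_insert hv]
  omega

theorem ex_le_Cm [Finite V] {K S : Finset V} {v₀ : V} (hS : ∀ v, v ∈ S ↔ G.Reachable v₀ v)
    (hne : K.Nonempty) (hK : K ⊆ S) : ex G K ≤ ex G S := by
  classical
  obtain ⟨n, hn⟩ : ∃ n, S.card - K.card = n := ⟨_, rfl⟩
  induction n generalizing K with
  | zero => rw [Finset.eq_of_subset_of_card_le hK (by omega)]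
  | succ n ih =>
    obtain ⟨s, hs, hsK⟩ := Finset.exists_mem_notMem_of_card_lt_card (show K.card < S.card by omega)
    obtain ⟨x, hx⟩ := hne
    obtain ⟨p⟩ := ((hS x).1 (hK hx)).symm.trans ((hS s).1 hs)
    obtain ⟨d, -, d1, d2⟩ := p.exists_boundary_dart (K : Set V) hx hsK
    refine (B2_step d2 d1 d.adj.symm).trans (ih (Finset.insert_nonempty _ _)
      (Finset.insert_subset ((hS _).2 (((hS _).1 (hK d1)).trans d.adj.reachable)) hK) ?_)
    rw [Finset.card_insert_of_notMem d2]
    omega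

theorem ex_ear [Finite V] [DecidableEq V] {K : Finset V} {x y : V} {L : List V} (hx : x ∈ K)
    (hy : y ∈ K) (hL : L ≠ []) (ho : ∀ v ∈ L, v ∉ K) (hP : P G (x :: (L ++ [y]))) :
    ex G K + 2 ≤ ex G (K ∪ L.toFinset) := by
  induction L generalizing x K with
  | nil => exact absurd rfl hL
  | cons a L ih =>
    have ha : a ∉ K := ho a List.mem_cons_self
    have e : K ∪ (a :: L).toFinset = insert a K ∪ L.toFinset := by
      rw [List.toFinset_cons, Finset.union_insert, Finset.insert_union]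
    rw [e]
    by_cases hL' : L = []
    · subst hL'
      have := two_le_dg (K := K) hx hy hP.adj.symm hP.tail.adj fun e => hP.notMem (by simp [e])
      rw [List.toFinset_nil, Finset.union_empty, ex_insert ha]
      omega
    · have := B2_step ha hx hP.adj.symm
      refine le_trans (by omega) (ih (Finset.mem_insert_self a K) (Finset.mem_insert_of_mem hy) hL'
        (fun v hv hm => ?_) hP.tail)
      rcases Finset.mem_insert.1 hm with rfl | hm
      · exact hP.tail.notMem (List.mem_append_left _ hv)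
      · exact ho v (List.mem_cons_of_mem _ hv) hm

theorem Few.ef [Finite V] {j : ℤ} (h : Few G j) {K : Finset V}
    (hr : ∀ u ∈ K, ∀ v ∈ K, G.Reachable u v) (hj : j < ex G K + 2) : EF G K := by
  classical
  intro x hx y hy L hL ho hP
  have h1 := ex_ear hx hy hL ho hP
  have h2 : ∀ u ∈ K ∪ L.toFinset, G.Reachable x u := fun u hu => by
    rcases Finset.mem_union.1 hu with hu | hu
    · exact hr x hx u hu
    · exact hP.reach u (List.mem_cons_of_mem _ (List.mem_append_left _ (List.mem_toFinset.1 hu)))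
  have h3 := h (K ∪ L.toFinset) ⟨x, Finset.mem_union_left _ hx⟩ fun u hu v hv =>
    (h2 u hu).symm.trans (h2 v hv)
  omega

theorem Few.mono {j j' : ℤ} (h : Few G j) (hj : j ≤ j') : Few G j' := by
  exact fun K h1 h2 => (h K h1 h2).trans hj

theorem res_le (v₀ : V) : res G v₀ ≤ G := by
  exact fun _ _ h => h.1

theorem P.res {v₀ x : V} {A : List V} (h : P G (x :: A)) (hx : G.Reachable v₀ x) :
    P (res G v₀) (x :: A) := by
  exact ⟨h.1, h.2.imp_of_mem_imp fun a b ha _ hab => ⟨hab, hx.trans (h.reach a ha)⟩⟩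

theorem lp_res [Finite V] {v₀ x : V} (hx : G.Reachable v₀ x) (S : Set V) :
    lp (res G v₀) S x = lp G S x := by
  rw [lp, lp, lp_set, lp_set]
  exact congrArg _ (Set.ext fun m => exists_congr fun A => and_congr_left'
    ⟨fun h => h.mono (res_le v₀), fun h => h.res hx⟩)

theorem reach_res {v₀ x y : V} (hx : G.Reachable v₀ x) (h : G.Reachable x y) :
    (res G v₀).Reachable x y := by
  by_cases e : x = y
  · rw [e]
  obtain ⟨A, hA⟩ := exists_P h e
  exact (hA.res hx).reach y (by simp)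

theorem Cm_res {v₀ x : V} (hx : G.Reachable v₀ x) : Cm (res G v₀) x = Cm G v₀ := by
  exact Set.ext fun v => ⟨fun h => hx.trans (Reachable.mono (res_le v₀) h),
    fun h => reach_res hx (hx.symm.trans h)⟩

theorem one_res (v₀ : V) : One (res G v₀) := by
  exact fun u v u' v' h h' => reach_res h.2 (h.2.symm.trans h'.2)

theorem D2.res {k : ℕ} (h : D2 k G) (v₀ : V) : D2 k (res G v₀) := by
  refine ⟨fun l hl => h.1 l (hl.mono (res_le v₀)), fun w x y hx hy hne hn => ?_⟩
  have h1 := hx.2.trans hx.1.reachable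
  have h2 := hy.2.trans hy.1.reachable
  obtain ⟨A, B, a1, a2, a3⟩ := h.2 w x y hx.1 hy.1 hne fun e => hn ⟨e, h1⟩
  exact ⟨A, B, a1.res h1, a2.res h2, a3⟩

theorem cac_of_res (h : ∀ v, Cac (res G v)) : Cac G := by
  exact fun x y A hP ha => h x x y A (hP.res (Reachable.refl x)) ⟨ha, Reachable.refl x⟩

theorem few_res [Finite V] {S : Finset V} {v₀ : V} (hS : ∀ v, v ∈ S ↔ G.Reachable v₀ v) :
    Few (res G v₀) (ex G S) := by
  intro K hne hr
  by_cases hK : K ⊆ S
  · refine le_trans (le_of_eq (Finset.sum_congr rfl fun v hv => ?_)) (ex_le_Cm hS hne hK)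
    have : dg (res G v₀) K v = dg G K v := congrArg _ (Set.ext fun u => and_congr_right fun _ =>
      ⟨fun h => h.1, fun h => ⟨h, (hS v).1 (hK hv)⟩⟩)
    rw [this]
  · obtain ⟨u, hu, huS⟩ := Finset.not_subset.1 hK
    obtain rfl : K = {u} := Finset.eq_singleton_iff_unique_mem.2 ⟨hu, fun v hv => by
      obtain ⟨p⟩ := hr u hu v hv
      cases p with
      | nil => rfl
      | cons h _ => exact absurd ((hS u).2 h.2) huS⟩
    rw [ex_single, ← ex_single (G := G) v₀]
    exact ex_le_Cm hS (Finset.singleton_nonempty _)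
      (Finset.singleton_subset_iff.2 ((hS _).2 (Reachable.refl _)))

end PS
end

-- merged part: Pool.Agent.Work.MP_3e1eec_co.B4
section
/-! Counting triangles by the excess.
Plan.  `ex_tris`: grow `K` from `{v₀}` to `S` one vertex at a time as in `ex_le_Cm`, keeping `2 * (number of members of 𝒯 inside K) - 2 ≤ ex G K`:
if the new vertex `v` completes `d ≥ 1` triangles, these meet only in `v` (`Cac.common`), so `v` has at least `2 d ≥ d + 1` neighbours in `K`.
The three corollaries: a vertex with `¬ NT` lies in a triangle; apply `ex_tris` to one, two or three different triangles (`is3Clique_triple_iff`), with `S` the component and `Few`. -/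

open SimpleGraph

namespace PS
variable {V : Type} {G : SimpleGraph V} [Finite V]

omit [Finite V] in
theorem B4_third [DecidableEq V] {t : Finset V} (h : G.IsNClique 3 t) {v w : V} (hv : v ∈ t)
    (hw : w ∈ t.erase v) : ∃ s, G.Adj v s ∧ G.Adj w s ∧ t = {v, w, s} := by
  have h1 : ((t.erase v).erase w).card = 1 := by
    rw [Finset.card_erase_of_mem hw, Finset.card_erase_of_mem hv, h.card_eq]
  obtain ⟨s, hs⟩ := Finset.card_eq_one.1 h1
  have hm : s ∈ (t.erase v).erase w := hs ▸ Finset.mem_singleton_self s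
  have hsw := Finset.ne_of_mem_erase hm
  have hsv := Finset.ne_of_mem_erase (Finset.mem_of_mem_erase hm)
  have hst := Finset.mem_of_mem_erase (Finset.mem_of_mem_erase hm)
  refine ⟨s, h.isClique hv hst hsv.symm, h.isClique (Finset.mem_of_mem_erase hw) hst hsw.symm, ?_⟩
  rw [← hs, Finset.insert_erase hw, Finset.insert_erase hv]

theorem B4_step [DecidableEq V] (hC : Cac G) {K : Finset V} {u v : V} (hu : u ∈ K)
    (ha : G.Adj v u) (D : Finset (Finset V))
    (h : ∀ t ∈ D, G.IsNClique 3 t ∧ v ∈ t ∧ t ⊆ insert v K) : D.card + 1 ≤ dg G K v := by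
  rcases D.eq_empty_or_nonempty with rfl | hne
  · simpa using le_dg (G := G) (K := (K : Set V)) (v := v) {u} (by simpa using ⟨hu, ha⟩)
  have h1 : (D.biUnion fun t => t.erase v).card = ∑ t ∈ D, (t.erase v).card := by
    refine Finset.card_biUnion fun t ht t' ht' hn => Finset.disjoint_left.2 fun w hw hw' => hn ?_
    obtain ⟨s, s1, s2, s3⟩ := B4_third (h t ht).1 (h t ht).2.1 hw
    obtain ⟨r, r1, r2, r3⟩ := B4_third (h t' ht').1 (h t' ht').2.1 hw'
    have hvw : G.Adj v w := (h t ht).1.isClique (h t ht).2.1 (Finset.mem_of_mem_erase hw)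
      (Finset.ne_of_mem_erase hw).symm
    rw [s3, r3, hC.common hvw s1 s2 r1 r2]
  have h2 : ∑ t ∈ D, (t.erase v).card = ∑ _t ∈ D, 2 := Finset.sum_congr rfl fun t ht => by
    rw [Finset.card_erase_of_mem (h t ht).2.1, (h t ht).1.card_eq]
  have h3 := le_dg (G := G) (K := (K : Set V)) (v := v) (D.biUnion fun t => t.erase v) (by
    intro w hw
    obtain ⟨t, ht, hw⟩ := Finset.mem_biUnion.1 hw
    have hn := Finset.ne_of_mem_erase hw
    have hm := Finset.mem_of_mem_erase hw
    exact ⟨(Finset.mem_insert.1 ((h t ht).2.2 hm)).resolve_left hn,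
      (h t ht).1.isClique (h t ht).2.1 hm hn.symm⟩)
  have h4 := hne.card_pos
  rw [h1, h2, Finset.sum_const, smul_eq_mul] at h3
  omega

theorem ex_tris (hC : Cac G) {S : Finset V} {v₀ : V} (hS : ∀ v, v ∈ S ↔ G.Reachable v₀ v)
    (𝒯 : Finset (Finset V)) (h : ∀ t ∈ 𝒯, G.IsNClique 3 t ∧ t ⊆ S) :
    2 * (𝒯.card : ℤ) - 2 ≤ ex G S := by
  classical
  have key : ∀ n (K : Finset V), S.card - K.card = n → v₀ ∈ K → K ⊆ S →
      2 * ((𝒯.filter (· ⊆ K)).card : ℤ) - 2 ≤ ex G K → 2 * (𝒯.card : ℤ) - 2 ≤ ex G S := by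
    intro n
    induction n with
    | zero =>
      intro K hn _ hK hk
      have e : K = S := Finset.eq_of_subset_of_card_le hK (by omega)
      rwa [e, Finset.filter_true_of_mem fun t ht => (h t ht).2] at hk
    | succ n ih =>
      intro K hn h0 hK hk
      obtain ⟨y, hy, hyK⟩ := Finset.exists_mem_notMem_of_card_lt_card (s := K) (t := S) (by omega)
      obtain ⟨p⟩ := (hS y).1 hy
      obtain ⟨d, -, d1, d2⟩ := p.exists_boundary_dart (K : Set V) h0 hyK
      have hv : d.snd ∉ K := d2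
      have hvS : d.snd ∈ S := (hS _).2 (((hS _).1 (hK d1)).trans d.adj.reachable)
      refine ih (insert d.snd K) (by rw [Finset.card_insert_of_notMem hv]; omega)
        (Finset.mem_insert_of_mem h0) (Finset.insert_subset hvS hK) ?_
      have h1 := B4_step hC d1 d.adj.symm (𝒯.filter fun t => d.snd ∈ t ∧ t ⊆ insert d.snd K)
        fun t ht => ⟨(h t (Finset.mem_filter.1 ht).1).1, (Finset.mem_filter.1 ht).2⟩
      have h2 : (𝒯.filter (· ⊆ insert d.snd K)).card ≤ (𝒯.filter (· ⊆ K)).card +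
          (𝒯.filter fun t => d.snd ∈ t ∧ t ⊆ insert d.snd K).card := by
        refine le_trans (Finset.card_le_card fun t ht => ?_) (Finset.card_union_le _ _)
        obtain ⟨t1, t2⟩ := Finset.mem_filter.1 ht
        by_cases hm : d.snd ∈ t
        · exact Finset.mem_union_right _ (Finset.mem_filter.2 ⟨t1, hm, t2⟩)
        · exact Finset.mem_union_left _
            (Finset.mem_filter.2 ⟨t1, (Finset.subset_insert_iff_of_notMem hm).1 t2⟩)
      rw [ex_insert hv]
      omega
  refine key _ {v₀} rfl (Finset.mem_singleton_self _)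
    (Finset.singleton_subset_iff.2 ((hS _).2 (Reachable.refl _))) ?_
  rw [ex_single, Finset.filter_false_of_mem fun t ht hs => ?_]
  · simp
  · have := Finset.card_le_card hs
    rw [(h t ht).1.card_eq, Finset.card_singleton] at this
    omega

theorem B4_few (hC : Cac G) {j : ℤ} (hF : Few G j) (v₀ : V) (𝒯 : Finset (Finset V))
    (h : ∀ t ∈ 𝒯, G.IsNClique 3 t ∧ ∃ v ∈ t, G.Reachable v₀ v) : 2 * (𝒯.card : ℤ) - 2 ≤ j := by
  have hS : ∀ v, v ∈ (Set.toFinite (Cm G v₀)).toFinset ↔ G.Reachable v₀ v := fun v =>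
    Set.Finite.mem_toFinset _
  refine (ex_tris hC hS 𝒯 fun t ht => ⟨(h t ht).1, fun w hw => (hS w).2 ?_⟩).trans
    (hF _ ⟨v₀, (hS _).2 (Reachable.refl _)⟩ fun u hu v hv => ((hS u).1 hu).symm.trans ((hS v).1 hv))
  obtain ⟨h1, v, hv, hr⟩ := h t ht
  by_cases e : v = w
  · exact e ▸ hr
  · exact hr.trans (h1.isClique hv hw e).reachable

omit [Finite V] in
theorem B4_tr {t : V} (h : ¬ NT G t) : ∃ u v, Tr G t u v := by
  by_contra hn
  exact h fun u v h1 h2 h3 => hn ⟨u, v, h1, h2, h3⟩

theorem nt_of_few (hC : Cac G) (hF : Few G (-1)) (t : V) : NT G t := by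
  classical
  intro u v h1 h2 h3
  have := B4_few hC hF t {{t, u, v}} fun r hr => by
    rw [Finset.mem_singleton.1 hr]
    exact ⟨is3Clique_triple_iff.2 ⟨h1, h2, h3⟩, t, by simp, Reachable.refl _⟩
  simp at this

theorem t1_of_few (hC : Cac G) (ho : One G) (hF : Few G 1) : T1 G := by
  classical
  intro x y z t hT ht
  by_contra hn
  obtain ⟨u, v, hU⟩ := B4_tr ht
  have hne : ({x, y, z} : Finset V) ≠ {t, u, v} := fun e => by
    have : t ∈ ({x, y, z} : Finset V) := by rw [e]; simp
    exact hn (by simpa using this)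
  have := B4_few hC hF x {{x, y, z}, {t, u, v}} fun r hr => by
    rcases Finset.mem_insert.1 hr with rfl | hr
    · exact ⟨is3Clique_triple_iff.2 hT, x, by simp, Reachable.refl _⟩
    · rw [Finset.mem_singleton.1 hr]
      exact ⟨is3Clique_triple_iff.2 hU, t, by simp, ho _ _ _ _ hT.1 hU.1⟩
  rw [Finset.card_pair hne] at this
  simp at this

theorem t2_of_few (hC : Cac G) (ho : One G) (hF : Few G 3) : T2 G := by
  classical
  intro x y z t t' hT ht ht' hn hn'
  by_contra hc
  obtain ⟨u, v, hU⟩ := B4_tr ht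
  obtain ⟨u', v', hU'⟩ := B4_tr ht'
  have h1 : ({x, y, z} : Finset V) ≠ {t, u, v} := fun e => by
    have : t ∈ ({x, y, z} : Finset V) := by rw [e]; simp
    exact hn (by simpa using this)
  have h2 : ({x, y, z} : Finset V) ≠ {t', u', v'} := fun e => by
    have : t' ∈ ({x, y, z} : Finset V) := by rw [e]; simp
    exact hn' (by simpa using this)
  have h3 : ({t, u, v} : Finset V) ≠ {t', u', v'} := fun e => by
    have : t' ∈ ({t, u, v} : Finset V) := by rw [e]; simp
    simp only [Finset.mem_insert, Finset.mem_singleton] at this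
    rcases this with e | e | e
    · exact hc (Or.inl e.symm)
    · exact hc (Or.inr (e ▸ hU.1))
    · exact hc (Or.inr (e ▸ hU.2.1))
  have := B4_few hC hF x {{x, y, z}, {t, u, v}, {t', u', v'}} fun r hr => by
    rcases Finset.mem_insert.1 hr with rfl | hr
    · exact ⟨is3Clique_triple_iff.2 hT, x, by simp, Reachable.refl _⟩
    rcases Finset.mem_insert.1 hr with rfl | hr
    · exact ⟨is3Clique_triple_iff.2 hU, t, by simp, ho _ _ _ _ hT.1 hU.1⟩
    · rw [Finset.mem_singleton.1 hr]
      exact ⟨is3Clique_triple_iff.2 hU', t', by simp, ho _ _ _ _ hT.1 hU'.1⟩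
  rw [Finset.card_eq_three.2 ⟨_, _, _, h1, h2, h3, rfl⟩] at this
  simp at this

end PS
end

-- merged part: Pool.Agent.Work.MP_3e1eec_co.B3
section
/-! Weighted cores.
Plan.  `W1`: take longest paths `x :: A`, `y :: B` from `lp_ex` (they avoid `K` after the start); `A` and `B` are disjoint, otherwise they lie in one region of `del G K` and `Rg_path` gives an ear; glue `A.reverse ++ x :: M ++ y :: B`.
`W0`: induction on `A` generalising `x`: if some later vertex is in `K`, then the next vertex is in `K` (otherwise the part up to the first later vertex of `K` is an ear); if none is, `lp_ge`.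
`TL`: apply `W2` to `x`, `y`.  If `z` is on neither path, `A.reverse ++ x :: z :: y :: B` contradicts `W1`.  If `z ∈ A`, its predecessor and successor are among `x`, `y`, so `A = [z]`. -/

open SimpleGraph

namespace PS
variable {V : Type} {G : SimpleGraph V} [Finite V] {K : Set V} {k : ℕ}

theorem gK_pos (G : SimpleGraph V) (K : Set V) (x : V) : 1 ≤ gK G K x := by
  exact lp_pos G fun h => h.2 rfl

theorem gK_anti {K' : Set V} (h : K ⊆ K') (x : V) : gK G K' x ≤ gK G K x := by
  exact lp_anti G (Set.sdiff_subset_sdiff_left h) x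

theorem B3_ex (G : SimpleGraph V) (K : Set V) (x : V) :
    ∃ A, P G (x :: A) ∧ (∀ v ∈ A, v ∉ K) ∧ A.length + 1 = gK G K x := by
  obtain ⟨A, h1, h2, h3⟩ := lp_ex G (S := K \ {x}) (x := x) fun h => h.2 rfl
  refine ⟨A, h1, fun v hv hK => h2 v (List.mem_cons_of_mem _ hv) ⟨hK, fun e => ?_⟩, h3⟩
  exact h1.notMem (by rw [← Set.mem_singleton_iff.1 e]; exact hv)

theorem B3_ge {x : V} {A : List V} (hP : P G (x :: A)) (hA : ∀ v ∈ A, v ∉ K) :
    A.length + 1 ≤ gK G K x := by
  refine lp_ge hP fun v hv hs => ?_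
  rcases List.mem_cons.1 hv with rfl | hv
  · exact hs.2 rfl
  · exact hA v hv hs.1

omit [Finite V] in
theorem B3_disj (hE : EF G K) {x y : V} (hx : x ∈ K) (hy : y ∈ K) (hne : x ≠ y) {A B : List V}
    (hA : P G (x :: A)) (hB : P G (y :: B)) (hA' : ∀ v ∈ A, v ∉ K) (hB' : ∀ v ∈ B, v ∉ K) :
    A.Disjoint B := by
  intro v h1 h2
  cases A with
  | nil => cases h1
  | cons a A =>
    cases B with
    | nil => cases h2
    | cons b B =>
      have hab : b ∈ Rg G K a :=
        Rg_trans (hA.tail.mem_Rg hA' v h1) (Rg_symm (hB.tail.mem_Rg hB' v h2))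
      have ha : a ∉ K := hA' a List.mem_cons_self
      have key : ∀ C, P G (C ++ [b]) → (∀ u ∈ C ++ [b], u ∉ K) → P G (x :: (C ++ [b])) →
          False := by
        intro C _ hC' hx'
        refine hE x hx y hy (C ++ [b]) (by simp) hC' ?_
        have h3 : P G ((x :: C) ++ b :: y :: []) := by
          refine P.append (A := x :: C) hx' (P.single y) hB.adj.symm fun u hu hu' => ?_
          rw [List.mem_singleton.1 hu'] at hu
          rcases List.mem_cons.1 hu with e | hu
          · exact hne e.symm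
          · exact hC' y hu hy
        simpa using h3
      by_cases e : a = b
      · subst e
        refine key [] (P.single a) (by simpa using ha) ?_
        exact (P.single a).cons hA.adj (by simpa using hA.adj.ne)
      · obtain ⟨C, hC, hC'⟩ := Rg_path ha hab e
        exact key (a :: C) hC hC' (hC.cons hA.adj fun hm => hC' x hm hx)

omit [Finite V] in
theorem B3_last (y : V) (B : List V) :
    ∃ M, y :: B = M ++ [B.getLastD y] ∧ M.length = B.length := by
  induction B generalizing y with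
  | nil => exact ⟨[], rfl, rfl⟩
  | cons t B ih =>
    obtain ⟨M, h1, h2⟩ := ih t
    refine ⟨y :: M, ?_, by simp [h2]⟩
    rw [List.getLastD_cons, List.cons_append, ← h1]

omit [Finite V] in
theorem B3_first {l : List V} (h : ∃ v ∈ l, v ∈ K) :
    ∃ L v R, l = L ++ v :: R ∧ (∀ u ∈ L, u ∉ K) ∧ v ∈ K := by
  induction l with
  | nil => obtain ⟨v, hv, -⟩ := h; cases hv
  | cons t l ih =>
    by_cases ht : t ∈ K
    · exact ⟨[], t, l, rfl, by simp, ht⟩
    obtain ⟨v, hv, hv'⟩ := h
    rcases List.mem_cons.1 hv with rfl | hv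
    · exact absurd hv' ht
    obtain ⟨L, w, R, e, h1, h2⟩ := ih ⟨v, hv, hv'⟩
    refine ⟨t :: L, w, R, by rw [e]; rfl, fun u hu => ?_, h2⟩
    rcases List.mem_cons.1 hu with rfl | hu
    · exact ht
    · exact h1 u hu

theorem W1 (hE : EF G K) (hk : PF k G) {x y : V} {M : List V} (hP : P G (x :: (M ++ [y])))
    (hK : ∀ v ∈ x :: (M ++ [y]), v ∈ K) : gK G K x + M.length + gK G K y < k := by
  obtain ⟨A, hA, hA', eA⟩ := B3_ex G K x
  obtain ⟨B, hB, hB', eB⟩ := B3_ex G K y
  have hx : x ∈ K := hK x List.mem_cons_self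
  have hy : y ∈ K := hK y (by simp)
  have hne : x ≠ y := fun e => hP.notMem (by simp [e])
  have h1 : P G ((x :: M) ++ y :: B) := by
    refine P.glue (A := x :: M) hP hB fun v hv hv' => hB' v hv' (hK v ?_)
    rcases List.mem_cons.1 hv with rfl | hv
    · exact List.mem_cons_self
    · exact List.mem_cons_of_mem _ (List.mem_append_left _ hv)
  have h2 : A.Disjoint (M ++ y :: B) := by
    intro v hv hv'
    rcases List.mem_append.1 hv' with hv' | hv'
    · exact hA' v hv (hK v (List.mem_cons_of_mem _ (List.mem_append_left _ hv')))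
    rcases List.mem_cons.1 hv' with rfl | hv'
    · exact hA' v hv hy
    · exact B3_disj hE hx hy hne hA hB hA' hB' hv hv'
  have := hk.join0 hA h1 h2
  simp only [List.append_eq, List.length_append, List.length_cons] at this
  omega

/-- `W1` with the last vertex written as `getLastD`. -/
theorem W1' (hE : EF G K) (hk : PF k G) {x y : V} {B : List V} (hP : P G (x :: y :: B))
    (hK : ∀ v ∈ x :: y :: B, v ∈ K) : gK G K x + B.length + gK G K (B.getLastD y) < k := by
  obtain ⟨M, h1, h2⟩ := B3_last y B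
  rw [h1] at hP hK
  have := W1 hE hk hP hK
  omega

theorem W0 (hE : EF G K) {x : V} {A : List V} (hx : x ∈ K) (hP : P G (x :: A)) :
    ∃ A', A' <+: A ∧ (∀ v ∈ A', v ∈ K) ∧ A.length + 1 ≤ A'.length + gK G K (A'.getLastD x) := by
  induction A generalizing x with
  | nil => exact ⟨[], ⟨[], rfl⟩, by simp, by simpa using gK_pos G K x⟩
  | cons t A ih =>
    by_cases h : ∃ v ∈ t :: A, v ∈ K
    · have ht : t ∈ K := by
        by_contra ht
        obtain ⟨L, v, R, e, h1, h2⟩ := B3_first h
        refine hE x hx v h2 L ?_ h1 ?_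
        · rintro rfl
          rw [List.nil_append, List.cons.injEq] at e
          exact ht (e.1 ▸ h2)
        · rw [e] at hP
          have e' : x :: (L ++ v :: R) = (x :: (L ++ [v])) ++ R := by simp
          rw [e'] at hP
          exact hP.left
      obtain ⟨A', ⟨R, e⟩, h1, h2⟩ := ih ht hP.tail
      refine ⟨t :: A', ⟨R, by rw [← e]; rfl⟩, fun v hv => ?_, ?_⟩
      · rcases List.mem_cons.1 hv with rfl | hv
        · exact ht
        · exact h1 v hv
      · rw [List.getLastD_cons]
        simp only [List.length_cons]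
        omega
    · refine ⟨[], ⟨t :: A, rfl⟩, by simp, ?_⟩
      have := B3_ge (K := K) hP fun v hv hv' => h ⟨v, hv, hv'⟩
      simpa using this

theorem W2 (hE : EF G K) {x y : V} (hx : x ∈ K) (hy : y ∈ K) (h : Cr k G x y) :
    ∃ A B, P G (x :: A) ∧ P G (y :: B) ∧ (x :: A).Disjoint (y :: B) ∧ (∀ v ∈ A, v ∈ K) ∧
      (∀ v ∈ B, v ∈ K) ∧
      k ≤ A.length + gK G K (A.getLastD x) + B.length + gK G K (B.getLastD y) := by
  obtain ⟨A, B, hA, hB, hd, hk⟩ := h
  obtain ⟨A', ⟨R, rfl⟩, h1, h2⟩ := W0 hE hx hA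
  obtain ⟨B', ⟨S, rfl⟩, h3, h4⟩ := W0 hE hy hB
  refine ⟨A', B', P.left (A := x :: A') hA, P.left (A := y :: B') hB, fun v hv hv' => ?_,
    h1, h3, by omega⟩
  exact hd (List.mem_append_left (as := x :: A') R hv) (List.mem_append_left (as := y :: B') S hv')

omit [Finite V] in
theorem B3_one {z x y : V} {A B : List V} (hx : x ∈ K)
    (ho : ∀ u ∈ K, G.Adj z u → u = x ∨ u = y) (hA : P G (x :: A))
    (hd : (x :: A).Disjoint (y :: B)) (hK : ∀ v ∈ A, v ∈ K) (hz : z ∈ A) : A = [z] := by
  obtain ⟨L, R, rfl⟩ := List.append_of_mem hz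
  have hy : y ∉ x :: (L ++ z :: R) := fun hm => hd hm List.mem_cons_self
  have hL : L = [] := by
    rcases List.eq_nil_or_concat L with h | ⟨L', p, rfl⟩
    · exact h
    exfalso
    have e : x :: (L'.concat p ++ z :: R) = (x :: L') ++ p :: z :: R := by simp
    have hp : p ∈ L'.concat p ++ z :: R := by simp
    have ha : G.Adj p z := by
      rw [e] at hA
      exact hA.mid
    rcases ho p (hK p hp) ha.symm with rfl | rfl
    · exact hA.notMem hp
    · exact hy (List.mem_cons_of_mem _ hp)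
  subst hL
  cases R with
  | nil => rfl
  | cons t R =>
    exfalso
    have ht : t ∈ [] ++ z :: t :: R := by simp
    have ha : G.Adj z t := hA.tail.adj
    rcases ho t (hK t ht) ha with rfl | rfl
    · exact hA.notMem ht
    · exact hy (List.mem_cons_of_mem _ ht)

theorem TL (hE : EF G K) (hD : D2 k G) {z x y : V} (hz : z ∈ K) (hx : x ∈ K) (hy : y ∈ K)
    (h1 : G.Adj z x) (h2 : G.Adj z y) (hne : x ≠ y) (hn : ¬ G.Adj x y)
    (ho : ∀ u ∈ K, G.Adj z u → u = x ∨ u = y) : TT k G K z x y ∨ TT k G K z y x := by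
  obtain ⟨A, B, hA, hB, hd, hA', hB', hk⟩ := W2 hE hx hy (hD.2 z x y h1 h2 hne hn)
  by_cases hzA : z ∈ A
  · obtain rfl := B3_one hx ho hA hd hA' hzA
    refine Or.inl ⟨B, hB.cons h2 fun hm => hd (by simp) hm, hB',
      fun hm => hd List.mem_cons_self (List.mem_cons_of_mem _ hm), ?_⟩
    simp only [List.length_cons, List.length_nil, List.getLastD_cons, List.getLastD_nil] at hk
    omega
  by_cases hzB : z ∈ B
  · obtain rfl := B3_one hy (fun u hu ha => (ho u hu ha).symm) hB hd.symm hB' hzB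
    refine Or.inr ⟨A, hA.cons h1 fun hm => hd hm (by simp), hA',
      fun hm => hd (List.mem_cons_of_mem _ hm) List.mem_cons_self, ?_⟩
    simp only [List.length_cons, List.length_nil, List.getLastD_cons, List.getLastD_nil] at hk
    omega
  exfalso
  have hzB' : z ∉ y :: B := fun hm => (List.mem_cons.1 hm).elim h2.ne hzB
  have hzA' : z ∉ x :: A := fun hm => (List.mem_cons.1 hm).elim h1.ne hzA
  have h3 : P G (A.reverse ++ x :: z :: y :: B) := by
    refine hA.join (hB.cons h2 hzB') h1.symm fun v hv hv' => ?_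
    rcases List.mem_cons.1 hv' with rfl | hv'
    · exact hzA' hv
    · exact hd hv hv'
  have h4 : ∀ v ∈ A.reverse ++ x :: z :: y :: B, v ∈ K := by
    intro v hv
    simp only [List.mem_append, List.mem_reverse, List.mem_cons] at hv
    rcases hv with hv | rfl | rfl | rfl | hv
    · exact hA' v hv
    · exact hx
    · exact hz
    · exact hy
    · exact hB' v hv
  obtain ⟨M, e1, l1⟩ := B3_last x A
  obtain ⟨N, e2, l2⟩ := B3_last y B
  have e3 : A.reverse ++ [x] = A.getLastD x :: M.reverse := by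
    have := congrArg List.reverse e1
    simpa using this
  have e4 : A.reverse ++ x :: z :: y :: B =
      A.getLastD x :: ((M.reverse ++ z :: N) ++ [B.getLastD y]) := by
    have : A.reverse ++ x :: z :: y :: B = (A.reverse ++ [x]) ++ z :: y :: B := by simp
    rw [this, e3, e2]
    simp
  rw [e4] at h3 h4
  have := W1 hE hD.1 h3 h4
  simp only [List.length_append, List.length_reverse, List.length_cons] at this
  omega

theorem TT.lt (hE : EF G K) (hk : PF k G) {z x y : V} (hz : z ∈ K) (hx : x ∈ K) (hy : y ∈ K)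
    (h1 : G.Adj z x) (hne : x ≠ y) (h : TT k G K z x y) : gK G K x < gK G K z := by
  obtain ⟨B, hP, hB, hxB, hle⟩ := h
  have h3 : P G (x :: z :: y :: B) := by
    refine hP.cons h1.symm fun hm => ?_
    simp only [List.mem_cons] at hm
    rcases hm with hm | hm | hm
    · exact h1.ne' hm
    · exact hne hm
    · exact hxB hm
  have h4 : ∀ v ∈ x :: z :: y :: B, v ∈ K := by
    intro v hv
    simp only [List.mem_cons] at hv
    rcases hv with rfl | rfl | rfl | hv
    · exact hx
    · exact hz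
    · exact hy
    · exact hB v hv
  have := W1' hE hk h3 h4
  rw [List.getLastD_cons] at this
  simp only [List.length_cons] at this
  omega

end PS
end

-- merged part: Pool.Agent.Work.MP_3e1eec_co.Th0
section
/-! A theta subgraph uses up the excess.
Plan.  `K` is finite; put `F = K.toFinset`.  Inner vertices of the three paths have two neighbours in `K`, and `p`, `q` have three (`X.headD q`, `Y.headD q`, `Z.headD q` are different), so `ex G F ≥ 2`, and `≥ 3` if some vertex has one more neighbour.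
`Th.ef`, `Th.ef'`: `Few.ef`, `ex_insert`. -/

open SimpleGraph

namespace PS
variable {V : Type} {G : SimpleGraph V} {K : Set V} {p q : V} {X Y Z : List V}

theorem Th0_rev {L : List V} (h : P G (p :: (L ++ [q]))) : P G (q :: (L.reverse ++ [p])) := by
  have := h.reverse
  simpa using this

theorem Th.swap (h : Th G K p q X Y Z) : Th G K q p X.reverse Y.reverse Z.reverse := by
  refine ⟨Th0_rev h.px, Th0_rev h.py, Th0_rev h.pz, ?_, ?_, ?_, ?_, ?_⟩
  · exact fun v h1 h2 => h.xy (List.mem_reverse.1 h1) (List.mem_reverse.1 h2)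
  · exact fun v h1 h2 => h.xz (List.mem_reverse.1 h1) (List.mem_reverse.1 h2)
  · exact fun v h1 h2 => h.yz (List.mem_reverse.1 h1) (List.mem_reverse.1 h2)
  · simpa only [ne_eq, List.reverse_eq_nil_iff] using h.ne
  · intro v
    rw [h.mem v]
    simp only [List.mem_reverse]
    (clear * -; grind)

theorem Th.p1 (h : Th G K p q X Y Z) : Th G K p q Y X Z := by
  refine ⟨h.py, h.px, h.pz, h.xy.symm, h.yz, h.xz, ⟨h.ne.1.symm, h.ne.2.2, h.ne.2.1⟩, ?_⟩
  intro v
  rw [h.mem v]
  (clear * -; grind)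

theorem Th.p2 (h : Th G K p q X Y Z) : Th G K p q X Z Y := by
  refine ⟨h.px, h.pz, h.py, h.xz, h.xy, h.yz.symm, ⟨h.ne.2.1, h.ne.1, h.ne.2.2.symm⟩, ?_⟩
  intro v
  rw [h.mem v]
  (clear * -; grind)

theorem Th0_split {z : V} (hz : z ∈ Z) :
    ∃ A B x y, p :: (Z ++ [q]) = A ++ x :: z :: y :: B := by
  obtain ⟨C, D, rfl⟩ := List.append_of_mem hz
  obtain ⟨A, x, hA⟩ : ∃ A x, p :: C = A ++ [x] := by
    rcases List.eq_nil_or_concat' (p :: C) with h | ⟨A, x, h⟩
    · cases h
    · exact ⟨A, x, h⟩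
  obtain ⟨y, B, hB⟩ : ∃ y B, D ++ [q] = y :: B := by
    cases D with
    | nil => exact ⟨q, [], rfl⟩
    | cons y D => exact ⟨y, D ++ [q], rfl⟩
  refine ⟨A, B, x, y, ?_⟩
  have e : p :: (C ++ z :: D ++ [q]) = (p :: C) ++ z :: (D ++ [q]) := by simp
  rw [e, hA, hB]
  simp

theorem Th0_mid {A B : List V} {x z y : V} (h : P G (A ++ x :: z :: y :: B)) :
    G.Adj z x ∧ G.Adj z y ∧ x ≠ y := by
  have h1 := h.right
  refine ⟨h1.adj.symm, h1.tail.adj, fun e => h1.notMem ?_⟩
  rw [e]
  simp

theorem Th0_zK (h : Th G K p q X Y Z) : ∀ v ∈ p :: (Z ++ [q]), v ∈ K := by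
  intro v hv
  rw [h.mem v]
  simp only [List.mem_cons, List.mem_append, List.not_mem_nil, or_false] at hv
  tauto

theorem Th0_head (h : P G (p :: (X ++ [q]))) : G.Adj p (X.headD q) := by
  cases X with
  | nil => exact h.adj
  | cons x X => exact h.adj

theorem Th0_headK (h : Th G K p q X Y Z) : Z.headD q ∈ K := by
  refine Th0_zK h _ (List.mem_cons_of_mem _ ?_)
  cases Z with
  | nil => simp
  | cons x Z => simp

theorem Th0_qn (h : P G (p :: (X ++ [q]))) : q ∉ X := fun hq =>
  h.tail.disj hq (List.mem_singleton_self q)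

theorem Th0_hne (hx : P G (p :: (X ++ [q]))) (hy : P G (p :: (Y ++ [q]))) (hd : X.Disjoint Y)
    (hn : X ≠ [] ∨ Y ≠ []) : X.headD q ≠ Y.headD q := by
  intro e
  cases X with
  | nil =>
    cases Y with
    | nil => simp at hn
    | cons y Y =>
      have e' : q = y := e
      exact Th0_qn hy (e' ▸ List.mem_cons_self)
  | cons x X =>
    cases Y with
    | nil =>
      have e' : x = q := e
      exact Th0_qn hx (e' ▸ List.mem_cons_self)
    | cons y Y =>
      have e' : x = y := e
      exact hd List.mem_cons_self (e' ▸ List.mem_cons_self)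

theorem Th0_pq (h : Th G K p q X Y Z) : p ≠ q := fun e => h.px.notMem (by rw [e]; simp)

theorem Th0_p3 [Finite V] (h : Th G K p q X Y Z) : 3 ≤ dg G K p :=
  three_le_dg (Th0_headK h.p1.p2) (Th0_headK h.p2) (Th0_headK h) (Th0_head h.px) (Th0_head h.py)
    (Th0_head h.pz) (Th0_hne h.px h.py h.xy h.ne.1) (Th0_hne h.px h.pz h.xz h.ne.2.1)
    (Th0_hne h.py h.pz h.yz h.ne.2.2)

theorem Th0_z2 [Finite V] (h : Th G K p q X Y Z) {z : V} (hz : z ∈ Z) : 2 ≤ dg G K z := by
  obtain ⟨A, B, x, y, e⟩ := Th0_split (p := p) (q := q) hz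
  have hP := h.pz
  have hK := Th0_zK h
  rw [e] at hP hK
  obtain ⟨h1, h2, h3⟩ := Th0_mid hP
  exact two_le_dg (hK x (by simp)) (hK y (by simp)) h1 h2 h3

theorem Th0_two [Finite V] (h : Th G K p q X Y Z) : ∀ v ∈ K, 2 ≤ dg G K v := by
  intro v hv
  rcases (h.mem v).1 hv with rfl | rfl | hv | hv | hv
  · exact (Nat.le_succ 2).trans (Th0_p3 h)
  · exact (Nat.le_succ 2).trans (Th0_p3 h.swap)
  · exact Th0_z2 h.p1.p2 hv
  · exact Th0_z2 h.p2 hv
  · exact Th0_z2 h hv

theorem Th0_reach (h : Th G K p q X Y Z) : ∀ v ∈ K, G.Reachable p v := by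
  intro v hv
  rcases (h.mem v).1 hv with rfl | rfl | hv | hv | hv
  · rfl
  · exact h.px.reach _ (by simp)
  · exact h.px.reach _ (by simp [hv])
  · exact h.py.reach _ (by simp [hv])
  · exact h.pz.reach _ (by simp [hv])

theorem Th0_sum [Finite V] (h : Th G K p q X Y Z) {F : Finset V} (hF : (F : Set V) = K)
    {T : Finset V} (hT : ∀ v ∈ T, v ∈ K) : ∑ v ∈ T, ((dg G K v : ℤ) - 2) ≤ ex G F := by
  rw [ex, hF]
  refine Finset.sum_le_sum_of_subset_of_nonneg (fun v hv => ?_) fun v hv _ => ?_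
  · rw [← Finset.mem_coe, hF]
    exact hT v hv
  · rw [← Finset.mem_coe, hF] at hv
    have := Th0_two h v hv
    omega

theorem Th0_pK (h : Th G K p q X Y Z) : p ∈ K := (h.mem p).2 (Or.inl rfl)

theorem Th0_qK (h : Th G K p q X Y Z) : q ∈ K := (h.mem q).2 (Or.inr (Or.inl rfl))

theorem Th0_ex2 [Finite V] (h : Th G K p q X Y Z) {F : Finset V} (hF : (F : Set V) = K) :
    (dg G K p : ℤ) + dg G K q - 4 ≤ ex G F := by
  classical
  have := Th0_sum h hF (T := {p, q}) (by
    intro v hv
    rcases Finset.mem_insert.1 hv with rfl | hv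
    · exact Th0_pK h
    · rw [Finset.mem_singleton.1 hv]; exact Th0_qK h)
  rw [Finset.sum_pair (Th0_pq h)] at this
  omega

theorem Th0_ex3 [Finite V] (h : Th G K p q X Y Z) {F : Finset V} (hF : (F : Set V) = K) {z : V}
    (hz : z ∈ K) (hp : z ≠ p) (hq : z ≠ q) :
    (dg G K z : ℤ) + dg G K p + dg G K q - 6 ≤ ex G F := by
  classical
  have := Th0_sum h hF (T := insert z {p, q}) (by
    intro v hv
    rcases Finset.mem_insert.1 hv with rfl | hv
    · exact hz
    rcases Finset.mem_insert.1 hv with rfl | hv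
    · exact Th0_pK h
    · rw [Finset.mem_singleton.1 hv]; exact Th0_qK h)
  rw [Finset.sum_insert (by simp [hp, hq]), Finset.sum_pair (Th0_pq h)] at this
  omega

theorem Th0_rF (h : Th G K p q X Y Z) {F : Finset V} (hF : (F : Set V) = K) :
    ∀ u ∈ F, ∀ v ∈ F, G.Reachable u v := by
  intro u hu v hv
  rw [← Finset.mem_coe, hF] at hu hv
  exact (Th0_reach h u hu).symm.trans (Th0_reach h v hv)

theorem Th0_le (h : Th G K p q X Y Z) (hF : Few G 2) {F : Finset V} (e : (F : Set V) = K) :
    ex G F ≤ 2 :=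
  hF F ⟨p, by rw [← Finset.mem_coe, e]; exact Th0_pK h⟩ (Th0_rF h e)

theorem Th0_fin [Finite V] (K : Set V) : ∃ F : Finset V, (F : Set V) = K :=
  ⟨(Set.toFinite K).toFinset, Set.Finite.coe_toFinset _⟩

theorem Th0_tl {L A R : List V} {x z : V} (e : p :: L = A ++ x :: z :: R) : z ∈ L := by
  cases A with
  | nil =>
    obtain ⟨-, rfl⟩ := List.cons.inj e
    exact List.mem_cons_self
  | cons a A =>
    obtain ⟨-, rfl⟩ := List.cons.inj e
    simp

theorem Th0_in {L C B : List V} {z y : V} (e : L ++ [q] = C ++ z :: y :: B) : z ∈ L := by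
  rcases List.eq_nil_or_concat' (y :: B) with h | ⟨D, t, h⟩
  · cases h
  · have e' : L ++ [q] = (C ++ z :: D) ++ [t] := by rw [e, h]; simp
    rw [(List.append_inj' e' rfl).1]
    simp

theorem Th.nb [Finite V] (h : Th G K p q X Y Z) (hF : Few G 2) {A B : List V} {x z y : V}
    (e : p :: (Z ++ [q]) = A ++ x :: z :: y :: B) : ∀ u ∈ K, G.Adj z u → u = x ∨ u = y := by
  intro u hu ha
  by_contra hc
  rw [not_or] at hc
  obtain ⟨F, hFK⟩ := Th0_fin K
  have hp : z ≠ p := fun e' => h.pz.notMem (e' ▸ Th0_tl e)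
  have hq : z ≠ q := by
    intro e'
    have e2 : (p :: Z) ++ [q] = (A ++ [x]) ++ z :: y :: B := by
      rw [List.cons_append, e]
      simp
    exact P.disj (A := p :: Z) (B := [q]) h.pz (Th0_in e2) (List.mem_singleton.2 e')
  have hP := h.pz
  have hK := Th0_zK h
  rw [e] at hP hK
  obtain ⟨h1, h2, h3⟩ := Th0_mid hP
  have h4 := three_le_dg (hK x (by simp)) (hK y (by simp)) hu h1 h2 ha h3 (Ne.symm hc.1)
    (Ne.symm hc.2)
  have h5 := Th0_ex3 h hFK (hK z (by simp)) hp hq
  have h6 := Th0_le h hF hFK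
  have h7 := Th0_p3 h
  have h8 := Th0_p3 h.swap
  omega

theorem Th.nbp [Finite V] (h : Th G K p q X Y Z) (hF : Few G 2) :
    ∀ u ∈ K, G.Adj p u → u = X.headD q ∨ u = Y.headD q ∨ u = Z.headD q := by
  intro u hu ha
  by_contra hc
  rw [not_or, not_or] at hc
  obtain ⟨F, hFK⟩ := Th0_fin K
  have h4 := four_le_dg (Th0_headK h.p1.p2) (Th0_headK h.p2) (Th0_headK h) hu (Th0_head h.px)
    (Th0_head h.py) (Th0_head h.pz) ha (Th0_hne h.px h.py h.xy h.ne.1)
    (Th0_hne h.px h.pz h.xz h.ne.2.1) (Th0_hne h.py h.pz h.yz h.ne.2.2) (Ne.symm hc.1)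
    (Ne.symm hc.2.1) (Ne.symm hc.2.2)
  have h5 := Th0_ex2 h hFK
  have h6 := Th0_le h hF hFK
  have h8 := Th0_p3 h.swap
  omega

theorem Th.ef [Finite V] (h : Th G K p q X Y Z) (hF : Few G 2) : EF G K := by
  obtain ⟨F, hFK⟩ := Th0_fin K
  have h5 := Th0_ex2 h hFK
  have h7 := Th0_p3 h
  have h8 := Th0_p3 h.swap
  have := hF.ef (Th0_rF h hFK) (by omega)
  rwa [hFK] at this

theorem Th.ef' [Finite V] (h : Th G K p q X Y Z) (hF : Few G 2) {t : V} (ht : t ∉ K)
    (ha : G.Adj p t) : EF G (insert t K) ∧ ∀ u ∈ K, G.Adj t u → u = p := by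
  classical
  obtain ⟨F, hFK⟩ := Th0_fin K
  have h5 := Th0_ex2 h hFK
  have h7 := Th0_p3 h
  have h8 := Th0_p3 h.swap
  have htF : t ∉ F := by rw [← Finset.mem_coe, hFK]; exact ht
  have hi := ex_insert (G := G) htF
  rw [hFK] at hi
  have hr0 : ∀ v ∈ insert t F, G.Reachable p v := by
    intro v hv
    rcases Finset.mem_insert.1 hv with rfl | hv
    · exact ha.reachable
    · rw [← Finset.mem_coe, hFK] at hv
      exact Th0_reach h v hv
  have hr : ∀ u ∈ insert t F, ∀ v ∈ insert t F, G.Reachable u v := fun u hu v hv =>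
    (hr0 u hu).symm.trans (hr0 v hv)
  have h1 : 1 ≤ dg G K t := by
    have := le_dg (G := G) (K := K) (v := t) {p} (by
      intro u hu
      rw [Finset.mem_singleton.1 hu]
      exact ⟨Th0_pK h, ha.symm⟩)
    rwa [Finset.card_singleton] at this
  have h6 := hF _ (Finset.insert_nonempty t F) hr
  constructor
  · have := hF.ef hr (by omega)
    rwa [Finset.coe_insert, hFK] at this
  · intro u hu hu'
    by_contra hc
    have := two_le_dg hu (Th0_pK h) hu' ha.symm hc
    omega

end PS
end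

-- merged part: Pool.Agent.Work.MP_3e1eec_co.Th1
section
/-! The key case of the theta exclusion.  Write `g = gK G K`.  `z` is the first vertex of the path `Z`, the long path `Q = z :: y :: B` avoids `p`, and `g z` is least on the paths which are not of the form `[w]` with `p` adjacent to `q`.
Plan.  Every path in `K` from a vertex `u` of such a path to the last vertex of `Q` with more vertices than `Q` gives `g u < g z` by `W1`, a contradiction.
By `Th.nb`, `Th.swap.nbp`, `Q` is an initial part of `Z ++ q :: X.reverse` or of `Z ++ q :: Y.reverse` (forced walk, induction along the list); by `Th.p1` assume the first.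
If `Y = y₁ :: _` is not of the excluded form use `y₁ :: p :: Q`.  If `Y = [w]` and `p` is adjacent to `q` then `X = []` (`Th.nbp`).  If `Y = []` and the head `x₁` of `X` is not on `Q`, use `x₁ :: p :: Q`, or `X = [w]`.
If `Y = []` and `Q = Z ++ q :: X.reverse`: for `X = [w]` use `Z ++ [q, p, w]`; for `X = x₁ :: x₂ :: X'` use `x₂ :: X' ++ q :: Z.reverse ++ [p, x₁]`.
Remaining case: `p, w, q` is a triangle, `w` is not on `Q`, `Q` is an initial part of `Z ++ [q]`: if `Q = Z ++ [q]` use `Z.reverse ++ [p, w, q]`; if `Q = Z` use `Z.dropLast.reverse ++ [p, w, q, last]`; if `Z = Q ++ u :: R` use `u :: R ++ [q, w, p] ++ Q`. -/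

open SimpleGraph

namespace PS
variable {V : Type} {G : SimpleGraph V} [Finite V] {K : Set V} {p q : V} {X Y : List V} {k : ℕ}

/-- Number of occurrences. -/
noncomputable def Th1_c {V : Type} (a : V) (l : List V) : ℕ :=
  @List.count V (@instBEqOfDecidableEq V (Classical.decEq V)) a l

noncomputable def Th1_i {V : Type} (a x : V) : ℕ := Th1_c a [x]

theorem Th1_nil {V : Type} (a : V) : Th1_c a [] = 0 := rfl

theorem Th1_app {V : Type} (a : V) (l l' : List V) :
    Th1_c a (l ++ l') = Th1_c a l + Th1_c a l' := by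
  unfold Th1_c
  exact @List.count_append V (@instBEqOfDecidableEq V (Classical.decEq V)) a l l'

theorem Th1_cons {V : Type} (a x : V) (l : List V) :
    Th1_c a (x :: l) = Th1_i a x + Th1_c a l := Th1_app a [x] l

theorem Th1_rev {V : Type} (a : V) (l : List V) : Th1_c a l.reverse = Th1_c a l := by
  unfold Th1_c
  exact @List.count_reverse V (@instBEqOfDecidableEq V (Classical.decEq V)) a l

theorem Th1_nodup {V : Type} {l : List V} : l.Nodup ↔ ∀ a, Th1_c a l ≤ 1 := by
  let _ := Classical.decEq V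
  exact List.nodup_iff_count_le_one

theorem Th1_mem {V : Type} {l : List V} {a : V} : a ∈ l ↔ 0 < Th1_c a l := by
  let _ := Classical.decEq V
  exact List.count_pos_iff.symm

theorem Th1_all {V : Type} {G : SimpleGraph V} {K : Set V} {p q : V} {X Y Z : List V}
    (h : Th G K p q X Y Z) : (p :: q :: (X ++ (Y ++ Z))).Nodup := by
  have h1 := h.px.1
  have h2 := h.py.1
  have h3 := h.pz.1
  have h4 := h.xy
  have h5 := h.xz
  have h6 := h.yz
  simp only [List.nodup_cons, List.nodup_append, List.mem_append, List.mem_cons, List.not_mem_nil,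
    or_false, not_or, List.disjoint_left] at h1 h2 h3 h4 h5 h6 ⊢
  refine ⟨⟨h1.1.2, h1.1.1, h2.1.1, h3.1.1⟩, ⟨fun hq => h1.2.2.2 q hq q rfl rfl,
    fun hq => h2.2.2.2 q hq q rfl rfl, fun hq => h3.2.2.2 q hq q rfl rfl⟩, h1.2.1,
    ⟨h2.2.1, h3.2.1, ?_⟩, ?_⟩
  · rintro a ha b hb rfl
    exact h6 ha hb
  · rintro a ha b (hb | hb) rfl
    · exact h4 ha hb
    · exact h5 ha hb

theorem Th1_last {V : Type} {l L : List V} {a : V} (h : l <+: L ++ [a]) :
    l = L ++ [a] ∨ l <+: L := by
  obtain ⟨t, e⟩ := h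
  rcases List.eq_nil_or_concat' t with rfl | ⟨t, b, rfl⟩
  · exact Or.inl (by simpa using e)
  · rw [← List.append_assoc] at e
    exact Or.inr ⟨t, (List.append_inj' e rfl).1⟩

theorem Th1_pc {V : Type} {l L : List V} (a : V) (h : l <+: L) : a :: l <+: a :: L := by
  obtain ⟨t, rfl⟩ := h
  exact ⟨t, rfl⟩

/-- A walk along vertices with two neighbours is forced. -/
theorem Th1_walk {V : Type} {G : SimpleGraph V} {K : Set V} (R : List V) :
    ∀ (a b : V) (C : List V),
      (∀ A x w y B, a :: b :: R = A ++ x :: w :: y :: B → ∀ u ∈ K, G.Adj w u → u = x ∨ u = y) →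
      P G (b :: C) → a ∉ C → (∀ v ∈ C, v ∈ K) → C <+: R ∨ R <+: C := by
  induction R with
  | nil => exact fun _ _ _ _ _ _ _ => Or.inr ⟨_, rfl⟩
  | cons c R ih =>
    intro a b C H hP ha hK
    cases C with
    | nil => exact Or.inl ⟨_, rfl⟩
    | cons d C =>
      obtain rfl : d = c := (H [] a b c R rfl d (hK d List.mem_cons_self) hP.adj).resolve_left
        fun e => ha (e ▸ List.mem_cons_self)
      have := ih b d C (fun A x w y B e => H (a :: A) x w y B (by rw [e]; rfl)) hP.tail
        (fun hb => hP.notMem (List.mem_cons_of_mem _ hb))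
        fun v hv => hK v (List.mem_cons_of_mem _ hv)
      exact this.imp (Th1_pc d) (Th1_pc d)

theorem Th1_side {Z D : List V} {d : V} (h : Th G K q p Y Z X) (hF : Few G 2)
    (hP : P G (q :: d :: D)) (hp : p ∉ d :: D) (hK : ∀ v ∈ D, v ∈ K) (hd : d = X.headD p) :
    d :: D <+: X := by
  cases X with
  | nil => exact absurd (hd ▸ List.mem_cons_self) hp
  | cons x X =>
    obtain rfl : d = x := hd
    have hp' : p ∉ D := fun e => hp (List.mem_cons_of_mem _ e)
    rcases Th1_walk (X ++ [p]) q d D (fun A x w y B e => h.nb hF e) hP.tail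
      (fun e => hP.notMem (List.mem_cons_of_mem _ e)) hK with h1 | h1
    · rcases Th1_last h1 with h2 | h2
      · exact absurd (by simp [h2]) hp'
      · exact Th1_pc d h2
    · exact absurd (h1.subset (by simp)) hp'

theorem Th1_forced {z : V} {Z' C : List V} (h : Th G K p q X Y (z :: Z')) (hF : Few G 2)
    (hP : P G (z :: C)) (hp : p ∉ C) (hK : ∀ v ∈ C, v ∈ K) :
    C <+: Z' ++ q :: X.reverse ∨ C <+: Z' ++ q :: Y.reverse := by
  rcases Th1_walk (Z' ++ [q]) p z C (fun A x w y B e => h.nb hF e) hP hp hK with h1 | ⟨D, rfl⟩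
  · exact Or.inl (h1.trans ⟨X.reverse, by simp⟩)
  cases D with
  | nil => exact Or.inl ⟨X.reverse, by simp⟩
  | cons d D =>
    have e : z :: (Z' ++ [q] ++ d :: D) = (z :: Z') ++ q :: d :: D := by simp
    rw [e] at hP
    have h2 : p ∉ d :: D := fun hm => hp (List.mem_append_right _ hm)
    have h3 : ∀ v ∈ D, v ∈ K := fun v hv => hK v (by simp [hv])
    have key : ∀ W : List V, d :: D <+: W → Z' ++ [q] ++ d :: D <+: Z' ++ q :: W := by
      rintro W ⟨R, rfl⟩
      exact ⟨R, by simp⟩
    rcases h.swap.nbp hF d (hK d (by simp)) hP.right.adj with h4 | h4 | h4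
    · exact Or.inl (key _ (Th1_side h.swap.p1.p2 hF hP.right h2 h3 h4))
    · exact Or.inr (key _ (Th1_side h.swap.p2 hF hP.right h2 h3 h4))
    · have h5 : d ∈ (z :: Z').reverse := by
        cases e' : (z :: Z').reverse with
        | nil => simp at e'
        | cons t T =>
          rw [e'] at h4
          exact h4 ▸ List.mem_cons_self
      exact absurd (by simp) (hP.disj (List.mem_reverse.1 h5))

theorem Th1_main {z y : V} {Z' B : List V} (h : Th G K p q X Y (z :: Z')) (hF : Few G 2)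
    (hk : PF k G) (hP : P G (z :: y :: B))
    (hB : k ≤ gK G K z + B.length + gK G K (B.getLastD y) + 1)
    (hQ : y :: B <+: Z' ++ q :: X.reverse)
    (mZ : ∀ u ∈ Z', gK G K z ≤ gK G K u)
    (mX : ¬ (X.length = 1 ∧ G.Adj p q) → ∀ u ∈ X, gK G K z ≤ gK G K u)
    (mY : ¬ (Y.length = 1 ∧ G.Adj p q) → ∀ u ∈ Y, gK G K z ≤ gK G K u) : False := by
  have hN := Th1_all h
  have kc : ∀ (u : V) (L : List V), (u :: L).IsChain G.Adj →
      (∀ a, Th1_c a (u :: L) ≤ Th1_c a (p :: q :: (X ++ (Y ++ z :: Z')))) →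
      L.getLast? = (y :: B).getLast? → B.length + 1 < L.length → gK G K z ≤ gK G K u → False := by
    intro u L hc hs hl hlen hg
    cases L with
    | nil => simp at hlen
    | cons v M =>
      have h1 := W1' (h.ef hF) hk (x := u) (y := v) (B := M)
        ⟨Th1_nodup.2 fun a => (hs a).trans (Th1_nodup.1 hN a), hc⟩ fun w hw => by
          have := Th1_mem.2 ((Th1_mem.1 hw).trans_le (hs w))
          rw [h.mem]
          simpa only [List.mem_cons, List.mem_append] using this
      rw [List.getLast?_cons, List.getLast?_cons, Option.some.injEq, ← List.getLastD_eq_getLast?,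
        ← List.getLastD_eq_getLast?] at hl
      rw [hl] at h1
      simp only [List.length_cons] at hlen
      omega
  have mZ' : ∀ u ∈ z :: Z', gK G K z ≤ gK G K u := fun u hu => by
    rcases List.mem_cons.1 hu with rfl | hu
    exacts [le_rfl, mZ u hu]
  have cz : (p :: z :: (Z' ++ [q])).IsChain G.Adj := h.pz.2
  have apz : G.Adj p z := (List.isChain_cons_cons.1 cz).1
  have cQ : (p :: z :: y :: B).IsChain G.Adj := List.isChain_cons_cons.2 ⟨apz, hP.2⟩
  have kr : ∀ D T : List V, D ≠ [] → (∀ u ∈ D, u ∈ z :: Z') → (D.reverse ++ T).IsChain G.Adj →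
      (∀ a, Th1_c a (D.reverse ++ T) ≤ Th1_c a (p :: q :: (X ++ (Y ++ z :: Z')))) → T ≠ [] →
      T.getLast? = (y :: B).getLast? → B.length + 2 < D.length + T.length → False := by
    intro D T hD hm hc hs hT hl hlen
    obtain ⟨D, u, rfl⟩ := (List.eq_nil_or_concat' D).resolve_left hD
    rw [List.reverse_concat', List.cons_append] at hc hs
    refine kc u _ hc hs ?_ ?_ (mZ' u (hm u (by simp)))
    · rw [← hl, List.getLast?_append_of_ne_nil _ hT]
    · simp only [List.length_append, List.length_reverse, List.length_cons,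
        List.length_nil] at hlen ⊢
      omega
  have tri : ∀ w, G.Adj p w → G.Adj w q → (∀ a, Th1_i a w ≤ Th1_c a X + Th1_c a Y) →
      y :: B <+: Z' ++ [q] → False := by
    intro w a1 a2 hw hq
    rcases Th1_last hq with e | ⟨R, e⟩
    · refine kr (z :: Z') [p, w, q] (by simp) (fun _ hu => hu) ?_ (fun a => ?_) (by simp) ?_ ?_
      · refine List.isChain_split.2 ⟨?_, by simp [a1, a2]⟩
        have : P G (p :: z :: Z') := P.left (A := p :: z :: Z') h.pz
        exact this.rev_cons.2
      · have := hw a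
        simp only [Th1_app, Th1_cons, Th1_rev, Th1_nil]
        omega
      · rw [e]
        simp
      · have := congrArg List.length e
        simp only [List.length_append, List.length_cons, List.length_nil] at this ⊢
        omega
    cases R with
    | nil =>
      obtain ⟨D, l, e'⟩ := (List.eq_nil_or_concat' (y :: B)).resolve_left (by simp)
      rw [List.append_nil, e'] at e
      subst e
      have hp : P G ((p :: z :: D) ++ l :: q :: []) := by simpa using h.pz
      refine kr (z :: D) [p, w, q, l] (by simp) (fun u hu => ?_) ?_ (fun a => ?_) (by simp) ?_ ?_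
      · rw [← List.cons_append]
        exact List.mem_append_left _ hu
      · exact List.isChain_split.2 ⟨hp.left.rev_cons.2, by simp [a1, a2, hp.mid.symm]⟩
      · have := hw a
        simp only [Th1_app, Th1_cons, Th1_rev, Th1_nil]
        omega
      · rw [e']
        simp
      · have := congrArg List.length e'
        simp only [List.length_append, List.length_cons, List.length_nil] at this ⊢
        omega
    | cons u R =>
      subst e
      have hp : P G ((p :: z :: y :: B) ++ ((u :: R) ++ [q])) := by simpa using h.pz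
      refine kc u (R ++ q :: w :: p :: z :: y :: B) ?_ (fun a => ?_) ?_ ?_ (mZ u (by simp))
      · exact (List.isChain_split (l₁ := u :: R)).2 ⟨hp.right.2,
          List.isChain_cons_cons.2 ⟨a2.symm, List.isChain_cons_cons.2 ⟨a1.symm, cQ⟩⟩⟩
      · have := hw a
        simp only [Th1_app, Th1_cons]
        omega
      · rw [List.getLast?_append_of_ne_nil _ (by simp)]
        simp only [List.getLast?_cons_cons]
      · simp only [List.length_append, List.length_cons]
        omega
  have ext : ∀ u, G.Adj p u → (∀ a, Th1_i a u + Th1_c a (y :: B) ≤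
      Th1_i a q + Th1_c a X + Th1_c a Y + Th1_c a Z') → gK G K z ≤ gK G K u → False := by
    intro u a1 hu hg
    refine kc u (p :: z :: y :: B) (List.isChain_cons_cons.2 ⟨a1.symm, cQ⟩) (fun a => ?_)
      (by simp only [List.getLast?_cons_cons]) (by simp only [List.length_cons]; omega) hg
    have := hu a
    simp only [Th1_app, Th1_cons] at this ⊢
    omega
  cases Y with
  | cons y₁ Y =>
    by_cases hY : (y₁ :: Y).length = 1 ∧ G.Adj p q
    · obtain rfl : Y = [] := by simpa using hY.1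
      have hq := Th1_nodup.1 hN q
      have h1 : ∀ x : V, 0 < Th1_i x x := fun x => Th1_mem.1 (List.mem_singleton_self x)
      have h2 := h1 q
      simp only [Th1_app, Th1_cons] at hq
      obtain rfl : X = [] := by
        rcases h.nbp hF q ((h.mem q).2 (by simp)) hY.2 with e | e | e
        · cases X with
          | nil => rfl
          | cons x X =>
            obtain rfl : q = x := e
            simp only [Th1_cons] at hq
            omega
        · obtain rfl : q = y₁ := e
          omega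
        · obtain rfl : q = z := e
          omega
      exact tri y₁ h.py.adj h.py.tail.adj (fun a => by simp [Th1_cons]; omega) hQ
    · obtain ⟨R, e⟩ := hQ
      refine ext y₁ h.py.adj (fun a => ?_) (mY hY y₁ List.mem_cons_self)
      have := congrArg (Th1_c a) e
      simp only [Th1_app, Th1_cons, Th1_rev] at this ⊢
      omega
  | nil =>
    have apq : G.Adj p q := h.py.adj
    cases X with
    | nil => simpa using h.ne.1
    | cons x₁ X =>
      have e0 : Z' ++ q :: (x₁ :: X).reverse = (Z' ++ q :: X.reverse) ++ [x₁] := by simp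
      rw [e0] at hQ
      have ap1 : G.Adj p x₁ := h.px.adj
      cases X with
      | nil =>
        rcases Th1_last hQ with e | e
        · refine kc z (Z' ++ [q, p, x₁]) ?_ (fun a => ?_) ?_ ?_ le_rfl
          · exact (List.isChain_split (l₁ := z :: Z')).2 ⟨h.pz.tail.2, by simp [apq.symm, ap1]⟩
          · simp only [Th1_app, Th1_cons, Th1_nil]
            omega
          · rw [e]
            simp
          · have := congrArg List.length e
            simp only [List.length_append, List.length_cons, List.length_nil,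
              List.length_reverse] at this ⊢
            omega
        · exact tri x₁ ap1 h.px.tail.adj (fun a => by simp [Th1_cons]; omega) e
      | cons x₂ X =>
        have hX := mX (by simp)
        rcases Th1_last hQ with e | ⟨R, e⟩
        · refine kc x₂ (X ++ q :: ((z :: Z').reverse ++ [p, x₁])) ?_ (fun a => ?_) ?_ ?_
            (hX x₂ (by simp))
          · refine (List.isChain_split (l₁ := x₂ :: X)).2 ⟨h.px.tail.tail.2, ?_⟩
            refine (List.isChain_split (l₁ := q :: (z :: Z').reverse)).2 ⟨?_, by simp [ap1]⟩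
            exact h.swap.pz.2
          · simp only [Th1_app, Th1_cons, Th1_nil, Th1_rev]
            omega
          · rw [e, List.getLast?_append_of_ne_nil _ (by simp), ← List.cons_append,
              List.getLast?_append_of_ne_nil _ (by simp), List.getLast?_concat]
            rfl
          · have := congrArg List.length e
            simp only [List.length_append, List.length_cons, List.length_nil,
              List.length_reverse] at this ⊢
            omega
        · refine ext x₁ ap1 (fun a => ?_) (hX x₁ List.mem_cons_self)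
          have := congrArg (Th1_c a) e
          simp only [Th1_app, Th1_cons, Th1_rev] at this ⊢
          omega

theorem Th.key {z y : V} {Z' : List V} (h : Th G K p q X Y (z :: Z')) (hF : Few G 2) (hk : PF k G)
    (hy : y = Z'.headD q) (hZ : ¬ (Z' = [] ∧ G.Adj p q)) (hT : TT k G K z p y)
    (mZ : ∀ u ∈ Z', gK G K z ≤ gK G K u)
    (mX : ¬ (X.length = 1 ∧ G.Adj p q) → ∀ u ∈ X, gK G K z ≤ gK G K u)
    (mY : ¬ (Y.length = 1 ∧ G.Adj p q) → ∀ u ∈ Y, gK G K z ≤ gK G K u) : False := by
  have _ := hZ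
  obtain ⟨B, hP, hK, hp, hB⟩ := hT
  have hm : y ∈ Z' ++ [q] := by
    cases Z' with
    | nil => simp [hy]
    | cons t T => simp [hy]
  have h1 : p ∉ y :: B := fun e => by
    rcases List.mem_cons.1 e with e | e
    · exact h.pz.notMem (List.mem_cons_of_mem _ (e ▸ hm))
    · exact hp e
  have h2 : ∀ v ∈ y :: B, v ∈ K := fun v hv => by
    rcases List.mem_cons.1 hv with rfl | hv
    · rw [h.mem]
      rcases List.mem_append.1 hm with e | e
      · simp [e]
      · simp [List.mem_singleton.1 e]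
    · exact hK v hv
  rcases Th1_forced h hF hP h1 h2 with e | e
  · exact Th1_main h hF hk hP hB e mZ mX mY
  · exact Th1_main h.p1 hF hk hP hB e mZ mY mX

end PS
end

-- merged part: Pool.Agent.Work.MP_3e1eec_co.Tri0
section
/-! The core of a component all of whose vertices start a path with `k - 2` vertices.
Plan.  `K` is the set of vertices with two different neighbours.  A vertex outside `K` has at most one neighbour, so there is no ear and `gK ≤ 2`.  `lng` is `W0` applied to a longest path.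
`dg2`: a vertex `v ∈ K` has a neighbour in `K` (second vertex of its long path, `k ≥ 9`); if `u` is the only one then `v` has a neighbour `l` outside `K`; a longest path from `u` does not contain `v` (it would end after at most one more vertex, or contain `v` later with predecessor in `K`), so it extends by `v`, `l` to `k` vertices.
`bud`: `Few` for `K.toFinset` (`One`), and all terms `dg - 2` are non negative.
`TK.f0`: if `dg = 2` and the two neighbours are not adjacent, `TL`, `TT.lt`, `gK_pos` give `gK ≥ 2`. -/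

open SimpleGraph

namespace PS
variable {V : Type} {G : SimpleGraph V} [Finite V] {k : ℕ} {K : Set V}

/-- The vertices with two different neighbours. -/
def Tri0_K (G : SimpleGraph V) : Set V := {v | ∃ x y, x ≠ y ∧ G.Adj v x ∧ G.Adj v y}

omit [Finite V] in
theorem Tri0_mid {a b c : V} {l : List V} (h : P G (a :: b :: c :: l)) : b ∈ Tri0_K G :=
  ⟨a, c, fun e => h.notMem (by simp [e]), h.adj.symm, h.tail.adj⟩

omit [Finite V] in
theorem Tri0_uniq {v x y : V} (hv : v ∉ Tri0_K G) (h1 : G.Adj v x) (h2 : G.Adj v y) : x = y := by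
  by_contra hne
  exact hv ⟨x, y, hne, h1, h2⟩

omit [Finite V] in
theorem Tri0_pred {x w : V} {A : List V} (h : P G (x :: A)) (hw : w ∈ A) :
    (∃ A', A = w :: A') ∨ ∃ p ∈ A, G.Adj p w ∧ p ∈ Tri0_K G := by
  induction A generalizing x with
  | nil => cases hw
  | cons b l ih =>
    rcases List.mem_cons.1 hw with rfl | hw
    · exact Or.inl ⟨l, rfl⟩
    · rcases ih h.tail hw with ⟨A', rfl⟩ | ⟨p, hp, h1, h2⟩
      · exact Or.inr ⟨b, List.mem_cons_self, h.tail.adj, Tri0_mid h⟩
      · exact Or.inr ⟨p, List.mem_cons_of_mem _ hp, h1, h2⟩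

omit [Finite V] in
theorem Tri0_ef : EF G (Tri0_K G) := by
  intro x _ y _ L hL ho hP
  cases L with
  | nil => exact hL rfl
  | cons b l =>
    cases l with
    | nil => exact ho b List.mem_cons_self (Tri0_mid (c := y) (l := []) hP)
    | cons c l => exact ho b List.mem_cons_self (Tri0_mid (c := c) (l := l ++ [y]) hP)

theorem Tri0_long (hl : ∀ v u, G.Adj v u → k ≤ lp G ∅ v + 2) {v u : V} (h : G.Adj v u) :
    ∃ A, P G (v :: A) ∧ k ≤ A.length + 3 := by
  obtain ⟨A, h1, -, h3⟩ := lp_ex G (S := ∅) (x := v) (Set.notMem_empty v)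
  have := hl v u h
  exact ⟨A, h1, by omega⟩

theorem Tri0_nb (hk : 9 ≤ k) (hl : ∀ v u, G.Adj v u → k ≤ lp G ∅ v + 2) {v u : V}
    (h : G.Adj v u) : ∃ w ∈ Tri0_K G, G.Adj v w := by
  obtain ⟨A, h1, h2⟩ := Tri0_long hl h
  match A, h1, h2 with
  | [], _, h2 => simp at h2; omega
  | [_], _, h2 => simp at h2; omega
  | b :: c :: l, h1, _ => exact ⟨b, Tri0_mid h1, h1.adj⟩

theorem Tri0_g2 (v : V) : gK G (Tri0_K G) v ≤ 2 := by
  obtain ⟨A, h1, h2, h3⟩ := lp_ex G (S := Tri0_K G \ {v}) (x := v) fun h => h.2 rfl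
  rw [gK, ← h3]
  match A, h1, h2 with
  | [], _, _ => simp
  | [_], _, _ => simp
  | b :: c :: l, h1, h2 => exact absurd ⟨Tri0_mid h1, h1.adj.ne'⟩ (h2 b (by simp))

theorem Tri0_dg2 (hD : D2 k G) (hk : 9 ≤ k) (hl : ∀ v u, G.Adj v u → k ≤ lp G ∅ v + 2) {v : V}
    (hv : v ∈ Tri0_K G) : 2 ≤ dg G (Tri0_K G) v := by
  obtain ⟨x, y, hxy, hx, hy⟩ := hv
  obtain ⟨u, hu, hvu⟩ := Tri0_nb hk hl hx
  by_contra hlt
  have ho : ∀ w ∈ Tri0_K G, G.Adj v w → w = u := by
    intro w hw hvw
    by_contra hne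
    exact hlt (two_le_dg hw hu hvw hvu hne)
  obtain ⟨l, hlu, hvl⟩ : ∃ l, l ≠ u ∧ G.Adj v l := by
    by_cases e : x = u
    · exact ⟨y, fun e' => hxy (e.trans e'.symm), hy⟩
    · exact ⟨x, e, hx⟩
  have hlK : l ∉ Tri0_K G := fun h => hlu (ho l h hvl)
  obtain ⟨A, h1, h2⟩ := Tri0_long hl hvu.symm
  have hvA : v ∉ A := by
    intro hm
    rcases Tri0_pred h1 hm with ⟨A', rfl⟩ | ⟨p, hp, h3, h4⟩
    · match A', h1, h2 with
      | [], _, h2 => simp at h2; omega
      | [_], _, h2 => simp at h2; omega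
      | c :: d :: r, h1, _ =>
        have e := ho c (Tri0_mid h1.tail) h1.tail.adj
        exact h1.notMem (by simp [e])
    · exact h1.notMem (ho p h4 h3.symm ▸ hp)
  have hlA : l ∉ A := by
    intro hm
    rcases Tri0_pred h1 hm with ⟨A', rfl⟩ | ⟨p, hp, h3, -⟩
    · exact hvu.ne (Tri0_uniq hlK hvl.symm h1.adj.symm)
    · exact hvA (Tri0_uniq hlK h3.symm hvl.symm ▸ hp)
  have h3 : P G (v :: u :: A) := h1.cons hvu (by
    simp only [List.mem_cons, not_or]
    exact ⟨hvu.ne, hvA⟩)
  have h4 : P G (l :: v :: u :: A) := h3.cons hvl.symm (by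
    simp only [List.mem_cons, not_or]
    exact ⟨hvl.ne', hlu, hlA⟩)
  have := hD.1 _ h4
  simp only [List.length_cons] at this
  omega

theorem exists_TK (hD : D2 k G) (hk : 9 ≤ k) (ho : One G) (hF : Few G 4)
    (hl : ∀ v u, G.Adj v u → k ≤ lp G ∅ v + 2) (he : ∃ u v, G.Adj u v) : ∃ K, TK k G K := by
  obtain ⟨u, v, huv⟩ := he
  obtain ⟨w, hw, -⟩ := Tri0_nb hk hl huv
  refine ⟨Tri0_K G, hk, hD, Tri0_ef, ⟨w, hw⟩, fun v _ => Tri0_g2 v,
    fun v hv => Tri0_dg2 hD hk hl hv, fun T hT => ?_, fun v hv => ?_⟩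
  · have hfin : (Tri0_K G).Finite := Set.toFinite _
    have h1 := hF hfin.toFinset ⟨w, hfin.mem_toFinset.2 hw⟩ fun a ha b hb => by
      obtain ⟨x, -, -, hx, -⟩ := hfin.mem_toFinset.1 ha
      obtain ⟨y, -, -, hy, -⟩ := hfin.mem_toFinset.1 hb
      exact ho a x b y hx hy
    rw [ex, hfin.coe_toFinset] at h1
    have h2 : ∑ v ∈ T, ((dg G (Tri0_K G) v : ℤ) - 2) ≤
        ∑ v ∈ hfin.toFinset, ((dg G (Tri0_K G) v : ℤ) - 2) :=
      Finset.sum_le_sum_of_subset_of_nonneg (fun a ha => hfin.mem_toFinset.2 (hT a ha))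
        fun a ha _ => by
          have := Tri0_dg2 hD hk hl (hfin.mem_toFinset.1 ha)
          omega
    rw [Finset.sum_sub_distrib, Finset.sum_const, nsmul_eq_mul] at h2
    have h3 : ((∑ v ∈ T, dg G (Tri0_K G) v : ℕ) : ℤ) ≤ ((2 * T.card + 4 : ℕ) : ℤ) := by
      push_cast
      linarith
    exact_mod_cast h3
  · have hv' := hv
    obtain ⟨x, -, -, hx, -⟩ := hv'
    obtain ⟨A, h1, h2⟩ := Tri0_long hl hx
    obtain ⟨A', ⟨t, rfl⟩, h4, h5⟩ := W0 Tri0_ef hv h1
    exact ⟨A', P.left (A := v :: A') (B := t) h1, h4, by omega⟩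

/-- A vertex of weight one with two neighbours in `K` has a third one, or they are adjacent. -/
theorem TK.f0 (h : TK k G K) {s x y : V} (hs : s ∈ K) (hx : x ∈ K) (hy : y ∈ K) (h1 : G.Adj s x)
    (h2 : G.Adj s y) (hne : x ≠ y) (hg : gK G K s ≤ 1) : 3 ≤ dg G K s ∨ G.Adj x y := by
  by_contra hc
  rw [not_or] at hc
  obtain ⟨h3, hn⟩ := hc
  have ho : ∀ u ∈ K, G.Adj s u → u = x ∨ u = y := by
    intro u hu hsu
    by_contra hc
    rw [not_or] at hc
    exact h3 (three_le_dg hu hx hy hsu h1 h2 hc.1 hc.2 hne)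
  rcases TL h.ef h.d2 hs hx hy h1 h2 hne hn ho with h4 | h4
  · have := TT.lt h.ef h.d2.1 hs hx hy h1 hne h4
    have := gK_pos G K x
    omega
  · have := TT.lt h.ef h.d2.1 hs hy hx h2 hne.symm h4
    have := gK_pos G K y
    omega

end PS
end

-- merged part: Pool.Agent.Work.MP_3e1eec_co.TriA
section
/-! First case: every vertex of the core with two neighbours in the core lies in a triangle.
Plan.  Call `v ∈ K` thin if `dg G K v = 2`, thick otherwise; by `bud` there are at most four thick vertices.  The neighbours `x`, `y` of a thin `z` are thick: if `x` is thin, the long path from `y` (`lng`, at least six vertices) cannot enter `z`, `x`, and `x :: z :: y :: A` contradicts `W1'`.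
`K` has at least six vertices, so there is a thin `z` with neighbour `x`, and a third neighbour `x₃` of `x` is not adjacent to `z`; `W2` for `z`, `x₃` gives `k ≤ K.ncard + 2`, so at least seven vertices and three thin ones.
Four thick vertices: all have `dg = 3` (`bud`); two of the three pairs meet in a vertex `x`, whose neighbours in `K` are `z`, `z'`, `y` with the same `y`; the neighbours of `y` are `x`, `z`, `z'`; so paths in `K` from `x` stay in four vertices, against `lng`.
Three thick vertices `x`, `y`, `t` (degree sum at most ten), four thin ones: two have the same pair `x`, `y`; a third one on `x`, `t` gives `5 + 3 + 3`, on `y`, `t` the same, and all four on `x`, `y` give `5 + 5 + 3`.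
Two thick vertices: five thin ones, `6 + 6 > 8`. -/

open SimpleGraph

namespace PS
variable {V : Type} {G : SimpleGraph V} [Finite V] {k : ℕ} {K : Set V}

omit [Finite V] in
theorem TriA_len {l : List V} (hl : l.Nodup) {S : Finset V} (h : ∀ v ∈ l, v ∈ S) :
    l.length ≤ S.card := by
  classical
  rw [← List.toFinset_card_of_nodup hl]
  exact Finset.card_le_card fun v hv => h v (List.mem_toFinset.1 hv)

omit [Finite V] in
/-- A path in `T` does not cross the border of a set which is closed in `T`. -/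
theorem TriA_stay {S T : Set V} (hS : ∀ s ∈ S, ∀ u ∈ T, G.Adj s u → u ∈ S) {a : V} {A : List V}
    (hP : P G (a :: A)) (hT : ∀ v ∈ a :: A, v ∈ T) : ∀ v ∈ a :: A, (v ∈ S ↔ a ∈ S) := by
  induction A generalizing a with
  | nil => intro v hv; rw [List.mem_singleton.1 hv]
  | cons b A ih =>
    intro v hv
    rcases List.mem_cons.1 hv with rfl | hv
    · rfl
    · exact (ih hP.tail (fun u hu => hT u (List.mem_cons_of_mem _ hu)) v hv).trans
        ⟨fun hb => hS b hb a (hT a List.mem_cons_self) hP.adj.symm,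
          fun ha => hS a ha b (hT b (List.mem_cons_of_mem _ List.mem_cons_self)) hP.adj⟩

theorem TriA_third {x z y : V} (h3 : 3 ≤ dg G K x) : ∃ u ∈ K, G.Adj x u ∧ u ≠ z ∧ u ≠ y := by
  by_contra H
  have s : {u | u ∈ K ∧ G.Adj x u} ⊆ {z, y} := fun u hu => by_contra fun hn =>
    H ⟨u, hu.1, hu.2, fun e => hn (Or.inl e), fun e => hn (Or.inr e)⟩
  have h1 := Set.ncard_le_ncard s (Set.toFinite _)
  have h2 := Set.ncard_insert_le z ({y} : Set V)
  rw [Set.ncard_singleton] at h2
  unfold dg at h3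
  omega

omit [Finite V] in
theorem TriA_long (h : TK k G K) {v : V} (hv : v ∈ K) : ∃ A, P G (v :: A) ∧ (∀ u ∈ A, u ∈ K) ∧
    k ≤ A.length + gK G K (A.getLastD v) + 2 ∧ 5 ≤ A.length := by
  obtain ⟨A, h1, h2, h3⟩ := h.lng v hv
  have m : A.getLastD v ∈ K := by
    rcases List.mem_cons.1 (List.getLastD_mem_cons (a := v) (l := A)) with e | e
    · rw [e]; exact hv
    · exact h2 _ e
  have := h.g2 _ m
  have := h.k9
  exact ⟨A, h1, h2, h3, by omega⟩

theorem TriA_nb (h : TK k G K) (ha : ∀ z ∈ K, ∀ x ∈ K, ∀ y ∈ K, G.Adj z x → G.Adj z y → x ≠ y →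
    (∀ u ∈ K, G.Adj z u → u = x ∨ u = y) → G.Adj x y) {z x : V} (hz : z ∈ K)
    (h2 : ¬ 3 ≤ dg G K z) (hx : x ∈ K) (a : G.Adj z x) :
    ∃ y ∈ K, G.Adj z y ∧ G.Adj x y ∧ ∀ u ∈ K, G.Adj z u → u = x ∨ u = y := by
  have := h.dg2 z hz
  obtain ⟨p, q, hp, hq, n, ap, aq, o⟩ := dg_two (G := G) (K := K) (v := z) (by omega)
  have b := ha z hz p hp q hq ap aq n o
  rcases o x hx a with rfl | rfl
  · exact ⟨q, hq, aq, b, o⟩
  · exact ⟨p, hp, ap, b.symm, fun u hu au => (o u hu au).symm⟩

theorem TriA_thick (h : TK k G K) (ha : ∀ z ∈ K, ∀ x ∈ K, ∀ y ∈ K, G.Adj z x → G.Adj z y → x ≠ y →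
    (∀ u ∈ K, G.Adj z u → u = x ∨ u = y) → G.Adj x y) {z x : V} (hz : z ∈ K)
    (h2 : ¬ 3 ≤ dg G K z) (hx : x ∈ K) (a : G.Adj z x) : 3 ≤ dg G K x := by
  classical
  by_contra h3
  obtain ⟨y, hy, zy, xy, o⟩ := TriA_nb h ha hz h2 hx a
  obtain ⟨A, h1, hK, hk, h5⟩ := TriA_long h hy
  obtain ⟨b, A, rfl⟩ := List.exists_cons_of_length_pos (l := A) (by omega)
  have st := TriA_stay (S := {x, z}) (T := K \ {y}) (fun s hs u hu au => ?_) h1.tail
    fun v hv => ⟨hK v hv, fun e => h1.notMem (by rw [← Set.mem_singleton_iff.1 e]; exact hv)⟩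
  · by_cases hb : b ∈ ({x, z} : Set V)
    · have e := TriA_len h1.tail.1 (S := {x, z}) fun v hv => by simpa using (st v hv).2 hb
      have := Finset.card_le_two (a := x) (b := z)
      omega
    · have nx : x ∉ b :: A := fun m => hb ((st x m).1 (Or.inl rfl))
      have nz : z ∉ b :: A := fun m => hb ((st z m).1 (Or.inr rfl))
      have p1 : P G (z :: y :: b :: A) :=
        h1.cons zy fun m => (List.mem_cons.1 m).elim zy.ne nz
      have p2 : P G (x :: z :: y :: b :: A) := p1.cons a.symm fun m =>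
        (List.mem_cons.1 m).elim a.ne' fun m => (List.mem_cons.1 m).elim xy.ne nx
      have e := W1' h.ef h.d2.1 p2 fun v hv => by
        rcases List.mem_cons.1 hv with rfl | hv
        · exact hx
        rcases List.mem_cons.1 hv with rfl | hv
        · exact hz
        rcases List.mem_cons.1 hv with rfl | hv
        · exact hy
        · exact hK v hv
      rw [List.getLastD_cons, List.length_cons] at e
      have := gK_pos G K x
      omega
  · rcases hs with rfl | rfl
    · by_contra n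
      exact h3 (three_le_dg hz hy hu.1 a.symm xy au zy.ne (fun e => n (Or.inr e.symm))
        fun e => hu.2 e.symm)
    · exact Or.inl ((o u hu.1 au).resolve_right hu.2)

/-- Two thin vertices with a common neighbour, if all degrees are at most three. -/
theorem TriA_two (h : TK k G K) (ha : ∀ z ∈ K, ∀ x ∈ K, ∀ y ∈ K, G.Adj z x → G.Adj z y → x ≠ y →
    (∀ u ∈ K, G.Adj z u → u = x ∨ u = y) → G.Adj x y) (h3 : ∀ v ∈ K, ¬ 4 ≤ dg G K v) {z z' x : V}
    (hz : z ∈ K) (hz' : z' ∈ K) (t : ¬ 3 ≤ dg G K z) (t' : ¬ 3 ≤ dg G K z') (n : z ≠ z')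
    (hx : x ∈ K) (a : G.Adj z x) (a' : G.Adj z' x) : False := by
  classical
  obtain ⟨y, hy, zy, xy, o⟩ := TriA_nb h ha hz t hx a
  obtain ⟨y', hy', zy', xy', o'⟩ := TriA_nb h ha hz' t' hx a'
  have ty := TriA_thick h ha hz t hy zy
  have ty' := TriA_thick h ha hz' t' hy' zy'
  have tx := TriA_thick h ha hz t hx a
  have n1 : z' ≠ y := fun e => t' (e ▸ ty)
  have n2 : z ≠ y' := fun e => t (e ▸ ty')
  have e : y = y' := by_contra fun n3 =>
    h3 x hx (four_le_dg hz hz' hy hy' a.symm a'.symm xy xy' n zy.ne n1 n2 zy'.ne n3)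
  subst e
  obtain ⟨A, h1, hK, -, h5⟩ := TriA_long h hx
  have st := TriA_stay (S := {x, y, z, z'}) (T := K) (fun s hs u hu au => ?_) h1
    fun v hv => (List.mem_cons.1 hv).elim (fun e => e ▸ hx) (hK v)
  · have e := TriA_len h1.1 (S := {x, y, z, z'}) fun v hv => by
      simpa using (st v hv).2 (Or.inl rfl)
    have := Finset.card_le_four (a := x) (b := y) (c := z) (d := z')
    rw [List.length_cons] at e
    omega
  · by_contra m
    simp only [Set.mem_insert_iff, Set.mem_singleton_iff, not_or] at m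
    rcases hs with rfl | rfl | rfl | rfl
    · exact h3 _ hx (four_le_dg hz hz' hy hu a.symm a'.symm xy au n zy.ne n1 (Ne.symm m.2.2.1)
        (Ne.symm m.2.2.2) (Ne.symm m.2.1))
    · exact h3 _ hy (four_le_dg hz hz' hx hu zy.symm zy'.symm xy.symm au n a.ne a'.ne
        (Ne.symm m.2.2.1) (Ne.symm m.2.2.2) (Ne.symm m.1))
    · exact (o u hu au).elim m.1 m.2.1
    · exact (o' u hu au).elim m.1 m.2.1

theorem TK.caseA (h : TK k G K) (ha : ∀ z ∈ K, ∀ x ∈ K, ∀ y ∈ K, G.Adj z x → G.Adj z y → x ≠ y →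
    (∀ u ∈ K, G.Adj z u → u = x ∨ u = y) → G.Adj x y) : False := by
  classical
  obtain ⟨F, hF⟩ : ∃ F : Finset V, ∀ v, v ∈ F ↔ v ∈ K :=
    ⟨K.toFinite.toFinset, fun _ => Set.Finite.mem_toFinset _⟩
  obtain ⟨H, hH⟩ : ∃ H, H = F.filter fun v => 3 ≤ dg G K v := ⟨_, rfl⟩
  obtain ⟨L, hL⟩ : ∃ L, L = F.filter fun v => ¬ 3 ≤ dg G K v := ⟨_, rfl⟩
  have mH : ∀ v, v ∈ H ↔ v ∈ K ∧ 3 ≤ dg G K v := fun v => by rw [hH, Finset.mem_filter, hF]
  have mL : ∀ v, v ∈ L ↔ v ∈ K ∧ ¬ 3 ≤ dg G K v := fun v => by rw [hL, Finset.mem_filter, hF]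
  have c0 : H.card + L.card = F.card := by
    rw [hH, hL]
    exact Finset.card_filter_add_card_filter_not _
  have b := h.bud H fun v hv => ((mH v).1 hv).1
  have c1 := Finset.card_nsmul_le_sum H (fun v => dg G K v) 3 fun v hv => ((mH v).1 hv).2
  rw [smul_eq_mul] at c1
  have k9 := h.k9
  have c6 : 6 ≤ F.card := by
    obtain ⟨v, hv⟩ := h.ne
    obtain ⟨A, h1, hK, -, h5⟩ := TriA_long h hv
    have e := TriA_len h1.1 (S := F) fun u hu =>
      (hF u).2 ((List.mem_cons.1 hu).elim (fun e => e ▸ hv) (hK u))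
    rw [List.length_cons] at e
    omega
  have two : ∀ z ∈ L, 2 ≤ (H.bipartiteBelow G.Adj z).card := by
    intro z hz
    obtain ⟨z1, z2⟩ := (mL z).1 hz
    have := h.dg2 z z1
    obtain ⟨p, q, hp, hq, n, ap, aq, -⟩ := dg_two (G := G) (K := K) (v := z) (by omega)
    exact Finset.one_lt_card.2
      ⟨p, Finset.mem_filter.2 ⟨(mH p).2 ⟨hp, TriA_thick h ha z1 z2 hp ap⟩, ap.symm⟩,
        q, Finset.mem_filter.2 ⟨(mH q).2 ⟨hq, TriA_thick h ha z1 z2 hq aq⟩, aq.symm⟩, n⟩
  have c7 : 7 ≤ F.card := by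
    obtain ⟨z, hz⟩ := Finset.card_pos.1 (show 0 < L.card by omega)
    obtain ⟨z1, z2⟩ := (mL z).1 hz
    obtain ⟨x, hx⟩ := Finset.card_pos.1 (lt_of_lt_of_le two_pos (two z hz))
    obtain ⟨x1, a⟩ := Finset.mem_filter.1 hx
    obtain ⟨x2, x3⟩ := (mH x).1 x1
    obtain ⟨y, -, -, -, o⟩ := TriA_nb h ha z1 z2 x2 a.symm
    obtain ⟨u, u1, u2, u3, u4⟩ := TriA_third (z := z) (y := y) x3
    obtain ⟨A, B, p1, p2, d, kA, kB, e⟩ := W2 h.ef z1 u1
      (h.d2.2 x z u a u2 u3.symm fun r => (o u u1 r).elim u2.ne' u4)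
    have kA' : ∀ v ∈ z :: A, v ∈ K := fun v hv => (List.mem_cons.1 hv).elim (fun e => e ▸ z1) (kA v)
    have kB' : ∀ v ∈ u :: B, v ∈ K := fun v hv => (List.mem_cons.1 hv).elim (fun e => e ▸ u1) (kB v)
    have e1 := TriA_len (p1.1.append p2.1 d) (S := F) fun v hv =>
      (hF v).2 ((List.mem_append.1 hv).elim (kA' v) (kB' v))
    have e2 := h.g2 _ (kA' _ List.getLastD_mem_cons)
    have e3 := h.g2 _ (kB' _ List.getLastD_mem_cons)
    rw [List.length_append, List.length_cons, List.length_cons] at e1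
    omega
  have c2 := Finset.card_nsmul_le_sum L _ 2 two
  rw [smul_eq_mul, ← Finset.sum_card_bipartiteAbove_eq_sum_card_bipartiteBelow] at c2
  by_cases c4 : H.card ≤ 3
  · have c3 : ∑ x ∈ H, ((L.bipartiteAbove G.Adj x).card + 1) ≤ ∑ x ∈ H, dg G K x := by
      refine Finset.sum_le_sum fun x hx => ?_
      obtain ⟨x1, x2⟩ := (mH x).1 hx
      rcases (L.bipartiteAbove G.Adj x).eq_empty_or_nonempty with e | ⟨z, hz⟩
      · rw [e, Finset.card_empty]
        omega
      · obtain ⟨z0, a⟩ := Finset.mem_filter.1 hz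
        obtain ⟨z1, z2⟩ := (mL z).1 z0
        obtain ⟨y, hy, zy, xy, -⟩ := TriA_nb h ha z1 z2 x1 a.symm
        have ny : y ∉ L.bipartiteAbove G.Adj x := fun m =>
          ((mL y).1 (Finset.mem_filter.1 m).1).2 (TriA_thick h ha z1 z2 hy zy)
        rw [← Finset.card_insert_of_notMem ny]
        refine le_dg _ fun u hu => ?_
        rcases Finset.mem_insert.1 hu with rfl | hu
        · exact ⟨hy, xy⟩
        · exact ⟨((mL u).1 (Finset.mem_filter.1 hu).1).1, (Finset.mem_filter.1 hu).2⟩
    rw [Finset.sum_add_distrib, Finset.sum_const, smul_eq_mul] at c3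
    omega
  · have h3 : ∀ v ∈ K, ¬ 4 ≤ dg G K v := by
      intro v hv h4
      have m : v ∈ H := (mH v).2 ⟨hv, by omega⟩
      have e1 := Finset.add_sum_erase H (fun v => dg G K v) m
      have e2 := Finset.card_nsmul_le_sum (H.erase v) (fun v => dg G K v) 3 fun u hu =>
        ((mH u).1 (Finset.mem_of_mem_erase hu)).2
      rw [smul_eq_mul, Finset.card_erase_of_mem m] at e2
      omega
    have c3 := Finset.sum_le_card_nsmul H (fun x => (L.bipartiteAbove G.Adj x).card) 1 fun x hx =>
      Finset.card_le_one.2 fun z hz z' hz' => by_contra fun n =>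
        TriA_two h ha h3 ((mL z).1 (Finset.mem_filter.1 hz).1).1
          ((mL z').1 (Finset.mem_filter.1 hz').1).1 ((mL z).1 (Finset.mem_filter.1 hz).1).2
          ((mL z').1 (Finset.mem_filter.1 hz').1).2 n ((mH x).1 hx).1
          (Finset.mem_filter.1 hz).2.symm (Finset.mem_filter.1 hz').2.symm
    rw [smul_eq_mul] at c3
    omega

end PS
end

-- merged part: Pool.Agent.Work.MP_3e1eec_co.TriB
section
/-! Second case: `z` has exactly the non adjacent neighbours `x`, `y` in the core and the long path `Q = z :: y :: B` avoids `x`.  Write `g = gK G K`, `δ = dg - 2`; `bud` says that `δ` sums to at most four.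
Plan.  `g x = 1`, `g z = 2` (`TT.lt`).  By `TK.f0`, `x` has three neighbours (if its only other neighbour were adjacent to `z` it would be `y`).  All neighbours of `x` in `K` are on `Q` (else `u :: x :: Q`, `W1'`).  So `Q = z :: L₁ ++ u :: L₂ ++ v :: L₃` with `u`, `v` adjacent to `x`, `L₁ ≠ []` (head `y`), `L₂ ≠ []` (else insert `x`).
Rotations and `W1'` give `g = 1` at `α = last L₁` and `β = last L₂`.  `TK.f0` at `α`: `δ α ≥ 1`, or its predecessor `α' ≠ z` is adjacent to `u` (then `δ α' ≥ 1`, `δ u ≥ 2`); similarly at `β`.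
`L₃ ≠ []`: `δ x, δ u, δ v ≥ 1`, the budget fails.  `L₃ = []`: `Q ++ [x]` gives `g v = 2`, `Q` has at least six vertices, and `g = 1` also at `y` and at `d = head L₂`; `δ y ≥ 1`.  If `y ≠ α` the budget is used by `x`, `u`, `L₁` and fails at `β`.  If `L₁ = [y]` then `d ≠ β`, `δ β ≥ 1`, and the budget fails at `d`. -/

open SimpleGraph

namespace PS
variable {V : Type} {G : SimpleGraph V} [Finite V] {k : ℕ} {K : Set V}

/-- The count of degrees, with the path numbered from `0` to `n - 1` and `x` numbered `n`. -/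
theorem TriB_comb (A : ℕ → ℕ → Prop) (d : ℕ → ℕ) (n p q : ℕ) (sym : ∀ {a b}, A a b → A b a)
    (pa : ∀ t, t + 1 < n → A t (t + 1)) (x0 : A n 0) (xp : A n (p + 2)) (xq : A n (q + 2))
    (hpq : p + 2 ≤ q) (hq : q + 2 < n) (n6 : 6 ≤ n)
    (d3 : ∀ {s a b c}, A s a → A s b → A s c → a ≤ n ∧ b ≤ n ∧ c ≤ n ∧ a ≠ b ∧ a ≠ c ∧ b ≠ c →
      3 ≤ d s)
    (d4 : ∀ {s a b c e}, A s a → A s b → A s c → A s e → a ≤ n ∧ b ≤ n ∧ c ≤ n ∧ e ≤ n ∧ a ≠ b ∧
      a ≠ c ∧ b ≠ c ∧ a ≠ e ∧ b ≠ e ∧ c ≠ e → 4 ≤ d s)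
    (b4 : ∀ a b c, a < n ∧ b < n ∧ c < n ∧ a ≠ b ∧ a ≠ c ∧ b ≠ c → d n + d a + d b + d c ≤ 12)
    (b5 : ∀ a b c e, a < n ∧ b < n ∧ c < n ∧ e < n ∧ a ≠ b ∧ a ≠ c ∧ b ≠ c ∧ a ≠ e ∧ b ≠ e ∧
      c ≠ e → d n + d a + d b + d c + d e ≤ 14)
    (nz : ∀ t, t + 2 < n → ¬ A 0 (t + 2))
    (f0 : ∀ t, t = p ∨ t = q ∨ (q + 3 = n ∧ (t = 0 ∨ t = p + 2)) → 3 ≤ d (t + 1) ∨ A t (t + 2)) :
    False := by
  have dx := d3 x0 xp xq (by omega)
  have u1 : A (p + 2) (p + 1) := sym (pa (p + 1) (by omega))
  have u2 := pa (p + 2) (by omega)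
  have v1 : A (q + 2) (q + 1) := sym (pa (q + 1) (by omega))
  have du := d3 u1 u2 (sym xp) (by omega)
  have ha : 3 ≤ d (p + 1) ∨ (0 < p ∧ 3 ≤ d p ∧ 4 ≤ d (p + 2)) :=
    (f0 p (.inl rfl)).imp_right fun h => by
      rcases p with _ | p
      · exact absurd h (nz 0 (by omega))
      · exact ⟨by omega, d3 (sym (pa p (by omega))) (pa _ (by omega)) h (by omega),
          d4 u1 u2 (sym xp) (sym h) (by omega)⟩
  have hb : 3 ≤ d (q + 1) ∨ (3 ≤ d (q + 2) ∧ (4 ≤ d (p + 2) ∧ q = p + 2 ∨ 3 ≤ d q ∧ q ≠ p + 2)) :=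
    (f0 q (.inr (.inl rfl))).imp_right fun h => by
      refine ⟨d3 v1 (sym h) (sym xq) (by omega), ?_⟩
      by_cases e : q = p + 2
      · subst e
        exact .inl ⟨d4 u1 u2 (sym xp) h (by omega), rfl⟩
      · obtain ⟨r, rfl⟩ : ∃ r, q = r + 1 := ⟨q - 1, by omega⟩
        exact .inr ⟨d3 (sym (pa r (by omega))) (pa _ (by omega)) h (by omega), e⟩
  by_cases e : q + 3 = n
  · have dy := (f0 0 (by omega)).resolve_right (nz 0 (by omega))
    have h1 := b4 1 (p + 2) (q + 1) (by (clear * - e hpq n6; omega))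
    have h2 := b4 1 (p + 2) (q + 2) (by omega)
    rw [zero_add] at dy
    rcases p with _ | p
    · have h3 := b5 1 (0 + 2) q (q + 2) (by omega)
      have h4 := b5 1 (0 + 2) (0 + 2 + 1) (q + 1) (by omega)
      rcases f0 (0 + 2) (by omega) with h | h
      · omega
      · have := d4 u1 u2 (sym xp) h (by omega)
        omega
    · have h3 := b5 1 (p + 1 + 1) (p + 1 + 2) (q + 1) (by omega)
      have h4 := b5 1 (p + 1 + 1) (p + 1 + 2) (q + 2) (by omega)
      omega
  · have dv := d3 v1 (pa (q + 2) (by omega)) (sym xq) (by omega)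
    have h1 := b4 (p + 1) (p + 2) (q + 2) (by omega)
    have h2 := b4 p (p + 2) (q + 2) (by omega)
    have h3 := b5 (p + 1) (p + 2) (q + 1) (q + 2) (by omega)
    rcases hb with hb | ⟨-, hb | hb⟩
    · omega
    · omega
    · have := b5 (p + 1) (p + 2) q (q + 2) (by omega)
      omega

omit [Finite V] in
theorem TriB_last (A N : List V) (s w : V) : (A ++ w :: N).getLastD s = N.getLastD w := by
  induction A generalizing s with
  | nil => exact List.getLastD_cons
  | cons a A ih => rw [List.cons_append, List.getLastD_cons, ih]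

omit [Finite V] in
theorem TriB_dec (l : List V) (z : V) {t : ℕ} (h : t + 1 < l.length) :
    ∃ M N, l = M ++ l.getD t z :: l.getD (t + 1) z :: N := by
  refine ⟨l.take t, l.drop (t + 2), ?_⟩
  rw [List.getD_eq_getElem _ _ h, List.getD_eq_getElem _ _ (Nat.lt_of_succ_lt h),
    ← List.drop_eq_getElem_cons, ← List.drop_eq_getElem_cons, List.take_append_drop]

theorem TriB_W (h : TK k G K) {s w : V} {A N l : List V} (hP : P G (s :: (A ++ w :: N)))
    (hK : ∀ v ∈ l, v ∈ K) (hl : ∀ v ∈ s :: (A ++ w :: N), v ∈ l) :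
    gK G K s + A.length + N.length + gK G K (N.getLastD w) < k := by
  rw [← TriB_last A N s w]
  obtain ⟨y, B, e⟩ := List.exists_cons_of_ne_nil (show A ++ w :: N ≠ [] by simp)
  have e' := congrArg List.length e
  rw [e] at hP hl ⊢
  have := W1' h.ef h.d2.1 hP fun v hv => hK v (hl v hv)
  rw [List.getLastD_cons]
  simp only [List.length_append, List.length_cons] at e'
  omega

section rot

variable {x z s w : V} {M N : List V} (h : TK k G K) (hP : P G (x :: z :: (M ++ s :: w :: N)))
  (hK : ∀ v ∈ x :: z :: (M ++ s :: w :: N), v ∈ K)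
include h hP hK

omit h hK [Finite V] in
theorem TriB_parts : P G (z :: (M ++ [s])) ∧ P G (w :: N) ∧ x ∉ z :: (M ++ [s]) ∧ x ∉ w :: N ∧
    (z :: (M ++ [s])).Disjoint (w :: N) := by
  have e : z :: (M ++ s :: w :: N) = (z :: (M ++ [s])) ++ w :: N := by simp
  have h1 := hP.tail
  have h2 := hP.notMem
  rw [e] at h1 h2
  rw [List.mem_append, not_or] at h2
  exact ⟨h1.left, h1.right, h2.1, h2.2, h1.disj⟩

theorem TriB_rot (ha : G.Adj x w) :
    gK G K s + (M.length + N.length + 2) + gK G K (N.getLastD w) < k := by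
  obtain ⟨h1, h2, h3, h4, h5⟩ := TriB_parts hP
  have h6 := h1.join (h2.cons ha h4) hP.adj.symm (List.disjoint_cons_right.2 ⟨h3, h5⟩)
  have := TriB_W h (s := s) (A := M.reverse ++ [z, x]) (w := w) (N := N) (by simpa using h6) hK
    fun v hv => by simp only [List.mem_cons, List.mem_append, List.mem_reverse] at hv ⊢; (clear * - hv; grind)
  simp only [List.length_append, List.length_reverse, List.length_cons, List.length_nil] at this
  omega

theorem TriB_ins (ha : G.Adj x w) (ha' : G.Adj x s) :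
    gK G K z + (M.length + N.length + 2) + gK G K (N.getLastD w) < k := by
  obtain ⟨h1, h2, h3, h4, h5⟩ := TriB_parts hP
  have h6 := P.append (A := z :: M) h1 (h2.cons ha h4) ha'.symm
    (List.disjoint_cons_right.2 ⟨h3, h5⟩)
  have := TriB_W h (s := z) (A := M ++ [s, x]) (w := w) (N := N) (by simpa using h6) hK
    fun v hv => by simp only [List.mem_cons, List.mem_append] at hv ⊢; (clear * - hv; grind)
  simp only [List.length_append, List.length_cons, List.length_nil] at this
  omega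

theorem TriB_cyc (ha : G.Adj x (N.getLastD w)) (ha' : G.Adj x s) :
    gK G K w + (M.length + N.length + 2) + gK G K z < k := by
  obtain ⟨h1, h2, h3, h4, h5⟩ := TriB_parts hP
  have h6 : P G (x :: s :: (M.reverse ++ [z])) :=
    P.cons (by simpa using h1.reverse) ha' (by simpa [or_comm, or_left_comm] using h3)
  obtain ⟨N', e⟩ : ∃ N', w :: N = N' ++ [N.getLastD w] :=
    ⟨_, by rw [← List.getLast_eq_getLastD (List.cons_ne_nil w N), List.dropLast_append_getLast]⟩
  have h7 := P.append (e ▸ h2) h6 ha.symm (e ▸ List.disjoint_cons_right.2 ⟨h4, fun v h8 h9 =>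
    h5 (by simpa [or_comm, or_left_comm] using h9) h8⟩)
  rw [← List.singleton_append, ← List.append_assoc, ← e] at h7
  have := TriB_W h (s := w) (A := N ++ x :: s :: M.reverse) (w := z) (N := []) (by simpa using h7)
    hK fun v hv => by simp only [List.mem_cons, List.mem_append, List.mem_reverse] at hv ⊢; (clear * - hv; grind)
  simp only [List.length_append, List.length_reverse, List.length_cons, List.length_nil,
    List.getLastD_nil] at this
  omega

end rot

theorem TK.caseB (h : TK k G K) {z x y : V} (hz : z ∈ K) (hx : x ∈ K) (hy : y ∈ K)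
    (h1 : G.Adj z x) (hne : x ≠ y) (hn : ¬ G.Adj x y) (ho : ∀ u ∈ K, G.Adj z u → u = x ∨ u = y)
    (hT : TT k G K z x y) : False := by
  classical
  have g1 := TT.lt h.ef h.d2.1 hz hx hy h1 hne hT
  have g2 := h.g2 z hz
  have g3 := gK_pos G K x
  obtain ⟨B, hP, hB, hxB, hk⟩ := hT
  have hX : P G (x :: z :: y :: B) := hP.cons h1.symm (by simp [h1.ne', hne, hxB])
  have hK : ∀ v ∈ x :: z :: y :: B, v ∈ K := by simpa [hx, hy, hz] using hB
  have g4 := h.g2 (B.getLastD y) (hK _ (.tail _ (.tail _ List.getLastD_mem_cons)))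
  have k9 := h.k9
  obtain ⟨n, en⟩ : ∃ n, n = B.length + 2 := ⟨_, rfl⟩
  have em : n = (z :: y :: B).length := en
  obtain ⟨f, f0, fn, ft⟩ : ∃ f : ℕ → V, f 0 = z ∧ f n = x ∧
      ∀ t, t + 1 < n → f (t + 1) = (y :: B).getD t z :=
    ⟨fun t => if t = n then x else (z :: y :: B).getD t z, if_neg (by omega), if_pos rfl,
      fun t ht => if_neg (by omega)⟩
  have fl : ∀ t (ht : t < (z :: y :: B).length), f t = (z :: y :: B)[t] := fun t ht => by
    rcases t with _ | t
    · exact f0
    · rw [ft t (en ▸ ht), List.getD_eq_getElem _ _ (Nat.lt_of_succ_lt_succ ht)]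
      rfl
  have fm : ∀ t < n, f t ∈ z :: y :: B := fun t ht => fl t (em ▸ ht) ▸ List.getElem_mem _
  have fK : ∀ {t}, t ≤ n → f t ∈ K := fun {t} ht =>
    ht.eq_or_lt.elim (fun e => e ▸ fn ▸ hx) fun e => hK _ (List.mem_cons_of_mem _ (fm t e))
  have fx : ∀ {t}, t < n → f n ≠ f t := fun {t} ht e => hX.notMem (fn ▸ e ▸ fm t ht)
  have fi : ∀ {a b}, a ≤ n → b ≤ n → a ≠ b → f a ≠ f b := fun {a b} ha hb e => by
    rcases ha.eq_or_lt with rfl | ha
    · exact fx (by omega)
    rcases hb.eq_or_lt with rfl | hb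
    · exact (fx ha).symm
    rw [fl a (em ▸ ha), fl b (em ▸ hb)]
    exact fun q => e (hP.1.getElem_inj_iff.1 q)
  have pa : ∀ t, t + 1 < n → G.Adj (f t) (f (t + 1)) := fun t ht => by
    rw [fl t (em ▸ Nat.lt_of_succ_lt ht), fl _ (em ▸ ht)]
    exact List.isChain_iff_getElem.1 hP.2 t (em ▸ ht)
  have f1 : f 1 = y := ft 0 (by omega)
  have nb : ∀ u ∈ K, G.Adj x u → u ≠ z → ∃ t, t + 2 < n ∧ f (t + 2) = u := fun u hu ha hz' => by
    by_cases q : u ∈ z :: y :: B
    · obtain ⟨t, ht, rfl⟩ := List.getElem_of_mem q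
      rw [← fl] at ha hz' ⊢
      rcases t with _ | _ | t
      exacts [absurd f0 hz', absurd (f1 ▸ ha) hn, ⟨t, en ▸ ht, rfl⟩]
    · have := TriB_W h (s := u) (A := [x, z]) (w := y) (N := B) (l := u :: x :: z :: y :: B)
        (hX.cons ha.symm (by rw [List.mem_cons, not_or]; exact ⟨ha.ne', q⟩))
        (List.forall_mem_cons.2 ⟨hu, hK⟩) fun _ hv => hv
      have := gK_pos G K u
      simp only [List.length_cons, List.length_nil] at *
      omega
  have two : ∀ (m : ℕ) (T : Set V), T.ncard ≤ m → m < dg G K x → ∃ u ∈ K, G.Adj x u ∧ u ∉ T :=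
    fun m T h2 h3 => by
      by_contra q
      have : dg G K x ≤ T.ncard := Set.ncard_le_ncard fun u hu => not_not.1 fun r => q ⟨u, hu.1, hu.2, r⟩
      omega
  obtain ⟨u, uK, ux, uz⟩ := two 1 {z} (by simp) (h.dg2 x hx)
  have dx := (h.f0 hx hz uK h1.symm ux (Ne.symm uz) (by omega)).resolve_right fun q =>
    (ho u uK q).elim ux.ne' fun e => hn (e ▸ ux)
  obtain ⟨v, vK, vx, vz⟩ := two 2 {z, u} (Set.ncard_insert_le _ _ |>.trans (by simp)) dx
  obtain ⟨p, hp, rfl⟩ := nb u uK ux uz
  obtain ⟨q, hq, rfl⟩ := nb v vK vx fun e => vz (.inl e)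
  have hpq : p ≠ q := fun e => vz (.inr (e ▸ rfl))
  wlog lt : p < q generalizing p q
  · exact this q hq vK vx (fun e => vz (.inl e)) p hp uK ux
      (fun e => e.elim uz (fi hp.le hq.le (by omega))) hpq.symm (by omega)
  have dec : ∀ t, t + 2 < n → ∃ M N, P G (x :: z :: (M ++ f (t + 1) :: f (t + 2) :: N)) ∧
      (∀ v ∈ x :: z :: (M ++ f (t + 1) :: f (t + 2) :: N), v ∈ K) ∧
      M.length + N.length + 2 = B.length + 1 ∧ N.getLastD (f (t + 2)) = B.getLastD y := fun t ht => by
    obtain ⟨M, N, e⟩ := TriB_dec (y :: B) z (t := t) (by simp; omega)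
    rw [← ft t (by omega), ← ft (t + 1) ht] at e
    refine ⟨M, N, e ▸ hX, e ▸ hK, by simpa [add_assoc] using (congrArg List.length e).symm, ?_⟩
    rw [← List.getLastD_cons (a := z) (l := B), e, TriB_last, List.getLastD_cons]
  have pq : p + 2 ≤ q := by
    by_contra r
    obtain rfl : q = p + 1 := by omega
    obtain ⟨M, N, a1, a2, a3, a4⟩ := dec _ hq
    have := TriB_ins h a1 a2 vx ux
    rw [a3, a4] at this
    omega
  refine TriB_comb (fun a b => G.Adj (f a) (f b)) (fun a => dg G K (f a)) n p q Adj.symm pa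
    (by rw [f0, fn]; exact h1.symm) (fn ▸ ux) (fn ▸ vx) pq hq (by omega)
    (fun a1 a2 a3 ⟨b1, b2, b3, c1, c2, c3⟩ => three_le_dg (fK b1) (fK b2) (fK b3) a1 a2 a3
      (fi b1 b2 c1) (fi b1 b3 c2) (fi b2 b3 c3))
    (fun a1 a2 a3 a4 ⟨b1, b2, b3, b4, c1, c2, c3, c4, c5, c6⟩ => four_le_dg (fK b1) (fK b2) (fK b3)
      (fK b4) a1 a2 a3 a4 (fi b1 b2 c1) (fi b1 b3 c2) (fi b2 b3 c3) (fi b1 b4 c4) (fi b2 b4 c5)
      (fi b3 b4 c6))
    (fun a b c ⟨b1, b2, b3, c1, c2, c3⟩ => ?_)
    (fun a b c e ⟨b1, b2, b3, b4, c1, c2, c3, c4, c5, c6⟩ => ?_) (fun t ht ha => ?_) fun t ht => ?_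
  · have := h.bud {f n, f a, f b, f c} (by simp [fK le_rfl, fK b1.le, fK b2.le, fK b3.le])
    simp [fx b1, fx b2, fx b3, fi b1.le b2.le c1, fi b1.le b3.le c2, fi b2.le b3.le c3] at this
    omega
  · have := h.bud {f n, f a, f b, f c, f e}
      (by simp [fK le_rfl, fK b1.le, fK b2.le, fK b3.le, fK b4.le])
    simp [fx b1, fx b2, fx b3, fx b4, fi b1.le b2.le c1, fi b1.le b3.le c2, fi b2.le b3.le c3,
      fi b1.le b4.le c4, fi b2.le b4.le c5, fi b3.le b4.le c6] at this
    omega
  · rcases ho _ (fK ht.le) (f0 ▸ ha) with e | e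
    exacts [fx ht (fn.trans e.symm), fi ht.le (b := 1) (by omega) (by omega) (e.trans f1.symm)]
  have t2 : t + 2 < n := by omega
  refine h.f0 (fK (by omega)) (fK (by omega)) (fK t2.le) (pa t (by omega)).symm (pa _ t2)
    (fi (by omega) t2.le (by omega)) ?_
  rcases ht with rfl | rfl | ⟨e, ht⟩
  · obtain ⟨M, N, a1, a2, a3, a4⟩ := dec _ t2
    have := TriB_rot h a1 a2 ux
    rw [a3, a4] at this
    omega
  · obtain ⟨M, N, a1, a2, a3, a4⟩ := dec _ t2
    have := TriB_rot h a1 a2 vx
    rw [a3, a4] at this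
    omega
  have el : B.getLastD y = f (q + 2) := by
    rw [fl _ (em ▸ hq), ← List.getLast_eq_getLastD (List.cons_ne_nil y B), List.getLast_eq_getElem]
    simp only [List.length_cons, show q + 2 = B.length + 1 by omega]
    rfl
  rcases ht with rfl | rfl
  · obtain ⟨N', e⟩ : ∃ N', y :: B = N' ++ [B.getLastD y] :=
      ⟨_, by rw [← List.getLast_eq_getLastD (List.cons_ne_nil y B), List.dropLast_append_getLast]⟩
    have a1 := P.append (e ▸ hP.tail) ((P.single z).cons h1.symm (by simp [h1.ne'])) (el ▸ vx.symm)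
      (e ▸ by simpa [hne, hxB] using hP.notMem)
    rw [← List.singleton_append, ← List.append_assoc, ← e] at a1
    have := TriB_W h (s := y) (A := B ++ [x]) (w := z) (N := []) (by simpa using a1) hK
      fun v hv => by simp only [List.mem_cons, List.mem_append] at hv ⊢; (clear * - hv; tauto)
    simp only [List.length_append, List.length_cons, List.length_nil, List.getLastD_nil] at this
    rw [zero_add, f1]
    omega
  · obtain ⟨M, N, a1, a2, a3, a4⟩ := dec (p + 1) (by omega)
    have := TriB_cyc h a1 a2 (a4 ▸ el ▸ vx) ux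
    rw [a3] at this
    change gK G K (f (p + 1 + 2)) ≤ 1
    omega

theorem no_tri (hD : D2 k G) (hk : 9 ≤ k) (ho : One G) (hF : Few G 4)
    (hl : ∀ v u, G.Adj v u → k ≤ lp G ∅ v + 2) (he : ∃ u v, G.Adj u v) : False := by
  obtain ⟨K, h⟩ := exists_TK hD hk ho hF hl he
  refine h.caseA fun z hz x hx y hy h1 h2 hne hu => not_not.1 fun hn => ?_
  rcases TL h.ef hD hz hx hy h1 h2 hne hn hu with hT | hT
  exacts [h.caseB hz hx hy h1 hne hn hu hT, h.caseB hz hy hx h2 hne.symm (fun q => hn q.symm)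
    (fun u a b => (hu u a b).symm) hT]

end PS
end
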